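import Mathlib

/-!
Vizing fans: Vizing's adjacency lemma and Vizing's theorem.
-/

set_option autoImplicit false
set_option linter.unusedSectionVars false

namespace Pool.Agent.H28

open SimpleGraph

variable {V : Type*}

/-- `c` is a proper edge colouring of `H` with colours `< D`. -/
def IsEC (H : SimpleGraph V) (D : ℕ) (c : Sym2 V → ℕ) : Prop :=
  (∀ u v, H.Adj u v → c s(u, v) < D) ∧
  ∀ u v w, H.Adj u v → H.Adj u w → v ≠ w → c s(u, v) ≠ c s(u, w)

/-- `H` is `D`-edge-colourable. -/
def ECol (H : SimpleGraph V) (D : ℕ) : Prop := ∃ c, IsEC H D c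

/-- The colour `α` is missing at `u`. -/
def Miss (H : SimpleGraph V) (D : ℕ) (c : Sym2 V → ℕ) (u : V) (α : ℕ) : Prop :=
  α < D ∧ ∀ v, H.Adj u v → c s(u, v) ≠ α

/-- `G` minus the edge `xy`. -/
def del (G : SimpleGraph V) (x y : V) : SimpleGraph V := G.deleteEdges {s(x, y)}

theorem del_adj {G : SimpleGraph V} {x y u v : V} :
    (del G x y).Adj u v ↔ G.Adj u v ∧ s(u, v) ≠ s(x, y) := by
  unfold del
  rw [SimpleGraph.deleteEdges_adj, Set.mem_singleton_iff]

theorem sym2_right {a b c : V} (h : s(a, b) = s(a, c)) : b = c := Sym2.congr_right.1 h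

theorem shift {G : SimpleGraph V} [DecidableEq V] {D : ℕ} {c : Sym2 V → ℕ} {x y z : V}
    (hxz : G.Adj x z) (hzy : z ≠ y) (hc : IsEC (del G x y) D c)
    (hm : Miss (del G x y) D c y (c s(x, z))) :
    IsEC (del G x z) D (Function.update c s(x, y) (c s(x, z))) ∧
    ∀ u α, u ≠ y → Miss (del G x y) D c u α →
      Miss (del G x z) D (Function.update c s(x, y) (c s(x, z))) u α := by
  have hxz' : (del G x y).Adj x z := del_adj.2 ⟨hxz, fun h => hzy (sym2_right h)⟩
  refine ⟨⟨?_, ?_⟩, ?_⟩
  · intro u v huv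
    by_cases h : s(u, v) = s(x, y)
    · rw [h, Function.update_self]
      exact hc.1 _ _ hxz'
    · rw [Function.update_of_ne h]
      exact hc.1 _ _ (del_adj.2 ⟨(del_adj.1 huv).1, h⟩)
  · have key : ∀ u v w, (del G x z).Adj u v → (del G x z).Adj u w → v ≠ w → s(u, v) = s(x, y) →
        s(u, w) ≠ s(x, y) → c s(x, z) ≠ c s(u, w) := by
      intro u v w huv huw hvw h1 h2
      have huw' : (del G x y).Adj u w := del_adj.2 ⟨(del_adj.1 huw).1, h2⟩
      rw [Sym2.eq_iff] at h1
      rcases h1 with ⟨rfl, rfl⟩ | ⟨rfl, rfl⟩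
      · refine hc.2 u z w hxz' huw' ?_
        rintro rfl
        exact (del_adj.1 huw).2 rfl
      · intro heq
        exact hm.2 w huw' heq.symm
    intro u v w huv huw hvw
    by_cases h1 : s(u, v) = s(x, y)
    · by_cases h2 : s(u, w) = s(x, y)
      · exact absurd (sym2_right (h1.trans h2.symm)) hvw
      · rw [h1, Function.update_self, Function.update_of_ne h2]
        exact key u v w huv huw hvw h1 h2
    · by_cases h2 : s(u, w) = s(x, y)
      · rw [h2, Function.update_self, Function.update_of_ne h1]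
        exact (key u w v huw huv hvw.symm h2 h1).symm
      · rw [Function.update_of_ne h1, Function.update_of_ne h2]
        exact hc.2 u v w (del_adj.2 ⟨(del_adj.1 huv).1, h1⟩) (del_adj.2 ⟨(del_adj.1 huw).1, h2⟩) hvw
  · intro u α huy hmu
    refine ⟨hmu.1, fun v huv => ?_⟩
    by_cases h : s(u, v) = s(x, y)
    · rw [h, Function.update_self]
      have hux : u = x := by
        rw [Sym2.eq_iff] at h
        rcases h with ⟨h, _⟩ | ⟨h, _⟩
        · exact h
        · exact absurd h huy
      subst hux
      exact hmu.2 z hxz'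
    · rw [Function.update_of_ne h]
      exact hmu.2 v (del_adj.2 ⟨(del_adj.1 huv).1, h⟩)

/-- A fan path whose last vertex shares a missing colour with the centre gives a colouring. -/
theorem fan_path (G : SimpleGraph V) (D : ℕ) (x : V) : ∀ (k : ℕ) (y : ℕ → V) (c : Sym2 V → ℕ),
    G.Adj x (y 0) → IsEC (del G x (y 0)) D c →
    (∀ i, i < k → G.Adj x (y (i + 1)) ∧ y (i + 1) ≠ y 0 ∧
      Miss (del G x (y 0)) D c (y i) (c s(x, y (i + 1)))) →
    (∃ α, Miss (del G x (y 0)) D c x α ∧ Miss (del G x (y 0)) D c (y k) α) → ECol G D := by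
  classical
  intro k
  induction k using Nat.strong_induction_on with
  | _ k ih =>
  intro y c hxy hc hpath hα
  rcases Nat.eq_zero_or_pos k with rfl | hkpos
  · -- colour the edge with the common missing colour
    obtain ⟨α, hx, hy⟩ := hα
    refine ⟨Function.update c s(x, y 0) α, ?_, ?_⟩
    · intro u v huv
      by_cases h : s(u, v) = s(x, y 0)
      · rw [h, Function.update_self]; exact hx.1
      · rw [Function.update_of_ne h]; exact hc.1 _ _ (del_adj.2 ⟨huv, h⟩)
    · have key : ∀ u v w, G.Adj u v → G.Adj u w → v ≠ w → s(u, v) = s(x, y 0) →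
          s(u, w) ≠ s(x, y 0) → α ≠ c s(u, w) := by
        intro u v w huv huw hvw h1 h2
        have huw' : (del G x (y 0)).Adj u w := del_adj.2 ⟨huw, h2⟩
        rw [Sym2.eq_iff] at h1
        rcases h1 with ⟨h3, h4⟩ | ⟨h3, h4⟩
        · rw [h3] at huw' ⊢
          exact (hx.2 w huw').symm
        · rw [h3] at huw' ⊢
          exact (hy.2 w huw').symm
      intro u v w huv huw hvw
      by_cases h1 : s(u, v) = s(x, y 0)
      · by_cases h2 : s(u, w) = s(x, y 0)
        · exact absurd (sym2_right (h1.trans h2.symm)) hvw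
        · rw [h1, Function.update_self, Function.update_of_ne h2]
          exact key u v w huv huw hvw h1 h2
      · by_cases h2 : s(u, w) = s(x, y 0)
        · rw [h2, Function.update_self, Function.update_of_ne h1]
          exact (key u w v huw huv hvw.symm h2 h1).symm
        · rw [Function.update_of_ne h1, Function.update_of_ne h2]
          exact hc.2 u v w (del_adj.2 ⟨huv, h1⟩) (del_adj.2 ⟨huw, h2⟩) hvw
  · by_cases hinj : ∃ i j, i < j ∧ j ≤ k ∧ y i = y j
    · -- shorten the path
      obtain ⟨i, j, hij, hjk, hyij⟩ := hinj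
      obtain ⟨y', hy'⟩ : ∃ y' : ℕ → V, ∀ t, y' t = if t ≤ i then y t else y (t + (j - i)) :=
        ⟨_, fun _ => rfl⟩
      have hy1 : ∀ t, t ≤ i → y' t = y t := fun t ht => by rw [hy', if_pos ht]
      have hy2 : ∀ t, ¬ t ≤ i → y' t = y (t + (j - i)) := fun t ht => by rw [hy', if_neg ht]
      have hy0 : y' 0 = y 0 := hy1 0 (Nat.zero_le _)
      refine ih (k - (j - i)) (by omega) y' c ?_ ?_ ?_ ?_
      · rw [hy0]; exact hxy
      · rw [hy0]; exact hc
      · rw [hy0]
        intro t ht
        rcases lt_trichotomy t i with h | h | h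
        · rw [hy1 t (by omega), hy1 (t + 1) (by omega)]
          exact hpath t (by omega)
        · rw [hy1 t (by omega), hy2 (t + 1) (by omega)]
          have e3 : t + 1 + (j - i) = j + 1 := by omega
          rw [e3, h, hyij]
          exact hpath j (by omega)
        · rw [hy2 t (by omega), hy2 (t + 1) (by omega)]
          have e3 : t + 1 + (j - i) = t + (j - i) + 1 := by omega
          rw [e3]
          exact hpath (t + (j - i)) (by omega)
      · rw [hy0]
        have e : y' (k - (j - i)) = y k := by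
          by_cases h : k - (j - i) ≤ i
          · have e1 : k = j := by omega
            have e2 : k - (j - i) = i := by omega
            rw [hy1 _ h, e2, hyij, e1]
          · rw [hy2 _ h]
            congr 1
            omega
        rw [e]
        exact hα
    · -- shift
      push Not at hinj
      obtain ⟨h1, h2, h3⟩ := hpath 0 hkpos
      simp only [zero_add] at h1 h2 h3
      obtain ⟨hs1, hs2⟩ := shift h1 h2 hc h3
      refine ih (k - 1) (by omega) (fun t => y (t + 1)) (Function.update c s(x, y 0) (c s(x, y 1)))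
        ?_ ?_ ?_ ?_
      · simpa using h1
      · simpa using hs1
      · intro t ht
        simp only [zero_add]
        obtain ⟨g1, g2, g3⟩ := hpath (t + 1) (by omega)
        refine ⟨g1, fun h => hinj 1 (t + 1 + 1) (by omega) (by omega) h.symm, ?_⟩
        have e : Function.update c s(x, y 0) (c s(x, y 1)) s(x, y (t + 1 + 1)) =
            c s(x, y (t + 1 + 1)) := by
          rw [Function.update_of_ne]
          exact fun h => g2 (sym2_right h)
        rw [e]
        exact hs2 _ _ (fun h => hinj 0 (t + 1) (by omega) (by omega) h.symm) g3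
      · obtain ⟨α, hx, hy⟩ := hα
        simp only [zero_add]
        have e : k - 1 + 1 = k := by omega
        refine ⟨α, hs2 _ _ hxy.ne hx, ?_⟩
        rw [e]
        exact hs2 _ _ (fun h => hinj 0 k (by omega) le_rfl h.symm) hy

/-- The subgraph of the edges coloured `α` or `β`. -/
def kem (H : SimpleGraph V) (c : Sym2 V → ℕ) (α β : ℕ) : SimpleGraph V where
  Adj u v := H.Adj u v ∧ (c s(u, v) = α ∨ c s(u, v) = β)
  symm := ⟨fun u v h => ⟨h.1.symm, by rw [Sym2.eq_swap]; exact h.2⟩⟩
  loopless := ⟨fun u h => H.loopless.irrefl u h.1⟩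

open Classical in
/-- Swap the colours `α`, `β` on the edges meeting `C`. -/
noncomputable def swp (C : Set V) (α β : ℕ) (c : Sym2 V → ℕ) : Sym2 V → ℕ :=
  fun e => if ∃ v ∈ e, v ∈ C then Equiv.swap α β (c e) else c e

theorem swp_in {C : Set V} {α β : ℕ} {c : Sym2 V → ℕ} {u : V} (hu : u ∈ C) (v : V) :
    swp C α β c s(u, v) = Equiv.swap α β (c s(u, v)) := by
  unfold swp
  rw [if_pos ⟨u, Sym2.mem_mk_left _ _, hu⟩]

theorem swp_out {H : SimpleGraph V} {C : Set V} {α β : ℕ} {c : Sym2 V → ℕ}
    (hC : ∀ u v, (kem H c α β).Adj u v → u ∈ C → v ∈ C) {u : V} (hu : u ∉ C) {v : V}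
    (huv : H.Adj u v) : swp C α β c s(u, v) = c s(u, v) := by
  unfold swp
  split_ifs with h
  · obtain ⟨w, hw, hwC⟩ := h
    rw [Sym2.mem_iff] at hw
    rcases hw with rfl | rfl
    · exact absurd hwC hu
    · have hnot : ¬ (c s(u, w) = α ∨ c s(u, w) = β) := by
        intro h
        apply hu
        refine hC w u ?_ hwC
        exact ((kem H c α β).symm).symm _ _ (show (kem H c α β).Adj u w from ⟨huv, h⟩)
      push Not at hnot
      exact Equiv.swap_apply_of_ne_of_ne hnot.1 hnot.2
  · rfl

theorem swap_lt {α β D n : ℕ} (hα : α < D) (hβ : β < D) (hn : n < D) : Equiv.swap α β n < D := by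
  rw [Equiv.swap_apply_def]
  split_ifs <;> assumption

theorem swp_ec {H : SimpleGraph V} {D : ℕ} {c : Sym2 V → ℕ} (hc : IsEC H D c) {α β : ℕ}
    (hα : α < D) (hβ : β < D) {C : Set V}
    (hC : ∀ u v, (kem H c α β).Adj u v → u ∈ C → v ∈ C) : IsEC H D (swp C α β c) := by
  refine ⟨fun u v huv => ?_, fun u v w huv huw hvw => ?_⟩
  · by_cases hu : u ∈ C
    · rw [swp_in hu]; exact swap_lt hα hβ (hc.1 u v huv)
    · rw [swp_out hC hu huv]; exact hc.1 u v huv
  · by_cases hu : u ∈ C
    · rw [swp_in hu, swp_in hu]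
      exact fun h => hc.2 u v w huv huw hvw ((Equiv.swap α β).injective h)
    · rw [swp_out hC hu huv, swp_out hC hu huw]; exact hc.2 u v w huv huw hvw

theorem swp_miss_in {H : SimpleGraph V} {D : ℕ} {c : Sym2 V → ℕ} {α β : ℕ}
    (hα : α < D) (hβ : β < D) {C : Set V} {u : V} (hu : u ∈ C) {γ : ℕ} (h : Miss H D c u γ) :
    Miss H D (swp C α β c) u (Equiv.swap α β γ) := by
  refine ⟨swap_lt hα hβ h.1, fun v huv heq => ?_⟩
  rw [swp_in hu] at heq
  exact h.2 v huv ((Equiv.swap α β).injective heq)

theorem swp_miss_out {H : SimpleGraph V} {D : ℕ} {c : Sym2 V → ℕ} {α β : ℕ} {C : Set V}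
    (hC : ∀ u v, (kem H c α β).Adj u v → u ∈ C → v ∈ C) {u : V} (hu : u ∉ C) {γ : ℕ}
    (h : Miss H D c u γ) : Miss H D (swp C α β c) u γ := by
  refine ⟨h.1, fun v huv => ?_⟩
  rw [swp_out hC hu huv]
  exact h.2 v huv

/-- A connected graph of maximum degree `≤ 2` has at most two vertices of degree `≤ 1`. -/
theorem three_ends [Finite V] (K : SimpleGraph V) (hK : ∀ v, (K.neighborSet v).ncard ≤ 2)
    {x y z : V} (hxy : x ≠ y) (hxz : x ≠ z) (hyz : y ≠ z)
    (hx : (K.neighborSet x).ncard ≤ 1) (hy : (K.neighborSet y).ncard ≤ 1)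
    (hz : (K.neighborSet z).ncard ≤ 1) (rxy : K.Reachable x y) (rxz : K.Reachable x z) : False := by
  classical
  cases nonempty_fintype V
  let C := K.connectedComponentMk x
  let T := C.toSimpleGraph
  have hconn : T.Connected := C.connected_toSimpleGraph
  have hedge := hconn.card_vert_le_card_edgeSet_add_one
  have hsum := T.sum_degrees_eq_twice_card_edges
  have hdeg : ∀ v : C, T.degree v ≤ (K.neighborSet v.1).ncard := by
    intro v
    rw [← SimpleGraph.card_neighborFinset_eq_degree, ← Set.ncard_coe_finset]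
    apply Set.ncard_le_ncard_of_injOn (fun w => w.1)
    · intro w hw
      simp only [SimpleGraph.coe_neighborFinset, SimpleGraph.mem_neighborSet] at hw ⊢
      exact hw
    · intro a _ b _ hab
      exact Subtype.ext hab
  have mx : x ∈ C.supp := rfl
  have my : y ∈ C.supp := by
    rw [SimpleGraph.ConnectedComponent.mem_supp_iff]
    exact (SimpleGraph.ConnectedComponent.sound rxy).symm
  have mz : z ∈ C.supp := by
    rw [SimpleGraph.ConnectedComponent.mem_supp_iff]
    exact (SimpleGraph.ConnectedComponent.sound rxz).symm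
  let X : C := ⟨x, mx⟩
  let Y : C := ⟨y, my⟩
  let Z : C := ⟨z, mz⟩
  have hXY : X ≠ Y := fun h => hxy (congrArg Subtype.val h)
  have hXZ : X ≠ Z := fun h => hxz (congrArg Subtype.val h)
  have hYZ : Y ≠ Z := fun h => hyz (congrArg Subtype.val h)
  have hle : ∑ v : C, (T.degree v + if v ∈ ({X, Y, Z} : Finset C) then 1 else 0) ≤ ∑ _v : C, 2 := by
    refine Finset.sum_le_sum (fun v _ => ?_)
    have h1 := hdeg v
    have h2 := hK v.1
    split_ifs with h
    · simp only [Finset.mem_insert, Finset.mem_singleton] at h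
      rcases h with rfl | rfl | rfl
      · have := (hdeg X).trans hx; omega
      · have := (hdeg Y).trans hy; omega
      · have := (hdeg Z).trans hz; omega
    · omega
  rw [Finset.sum_add_distrib, Finset.sum_ite_mem, Finset.univ_inter, hsum] at hle
  have h3 : ∑ _v ∈ ({X, Y, Z} : Finset C), 1 = 3 := by
    rw [Finset.sum_const, Finset.card_insert_of_notMem, Finset.card_insert_of_notMem,
      Finset.card_singleton]
    · simp
    · simpa using hYZ
    · simp [hXY, hXZ]
  rw [h3] at hle
  simp only [Finset.sum_const, Finset.card_univ, smul_eq_mul] at hle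
  rw [Nat.card_eq_fintype_card, Nat.card_eq_fintype_card] at hedge
  rw [← SimpleGraph.edgeFinset_card] at hedge
  omega

end Pool.Agent.H28
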