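import Mathlib
import Pool.Agent.H28.Fan

/-!
Vizing's adjacency lemma and Vizing's theorem.
-/

set_option autoImplicit false
set_option linter.unusedSectionVars false

namespace Pool.Agent.H28

open SimpleGraph

variable {V : Type*}

theorem kem_deg_two [Finite V] {H : SimpleGraph V} {D : ℕ} {c : Sym2 V → ℕ} (hc : IsEC H D c)
    (α β : ℕ) (v : V) : ((kem H c α β).neighborSet v).ncard ≤ 2 := by
  have h1 : ((kem H c α β).neighborSet v).ncard ≤ ({α, β} : Set ℕ).ncard := by
    apply Set.ncard_le_ncard_of_injOn (fun w => c s(v, w))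
    · intro w hw
      exact hw.2
    · intro a ha b hb hab
      by_contra hne
      exact hc.2 v a b ha.1 hb.1 hne hab
  exact h1.trans (Set.ncard_insert_le α {β} |>.trans (by rw [Set.ncard_singleton]))

theorem kem_deg_one_left [Finite V] {H : SimpleGraph V} {D : ℕ} {c : Sym2 V → ℕ} (hc : IsEC H D c)
    {α β : ℕ} {v : V} (hm : Miss H D c v α) : ((kem H c α β).neighborSet v).ncard ≤ 1 := by
  have h1 : ((kem H c α β).neighborSet v).ncard ≤ ({β} : Set ℕ).ncard := by
    apply Set.ncard_le_ncard_of_injOn (fun w => c s(v, w))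
    · intro w hw
      rcases hw.2 with h | h
      · exact absurd h (hm.2 w hw.1)
      · exact h
    · intro a ha b hb hab
      by_contra hne
      exact hc.2 v a b ha.1 hb.1 hne hab
  rwa [Set.ncard_singleton] at h1

theorem kem_deg_one_right [Finite V] {H : SimpleGraph V} {D : ℕ} {c : Sym2 V → ℕ} (hc : IsEC H D c)
    {α β : ℕ} {v : V} (hm : Miss H D c v β) : ((kem H c α β).neighborSet v).ncard ≤ 1 := by
  have h1 : ((kem H c α β).neighborSet v).ncard ≤ ({α} : Set ℕ).ncard := by
    apply Set.ncard_le_ncard_of_injOn (fun w => c s(v, w))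
    · intro w hw
      rcases hw.2 with h | h
      · exact h
      · exact absurd h (hm.2 w hw.1)
    · intro a ha b hb hab
      by_contra hne
      exact hc.2 v a b ha.1 hb.1 hne hab
  rwa [Set.ncard_singleton] at h1

/-- `z` is reached by a fan path of length `k` from `y0`. -/
def FanReach (G : SimpleGraph V) (D : ℕ) (c : Sym2 V → ℕ) (x y0 : V) (k : ℕ) (z : V) : Prop :=
  ∃ y : ℕ → V, y 0 = y0 ∧ y k = z ∧ ∀ i, i < k → G.Adj x (y (i + 1)) ∧ y (i + 1) ≠ y0 ∧
    Miss (del G x y0) D c (y i) (c s(x, y (i + 1)))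

theorem fan_i {G : SimpleGraph V} {D : ℕ} {c : Sym2 V → ℕ} {x y0 : V} (hG : ¬ ECol G D)
    (hxy : G.Adj x y0) (hc : IsEC (del G x y0) D c) {k : ℕ} {z : V}
    (hz : FanReach G D c x y0 k z) {α : ℕ} (hx : Miss (del G x y0) D c x α)
    (hzα : Miss (del G x y0) D c z α) : False := by
  obtain ⟨y, rfl, rfl, hy⟩ := hz
  exact hG (fan_path G D x k y c hxy hc hy ⟨α, hx, hzα⟩)

theorem fan_swap {G : SimpleGraph V} {D : ℕ} {c : Sym2 V → ℕ} {x y0 : V} (hG : ¬ ECol G D)
    (hxy : G.Adj x y0) (hc : IsEC (del G x y0) D c) {k : ℕ} {y : ℕ → V} (hy0 : y 0 = y0)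
    (hy : ∀ i, i < k → G.Adj x (y (i + 1)) ∧ y (i + 1) ≠ y0 ∧
      Miss (del G x y0) D c (y i) (c s(x, y (i + 1))))
    {α β : ℕ} (hx : Miss (del G x y0) D c x α) (hk : Miss (del G x y0) D c (y k) β)
    {C : Set V} (hC : ∀ u v, (kem (del G x y0) c α β).Adj u v → u ∈ C → v ∈ C) (hxC : x ∉ C)
    (hkC : y k ∈ C) (hC' : ∀ i, i < k → y i ∈ C → ¬ Miss (del G x y0) D c (y i) β) : False := by
  subst hy0
  have hα := hx.1
  have hβ := hk.1
  refine hG (fan_path G D x k y (swp C α β c) hxy (swp_ec hc hα hβ hC) ?_ ⟨α,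
    swp_miss_out hC hxC hx, ?_⟩)
  · intro i hi
    obtain ⟨h1, h2, h3⟩ := hy i hi
    have hadj : (del G x (y 0)).Adj x (y (i + 1)) := del_adj.2 ⟨h1, fun h => h2 (sym2_right h)⟩
    refine ⟨h1, h2, ?_⟩
    rw [swp_out hC hxC hadj]
    by_cases hiC : y i ∈ C
    · have hne1 : c s(x, y (i + 1)) ≠ α := hx.2 _ hadj
      have hne2 : c s(x, y (i + 1)) ≠ β := fun h => hC' i hi hiC (h ▸ h3)
      have := swp_miss_in hα hβ hiC h3
      rwa [Equiv.swap_apply_of_ne_of_ne hne1 hne2] at this
    · exact swp_miss_out hC hiC h3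
  · have := swp_miss_in hα hβ hkC hk
    rwa [Equiv.swap_apply_right] at this

theorem fan_ii [Finite V] {G : SimpleGraph V} {D : ℕ} {c : Sym2 V → ℕ} {x y0 : V} (hG : ¬ ECol G D)
    (hxy : G.Adj x y0) (hc : IsEC (del G x y0) D c) (hxα : ∃ α, Miss (del G x y0) D c x α)
    {kz kw : ℕ} {z w : V} (hz : FanReach G D c x y0 kz z) (hw : FanReach G D c x y0 kw w)
    (hzw : z ≠ w) {β : ℕ} (hzβ : Miss (del G x y0) D c z β)
    (hwβ : Miss (del G x y0) D c w β) : False := by
  classical
  obtain ⟨α, hx⟩ := hxα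
  have hP : ∃ k, ∃ z, FanReach G D c x y0 k z ∧ Miss (del G x y0) D c z β := ⟨kz, z, hz, hzβ⟩
  obtain ⟨z1, hz1, hz1β⟩ := Nat.find_spec hP
  have hmin1 : ∀ k, k < Nat.find hP → ∀ v, FanReach G D c x y0 k v →
      ¬ Miss (del G x y0) D c v β := fun k hk v hv hm => Nat.find_min hP hk ⟨v, hv, hm⟩
  generalize Nat.find hP = k1 at hz1 hmin1
  have hQ : ∃ k, ∃ v, v ≠ z1 ∧ FanReach G D c x y0 k v ∧ Miss (del G x y0) D c v β := by
    by_cases h : z = z1
    · exact ⟨kw, w, fun h' => hzw (h.trans h'.symm), hw, hwβ⟩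
    · exact ⟨kz, z, h, hz, hzβ⟩
  obtain ⟨w1, hw1z, hw1, hw1β⟩ := Nat.find_spec hQ
  have hmin2 : ∀ k, k < Nat.find hQ → ∀ v, FanReach G D c x y0 k v →
      Miss (del G x y0) D c v β → v = z1 := by
    intro k hk v hv hm
    by_contra hne
    exact Nat.find_min hQ hk ⟨v, hne, hv, hm⟩
  generalize Nat.find hQ = k2 at hw1 hmin2
  -- vertices of the fan are not `x`
  have hnx : ∀ k v, FanReach G D c x y0 k v → x ≠ v := by
    rintro k v ⟨y, hy0, rfl, hy⟩
    rcases Nat.eq_zero_or_pos k with rfl | hk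
    · rw [hy0]; exact hxy.ne
    · obtain ⟨h1, _, _⟩ := hy (k - 1) (by omega)
      have e : k - 1 + 1 = k := by omega
      rw [e] at h1
      exact h1.ne
  have prefixReach : ∀ (y : ℕ → V) (k : ℕ), y 0 = y0 → (∀ i, i < k → G.Adj x (y (i + 1)) ∧
      y (i + 1) ≠ y0 ∧ Miss (del G x y0) D c (y i) (c s(x, y (i + 1)))) → ∀ i, i < k →
      FanReach G D c x y0 i (y i) :=
    fun y k hy0 hy i hi => ⟨y, hy0, rfl, fun j hj => hy j (by omega)⟩
  let K := kem (del G x y0) c α β
  have hclosed : ∀ a : V, ∀ u v, K.Adj u v → u ∈ {v | K.Reachable a v} → v ∈ {v | K.Reachable a v} :=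
    fun a u v huv hu => (show K.Reachable a u from hu).trans huv.reachable
  by_cases r1 : K.Reachable x z1
  · have r2 : ¬ K.Reachable x w1 := by
      intro r2
      exact three_ends K (fun v => kem_deg_two hc α β v) (hnx _ _ hz1) (hnx _ _ hw1)
        (fun h => hw1z h.symm) (kem_deg_one_left hc hx) (kem_deg_one_right hc hz1β)
        (kem_deg_one_right hc hw1β) r1 r2
    obtain ⟨y, hy0, hyk, hy⟩ := hw1
    refine fan_swap hG hxy hc hy0 hy hx (by rw [hyk]; exact hw1β) (hclosed w1) (fun h => r2 h.symm)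
      (by rw [hyk]; exact SimpleGraph.Reachable.refl _) ?_
    intro i hi hiC hm
    have := hmin2 i hi (y i) (prefixReach y k2 hy0 hy i hi) hm
    rw [this] at hiC
    exact r2 (r1.trans hiC.symm)
  · obtain ⟨y, hy0, hyk, hy⟩ := hz1
    refine fan_swap hG hxy hc hy0 hy hx (by rw [hyk]; exact hz1β) (hclosed z1) (fun h => r1 h.symm)
      (by rw [hyk]; exact SimpleGraph.Reachable.refl _) ?_
    intro i hi _ hm
    exact hmin1 i hi (y i) (prefixReach y k1 hy0 hy i hi) hm

/-- The number of missing colours. -/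
theorem card_miss [Fintype V] {H : SimpleGraph V} {D : ℕ} {c : Sym2 V → ℕ} (hc : IsEC H D c)
    (v : V) [DecidablePred (Miss H D c v)] :
    ((Finset.range D).filter (Miss H D c v)).card + (H.neighborSet v).ncard = D := by
  classical
  have himg : (Finset.image (fun w => c s(v, w)) (Finset.univ.filter (fun w => H.Adj v w))).card =
      (H.neighborSet v).ncard := by
    rw [Finset.card_image_of_injOn]
    · rw [Set.ncard_eq_toFinset_card']
      congr 1
      ext w
      simp
    · intro a ha b hb hab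
      simp only [Finset.coe_filter, Finset.mem_univ, true_and] at ha hb
      by_contra hne
      exact hc.2 v a b ha hb hne hab
  have hpart : (Finset.range D).filter (Miss H D c v) =
      Finset.range D \ (Finset.image (fun w => c s(v, w)) (Finset.univ.filter (fun w => H.Adj v w))) := by
    ext a
    simp only [Finset.mem_filter, Finset.mem_range, Finset.mem_sdiff, Finset.mem_image,
      Finset.mem_univ, true_and, Miss, not_exists, not_and]
    tauto
  have hsub : Finset.image (fun w => c s(v, w)) (Finset.univ.filter (fun w => H.Adj v w)) ⊆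
      Finset.range D := by
    intro a ha
    rw [Finset.mem_image] at ha
    obtain ⟨w, hw, rfl⟩ := ha
    rw [Finset.mem_range]
    simp only [Finset.mem_filter, Finset.mem_univ, true_and] at hw
    exact hc.1 v w hw
  rw [hpart, ← himg, Finset.card_sdiff_of_subset hsub, Finset.card_range]
  have := Finset.card_le_card hsub
  rw [Finset.card_range] at this
  omega

/-- **Vizing's adjacency lemma**. If `G` has maximum degree at most `D`, is not
`D`-edge-colourable but `G - xy` is, then `x` has at least `D - d(y) + 1` neighbours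
of degree `D` other than `y`. -/
theorem val [Finite V] {G : SimpleGraph V} {D : ℕ} (hdeg : ∀ v, (G.neighborSet v).ncard ≤ D)
    {x y0 : V} (hxy : G.Adj x y0) (hG : ¬ ECol G D) (hcol : ECol (del G x y0) D) :
    D + 1 ≤ (G.neighborSet y0).ncard +
      {z | G.Adj x z ∧ z ≠ y0 ∧ (G.neighborSet z).ncard = D}.ncard := by
  classical
  cases nonempty_fintype V
  obtain ⟨c, hc⟩ := hcol
  let H := del G x y0
  have hHG : ∀ u v, H.Adj u v → G.Adj u v := fun u v h => (del_adj.1 h).1
  -- degrees in H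
  have hdx : (H.neighborSet x).ncard + 1 = (G.neighborSet x).ncard := by
    have : G.neighborSet x = insert y0 (H.neighborSet x) := by
      ext v
      rw [Set.mem_insert_iff, SimpleGraph.mem_neighborSet, SimpleGraph.mem_neighborSet]
      constructor
      · intro h
        by_cases hv : v = y0
        · exact Or.inl hv
        · exact Or.inr (del_adj.2 ⟨h, fun h' => hv (sym2_right h')⟩)
      · rintro (rfl | h)
        · exact hxy
        · exact hHG _ _ h
    rw [this, Set.ncard_insert_of_notMem]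
    intro h
    exact (del_adj.1 h).2 rfl
  have hdy : (H.neighborSet y0).ncard + 1 = (G.neighborSet y0).ncard := by
    have : G.neighborSet y0 = insert x (H.neighborSet y0) := by
      ext v
      rw [Set.mem_insert_iff, SimpleGraph.mem_neighborSet, SimpleGraph.mem_neighborSet]
      constructor
      · intro h
        by_cases hv : v = x
        · exact Or.inl hv
        · refine Or.inr (del_adj.2 ⟨h, fun h' => ?_⟩)
          rw [Sym2.eq_iff] at h'
          rcases h' with ⟨h1, h2⟩ | ⟨_, h2⟩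
          · exact hxy.ne h1.symm
          · exact hv h2
      · rintro (rfl | h)
        · exact hxy.symm
        · exact hHG _ _ h
    rw [this, Set.ncard_insert_of_notMem]
    intro h
    exact (del_adj.1 h).2 Sym2.eq_swap
  have hdz : ∀ z, z ≠ x → z ≠ y0 → (H.neighborSet z).ncard = (G.neighborSet z).ncard := by
    intro z hzx hzy
    congr 1
    ext v
    rw [SimpleGraph.mem_neighborSet, SimpleGraph.mem_neighborSet]
    refine ⟨hHG z v, fun h => del_adj.2 ⟨h, fun h' => ?_⟩⟩
    rw [Sym2.eq_iff] at h'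
    rcases h' with ⟨h1, _⟩ | ⟨h1, _⟩
    · exact hzx h1
    · exact hzy h1
  have hxα : ∃ α, Miss H D c x α := by
    have h1 : ((Finset.range D).filter (Miss H D c x)).card + (H.neighborSet x).ncard = D :=
      card_miss hc x
    have h2 := hdeg x
    have h3 : 0 < ((Finset.range D).filter (Miss H D c x)).card := by omega
    obtain ⟨α, hα⟩ := Finset.card_pos.1 h3
    exact ⟨α, (Finset.mem_filter.1 hα).2⟩
  -- the fan
  obtain ⟨F, hF⟩ : ∃ F : Finset V, ∀ z, z ∈ F ↔ ∃ k, FanReach G D c x y0 k z :=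
    ⟨Finset.univ.filter (fun z => ∃ k, FanReach G D c x y0 k z), fun z => by simp⟩
  have hy0F : y0 ∈ F := (hF y0).2 ⟨0, fun _ => y0, rfl, rfl, fun i hi => by omega⟩
  have hFadj : ∀ z ∈ F.erase y0, G.Adj x z := by
    intro z hz
    rw [Finset.mem_erase] at hz
    obtain ⟨hne, hz⟩ := hz
    obtain ⟨k, y, hy0, hyk, hy⟩ := (hF z).1 hz
    rcases Nat.eq_zero_or_pos k with rfl | hk
    · exact absurd (hyk.symm.trans hy0) hne
    · obtain ⟨h1, _, _⟩ := hy (k - 1) (by omega)
      have e : k - 1 + 1 = k := by omega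
      rw [e, hyk] at h1
      exact h1
  let ms : V → Finset ℕ := fun z => (Finset.range D).filter (Miss H D c z)
  have hunion : F.biUnion ms = (F.erase y0).image (fun z => c s(x, z)) := by
    ext a
    rw [Finset.mem_biUnion, Finset.mem_image]
    constructor
    · rintro ⟨z, hz, ha⟩
      obtain ⟨k, hk⟩ := (hF z).1 hz
      have hza : Miss H D c z a := (Finset.mem_filter.1 ha).2
      have hnx : ¬ Miss H D c x a := fun h => fan_i hG hxy hc hk h hza
      have : ∃ v, H.Adj x v ∧ c s(x, v) = a := by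
        by_contra hcon
        push Not at hcon
        exact hnx ⟨hza.1, hcon⟩
      obtain ⟨v, hv, hva⟩ := this
      refine ⟨v, ?_, hva⟩
      have hvy : v ≠ y0 := by
        rintro rfl
        exact (del_adj.1 hv).2 rfl
      rw [Finset.mem_erase]
      refine ⟨hvy, (hF v).2 ⟨k + 1, ?_⟩⟩
      obtain ⟨y, hy0, hyk, hy⟩ := hk
      obtain ⟨y', hy'⟩ : ∃ y' : ℕ → V, ∀ t, y' t = if t ≤ k then y t else v := ⟨_, fun _ => rfl⟩
      refine ⟨y', ?_, ?_, ?_⟩
      · rw [hy', if_pos (Nat.zero_le _), hy0]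
      · rw [hy', if_neg (by omega)]
      · intro i hi
        rcases Nat.lt_or_ge i k with h | h
        · rw [hy' i, if_pos (by omega), hy' (i + 1), if_pos (by omega)]
          exact hy i h
        · have e : i = k := by omega
          rw [hy' i, if_pos (by omega), hy' (i + 1), if_neg (by omega), e, hyk, hva]
          exact ⟨hHG _ _ hv, hvy, hza⟩
    · rintro ⟨z, hz, rfl⟩
      rw [Finset.mem_erase] at hz
      obtain ⟨hne, hz⟩ := hz
      obtain ⟨k, y, hy0, hyk, hy⟩ := (hF z).1 hz
      rcases Nat.eq_zero_or_pos k with rfl | hk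
      · exact absurd (hyk.symm.trans hy0) hne
      · obtain ⟨h1, h2, h3⟩ := hy (k - 1) (by omega)
        have e : k - 1 + 1 = k := by omega
        rw [e, hyk] at h3
        refine ⟨y (k - 1), (hF _).2 ⟨k - 1, y, hy0, rfl, fun j hj => hy j (by omega)⟩, ?_⟩
        exact Finset.mem_filter.2 ⟨Finset.mem_range.2 h3.1, h3⟩
  have hdisj : ((F : Set V)).PairwiseDisjoint ms := by
    intro z hz w hw hzw
    rw [Function.onFun, Finset.disjoint_left]
    intro a ha hb
    obtain ⟨kz, hkz⟩ := (hF z).1 hz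
    obtain ⟨kw, hkw⟩ := (hF w).1 hw
    exact fan_ii hG hxy hc hxα hkz hkw hzw (Finset.mem_filter.1 ha).2 (Finset.mem_filter.1 hb).2
  have hcard1 : (F.biUnion ms).card = ∑ z ∈ F, (ms z).card := Finset.card_biUnion hdisj
  have hinj : ((F.erase y0).image (fun z => c s(x, z))).card = (F.erase y0).card := by
    apply Finset.card_image_of_injOn
    intro a ha b hb hab
    by_contra hne
    have ha' := hFadj a ha
    have hb' := hFadj b hb
    have ha2 : a ≠ y0 := (Finset.mem_erase.1 ha).1
    have hb2 : b ≠ y0 := (Finset.mem_erase.1 hb).1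
    exact hc.2 x a b (del_adj.2 ⟨ha', fun h => ha2 (sym2_right h)⟩)
      (del_adj.2 ⟨hb', fun h => hb2 (sym2_right h)⟩) hne hab
  have hsum : ∑ z ∈ F, (ms z).card = (F.erase y0).card := by
    rw [← hcard1, hunion, hinj]
  rw [← Finset.add_sum_erase F _ hy0F] at hsum
  have hms0 : (ms y0).card + (G.neighborSet y0).ncard = D + 1 := by
    have := card_miss hc y0
    have h2 : (ms y0).card + (H.neighborSet y0).ncard = D := this
    omega
  have hbound : (F.erase y0).card ≤ ((F.erase y0).filter (fun z => (G.neighborSet z).ncard = D)).card +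
      ∑ z ∈ F.erase y0, (ms z).card := by
    rw [Finset.card_filter, ← Finset.sum_add_distrib, Finset.card_eq_sum_ones]
    refine Finset.sum_le_sum (fun z hz => ?_)
    have hzx : z ≠ x := (hFadj z hz).ne'
    have hzy : z ≠ y0 := (Finset.mem_erase.1 hz).1
    have h1 : (ms z).card + (H.neighborSet z).ncard = D := card_miss hc z
    rw [hdz z hzx hzy] at h1
    split_ifs with h
    · omega
    · have := hdeg z
      omega
  have hfin : ((F.erase y0).filter (fun z => (G.neighborSet z).ncard = D)).card ≤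
      {z | G.Adj x z ∧ z ≠ y0 ∧ (G.neighborSet z).ncard = D}.ncard := by
    rw [← Set.ncard_coe_finset]
    apply Set.ncard_le_ncard _ (Set.toFinite _)
    intro z hz
    rw [Finset.mem_coe, Finset.mem_filter] at hz
    exact ⟨hFadj z hz.1, (Finset.mem_erase.1 hz.1).1, hz.2⟩
  omega

theorem ECol.mono_D {H : SimpleGraph V} {D D' : ℕ} (h : D ≤ D') (hc : ECol H D) : ECol H D' := by
  obtain ⟨c, h1, h2⟩ := hc
  exact ⟨c, fun u v huv => lt_of_lt_of_le (h1 u v huv) h, h2⟩

/-- A graph which is not `D`-edge-colourable has a critical subgraph. -/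
theorem exists_critical [Finite V] {G : SimpleGraph V} {D : ℕ} (hG : ¬ ECol G D) :
    ∃ H, H ≤ G ∧ ¬ ECol H D ∧ ∀ x y, H.Adj x y → ECol (del H x y) D := by
  classical
  obtain ⟨H, hH, hmin⟩ := Set.Finite.exists_minimal (s := {H : SimpleGraph V | H ≤ G ∧ ¬ ECol H D})
    (Set.toFinite _) ⟨G, le_refl G, hG⟩
  refine ⟨H, hH.1, hH.2, fun x y hxy => ?_⟩
  by_contra hcon
  have hle : del H x y ≤ H := SimpleGraph.deleteEdges_le _
  have h1 : del H x y ∈ {H : SimpleGraph V | H ≤ G ∧ ¬ ECol H D} := ⟨hle.trans hH.1, hcon⟩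
  have h2 := hmin h1 hle
  exact (del_adj.1 (h2 hxy)).2 rfl

/-- **Vizing's theorem**. -/
theorem vizing [Finite V] {G : SimpleGraph V} {d : ℕ} (hdeg : ∀ v, (G.neighborSet v).ncard ≤ d) :
    ECol G (d + 1) := by
  by_contra hG
  obtain ⟨H, hHG, hH, hcrit⟩ := exists_critical hG
  have hdegH : ∀ v, (H.neighborSet v).ncard ≤ d := fun v =>
    (Set.ncard_le_ncard (fun w hw => hHG hw) (Set.toFinite _)).trans (hdeg v)
  by_cases hE : ∃ x y, H.Adj x y
  · obtain ⟨x, y, hxy⟩ := hE
    have h := val (D := d + 1) (fun v => (hdegH v).trans (Nat.le_succ d)) hxy hH (hcrit x y hxy)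
    have h0 : {z | H.Adj x z ∧ z ≠ y ∧ (H.neighborSet z).ncard = d + 1} = ∅ := by
      rw [Set.eq_empty_iff_forall_notMem]
      rintro z ⟨_, _, hz⟩
      have := hdegH z
      omega
    rw [h0, Set.ncard_empty] at h
    have := hdegH y
    omega
  · push Not at hE
    exact hH ⟨fun _ => 0, fun u v huv => absurd huv (hE u v), fun u v _ huv => absurd huv (hE u v)⟩

end Pool.Agent.H28
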