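import Mathlib

/-!
A symmetric Lovász local lemma for the uniform distribution on functions `V → κ`
(counting version), and a Chernoff bound (counting version).
-/

set_option autoImplicit false
set_option linter.unusedSectionVars false

namespace Pool.Agent.H28

open Finset

variable {V : Type*} [Fintype V] [DecidableEq V] {κ : Type*} [Fintype κ] [DecidableEq κ]

/-- A set `A` of functions depends only on the coordinates in `X`. -/
def DependsOnly (A : Finset (V → κ)) (X : Finset V) : Prop :=
  ∀ f g : V → κ, (∀ v ∈ X, f v = g v) → f ∈ A → g ∈ A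

theorem DependsOnly.mono {A : Finset (V → κ)} {X Y : Finset V} (h : DependsOnly A X) (hXY : X ⊆ Y) :
    DependsOnly A Y := fun f g hfg hf => h f g (fun v hv => hfg v (hXY hv)) hf

/-- Independence, counting version. -/
theorem card_inter_mul (A B : Finset (V → κ)) (X Y : Finset V) (hXY : Disjoint X Y)
    (hA : DependsOnly A X) (hB : DependsOnly B Y) :
    (A ∩ B).card * Fintype.card (V → κ) = A.card * B.card := by
  rw [← Finset.card_univ, ← Finset.card_product, ← Finset.card_product]
  have hsw : ∀ f g : V → κ, ∀ v, v ∈ Y → X.piecewise f g v = g v := fun f g v hv =>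
    Finset.piecewise_eq_of_notMem _ _ _ (fun h => (Finset.disjoint_left.1 hXY) h hv)
  have hsx : ∀ f g : V → κ, ∀ v, v ∈ X → X.piecewise f g v = f v := fun f g v hv =>
    Finset.piecewise_eq_of_mem _ _ _ hv
  refine Finset.card_nbij' (fun q => (X.piecewise q.1 q.2, X.piecewise q.2 q.1))
    (fun q => (X.piecewise q.1 q.2, X.piecewise q.2 q.1)) ?_ ?_ ?_ ?_
  · rintro ⟨f, g⟩ h
    simp only [Finset.coe_product, Set.mem_prod, Finset.mem_coe, Finset.mem_inter,
      Finset.mem_univ, and_true] at h ⊢
    exact ⟨hA f _ (fun v hv => (hsx f g v hv).symm) h.1,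
      hB f _ (fun v hv => (hsw g f v hv).symm) h.2⟩
  · rintro ⟨f, g⟩ h
    simp only [Finset.coe_product, Set.mem_prod, Finset.mem_coe, Finset.mem_inter,
      Finset.mem_univ, and_true] at h ⊢
    exact ⟨hA f _ (fun v hv => (hsx f g v hv).symm) h.1,
      hB g _ (fun v hv => (hsw f g v hv).symm) h.2⟩
  · rintro ⟨f, g⟩ h
    ext v
    · by_cases hv : v ∈ X <;> simp [Finset.piecewise, hv]
    · by_cases hv : v ∈ X <;> simp [Finset.piecewise, hv]
  · rintro ⟨f, g⟩ h
    ext v
    · by_cases hv : v ∈ X <;> simp [Finset.piecewise, hv]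
    · by_cases hv : v ∈ X <;> simp [Finset.piecewise, hv]

/-- The induction step of the local lemma, abstracted: `I S` is the event that no `A i`, `i ∈ S`
happens. -/
theorem local_lemma_key {ι : Type*} [Fintype ι] [DecidableEq ι] (A : ι → Finset (V → κ))
    (N : ι → Finset V) (hdep : ∀ i, DependsOnly (A i) (N i)) (d : ℕ) (q : ℝ) (hq0 : 0 ≤ q)
    (hd : ∀ i, (Finset.univ.filter (fun j => j ≠ i ∧ ¬ Disjoint (N i) (N j))).card ≤ d)
    (hA : ∀ i, ((A i).card : ℝ) ≤ q * Fintype.card (V → κ))
    (hqd : 4 * q * d ≤ 1) (hne : 0 < Fintype.card (V → κ))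
    (I : Finset ι → Finset (V → κ)) (hI : ∀ S f, f ∈ I S ↔ ∀ i ∈ S, f ∉ A i) :
    ∀ (n : ℕ) (S : Finset ι), S.card ≤ n → ∀ i, i ∉ S →
      ((A i ∩ I S).card : ℝ) ≤ 2 * q * (I S).card := by
  have hΩ : (0 : ℝ) < Fintype.card (V → κ) := by exact_mod_cast hne
  intro n
  induction n using Nat.strong_induction_on with
  | _ n ih =>
  intro S hS i hi
  obtain ⟨S1, hS1⟩ : ∃ S1, S1 = S.filter (fun j => ¬ Disjoint (N i) (N j)) := ⟨_, rfl⟩
  obtain ⟨S2, hS2⟩ : ∃ S2, S2 = S.filter (fun j => Disjoint (N i) (N j)) := ⟨_, rfl⟩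
  have hS12 : S2 ⊆ S := by rw [hS2]; exact Finset.filter_subset _ _
  have hS1d : S1.card ≤ d := by
    refine le_trans (Finset.card_le_card ?_) (hd i)
    intro j hj
    simp only [hS1, Finset.mem_filter] at hj
    simp only [Finset.mem_filter, Finset.mem_univ, true_and]
    exact ⟨fun h => hi (h ▸ hj.1), hj.2⟩
  -- independence
  have hind : ((A i ∩ I S2).card : ℝ) ≤ q * (I S2).card := by
    have hdis : Disjoint (N i) (N i)ᶜ := disjoint_compl_right
    have hB : DependsOnly (I S2) (N i)ᶜ := by
      intro f g hfg hf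
      rw [hI] at hf ⊢
      intro j hj hgA
      refine hf j hj (hdep j g f (fun v hv => (hfg v ?_).symm) hgA)
      rw [Finset.mem_compl]
      simp only [hS2, Finset.mem_filter] at hj
      exact fun h => (Finset.disjoint_left.1 hj.2) h hv
    have h := card_inter_mul (A i) (I S2) (N i) (N i)ᶜ hdis (hdep i) hB
    have h' : ((A i ∩ I S2).card : ℝ) * Fintype.card (V → κ) = (A i).card * (I S2).card := by
      exact_mod_cast h
    have h2 : ((A i ∩ I S2).card : ℝ) * Fintype.card (V → κ) ≤
        (q * (I S2).card) * Fintype.card (V → κ) := by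
      rw [h']
      have := mul_le_mul_of_nonneg_right (hA i) (Nat.cast_nonneg (α := ℝ) (I S2).card)
      calc ((A i).card : ℝ) * (I S2).card ≤ q * Fintype.card (V → κ) * (I S2).card := this
        _ = _ := by ring
    exact le_of_mul_le_mul_right h2 hΩ
  have hsub : I S ⊆ I S2 := by
    intro f hf
    rw [hI] at hf ⊢
    exact fun j hj => hf j (hS12 hj)
  have hle1 : ((A i ∩ I S).card : ℝ) ≤ (A i ∩ I S2).card := by
    exact_mod_cast Finset.card_le_card (Finset.inter_subset_inter_left hsub)
  -- lower bound for I S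
  have hlow : ((I S2).card : ℝ) ≤ 2 * (I S).card := by
    rcases S1.eq_empty_or_nonempty with hemp | hnonemp
    · have : S2 = S := by
        apply Finset.Subset.antisymm hS12
        intro j hj
        rw [hS2, Finset.mem_filter]
        refine ⟨hj, ?_⟩
        by_contra hcon
        have : j ∈ S1 := by rw [hS1, Finset.mem_filter]; exact ⟨hj, hcon⟩
        rw [hemp] at this
        exact absurd this (Finset.notMem_empty _)
      rw [this]
      have : (0 : ℝ) ≤ (I S).card := Nat.cast_nonneg _
      linarith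
    · have hlt : S2.card < S.card := by
        apply Finset.card_lt_card
        refine ⟨hS12, fun h => ?_⟩
        obtain ⟨j, hj⟩ := hnonemp
        rw [hS1, Finset.mem_filter] at hj
        have := h hj.1
        rw [hS2, Finset.mem_filter] at this
        exact hj.2 this.2
      have hunion : I S2 ⊆ I S ∪ S1.biUnion (fun j => A j ∩ I S2) := by
        intro f hf
        by_cases hfS : f ∈ I S
        · exact Finset.mem_union_left _ hfS
        · apply Finset.mem_union_right
          rw [hI] at hfS
          push Not at hfS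
          obtain ⟨j, hj, hjA⟩ := hfS
          rw [Finset.mem_biUnion]
          have hj1 : j ∈ S1 := by
            by_contra hcon
            have : j ∈ S2 := by
              rw [hS1, Finset.mem_filter] at hcon
              rw [hS2, Finset.mem_filter]
              refine ⟨hj, ?_⟩
              by_contra h
              exact hcon ⟨hj, h⟩
            exact ((hI S2 f).1 hf) j this hjA
          exact ⟨j, hj1, Finset.mem_inter.2 ⟨hjA, hf⟩⟩
      have hcard := (Finset.card_le_card hunion).trans (Finset.card_union_le _ _)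
      have hcard2 := Finset.card_biUnion_le (s := S1) (t := fun j => A j ∩ I S2)
      have h3 : ((I S2).card : ℝ) ≤ (I S).card + ∑ j ∈ S1, ((A j ∩ I S2).card : ℝ) := by
        have : (I S2).card ≤ (I S).card + ∑ j ∈ S1, (A j ∩ I S2).card := by omega
        exact_mod_cast this
      have h4 : ∑ j ∈ S1, ((A j ∩ I S2).card : ℝ) ≤ ∑ j ∈ S1, 2 * q * (I S2).card := by
        refine Finset.sum_le_sum (fun j hj => ?_)
        refine ih S2.card (lt_of_lt_of_le hlt hS) S2 le_rfl j ?_
        intro hj2
        rw [hS1, Finset.mem_filter] at hj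
        rw [hS2, Finset.mem_filter] at hj2
        exact hj.2 hj2.2
      rw [Finset.sum_const, nsmul_eq_mul] at h4
      obtain ⟨x, hx⟩ : ∃ x : ℝ, x = (I S2).card := ⟨_, rfl⟩
      have hx0 : 0 ≤ x := by rw [hx]; exact Nat.cast_nonneg _
      rw [← hx] at h3 h4 ⊢
      have hs1 : (S1.card : ℝ) ≤ d := by exact_mod_cast hS1d
      obtain ⟨y, hy⟩ : ∃ y : ℝ, y = S1.card := ⟨_, rfl⟩
      rw [← hy] at h4 hs1
      have h6 : y * (2 * q) ≤ 1 / 2 := by
        have := mul_le_mul_of_nonneg_right hs1 (by positivity : (0:ℝ) ≤ 2 * q)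
        linarith
      have h7 := mul_le_mul_of_nonneg_right h6 hx0
      have h8 : y * (2 * q * x) = y * (2 * q) * x := by ring
      linarith
  have hfin : q * ((I S2).card : ℝ) ≤ q * (2 * (I S).card) := mul_le_mul_of_nonneg_left hlow hq0
  linarith

/-- The symmetric local lemma (counting version). `A i` is the bad event of `i`, determined by the
coordinates in `N i`; each `N i` meets `N j` for at most `d` other `j`; each bad event
has probability at most `q` with `4 q d ≤ 1` and `4 q ≤ 1`. -/
theorem local_lemma {ι : Type*} [Fintype ι] [DecidableEq ι] (A : ι → Finset (V → κ))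
    (N : ι → Finset V) (hdep : ∀ i, DependsOnly (A i) (N i)) (d : ℕ) (q : ℝ) (hq0 : 0 ≤ q)
    (hd : ∀ i, (Finset.univ.filter (fun j => j ≠ i ∧ ¬ Disjoint (N i) (N j))).card ≤ d)
    (hA : ∀ i, ((A i).card : ℝ) ≤ q * Fintype.card (V → κ))
    (hqd : 4 * q * d ≤ 1) (hq : 4 * q ≤ 1) (hne : 0 < Fintype.card (V → κ)) :
    ∃ f : V → κ, ∀ i, f ∉ A i := by
  obtain ⟨I, hI⟩ : ∃ I : Finset ι → Finset (V → κ), ∀ S f, f ∈ I S ↔ ∀ i ∈ S, f ∉ A i :=
    ⟨fun S => Finset.univ.filter (fun f => ∀ i ∈ S, f ∉ A i), fun S f => by simp⟩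
  have key := local_lemma_key A N hdep d q hq0 hd hA hqd hne I hI
  -- positivity
  have hpos : ∀ S : Finset ι, 0 < (I S).card := by
    intro S
    induction S using Finset.induction_on with
    | empty =>
      have : I ∅ = Finset.univ := by
        ext f; simp [hI]
      rw [this, Finset.card_univ]
      exact hne
    | insert i S hi ih =>
      have hk := key S.card S le_rfl i hi
      have hsub : I S ⊆ I (insert i S) ∪ (A i ∩ I S) := by
        intro f hf
        by_cases hfi : f ∈ A i
        · exact Finset.mem_union_right _ (Finset.mem_inter.2 ⟨hfi, hf⟩)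
        · apply Finset.mem_union_left
          rw [hI] at hf ⊢
          intro j hj
          rw [Finset.mem_insert] at hj
          rcases hj with rfl | hj
          · exact hfi
          · exact hf j hj
      have h1 := (Finset.card_le_card hsub).trans (Finset.card_union_le _ _)
      have h2 : ((I S).card : ℝ) ≤ (I (insert i S)).card + (A i ∩ I S).card := by exact_mod_cast h1
      have h3 : (0 : ℝ) < (I S).card := by exact_mod_cast ih
      have h4 : (0 : ℝ) < (I (insert i S)).card := by
        have : 2 * q * (I S).card ≤ (I S).card / 2 := by nlinarith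
        linarith
      exact_mod_cast h4
  obtain ⟨f, hf⟩ := Finset.card_pos.1 (hpos Finset.univ)
  exact ⟨f, fun i => (hI _ f).1 hf i (Finset.mem_univ _)⟩

/-- Moment generating function, counting version. -/
theorem sum_pow_count (N : Finset V) (g : κ) (z : ℝ) :
    ∑ f : V → κ, z ^ (N.filter (fun u => f u = g)).card =
      (((Fintype.card κ : ℝ) - 1 + z) ^ N.card) * (Fintype.card κ : ℝ) ^ (Fintype.card V - N.card) := by
  have h1 : ∀ f : V → κ, z ^ (N.filter (fun u => f u = g)).card =
      ∏ u, (if u ∈ N ∧ f u = g then z else 1) := by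
    intro f
    rw [Finset.prod_ite, Finset.prod_const_one, mul_one, Finset.prod_const]
    congr 2
    ext u; simp
  rw [Finset.sum_congr rfl (fun f _ => h1 f)]
  have h2 := Fintype.prod_sum (ι := V) (κ := fun _ => κ)
    (fun u k => (if u ∈ N ∧ k = g then z else (1:ℝ)))
  rw [← h2]
  have h3 : ∀ u, (∑ k : κ, (if u ∈ N ∧ k = g then z else (1:ℝ))) =
      if u ∈ N then (Fintype.card κ : ℝ) - 1 + z else (Fintype.card κ : ℝ) := by
    intro u
    by_cases hu : u ∈ N
    · simp only [hu, true_and, if_true]
      have : ∀ k : κ, (if k = g then z else (1:ℝ)) = 1 + if k = g then z - 1 else 0 := by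
        intro k
        by_cases hk : k = g <;> simp [hk]
      rw [Finset.sum_congr rfl (fun k _ => this k), Finset.sum_add_distrib]
      simp
      ring
    · simp [hu]
  rw [Finset.prod_congr rfl (fun u _ => h3 u), Finset.prod_ite]
  simp only [Finset.prod_const]
  congr 2
  · congr 1
    ext u; simp
  · have : Finset.univ.filter (fun u => ¬ u ∈ N) = Nᶜ := by
      ext u; simp
    rw [this, Finset.card_compl]

/-- Chernoff bound, counting version. -/
theorem chernoff (N : Finset V) (g : κ) (m s : ℝ) (hs0 : 0 < s) (hs1 : s ≤ 1)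
    (hm : (N.card : ℝ) ≤ m * Fintype.card κ) (hκ : 0 < Fintype.card κ) :
    ((Finset.univ.filter (fun f : V → κ => (1 + 2 * s) * m ≤ ((N.filter (fun u => f u = g)).card : ℝ))).card : ℝ)
      ≤ Real.exp (- (s ^ 2 * m)) * Fintype.card (V → κ) := by
  have hK : (0:ℝ) < Fintype.card κ := by exact_mod_cast hκ
  have hcard : (Fintype.card (V → κ) : ℝ) = (Fintype.card κ : ℝ) ^ (Fintype.card V) := by
    rw [Fintype.card_fun]; push_cast; rfl
  obtain ⟨B, hB⟩ : ∃ B, B = Finset.univ.filter (fun f : V → κ => (1 + 2 * s) * m ≤ ((N.filter (fun u => f u = g)).card : ℝ)) := ⟨_, rfl⟩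
  rw [← hB]
  have h1 : (B.card : ℝ) * Real.exp (s * ((1 + 2 * s) * m)) ≤
      ∑ f : V → κ, (Real.exp s) ^ (N.filter (fun u => f u = g)).card := by
    have : ∑ f ∈ B, (Real.exp s) ^ (N.filter (fun u => f u = g)).card ≤
        ∑ f : V → κ, (Real.exp s) ^ (N.filter (fun u => f u = g)).card := by
      refine Finset.sum_le_sum_of_subset_of_nonneg (Finset.subset_univ _) (fun f _ _ => ?_)
      positivity
    refine le_trans ?_ this
    rw [← nsmul_eq_mul, ← Finset.sum_const]
    refine Finset.sum_le_sum (fun f hf => ?_)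
    rw [← Real.exp_nat_mul, Real.exp_le_exp]
    simp only [hB, Finset.mem_filter, Finset.mem_univ, true_and] at hf
    have := mul_le_mul_of_nonneg_left hf hs0.le
    linarith
  rw [sum_pow_count] at h1
  have hK1 : (1:ℝ) ≤ Fintype.card κ := by exact_mod_cast hκ
  rw [hcard]
  clear hcard
  generalize (Fintype.card κ : ℝ) = K at h1 hK hK1 hm ⊢
  have hz : (0:ℝ) < Real.exp s := Real.exp_pos s
  have hexp : Real.exp s ≤ 1 + s + s ^ 2 := by
    have := Real.abs_exp_sub_one_sub_id_le (x := s) (by rw [abs_of_pos hs0]; exact hs1)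
    have := (abs_le.1 this).2
    linarith
  have h2 : K - 1 + Real.exp s ≤ K * Real.exp ((s + s ^ 2) / K) := by
    have h3 : K - 1 + Real.exp s ≤ K + (s + s^2) := by linarith
    have h4 : (s + s ^ 2) / K + 1 ≤ Real.exp ((s + s ^ 2) / K) := Real.add_one_le_exp _
    have h5 : K + (s + s^2) = K * ((s + s ^ 2) / K + 1) := by
      field_simp
      ring
    rw [h5] at h3
    exact h3.trans (mul_le_mul_of_nonneg_left h4 hK.le)
  have h2' : 0 ≤ K - 1 + Real.exp s := by linarith
  have h6 : (K - 1 + Real.exp s) ^ N.card ≤ (K * Real.exp ((s + s ^ 2) / K)) ^ N.card :=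
    pow_le_pow_left₀ h2' h2 _
  rw [mul_pow, ← Real.exp_nat_mul] at h6
  have hNc : N.card ≤ Fintype.card V := Finset.card_le_univ _
  have h7 : (K - 1 + Real.exp s) ^ N.card * K ^ (Fintype.card V - N.card) ≤
      K ^ (Fintype.card V) * Real.exp ((N.card : ℝ) * ((s + s ^ 2) / K)) := by
    have := mul_le_mul_of_nonneg_right h6 (by positivity : (0:ℝ) ≤ K ^ (Fintype.card V - N.card))
    refine this.trans (le_of_eq ?_)
    have hsplit : K ^ (Fintype.card V) = K ^ N.card * K ^ (Fintype.card V - N.card) := by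
      rw [← pow_add]; congr 1; omega
    rw [hsplit]; ring
  have h8 : Real.exp ((N.card : ℝ) * ((s + s ^ 2) / K)) ≤ Real.exp ((s + s ^ 2) * m) := by
    rw [Real.exp_le_exp]
    rw [mul_div_assoc', div_le_iff₀ hK]
    have := mul_le_mul_of_nonneg_left hm (by positivity : (0:ℝ) ≤ s + s ^ 2)
    linarith
  have h9 : (B.card : ℝ) * Real.exp (s * ((1 + 2 * s) * m)) ≤
      K ^ (Fintype.card V) * Real.exp ((s + s ^ 2) * m) :=
    (h1.trans h7).trans (mul_le_mul_of_nonneg_left h8 (by positivity))
  have h10 : (B.card : ℝ) * Real.exp (s * ((1 + 2 * s) * m)) * Real.exp (- (s * ((1 + 2 * s) * m))) ≤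
      K ^ (Fintype.card V) * Real.exp ((s + s ^ 2) * m) * Real.exp (- (s * ((1 + 2 * s) * m))) :=
    mul_le_mul_of_nonneg_right h9 (Real.exp_pos _).le
  rw [mul_assoc, ← Real.exp_add, mul_assoc, ← Real.exp_add] at h10
  have e1 : s * ((1 + 2 * s) * m) + -(s * ((1 + 2 * s) * m)) = 0 := by ring
  have e2 : (s + s ^ 2) * m + -(s * ((1 + 2 * s) * m)) = -(s ^ 2 * m) := by ring
  rw [e1, e2, Real.exp_zero, mul_one] at h10
  linarith

end Pool.Agent.H28
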