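import Mathlib

/-!
König's edge colouring theorem for bipartite graphs given as a relation on `V × V`.
-/

set_option autoImplicit false

namespace Pool.Agent.H28

open Finset

variable {V : Type*} [Fintype V] [DecidableEq V]

/-- A nonnegative integer matrix with row and column sums at most `D` can be completed
to one with all row and column sums equal to `D`. -/
theorem konig_complete (D : ℕ) : ∀ (n : ℕ) (M : V → V → ℕ),
    (∀ i, ∑ j, M i j ≤ D) → (∀ j, ∑ i, M i j ≤ D) →
    Fintype.card V * D ≤ (∑ i, ∑ j, M i j) + n →
    ∃ M' : V → V → ℕ, (∀ i j, M i j ≤ M' i j) ∧ (∀ i, ∑ j, M' i j = D) ∧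
      (∀ j, ∑ i, M' i j = D) := by
  intro n
  induction n with
  | zero =>
    intro M hr hc hn
    refine ⟨M, fun _ _ => le_rfl, ?_, ?_⟩
    · by_contra hcon
      push Not at hcon
      obtain ⟨i, hi⟩ := hcon
      have hlt : ∑ i, ∑ j, M i j < ∑ _i : V, D :=
        Finset.sum_lt_sum (fun i _ => hr i) ⟨i, Finset.mem_univ _, lt_of_le_of_ne (hr i) hi⟩
      simp at hlt
      simp at hn
      omega
    · by_contra hcon
      push Not at hcon
      obtain ⟨j, hj⟩ := hcon
      have hlt : ∑ j, ∑ i, M i j < ∑ _i : V, D :=
        Finset.sum_lt_sum (fun i _ => hc i) ⟨j, Finset.mem_univ _, lt_of_le_of_ne (hc j) hj⟩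
      rw [Finset.sum_comm] at hlt
      simp at hlt
      simp at hn
      omega
  | succ n ih =>
    intro M hr hc hn
    by_cases hcase : Fintype.card V * D ≤ ∑ i, ∑ j, M i j
    · exact ih M hr hc (by omega)
    · push Not at hcase
      have h1 : ∃ i, ∑ j, M i j < D := by
        by_contra hcon
        push Not at hcon
        have : ∑ _i : V, D ≤ ∑ i, ∑ j, M i j := Finset.sum_le_sum (fun i _ => hcon i)
        simp at this
        omega
      have h2 : ∃ j, ∑ i, M i j < D := by
        by_contra hcon
        push Not at hcon
        have : ∑ _i : V, D ≤ ∑ j, ∑ i, M i j := Finset.sum_le_sum (fun i _ => hcon i)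
        rw [Finset.sum_comm] at this
        simp at this
        omega
      obtain ⟨a, ha⟩ := h1
      obtain ⟨b, hb⟩ := h2
      let M1 : V → V → ℕ := fun i j => M i j + if i = a ∧ j = b then 1 else 0
      have hrow : ∀ i, ∑ j, M1 i j = (∑ j, M i j) + if i = a then 1 else 0 := by
        intro i
        simp only [M1, Finset.sum_add_distrib]
        congr 1
        by_cases h : i = a
        · simp [h]
        · simp [h]
      have hcol : ∀ j, ∑ i, M1 i j = (∑ i, M i j) + if j = b then 1 else 0 := by
        intro j
        simp only [M1, Finset.sum_add_distrib]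
        congr 1
        by_cases h : j = b
        · simp [h]
        · simp [h]
      obtain ⟨M', hM', h3, h4⟩ := ih M1
        (by
          intro i
          rw [hrow]
          by_cases h : i = a
          · subst h; simp; omega
          · simp [h]; exact hr i)
        (by
          intro j
          rw [hcol]
          by_cases h : j = b
          · subst h; simp; omega
          · simp [h]; exact hc j)
        (by
          have : ∑ i, ∑ j, M1 i j = (∑ i, ∑ j, M i j) + 1 := by
            simp only [hrow, Finset.sum_add_distrib]
            simp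
          rw [this]
          omega)
      refine ⟨M', fun i j => le_trans ?_ (hM' i j), h3, h4⟩
      simp [M1]

/-- A nonnegative integer matrix with all row and column sums equal to `D` is covered by `D`
permutations. -/
theorem konig_perm : ∀ (D : ℕ) (M : V → V → ℕ),
    (∀ i, ∑ j, M i j = D) → (∀ j, ∑ i, M i j = D) →
    ∃ s : ℕ → Equiv.Perm V, ∀ i j, 0 < M i j → ∃ k, k < D ∧ s k i = j := by
  intro D
  induction D with
  | zero =>
    intro M hr hc
    refine ⟨fun _ => 1, fun i j hij => ?_⟩
    have := hr i
    rw [Finset.sum_eq_zero_iff] at this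
    have := this j (Finset.mem_univ _)
    omega
  | succ D ih =>
    intro M hr hc
    have hall : ∀ S : Finset V, S.card ≤ (S.biUnion (fun i => Finset.univ.filter (fun j => 0 < M i j))).card := by
      intro S
      have h1 : (D + 1) * S.card = ∑ i ∈ S, ∑ j, M i j := by
        rw [Finset.sum_congr rfl (fun i _ => hr i)]
        simp [mul_comm]
      set N := S.biUnion (fun i => Finset.univ.filter (fun j => 0 < M i j)) with hN
      have h2 : ∑ i ∈ S, ∑ j, M i j = ∑ i ∈ S, ∑ j ∈ N, M i j := by
        refine Finset.sum_congr rfl (fun i hi => ?_)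
        symm
        refine Finset.sum_subset (Finset.subset_univ _) (fun j _ hj => ?_)
        by_contra hne
        apply hj
        rw [hN, Finset.mem_biUnion]
        exact ⟨i, hi, by simp; omega⟩
      have h3 : ∑ i ∈ S, ∑ j ∈ N, M i j ≤ ∑ j ∈ N, ∑ i, M i j := by
        rw [Finset.sum_comm]
        refine Finset.sum_le_sum (fun j _ => ?_)
        exact Finset.sum_le_sum_of_subset (Finset.subset_univ _)
      have h4 : ∑ j ∈ N, ∑ i, M i j = (D + 1) * N.card := by
        rw [Finset.sum_congr rfl (fun j _ => hc j)]
        simp [mul_comm]
      have h5 : (D + 1) * S.card ≤ (D + 1) * N.card := by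
        rw [h1, h2]
        exact le_trans h3 h4.le
      exact Nat.le_of_mul_le_mul_left h5 (Nat.succ_pos D)
    obtain ⟨f, hf, hf'⟩ := (Finset.all_card_le_biUnion_card_iff_exists_injective _).1 hall
    have hbij : Function.Bijective f := Finite.injective_iff_bijective.1 hf
    let e : Equiv.Perm V := Equiv.ofBijective f hbij
    have he : ∀ i, e i = f i := fun i => rfl
    have hpos : ∀ i, 0 < M i (e i) := by
      intro i
      have := hf' i
      simp at this
      rw [he]
      exact this
    let M1 : V → V → ℕ := fun i j => M i j - if e i = j then 1 else 0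
    have hM1 : ∀ i j, M i j = M1 i j + if e i = j then 1 else 0 := by
      intro i j
      simp only [M1]
      by_cases h : e i = j
      · have := hpos i
        rw [h] at this
        simp [h]
        omega
      · simp [h]
    have hr1 : ∀ i, ∑ j, M1 i j = D := by
      intro i
      have h := hr i
      rw [Finset.sum_congr rfl (fun j _ => hM1 i j), Finset.sum_add_distrib] at h
      simp at h
      exact h
    have hc1 : ∀ j, ∑ i, M1 i j = D := by
      intro j
      have h := hc j
      rw [Finset.sum_congr rfl (fun i _ => hM1 i j), Finset.sum_add_distrib] at h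
      have h2 : (∑ i, if e i = j then 1 else 0) = 1 := by
        have : ∀ i, (if e i = j then 1 else 0) = if i = e.symm j then 1 else 0 := by
          intro i
          by_cases h : e i = j
          · subst h; simp
          · have : i ≠ e.symm j := fun h' => h (by rw [h']; simp)
            simp [h, this]
        rw [Finset.sum_congr rfl (fun i _ => this i)]
        simp
      omega
    obtain ⟨s, hs⟩ := ih M1 hr1 hc1
    refine ⟨fun k => if k < D then s k else e, fun i j hij => ?_⟩
    by_cases h : e i = j
    · exact ⟨D, Nat.lt_succ_self _, by simp [h]⟩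
    · have : 0 < M1 i j := by
        have := hM1 i j
        simp [h] at this
        omega
      obtain ⟨k, hk, hk'⟩ := hs i j this
      exact ⟨k, Nat.lt_succ_of_lt hk, by simp [hk, hk']⟩

/-- **König's edge colouring theorem**: a bipartite graph with both sides (copies of) `V`,
all degrees at most `D`, has a proper edge colouring with `D` colours. -/
theorem konig (R : V → V → Prop) (D : ℕ)
    (hrow : ∀ a, {b | R a b}.ncard ≤ D) (hcol : ∀ b, {a | R a b}.ncard ≤ D) :
    ∃ c : V → V → ℕ, (∀ a b, R a b → c a b < D) ∧
      (∀ a b b', R a b → R a b' → b ≠ b' → c a b ≠ c a b') ∧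
      (∀ a a' b, R a b → R a' b → a ≠ a' → c a b ≠ c a' b) := by
  classical
  let M : V → V → ℕ := fun i j => if R i j then 1 else 0
  have h1 : ∀ i, ∑ j, M i j ≤ D := by
    intro i
    have h := hrow i
    rw [Set.ncard_eq_toFinset_card'] at h
    simp only [M, Finset.sum_boole]
    convert h using 1
    simp
  have h2 : ∀ j, ∑ i, M i j ≤ D := by
    intro j
    have h := hcol j
    rw [Set.ncard_eq_toFinset_card'] at h
    simp only [M, Finset.sum_boole]
    convert h using 1
    simp
  obtain ⟨M', hM', h3, h4⟩ := konig_complete D (Fintype.card V * D) M h1 h2 (by omega)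
  obtain ⟨s, hs⟩ := konig_perm D M' h3 h4
  have hs' : ∀ i j, R i j → ∃ k, k < D ∧ s k i = j := by
    intro i j hij
    apply hs
    have := hM' i j
    simp [M, hij] at this
    omega
  choose c hc1 hc2 using hs'
  refine ⟨fun a b => if h : R a b then c a b h else 0, ?_, ?_, ?_⟩
  · intro a b h
    simp [h, hc1]
  · intro a b b' h h' hne heq
    simp only [h, h', dif_pos] at heq
    apply hne
    rw [← hc2 a b h, ← hc2 a b' h', heq]
  · intro a a' b h h' hne heq
    simp only [h, h', dif_pos] at heq
    apply hne
    have e1 := hc2 a b h
    have e2 := hc2 a' b h'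
    rw [heq] at e1
    exact (s (c a' b h')).injective (e1.trans e2.symm)

end Pool.Agent.H28
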