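import Mathlib
import Pool.Agent.H28.Konig

/-!
The circular labelling scheme for `(p,1)`-total labelings from a vertex partition.
-/

set_option autoImplicit false
set_option linter.unusedSectionVars false

namespace Pool.Agent.H28

open Finset

variable {V : Type*} [Fintype V] [DecidableEq V]

/-- Greedy colouring for a symmetric relation. -/
theorem greedy {α : Type*} [Fintype α] (R : α → α → Prop)
    (hsymm : ∀ a b, R a b → R b a) (d : ℕ) (h : ∀ a, {b | R a b}.ncard < d) :
    ∃ c : α → ℕ, (∀ a, c a < d) ∧ ∀ a b, a ≠ b → R a b → c a ≠ c b := by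
  classical
  have main : ∀ S : Finset α, ∃ c : α → ℕ, (∀ a, c a < d) ∧
      ∀ a ∈ S, ∀ b ∈ S, a ≠ b → R a b → c a ≠ c b := by
    intro S
    induction S using Finset.induction_on with
    | empty => exact ⟨fun _ => 0, fun a => lt_of_le_of_lt (Nat.zero_le _) (h a), by simp⟩
    | insert a S ha ih =>
      obtain ⟨c, hc, hc'⟩ := ih
      have hcard : (Finset.image c (Finset.univ.filter (fun b => R a b))).card <
          (Finset.range d).card := by
        refine lt_of_le_of_lt Finset.card_image_le ?_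
        rw [Finset.card_range]
        have := h a
        rw [Set.ncard_eq_toFinset_card'] at this
        have he : {b | R a b}.toFinset = Finset.univ.filter (fun b => R a b) := by
          ext b; simp
        rw [he] at this
        exact this
      obtain ⟨k, hk, hk'⟩ := Finset.exists_mem_notMem_of_card_lt_card hcard
      rw [Finset.mem_range] at hk
      refine ⟨Function.update c a k, ?_, ?_⟩
      · intro x
        by_cases hx : x = a
        · subst hx; simpa using hk
        · simpa [hx] using hc x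
      · intro x hx y hy hxy hR
        by_cases hxa : x = a
        · subst hxa
          have hy' : y ≠ x := fun h => hxy h.symm
          simp only [Function.update_self, Function.update_of_ne hy']
          intro heq
          apply hk'
          rw [Finset.mem_image]
          exact ⟨y, by simpa using hR, heq.symm⟩
        · by_cases hya : y = a
          · subst hya
            simp only [Function.update_self, Function.update_of_ne hxa]
            intro heq
            apply hk'
            rw [Finset.mem_image]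
            exact ⟨x, by simpa using hsymm _ _ hR, heq⟩
          · simp only [Function.update_of_ne hxa, Function.update_of_ne hya]
            exact hc' x (Finset.mem_of_mem_insert_of_ne hx hxa) y
              (Finset.mem_of_mem_insert_of_ne hy hya) hxy hR
  obtain ⟨c, hc, hc'⟩ := main Finset.univ
  exact ⟨c, hc, fun a b => hc' a (Finset.mem_univ _) b (Finset.mem_univ _)⟩

theorem mod_ne {M x y a : ℕ} (hx : a ≤ x) (hx' : x < a + M) (hy : a ≤ y) (hy' : y < a + M)
    (hne : x ≠ y) : x % M ≠ y % M := by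
  intro h
  apply hne
  have key : ∀ x y : ℕ, a ≤ x → x < a + M → a ≤ y → y < a + M → x % M = y % M → x ≤ y → x = y := by
    intro x y hx hx' hy hy' h hxy
    have h1 := Nat.sub_mod_eq_zero_of_mod_eq h.symm
    have h2 : y - x < M := by omega
    rw [Nat.mod_eq_of_lt h2] at h1
    omega
  rcases le_total x y with hxy | hxy
  · exact key x y hx hx' hy hy' h hxy
  · exact (key y x hy hy' hx hx' h.symm hxy).symm

theorem mod_dist {M x y p : ℕ} (h1 : x + p ≤ y) (h2 : y + p ≤ x + M) :
    (p : ℤ) ≤ |((x % M : ℕ) : ℤ) - ((y % M : ℕ) : ℤ)| := by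
  rcases Nat.eq_zero_or_pos M with rfl | hM
  · simp only [Nat.mod_zero]
    have : p = 0 := by omega
    subst this
    simp
  have e1 := Nat.div_add_mod x M
  have e2 := Nat.div_add_mod y M
  have hr := Nat.mod_lt x hM
  have hs := Nat.mod_lt y hM
  have hab : x / M ≤ y / M := Nat.div_le_div_right (by omega)
  have hba : y / M ≤ x / M + 1 := by
    have : y / M ≤ (x + M) / M := Nat.div_le_div_right (by omega)
    rwa [Nat.add_div_right _ hM] at this
  generalize x % M = r at *
  generalize y % M = s at *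
  generalize x / M = a at *
  generalize y / M = b at *
  rcases Nat.lt_or_ge a b with hlt | hge
  · have hb : b = a + 1 := by omega
    subst hb
    have e3 : M * (a + 1) = M * a + M := by ring
    rw [e3] at e2
    rw [le_abs]
    left
    omega
  · have hb : b = a := by omega
    subst hb
    rw [le_abs]
    right
    omega

/-- The deterministic labelling lemma: a partition of the vertex set into `K` classes such that
every vertex has fewer than `D` neighbours in each class gives a `(p,1)`-total labeling with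
labels in `{0, …, (K+2)D+2p-3}`. -/
theorem scheme (G : SimpleGraph V) (p K D : ℕ) (hp : 1 ≤ p) (f : V → ℕ) (hfK : ∀ v, f v < K)
    (hf : ∀ v g, {u | G.Adj v u ∧ f u = g}.ncard < D) :
    ∃ (fV : V → ℕ) (fE : Sym2 V → ℕ),
      (∀ v, fV v < (K + 2) * D + 2 * p - 2) ∧ (∀ e, fE e < (K + 2) * D + 2 * p - 2) ∧
      (∀ u v, G.Adj u v → fV u ≠ fV v) ∧
      (∀ u v, G.Adj u v → (p : ℤ) ≤ |(fV u : ℤ) - (fE s(u, v) : ℤ)|) ∧
      (∀ u v w, G.Adj u v → G.Adj u w → v ≠ w → fE s(u, v) ≠ fE s(u, w)) := by
  classical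
  rcases isEmpty_or_nonempty V with hemp | hnon
  · refine ⟨fun _ => 0, fun _ => 0, fun v => (hemp.false v).elim, ?_, fun v => (hemp.false v).elim,
      fun v => (hemp.false v).elim, fun v => (hemp.false v).elim⟩
    intro e
    induction e with
    | _ x y => exact (hemp.false x).elim
  obtain ⟨v0⟩ := hnon
  have hD : 1 ≤ D := by have := hf v0 0; omega
  have hK : 1 ≤ K := by have := hfK v0; omega
  obtain ⟨M, hM⟩ : ∃ M, M = (K + 2) * D + 2 * p - 2 := ⟨_, rfl⟩
  have hM' : M = (K + 1) * D + D + (2 * p - 2) := by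
    rw [hM]
    have : (K + 2) * D = (K + 1) * D + D := by ring
    omega
  -- vertex colouring inside the classes
  obtain ⟨cv, hcv, hcv'⟩ := greedy (fun a b : V => G.Adj a b ∧ f a = f b)
    (fun a b h => ⟨h.1.symm, h.2.symm⟩) D (by
      intro a
      have : {b | G.Adj a b ∧ f a = f b} = {u | G.Adj a u ∧ f u = f a} :=
        Set.ext fun b => ⟨fun h => ⟨h.1, h.2.symm⟩, fun h => ⟨h.1, h.2.symm⟩⟩
      rw [this]; exact hf a (f a))
  -- edge colouring inside the classes
  obtain ⟨ce, hce, hce'⟩ := greedy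
    (fun e e' : Sym2 V => (e ∈ G.edgeSet ∧ ∀ x y, e = s(x, y) → f x = f y) ∧
      (e' ∈ G.edgeSet ∧ ∀ x y, e' = s(x, y) → f x = f y) ∧ ∃ v, v ∈ e ∧ v ∈ e')
    (fun a b h => ⟨h.2.1, h.1, by obtain ⟨v, h1, h2⟩ := h.2.2; exact ⟨v, h2, h1⟩⟩) (2 * D) (by
      intro e
      induction e with
      | _ a b =>
      have hsub : ∀ a : V, {e' : Sym2 V | (e' ∈ G.edgeSet ∧ ∀ x y, e' = s(x, y) → f x = f y) ∧ a ∈ e'} ⊆
          (fun w => s(a, w)) '' {u | G.Adj a u ∧ f u = f a} := by
        intro a e' he'
        obtain ⟨⟨h1, h2⟩, h3⟩ := he'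
        obtain ⟨w, rfl⟩ := Sym2.mem_iff_exists.1 h3
        exact ⟨w, ⟨(SimpleGraph.mem_edgeSet G).1 h1, (h2 a w rfl).symm⟩, rfl⟩
      have hle : ∀ a : V, {e' : Sym2 V | (e' ∈ G.edgeSet ∧ ∀ x y, e' = s(x, y) → f x = f y) ∧ a ∈ e'}.ncard ≤ D - 1 := by
        intro a
        have h1 := (Set.ncard_le_ncard (hsub a) (Set.toFinite _)).trans (Set.ncard_image_le (Set.toFinite _))
        have h2 := hf a (f a)
        omega
      have hun : {e' : Sym2 V | (s(a, b) ∈ G.edgeSet ∧ ∀ x y, s(a, b) = s(x, y) → f x = f y) ∧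
          (e' ∈ G.edgeSet ∧ ∀ x y, e' = s(x, y) → f x = f y) ∧ ∃ v, v ∈ s(a, b) ∧ v ∈ e'} ⊆
          {e' : Sym2 V | (e' ∈ G.edgeSet ∧ ∀ x y, e' = s(x, y) → f x = f y) ∧ a ∈ e'} ∪
          {e' : Sym2 V | (e' ∈ G.edgeSet ∧ ∀ x y, e' = s(x, y) → f x = f y) ∧ b ∈ e'} := by
        rintro e' ⟨_, h2, v, hv, hv'⟩
        rw [Sym2.mem_iff] at hv
        rcases hv with rfl | rfl
        · exact Or.inl ⟨h2, hv'⟩
        · exact Or.inr ⟨h2, hv'⟩
      have h1 := (Set.ncard_le_ncard hun (Set.toFinite _)).trans (Set.ncard_union_le _ _)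
      have h2 := hle a
      have h3 := hle b
      omega)
  -- edge colouring between classes
  have hkon : ∀ g g' : ℕ, ∃ c : V → V → ℕ, (∀ a b, (G.Adj a b ∧ f a = g ∧ f b = g') → c a b < D) ∧
      (∀ a b b', (G.Adj a b ∧ f a = g ∧ f b = g') → (G.Adj a b' ∧ f a = g ∧ f b' = g') →
        b ≠ b' → c a b ≠ c a b') ∧
      (∀ a a' b, (G.Adj a b ∧ f a = g ∧ f b = g') → (G.Adj a' b ∧ f a' = g ∧ f b = g') →
        a ≠ a' → c a b ≠ c a' b) := by
    intro g g'
    apply konig (fun a b => G.Adj a b ∧ f a = g ∧ f b = g') D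
    · intro a
      refine le_trans (Set.ncard_le_ncard ?_ (Set.toFinite _)) (hf a g').le
      rintro b ⟨h1, _, h3⟩
      exact ⟨h1, h3⟩
    · intro b
      refine le_trans (Set.ncard_le_ncard ?_ (Set.toFinite _)) (hf b g).le
      rintro a ⟨h1, h2, _⟩
      exact ⟨h1.symm, h2⟩
  choose col hcol1 hcol2 hcol3 using hkon
  let pos : V → V → ℕ := fun u v =>
    if f u < f v then (f u + f v) * D + col (f u) (f v) u v
    else if f v < f u then (f u + f v) * D + col (f v) (f u) v u
    else if ce s(u, v) < D then (2 * f u) * D + ce s(u, v)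
    else (f u + K) * D + (ce s(u, v) - D)
  have hpos_lt : ∀ u v, f u < f v → pos u v = (f u + f v) * D + col (f u) (f v) u v := by
    intro u v h; simp only [pos, if_pos h]
  have hpos_gt : ∀ u v, f v < f u → pos u v = (f u + f v) * D + col (f v) (f u) v u := by
    intro u v h
    have h' : ¬ f u < f v := by omega
    simp only [pos, if_neg h', if_pos h]
  have hpos_eq1 : ∀ u v, f u = f v → ce s(u, v) < D → pos u v = (2 * f u) * D + ce s(u, v) := by
    intro u v h h2
    have h' : ¬ f u < f v := by omega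
    have h'' : ¬ f v < f u := by omega
    simp only [pos, if_neg h', if_neg h'', if_pos h2]
  have hpos_eq2 : ∀ u v, f u = f v → ¬ ce s(u, v) < D →
      pos u v = (f u + K) * D + (ce s(u, v) - D) := by
    intro u v h h2
    have h' : ¬ f u < f v := by omega
    have h'' : ¬ f v < f u := by omega
    simp only [pos, if_neg h', if_neg h'', if_neg h2]
  have hpsymm : ∀ u v, pos u v = pos v u := by
    intro u v
    rcases lt_trichotomy (f u) (f v) with h | h | h
    · rw [hpos_lt u v h, hpos_gt v u h, add_comm (f v)]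
    · have e : s(u, v) = s(v, u) := Sym2.eq_swap
      by_cases h2 : ce s(u, v) < D
      · rw [hpos_eq1 u v h h2, hpos_eq1 v u h.symm (by rw [← e]; exact h2), e, h]
      · rw [hpos_eq2 u v h h2, hpos_eq2 v u h.symm (by rw [← e]; exact h2), e, h]
    · rw [hpos_gt u v h, hpos_lt v u h, add_comm (f v)]
  -- block structure
  have hblock : ∀ u v, G.Adj u v → ∃ t j, pos u v = t * D + j ∧ j < D ∧ f u ≤ t ∧ t ≤ f u + K ∧
      ((f v ≠ f u ∧ t = f u + f v) ∨ (f v = f u ∧ (t = 2 * f u ∨ t = f u + K))) := by
    intro u v huv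
    have hu := hfK u
    have hv := hfK v
    rcases lt_trichotomy (f u) (f v) with h | h | h
    · exact ⟨f u + f v, _, hpos_lt u v h, hcol1 _ _ _ _ ⟨huv, rfl, rfl⟩, by omega, by omega,
        Or.inl ⟨by omega, rfl⟩⟩
    · by_cases h2 : ce s(u, v) < D
      · exact ⟨2 * f u, _, hpos_eq1 u v h h2, h2, by omega, by omega, Or.inr ⟨h.symm, Or.inl rfl⟩⟩
      · refine ⟨f u + K, _, hpos_eq2 u v h h2, ?_, by omega, by omega, Or.inr ⟨h.symm, Or.inr rfl⟩⟩
        have := hce s(u, v)
        omega
    · exact ⟨f u + f v, _, hpos_gt u v h, hcol1 _ _ _ _ ⟨huv.symm, rfl, rfl⟩, by omega, by omega,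
        Or.inl ⟨by omega, rfl⟩⟩
  have hdivmod : ∀ t j t' j' : ℕ, j < D → j' < D → t * D + j = t' * D + j' → t = t' ∧ j = j' := by
    intro t j t' j' hj hj' h
    have h1 : t = t' := by
      have a1 : (t * D + j) / D = t := by
        rw [mul_comm, Nat.mul_add_div (by omega), Nat.div_eq_of_lt hj, add_zero]
      have a2 : (t' * D + j') / D = t' := by
        rw [mul_comm, Nat.mul_add_div (by omega), Nat.div_eq_of_lt hj', add_zero]
      rw [← a1, ← a2, h]
    subst h1
    exact ⟨rfl, by omega⟩
  have hrange : ∀ u v, G.Adj u v → f u * D ≤ pos u v ∧ pos u v < f u * D + (K + 1) * D := by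
    intro u v huv
    obtain ⟨t, j, h1, h2, h3, h4, _⟩ := hblock u v huv
    have a1 : f u * D ≤ t * D := Nat.mul_le_mul_right _ h3
    have a2 : t * D ≤ (f u + K) * D := Nat.mul_le_mul_right _ h4
    have a3 : (f u + K) * D = f u * D + K * D := by ring
    have a4 : (K + 1) * D = K * D + D := by ring
    omega
  have hproper : ∀ u v w, G.Adj u v → G.Adj u w → v ≠ w → pos u v ≠ pos u w := by
    intro u v w huv huw hvw heq
    have hcase : f v = f w := by
      obtain ⟨t, j, h1, h2, h3, h4, h5⟩ := hblock u v huv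
      obtain ⟨t', j', h1', h2', h3', h4', h5'⟩ := hblock u w huw
      rw [h1, h1'] at heq
      obtain ⟨e1, e2⟩ := hdivmod t j t' j' h2 h2' heq
      have := hfK v
      have := hfK w
      omega
    rcases lt_trichotomy (f u) (f v) with h | h | h
    · rw [hpos_lt u v h, hpos_lt u w (hcase ▸ h)] at heq
      have := hcol2 (f u) (f v) u v w ⟨huv, rfl, rfl⟩ ⟨huw, rfl, hcase.symm⟩ hvw
      rw [hcase] at heq this
      omega
    · have hin : ∀ a b, G.Adj a b → f a = f b →
          (s(a, b) ∈ G.edgeSet ∧ ∀ x y, s(a, b) = s(x, y) → f x = f y) := by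
        intro a b hab hf
        refine ⟨(SimpleGraph.mem_edgeSet G).2 hab, fun x y hxy => ?_⟩
        rw [Sym2.eq_iff] at hxy
        rcases hxy with ⟨rfl, rfl⟩ | ⟨rfl, rfl⟩
        · exact hf
        · exact hf.symm
      have hne : s(u, v) ≠ s(u, w) := by
        intro hs
        rw [Sym2.eq_iff] at hs
        rcases hs with ⟨_, h2⟩ | ⟨h1, h2⟩
        · exact hvw h2
        · exact hvw (h2.trans h1)
      have hc := hce' s(u, v) s(u, w) hne ⟨hin u v huv h, hin u w huw (h.trans hcase),
        ⟨u, Sym2.mem_mk_left _ _, Sym2.mem_mk_left _ _⟩⟩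
      have b1 := hce s(u, v)
      have b2 := hce s(u, w)
      have hu := hfK u
      by_cases h1 : ce s(u, v) < D
      · by_cases h2 : ce s(u, w) < D
        · rw [hpos_eq1 u v h h1, hpos_eq1 u w (h.trans hcase) h2] at heq
          omega
        · rw [hpos_eq1 u v h h1, hpos_eq2 u w (h.trans hcase) h2] at heq
          have := (hdivmod _ _ _ _ h1 (by omega) heq).1
          omega
      · by_cases h2 : ce s(u, w) < D
        · rw [hpos_eq2 u v h h1, hpos_eq1 u w (h.trans hcase) h2] at heq
          have := (hdivmod _ _ _ _ (by omega) h2 heq).1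
          omega
        · rw [hpos_eq2 u v h h1, hpos_eq2 u w (h.trans hcase) h2] at heq
          omega
    · rw [hpos_gt u v h, hpos_gt u w (hcase ▸ h)] at heq
      have := hcol3 (f v) (f u) v w u ⟨huv.symm, rfl, rfl⟩ ⟨huw.symm, hcase.symm, rfl⟩ hvw
      rw [hcase] at heq this
      omega
  have hMpos : 0 < M := by omega
  let fE : Sym2 V → ℕ := Sym2.lift ⟨fun u v => pos u v % M, fun u v => by
    show pos u v % M = pos v u % M
    rw [hpsymm]⟩
  have hfE : ∀ u v, fE s(u, v) = pos u v % M := fun u v => rfl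
  rw [← hM]
  refine ⟨fun v => (f v * D + (K + 1) * D + (p - 1) + cv v) % M, fE, ?_, ?_, ?_, ?_, ?_⟩
  · intro v
    exact Nat.mod_lt _ hMpos
  · intro e
    induction e with
    | _ x y => rw [hfE]; exact Nat.mod_lt _ hMpos
  · intro u v huv
    have hu := hfK u
    have hv := hfK v
    have a1 : f u * D ≤ (K - 1) * D := Nat.mul_le_mul_right _ (by omega)
    have a2 : f v * D ≤ (K - 1) * D := Nat.mul_le_mul_right _ (by omega)
    have a3 : (K - 1) * D + 2 * D = (K + 1) * D := by
      rw [← add_mul]; congr 1; omega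
    have c1 := hcv u
    have c2 := hcv v
    refine mod_ne (a := (K + 1) * D + (p - 1)) (by omega) (by omega) (by omega) (by omega) ?_
    intro heq
    have heq2 : f u * D + cv u = f v * D + cv v := by omega
    obtain ⟨e1, e2⟩ := hdivmod _ _ _ _ c1 c2 heq2
    exact hcv' u v huv.ne ⟨huv, e1⟩ e2
  · intro u v huv
    rw [hfE]
    obtain ⟨r1, r2⟩ := hrange u v huv
    have c1 := hcv u
    rw [abs_sub_comm]
    apply mod_dist
    · omega
    · omega
  · intro u v w huv huw hvw
    rw [hfE, hfE]
    obtain ⟨r1, r2⟩ := hrange u v huv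
    obtain ⟨r3, r4⟩ := hrange u w huw
    exact mod_ne (a := f u * D) (by omega) (by omega) (by omega) (by omega)
      (hproper u v w huv huw hvw)

end Pool.Agent.H28
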