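import Mathlib

/-!
Embedding of a graph of maximum degree at most `n` in an `n`-regular graph.
-/

set_option autoImplicit false
set_option linter.unusedSectionVars false

namespace Pool.Agent.H28

open Finset

theorem regular_embed (V : Type) [Fintype V] [DecidableEq V] (G : SimpleGraph V) (n : ℕ)
    (hG : ∀ v, (G.neighborSet v).ncard ≤ n) :
    ∃ (W : Type) (_ : Fintype W) (_ : DecidableEq W) (H : SimpleGraph W) (φ : V → W),
      Function.Injective φ ∧ (∀ u v, G.Adj u v → H.Adj (φ u) (φ v)) ∧
      (∀ w, (H.neighborSet w).ncard = n) := by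
  classical
  obtain ⟨fl, hfl⟩ : ∃ fl : Fin n → (Fin n → Bool) → (Fin n → Bool),
      ∀ i b j, fl i b j = if j = i then !(b j) else b j :=
    ⟨fun i b j => if j = i then !(b j) else b j, fun _ _ _ => rfl⟩
  have hfl2 : ∀ i b, fl i (fl i b) = b := by
    intro i b
    funext j
    rw [hfl, hfl]
    split_ifs <;> simp
  have hflne : ∀ i b, fl i b ≠ b := by
    intro i b h
    have := congrFun h i
    rw [hfl, if_pos rfl] at this
    cases hb : b i <;> simp [hb] at this
  have hflinj : ∀ i i' b, fl i b = fl i' b → i = i' := by
    intro i i' b h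
    by_contra hne
    have := congrFun h i
    rw [hfl, if_pos rfl, hfl, if_neg hne] at this
    cases hb : b i <;> simp [hb] at this
  let H : SimpleGraph (V × (Fin n → Bool)) :=
    { Adj := fun x y => (G.Adj x.1 y.1 ∧ x.2 = y.2) ∨
        (x.1 = y.1 ∧ ∃ i : Fin n, (i : ℕ) < n - (G.neighborSet x.1).ncard ∧ y.2 = fl i x.2)
      symm := ⟨fun x y h => by
        rcases h with h | ⟨h, i, hi, h2⟩
        · exact Or.inl ⟨h.1.symm, h.2.symm⟩
        · exact Or.inr ⟨h.symm, i, h ▸ hi, by rw [h2, hfl2]⟩⟩
      loopless := ⟨fun x h => by
        rcases h with h | ⟨_, i, _, h2⟩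
        · exact h.1.ne rfl
        · exact hflne i x.2 h2.symm⟩ }
  refine ⟨V × (Fin n → Bool), inferInstance, inferInstance, H, fun v => (v, fun _ => false), ?_, ?_, ?_⟩
  · intro u v h
    exact (Prod.mk.inj h).1
  · intro u v h
    exact Or.inl ⟨h, rfl⟩
  · rintro ⟨v, b⟩
    have h1 : H.neighborSet (v, b) = (fun u => (u, b)) '' (G.neighborSet v) ∪
        (fun i => (v, fl i b)) '' {i : Fin n | (i : ℕ) < n - (G.neighborSet v).ncard} := by
      ext ⟨u, c⟩
      constructor
      · rintro (⟨h1, h2⟩ | ⟨h1, i, hi, h2⟩)
        · exact Or.inl ⟨u, h1, by rw [show b = c from h2]⟩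
        · refine Or.inr ⟨i, hi, ?_⟩
          have e1 : v = u := h1
          have e2 : c = fl i b := h2
          rw [e1, e2]
      · rintro (⟨u', h1, h2⟩ | ⟨i, hi, h2⟩)
        · have e := Prod.mk.inj h2
          refine Or.inl ⟨?_, e.2⟩
          have := e.1
          subst this
          exact h1
        · have e := Prod.mk.inj h2
          exact Or.inr ⟨e.1, i, hi, e.2.symm⟩
    rw [h1, Set.ncard_union_eq]
    · rw [Set.ncard_image_of_injective, Set.InjOn.ncard_image]
      · have h2 : {i : Fin n | (i : ℕ) < n - (G.neighborSet v).ncard}.ncard =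
            n - (G.neighborSet v).ncard := by
          have h3 : ({i : Fin n | (i : ℕ) < n - (G.neighborSet v).ncard} : Set (Fin n)) =
              ((Finset.univ.filter (fun i : Fin n => (i : ℕ) < n - (G.neighborSet v).ncard) :
                Finset (Fin n)) : Set (Fin n)) := by
            ext i; simp
          rw [h3, Set.ncard_coe_finset, ← Finset.card_map (Fin.valEmbedding)]
          have h4 : (Finset.univ.filter (fun i : Fin n => (i : ℕ) < n - (G.neighborSet v).ncard)).map
              Fin.valEmbedding = Finset.range (n - (G.neighborSet v).ncard) := by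
            ext x
            simp only [Finset.mem_map, Finset.mem_filter, Finset.mem_univ, true_and,
              Fin.valEmbedding_apply, Finset.mem_range]
            constructor
            · rintro ⟨y, hy, rfl⟩
              exact hy
            · intro hx
              exact ⟨⟨x, by omega⟩, hx, rfl⟩
          rw [h4, Finset.card_range]
        rw [h2]
        have := hG v
        omega
      · intro i _ i' _ h
        exact hflinj i i' b (Prod.mk.inj h).2
      · intro u u' h
        exact (Prod.mk.inj h).1
    · rw [Set.disjoint_left]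
      rintro x ⟨u, hu, rfl⟩ ⟨i, _, h2⟩
      have := (Prod.mk.inj h2).2
      exact hflne i b this

end Pool.Agent.H28
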