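import Mathlib
import Pool.Agent.H28.Scheme
import Pool.Agent.H28.LLL

set_option autoImplicit false
set_option linter.unusedSectionVars false

namespace Pool.Agent.H28

open Finset

/-- Random partition by the local lemma. -/
theorem exists_partition {V : Type*} [Fintype V] [DecidableEq V] (G : SimpleGraph V)
    [DecidableRel G.Adj] (K : ℕ) (hK : 1 ≤ K) (m s : ℝ) (hs0 : 0 < s) (hs1 : s ≤ 1)
    (hm : (G.maxDegree : ℝ) ≤ m * K)
    (h1 : 4 * ((K : ℝ) * Real.exp (-(s ^ 2 * m))) * (G.maxDegree : ℝ) ^ 2 ≤ 1)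
    (h2 : 4 * ((K : ℝ) * Real.exp (-(s ^ 2 * m))) ≤ 1) :
    ∃ f : V → Fin K, ∀ v g,
      (((G.neighborFinset v).filter (fun u => f u = g)).card : ℝ) < (1 + 2 * s) * m := by
  classical
  have : Nonempty (Fin K) := ⟨⟨0, hK⟩⟩
  let A : V → Finset (V → Fin K) := fun v => Finset.univ.biUnion (fun g : Fin K =>
    Finset.univ.filter (fun f : V → Fin K => (1 + 2 * s) * m ≤
      (((G.neighborFinset v).filter (fun u => f u = g)).card : ℝ)))
  have hdep : ∀ v, DependsOnly (A v) (G.neighborFinset v) := by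
    intro v f f' hff hf
    simp only [A, Finset.mem_biUnion, Finset.mem_filter, Finset.mem_univ, true_and] at hf ⊢
    obtain ⟨g, hg⟩ := hf
    refine ⟨g, ?_⟩
    have : (G.neighborFinset v).filter (fun u => f' u = g) =
        (G.neighborFinset v).filter (fun u => f u = g) := by
      apply Finset.filter_congr
      intro u hu
      rw [hff u hu]
    rw [this]
    exact hg
  have hcard : ∀ v, ((A v).card : ℝ) ≤ ((K : ℝ) * Real.exp (-(s ^ 2 * m))) * Fintype.card (V → Fin K) := by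
    intro v
    have h3 : ((A v).card : ℝ) ≤ ∑ g : Fin K, ((Finset.univ.filter (fun f : V → Fin K => (1 + 2 * s) * m ≤
      (((G.neighborFinset v).filter (fun u => f u = g)).card : ℝ))).card : ℝ) := by
      exact_mod_cast Finset.card_biUnion_le
    refine h3.trans ?_
    have h4 : ∀ g : Fin K, ((Finset.univ.filter (fun f : V → Fin K => (1 + 2 * s) * m ≤
      (((G.neighborFinset v).filter (fun u => f u = g)).card : ℝ))).card : ℝ) ≤
        Real.exp (-(s ^ 2 * m)) * Fintype.card (V → Fin K) := by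
      intro g
      apply chernoff _ _ _ _ hs0 hs1
      · rw [Fintype.card_fin, SimpleGraph.card_neighborFinset_eq_degree]
        refine le_trans ?_ hm
        exact_mod_cast G.degree_le_maxDegree v
      · rw [Fintype.card_fin]; exact hK
    refine (Finset.sum_le_sum (fun g _ => h4 g)).trans ?_
    rw [Finset.sum_const, Finset.card_univ, Fintype.card_fin, nsmul_eq_mul]
    exact le_of_eq (by ring)
  have hd : ∀ v, (Finset.univ.filter (fun u => u ≠ v ∧ ¬ Disjoint (G.neighborFinset v) (G.neighborFinset u))).card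
      ≤ G.maxDegree ^ 2 := by
    intro v
    have hsub : Finset.univ.filter (fun u => u ≠ v ∧ ¬ Disjoint (G.neighborFinset v) (G.neighborFinset u)) ⊆
        (G.neighborFinset v).biUnion (fun w => G.neighborFinset w) := by
      intro u hu
      simp only [Finset.mem_filter, Finset.mem_univ, true_and] at hu
      rw [Finset.not_disjoint_iff] at hu
      obtain ⟨_, w, hw1, hw2⟩ := hu
      rw [Finset.mem_biUnion]
      refine ⟨w, hw1, ?_⟩
      rw [SimpleGraph.mem_neighborFinset] at hw2 ⊢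
      exact hw2.symm
    refine (Finset.card_le_card hsub).trans (Finset.card_biUnion_le.trans ?_)
    calc ∑ w ∈ G.neighborFinset v, (G.neighborFinset w).card
        ≤ ∑ _w ∈ G.neighborFinset v, G.maxDegree := by
          refine Finset.sum_le_sum (fun w _ => ?_)
          rw [SimpleGraph.card_neighborFinset_eq_degree]
          exact G.degree_le_maxDegree w
      _ = G.degree v * G.maxDegree := by
          rw [Finset.sum_const, SimpleGraph.card_neighborFinset_eq_degree, smul_eq_mul]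
      _ ≤ G.maxDegree ^ 2 := by
          rw [sq]; exact Nat.mul_le_mul_right _ (G.degree_le_maxDegree v)
  obtain ⟨f, hf⟩ := local_lemma A (fun v => G.neighborFinset v) hdep (G.maxDegree ^ 2)
    ((K : ℝ) * Real.exp (-(s ^ 2 * m))) (by positivity) hd hcard
    (by push_cast; exact h1) h2 Fintype.card_pos
  refine ⟨f, fun v g => ?_⟩
  by_contra hcon
  push Not at hcon
  apply hf v
  simp only [A, Finset.mem_biUnion, Finset.mem_filter, Finset.mem_univ, true_and]
  exact ⟨g, hcon⟩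

/-- Choice of the parameters. -/
theorem params (n : ℕ) (hn : 1 ≤ n) (y : ℝ) (hy : 4 < y)
    (hyn : y ^ 3 * Real.log (n + 1) = n) :
    ∃ (K : ℕ) (m s : ℝ), 1 ≤ K ∧ 0 < s ∧ s ≤ 1 ∧ (n : ℝ) ≤ m * K ∧ 0 ≤ m ∧
      4 * ((K : ℝ) * Real.exp (-(s ^ 2 * m))) * (n : ℝ) ^ 2 ≤ 1 ∧
      4 * ((K : ℝ) * Real.exp (-(s ^ 2 * m))) ≤ 1 ∧
      ((K : ℝ) + 2) * ((1 + 2 * s) * m + 1) - 3 ≤ n + 8 * (y ^ 2 * Real.log (n + 1)) := by
  obtain ⟨L, hL⟩ : ∃ L, L = Real.log (n + 1) := ⟨_, rfl⟩
  have hn' : (1 : ℝ) ≤ n := by exact_mod_cast hn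
  have hL69 : (0.69 : ℝ) ≤ L := by
    have h1 : Real.log 2 ≤ L := by
      rw [hL]
      apply Real.log_le_log (by norm_num) (by linarith)
    have := Real.log_two_gt_d9
    linarith
  have hexpL : Real.exp L = n + 1 := by
    rw [hL, Real.exp_log (by linarith)]
  rw [← hL] at hyn ⊢
  clear hL
  have hy0 : 0 < y := by linarith
  obtain ⟨K, hKdef⟩ : ∃ K, K = ⌈y⌉₊ := ⟨_, rfl⟩
  have hK1 : y ≤ K := by rw [hKdef]; exact Nat.le_ceil y
  have hK2 : (K : ℝ) < y + 1 := by rw [hKdef]; exact Nat.ceil_lt_add_one hy0.le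
  have hK5 : 5 ≤ K := by
    by_contra hcon
    push Not at hcon
    have : (K : ℝ) ≤ 4 := by exact_mod_cast (by omega : K ≤ 4)
    linarith
  have hK5' : (5 : ℝ) ≤ K := by exact_mod_cast hK5
  have hK0 : (0 : ℝ) < K := by linarith
  obtain ⟨k, hk⟩ : ∃ k : ℝ, k = K := ⟨_, rfl⟩
  rw [← hk] at hK1 hK2 hK5' hK0
  have hL0 : 0 < L := by linarith
  have hn0 : (0 : ℝ) < n := by linarith
  have hm0 : 0 < (n : ℝ) / k := div_pos hn0 hK0
  obtain ⟨m, hm⟩ : ∃ m : ℝ, m = (n : ℝ) / k := ⟨_, rfl⟩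
  rw [← hm] at hm0
  have hmk : m * k = n := by rw [hm]; field_simp
  -- lower bound on m
  have hmlow : 12 * L ≤ m := by
    have h1 : k ≤ 1.25 * y := by linarith
    have h2 : 12 * L * k ≤ m * k := by
      rw [hmk, ← hyn]
      have h3 : 12 * L * k ≤ 12 * L * (1.25 * y) := mul_le_mul_of_nonneg_left h1 (by positivity)
      have h4 : 16 ≤ y ^ 2 := by nlinarith
      have h5 : 16 * (y * L) ≤ y ^ 2 * (y * L) := mul_le_mul_of_nonneg_right h4 (by positivity)
      have h6 : y ^ 2 * (y * L) = y ^ 3 * L := by ring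
      have h7 : 0 < y * L := by positivity
      nlinarith
    exact le_of_mul_le_mul_right h2 hK0
  obtain ⟨s, hs⟩ : ∃ s : ℝ, s = Real.sqrt (3 * L / m) := ⟨_, rfl⟩
  have hs2 : s ^ 2 = 3 * L / m := by rw [hs]; exact Real.sq_sqrt (by positivity)
  have hs2m : s ^ 2 * m = 3 * L := by rw [hs2]; field_simp
  have hs0 : 0 < s := by rw [hs]; exact Real.sqrt_pos.2 (by positivity)
  have hs1 : s ≤ 1 := by
    have : s ^ 2 ≤ 1 := by
      rw [hs2, div_le_one hm0]; linarith
    nlinarith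
  have hexp : Real.exp (-(s ^ 2 * m)) = 1 / ((n : ℝ) + 1) ^ 3 := by
    rw [hs2m, Real.exp_neg, ← hexpL, ← Real.exp_nat_mul]
    push_cast
    rw [one_div]
  refine ⟨K, m, s, by omega, hs0, hs1, by rw [← hk, hmk], hm0.le, ?_, ?_, ?_⟩
  · rw [hexp, ← hk]
    have h3 : 4 * k ≤ n + 1 := by
      have h1 : k ≤ 1.25 * y := by linarith
      have h4 : 16 ≤ y ^ 2 := by nlinarith
      have h5 : 16 * (y * L) ≤ y ^ 2 * (y * L) := mul_le_mul_of_nonneg_right h4 (by positivity)
      have h6 : y ^ 2 * (y * L) = n := by rw [← hyn]; ring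
      have h7 : y * 0.69 ≤ y * L := mul_le_mul_of_nonneg_left hL69 hy0.le
      linarith
    have h4 : (0:ℝ) < ((n : ℝ) + 1) ^ 3 := by positivity
    have h5 : 4 * (k * (1 / ((n : ℝ) + 1) ^ 3)) * (n : ℝ) ^ 2 = (4 * k * (n:ℝ) ^ 2) / ((n : ℝ) + 1) ^ 3 := by
      field_simp
    rw [h5, div_le_one h4]
    calc 4 * k * (n:ℝ) ^ 2 ≤ (n + 1) * (n : ℝ) ^ 2 := mul_le_mul_of_nonneg_right h3 (by positivity)
      _ ≤ (n + 1) * ((n : ℝ) + 1) ^ 2 := by
          apply mul_le_mul_of_nonneg_left _ (by positivity)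
          nlinarith
      _ = ((n : ℝ) + 1) ^ 3 := by ring
  · rw [hexp, ← hk]
    have h3 : 4 * k ≤ n + 1 := by
      have h1 : k ≤ 1.25 * y := by linarith
      have h4 : 16 ≤ y ^ 2 := by nlinarith
      have h5 : 16 * (y * L) ≤ y ^ 2 * (y * L) := mul_le_mul_of_nonneg_right h4 (by positivity)
      have h6 : y ^ 2 * (y * L) = n := by rw [← hyn]; ring
      have h7 : y * 0.69 ≤ y * L := mul_le_mul_of_nonneg_left hL69 hy0.le
      linarith
    have h4 : (0:ℝ) < ((n : ℝ) + 1) ^ 3 := by positivity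
    have h5 : 4 * (k * (1 / ((n : ℝ) + 1) ^ 3)) = (4 * k) / ((n : ℝ) + 1) ^ 3 := by
      field_simp
    rw [h5, div_le_one h4]
    have h6 : (1:ℝ) ≤ (n + 1) ^ 2 := by nlinarith
    calc 4 * k ≤ (n + 1) * 1 := by linarith
      _ ≤ (n + 1) * ((n : ℝ) + 1) ^ 2 := mul_le_mul_of_nonneg_left h6 (by positivity)
      _ = ((n : ℝ) + 1) ^ 3 := by ring
  · rw [← hk]
    -- E = y^2 L
    obtain ⟨E, hE⟩ : ∃ E : ℝ, E = y ^ 2 * L := ⟨_, rfl⟩
    rw [← hE]
    have hE0 : 0 < E := by rw [hE]; positivity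
    have hnE : (n : ℝ) = y * E := by rw [hE, ← hyn]; ring
    have hmE : m ≤ E := by
      have : m * k ≤ E * k := by
        rw [hmk, hnE, mul_comm E k]
        exact mul_le_mul_of_nonneg_right hK1 hE0.le
      exact le_of_mul_le_mul_right this hK0
    -- s m k ≤ sqrt(3.75) E
    have hsmk : s * m * k ≤ 1.9366 * E := by
      have h1 : (s * m * k) ^ 2 ≤ (1.9366 * E) ^ 2 := by
        have e1 : (s * m * k) ^ 2 = (s ^ 2 * m) * (m * k) * k := by ring
        rw [e1, hs2m, hmk]
        have h1 : k ≤ 1.25 * y := by linarith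
        have h2 : 3 * L * n * k ≤ 3 * L * n * (1.25 * y) := mul_le_mul_of_nonneg_left h1 (by positivity)
        have h3 : 3 * L * n * (1.25 * y) = 3.75 * E ^ 2 := by
          rw [hE, ← hyn]; ring
        have h4 : (1.9366 * E) ^ 2 = 3.75041956 * E ^ 2 := by ring
        rw [h4]
        nlinarith [sq_nonneg E]
      exact abs_le_of_sq_le_sq' h1 (by positivity) |>.2
    have hsm2 : s * m * (k + 2) ≤ 1.4 * (1.9366 * E) := by
      have h1 : k + 2 ≤ 1.4 * k := by linarith
      have h2 : s * m * (k + 2) ≤ s * m * (1.4 * k) := mul_le_mul_of_nonneg_left h1 (by positivity)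
      have h3 : s * m * (1.4 * k) = 1.4 * (s * m * k) := by ring
      linarith
    have hyE : y ≤ 0.3624 * E := by
      rw [hE]
      have h1 : y * 0.69 ≤ y * L := mul_le_mul_of_nonneg_left hL69 hy0.le
      have h2 : 4 * (y * L) ≤ y * (y * L) := mul_le_mul_of_nonneg_right hy.le (by positivity)
      have h3 : y * (y * L) = y ^ 2 * L := by ring
      linarith
    have e1 : (k + 2) * ((1 + 2 * s) * m + 1) - 3 = m * k + 2 * m + 2 * (s * m * (k + 2)) + (k - 1) := by
      ring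
    rw [e1, hmk]
    linarith

end Pool.Agent.H28
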