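import Mathlib
import Pool.Agent.H28.LLL
import Pool.Agent.H28.Asym

/-!
Equitable partition of the vertex set into `4m` groups.
-/

set_option autoImplicit false
set_option linter.unusedSectionVars false

namespace Pool.Agent.H28

open Finset

/-- The two numerical conditions of the local lemma hold for large `n`. -/
theorem large_n (K : ℕ) (c : ℝ) (hc : 0 < c) :
    ∃ N0 : ℕ, ∀ n : ℕ, N0 ≤ n →
      4 * ((K : ℝ) * Real.exp (-(c * n))) * (n : ℝ) ^ 2 ≤ 1 ∧
      4 * ((K : ℝ) * Real.exp (-(c * n))) ≤ 1 := by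
  have h1 : Filter.Tendsto (fun x : ℝ => (4 * (K : ℝ)) * (x ^ 2 * Real.exp (-c * x))) Filter.atTop
      (nhds ((4 * (K : ℝ)) * 0)) := by
    apply Filter.Tendsto.const_mul
    have := Real.tendsto_pow_mul_exp_neg_atTop_nhds_zero 2
    have h2 : Filter.Tendsto (fun x : ℝ => c * x) Filter.atTop Filter.atTop :=
      Filter.tendsto_id.const_mul_atTop hc
    have h3 := this.comp h2
    have h4 : Filter.Tendsto (fun x : ℝ => (1 / c ^ 2) * ((c * x) ^ 2 * Real.exp (-(c * x)))) Filter.atTop
        (nhds ((1 / c ^ 2) * 0)) := h3.const_mul _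
    rw [mul_zero] at h4
    refine h4.congr (fun x => ?_)
    have : -c * x = -(c * x) := by ring
    rw [this]
    field_simp
  rw [mul_zero] at h1
  have h2 := (h1.comp tendsto_natCast_atTop_atTop).eventually (ge_mem_nhds (show (0:ℝ) < 1 by norm_num))
  rw [Filter.eventually_atTop] at h2
  obtain ⟨N1, hN1⟩ := h2
  refine ⟨max N1 1, fun n hn => ?_⟩
  have hn1 : N1 ≤ n := le_trans (le_max_left _ _) hn
  have hn2 : 1 ≤ n := le_trans (le_max_right _ _) hn
  have h3 := hN1 n hn1
  simp only [Function.comp] at h3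
  have e : -c * (n : ℝ) = -(c * n) := by ring
  rw [e] at h3
  have h4 : 4 * ((K : ℝ) * Real.exp (-(c * n))) * (n : ℝ) ^ 2 ≤ 1 := by
    linarith [h3]
  refine ⟨h4, ?_⟩
  have h5 : (1 : ℝ) ≤ (n : ℝ) ^ 2 := by
    have : (1 : ℝ) ≤ n := by exact_mod_cast hn2
    nlinarith
  have h6 : 0 ≤ 4 * ((K : ℝ) * Real.exp (-(c * n))) := by positivity
  nlinarith

theorem groups (m : ℕ) (hm : 1 ≤ m) :
    ∃ N0 : ℕ, ∀ n : ℕ, N0 ≤ n → ∀ (V : Type) [Fintype V] [DecidableEq V] (G : SimpleGraph V),
      (∀ v, (G.neighborSet v).ncard = n) →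
      ∃ f : V → Fin (4 * m), ∀ (v : V) (S : Finset (Fin (4 * m))),
        ((S.card : ℝ) - 1 / 4) * (n / (4 * m)) ≤ ({u | G.Adj v u ∧ f u ∈ S}.ncard : ℝ) ∧
        ({u | G.Adj v u ∧ f u ∈ S}.ncard : ℝ) ≤ ((S.card : ℝ) + 1 / 4) * (n / (4 * m)) := by
  have hm' : (1 : ℝ) ≤ m := by exact_mod_cast hm
  have hm0 : (0 : ℝ) < m := by linarith
  obtain ⟨N0, hN0⟩ := large_n (4 * m) ((1 / (32 * (m : ℝ))) ^ 2 / (4 * m)) (by positivity)
  refine ⟨N0, fun n hn V _ _ G hreg => ?_⟩
  classical
  obtain ⟨h1, h2⟩ := hN0 n hn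
  have hfin : ∀ v, (G.neighborFinset v).card = n := by
    intro v
    rw [← hreg v, ← Set.ncard_coe_finset]
    congr 1
    ext u
    simp
  obtain ⟨μ, hμ⟩ : ∃ μ : ℝ, μ = n / (4 * m) := ⟨_, rfl⟩
  have hμ0 : 0 ≤ μ := by rw [hμ]; positivity
  have hμn : μ * (4 * m) = n := by rw [hμ]; field_simp
  have hmax : (G.maxDegree : ℝ) ≤ n := by
    have : G.maxDegree ≤ n := G.maxDegree_le_of_forall_degree_le n (fun v => by
      rw [← SimpleGraph.card_neighborFinset_eq_degree, hfin v])
    exact_mod_cast this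
  have hexp : (1 / (32 * (m : ℝ))) ^ 2 * μ = (1 / (32 * (m : ℝ))) ^ 2 / (4 * m) * n := by
    rw [hμ]; ring
  obtain ⟨f, hf⟩ := exists_partition G (4 * m) (by omega) μ (1 / (32 * m)) (by positivity)
    (by
      rw [div_le_one (by positivity)]
      linarith) (by
      push_cast
      rw [hμn]
      exact hmax) (by
      rw [hexp]
      refine le_trans ?_ h1
      apply mul_le_mul_of_nonneg_left _ (by positivity)
      have h0 : (0 : ℝ) ≤ G.maxDegree := by positivity
      nlinarith) (by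
      rw [hexp]
      exact h2)
  refine ⟨f, ?_⟩
  rw [← hμ]
  have hU : ∀ v g, (((G.neighborFinset v).filter (fun u => f u = g)).card : ℝ) ≤
      (1 + 1 / (16 * m)) * μ := by
    intro v g
    refine (hf v g).le.trans (le_of_eq ?_)
    congr 1
    field_simp
    ring
  have hup : ∀ (v : V) (S : Finset (Fin (4 * m))),
      (((G.neighborFinset v).filter (fun u => f u ∈ S)).card : ℝ) ≤
        (S.card : ℝ) * ((1 + 1 / (16 * m)) * μ) := by
    intro v S
    have h3 : (G.neighborFinset v).filter (fun u => f u ∈ S) =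
        S.biUnion (fun g => (G.neighborFinset v).filter (fun u => f u = g)) := by
      ext u
      simp only [Finset.mem_filter, Finset.mem_biUnion]
      constructor
      · rintro ⟨g1, g2⟩
        exact ⟨f u, g2, g1, rfl⟩
      · rintro ⟨g, g1, g2, g3⟩
        exact ⟨g2, g3 ▸ g1⟩
    have h4 : (((G.neighborFinset v).filter (fun u => f u ∈ S)).card : ℝ) ≤
        ∑ g ∈ S, (((G.neighborFinset v).filter (fun u => f u = g)).card : ℝ) := by
      rw [h3]
      exact_mod_cast Finset.card_biUnion_le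
    refine h4.trans ((Finset.sum_le_sum (fun g _ => hU v g)).trans ?_)
    rw [Finset.sum_const, nsmul_eq_mul]
  have hset : ∀ (v : V) (S : Finset (Fin (4 * m))), {u | G.Adj v u ∧ f u ∈ S}.ncard =
      ((G.neighborFinset v).filter (fun u => f u ∈ S)).card := by
    intro v S
    rw [← Set.ncard_coe_finset]
    congr 1
    ext u
    simp
  have hcardS : ∀ S : Finset (Fin (4 * m)), (S.card : ℝ) ≤ 4 * m := by
    intro S
    have := Finset.card_le_univ S
    rw [Fintype.card_fin] at this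
    exact_mod_cast this
  have hsmall : ∀ S : Finset (Fin (4 * m)), (S.card : ℝ) * ((1 + 1 / (16 * m)) * μ) ≤
      ((S.card : ℝ) + 1 / 4) * μ := by
    intro S
    have h5 : (S.card : ℝ) * (1 / (16 * m)) ≤ 1 / 4 := by
      have := hcardS S
      rw [mul_one_div, div_le_iff₀ (by positivity)]
      linarith
    have h6 : (S.card : ℝ) * ((1 + 1 / (16 * m)) * μ) = (S.card + S.card * (1 / (16 * m))) * μ := by
      ring
    rw [h6]
    exact mul_le_mul_of_nonneg_right (by linarith) hμ0
  intro v S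
  rw [hset v S]
  refine ⟨?_, (hup v S).trans (hsmall S)⟩
  have h7 := hup v Sᶜ
  have h8 := hsmall Sᶜ
  have h9 : ((G.neighborFinset v).filter (fun u => f u ∈ S)).card +
      ((G.neighborFinset v).filter (fun u => f u ∈ Sᶜ)).card = n := by
    rw [← hfin v, ← Finset.card_filter_add_card_filter_not (s := G.neighborFinset v)
      (fun u => f u ∈ S)]
    congr 2
    ext u
    simp
  have h10 : (S.card : ℝ) + (Sᶜ.card : ℝ) = 4 * m := by
    have := Finset.card_add_card_compl S
    rw [Fintype.card_fin] at this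
    exact_mod_cast this
  have h11 : (((G.neighborFinset v).filter (fun u => f u ∈ S)).card : ℝ) +
      (((G.neighborFinset v).filter (fun u => f u ∈ Sᶜ)).card : ℝ) = n := by
    exact_mod_cast h9
  have h12 : (Sᶜ.card : ℝ) = 4 * m - S.card := by linarith
  rw [h12] at h8
  rw [h12] at h7
  have h13 : ((4 * m - S.card + 1 / 4 : ℝ)) * μ = n - (S.card - 1 / 4) * μ := by
    rw [← hμn]; ring
  linarith

end Pool.Agent.H28
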