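import Mathlib
import Pool.Agent.H28.TutteY

/-!
Maximum layerings of a graph and edge-disjoint matchings covering the layers.
-/

set_option autoImplicit false
set_option linter.unusedSectionVars false

namespace Pool.Agent.H28

open SimpleGraph

variable {V : Type*} [Fintype V] [DecidableEq V]

/-- `j` is a maximum layering of `H[W]`: every class is independent and is a maximum independent
set of the union of the classes from it on. -/
def Layering (H : SimpleGraph V) (W : Finset V) (j : V → ℕ) : Prop :=
  (∀ x ∈ W, ∀ y ∈ W, H.Adj x y → j x ≠ j y) ∧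
  ∀ c, ∀ I ⊆ W, (∀ x ∈ I, c ≤ j x) → (∀ x ∈ I, ∀ y ∈ I, ¬ H.Adj x y) →
    I.card ≤ (W.filter (fun x => j x = c)).card

theorem exists_layering (H : SimpleGraph V) : ∀ (n : ℕ) (W : Finset V), W.card ≤ n →
    ∃ j, Layering H W j := by
  classical
  intro n
  induction n with
  | zero =>
    intro W hW
    have : W = ∅ := Finset.card_eq_zero.1 (by omega)
    subst this
    refine ⟨fun _ => 0, by simp, ?_⟩
    intro c I hI _ _
    have : I = ∅ := Finset.subset_empty.1 hI
    simp [this]
  | succ n ih =>
    intro W hW
    rcases W.eq_empty_or_nonempty with hemp | hne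
    · exact ih W (by rw [hemp]; simp)
    · -- a maximum independent subset
      obtain ⟨I0, hI0, hmax⟩ := Finset.exists_max_image
        (W.powerset.filter (fun I => ∀ x ∈ I, ∀ y ∈ I, ¬ H.Adj x y)) Finset.card
        ⟨∅, by simp⟩
      rw [Finset.mem_filter, Finset.mem_powerset] at hI0
      have hI0ne : I0.Nonempty := by
        obtain ⟨w, hw⟩ := hne
        have h1 := hmax {w} (by
          rw [Finset.mem_filter, Finset.mem_powerset]
          refine ⟨by simpa using hw, ?_⟩
          intro x hx y hy
          rw [Finset.mem_singleton] at hx hy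
          rw [hx, hy]
          exact fun h => h.ne rfl)
        rw [Finset.card_singleton] at h1
        exact Finset.card_pos.1 (by omega)
      have hcard : (W \ I0).card ≤ n := by
        have h1 := Finset.card_sdiff_add_card_eq_card hI0.1
        have h2 := Finset.card_pos.2 hI0ne
        omega
      obtain ⟨j, hj1, hj2⟩ := ih (W \ I0) hcard
      refine ⟨fun x => if x ∈ I0 then 0 else j x + 1, ?_, ?_⟩
      · intro x hx y hy hxy
        by_cases h1 : x ∈ I0
        · by_cases h2 : y ∈ I0
          · exact absurd hxy (hI0.2 x h1 y h2)
          · simp [h1, h2]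
        · by_cases h2 : y ∈ I0
          · simp [h1, h2]
          · simp only [h1, h2, if_false]
            have := hj1 x (Finset.mem_sdiff.2 ⟨hx, h1⟩) y (Finset.mem_sdiff.2 ⟨hy, h2⟩) hxy
            omega
      · intro c I hI hc hind
        rcases Nat.eq_zero_or_pos c with rfl | hcpos
        · have h1 := hmax I (by
            rw [Finset.mem_filter, Finset.mem_powerset]
            exact ⟨hI, hind⟩)
          refine h1.trans (Finset.card_le_card ?_)
          intro x hx
          rw [Finset.mem_filter]
          exact ⟨hI0.1 hx, by simp [hx]⟩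
        · have hI' : I ⊆ W \ I0 := by
            intro x hx
            rw [Finset.mem_sdiff]
            refine ⟨hI hx, fun h => ?_⟩
            have := hc x hx
            simp only [h, if_true] at this
            omega
          have h1 := hj2 (c - 1) I hI' (by
            intro x hx
            have h2 := hc x hx
            have h3 := (Finset.mem_sdiff.1 (hI' hx)).2
            simp only [h3, if_false] at h2
            omega) hind
          refine h1.trans (Finset.card_le_card ?_)
          intro x hx
          rw [Finset.mem_filter] at hx ⊢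
          obtain ⟨h2, h3⟩ := hx
          rw [Finset.mem_sdiff] at h2
          refine ⟨h2.1, ?_⟩
          simp only [h2.2, if_false]
          omega

theorem layering_nbr {H : SimpleGraph V} {W : Finset V} {j : V → ℕ} (hj : Layering H W j)
    {x : V} (hx : x ∈ W) {c : ℕ} (hc : c < j x) : ∃ y ∈ W, H.Adj x y ∧ j y = c := by
  classical
  by_contra hcon
  push Not at hcon
  have hxn : x ∉ W.filter (fun y => j y = c) := by
    rw [Finset.mem_filter]
    rintro ⟨_, h⟩
    omega
  have h1 := hj.2 c (insert x (W.filter (fun y => j y = c)))
    (by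
      intro y hy
      rw [Finset.mem_insert, Finset.mem_filter] at hy
      rcases hy with rfl | hy
      · exact hx
      · exact hy.1)
    (by
      intro y hy
      rw [Finset.mem_insert, Finset.mem_filter] at hy
      rcases hy with rfl | hy
      · exact hc.le
      · exact hy.2.ge)
    (by
      intro y hy z hz hyz
      rw [Finset.mem_insert, Finset.mem_filter] at hy hz
      rcases hy with rfl | hy
      · rcases hz with rfl | hz
        · exact hyz.ne rfl
        · exact hcon z hz.1 hyz hz.2
      · rcases hz with rfl | hz
        · exact hcon y hy.1 hyz.symm hy.2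
        · exact hj.1 y hy.1 z hz.1 hyz (hy.2.trans hz.2.symm))
  rw [Finset.card_insert_of_notMem hxn] at h1
  omega

theorem layering_le {H : SimpleGraph V} {W : Finset V} {j : V → ℕ} (hj : Layering H W j)
    {x : V} (hx : x ∈ W) : j x ≤ {y | H.Adj x y ∧ y ∈ W}.ncard := by
  classical
  have h : ∀ c : ℕ, c < j x → ∃ y, y ∈ W ∧ H.Adj x y ∧ j y = c := by
    intro c hc
    obtain ⟨y, h1, h2, h3⟩ := layering_nbr hj hx hc
    exact ⟨y, h1, h2, h3⟩
  choose f hf1 hf2 hf3 using h
  have hle : (Finset.range (j x)).card ≤ {y | H.Adj x y ∧ y ∈ W}.ncard := by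
    rw [← Set.ncard_coe_finset]
    apply Set.ncard_le_ncard_of_injOn (fun c => if h : c < j x then f c h else x)
    · intro c hc
      have hc' : c < j x := by simpa using hc
      simp only [hc', dif_pos]
      exact ⟨hf2 c hc', hf1 c hc'⟩
    · intro a ha b hb hab
      have ha' : a < j x := by simpa using ha
      have hb' : b < j x := by simpa using hb
      simp only [ha', hb', dif_pos] at hab
      rw [← hf3 a ha', ← hf3 b hb', hab]
  rwa [Finset.card_range] at hle

/-- The recolouring argument. -/
theorem layer_recolour {F : SimpleGraph V} {j : V → ℕ} {t : ℕ} (W0 : Finset V)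
    (hdeg : ∀ w ∈ W0, (F.neighborSet w).ncard + t < j w) :
    ∃ c : V → ℕ, ∀ w ∈ W0, t ≤ c w ∧ c w < j w ∧ (∀ z, F.Adj w z → c w ≠ j z) ∧
      ∀ w' ∈ W0, F.Adj w w' → c w ≠ c w' := by
  classical
  induction W0 using Finset.induction_on_min_value j with
  | empty => exact ⟨fun _ => 0, by simp⟩
  | insert a U haU hmin ih =>
    obtain ⟨c, hc⟩ := ih (fun w hw => hdeg w (Finset.mem_insert_of_mem hw))
    have hda := hdeg a (Finset.mem_insert_self _ _)
    let f : V → ℕ := fun z => if z ∈ U then c z else j z
    have hcard : ((F.neighborSet a).toFinset.image f).card < (Finset.Ico t (j a)).card := by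
      refine lt_of_le_of_lt Finset.card_image_le ?_
      rw [← Set.ncard_eq_toFinset_card', Nat.card_Ico]
      omega
    obtain ⟨γ, hγ, hγ'⟩ := Finset.exists_mem_notMem_of_card_lt_card hcard
    rw [Finset.mem_Ico] at hγ
    have hforb : ∀ z, F.Adj a z → γ ≠ f z := by
      intro z hz heq
      apply hγ'
      rw [Finset.mem_image]
      exact ⟨z, by simpa using hz, heq.symm⟩
    have hU : ∀ w ∈ U, Function.update c a γ w = c w := by
      intro w hw
      rw [Function.update_of_ne]
      rintro rfl
      exact haU hw
    refine ⟨Function.update c a γ, ?_⟩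
    intro w hw
    rw [Finset.mem_insert] at hw
    rcases hw with rfl | hw
    · rw [Function.update_self]
      refine ⟨hγ.1, hγ.2, ?_, ?_⟩
      · intro z hz heq
        by_cases hzU : z ∈ U
        · have := hmin z hzU
          omega
        · have := hforb z hz
          simp only [f, if_neg hzU] at this
          exact this heq
      · intro w' hw' hadj
        rw [Finset.mem_insert] at hw'
        rcases hw' with rfl | hw'
        · exact absurd rfl hadj.ne
        · rw [hU w' hw']
          have := hforb w' hadj
          simp only [f, if_pos hw'] at this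
          exact this
    · rw [hU w hw]
      obtain ⟨h1, h2, h3, h4⟩ := hc w hw
      refine ⟨h1, h2, h3, ?_⟩
      intro w' hw' hadj
      rw [Finset.mem_insert] at hw'
      rcases hw' with rfl | hw'
      · rw [Function.update_self]
        have := hforb w hadj.symm
        simp only [f, if_pos hw] at this
        exact this.symm
      · rw [hU w' hw']
        exact h4 w' hw' hadj

/-- **The covering lemma for maximum layerings.** There are edge-disjoint matchings `L_t`,
`L_t` between vertices of layers `≥ t`, covering every vertex `x` at least `j x` times. -/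
theorem layer_cover (H : SimpleGraph V) (W : Finset V) (j : V → ℕ) (hj : Layering H W j) :
    ∀ (n t : ℕ), (∀ x ∈ W, j x < t + n) →
    ∃ (F : SimpleGraph V) (lab : Sym2 V → ℕ),
      (∀ x y, F.Adj x y → H.Adj x y ∧ x ∈ W ∧ y ∈ W ∧ t ≤ lab s(x, y) ∧ lab s(x, y) ≤ j x) ∧
      (∀ x y z, F.Adj x y → F.Adj x z → y ≠ z → lab s(x, y) ≠ lab s(x, z)) ∧
      (∀ x ∈ W, j x ≤ (F.neighborSet x).ncard + t) := by
  classical
  intro n
  induction n with
  | zero =>
    intro t ht
    refine ⟨⊥, fun _ => 0, fun x y h => absurd h (by simp), fun x y z h => absurd h (by simp), ?_⟩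
    intro x hx
    have := ht x hx
    omega
  | succ n ih =>
    intro t ht
    obtain ⟨F1, lab1, h1, h2, h3⟩ := ih (t + 1) (fun x hx => by have := ht x hx; omega)
    let Γ : SimpleGraph V :=
      { Adj := fun x y => H.Adj x y ∧ x ∈ W ∧ y ∈ W ∧ t ≤ j x ∧ t ≤ j y ∧ ¬ F1.Adj x y
        symm := ⟨fun x y h => ⟨h.1.symm, h.2.2.1, h.2.1, h.2.2.2.2.1, h.2.2.2.1,
          fun h' => h.2.2.2.2.2 h'.symm⟩⟩
        loopless := ⟨fun x h => h.1.ne rfl⟩ }
    let Y : Set V := {x | x ∈ W ∧ t + 1 ≤ j x ∧ (F1.neighborSet x).ncard + t < j x}
    by_cases hM : ∃ M : Γ.Subgraph, M.IsMatching ∧ Y ⊆ M.verts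
    · obtain ⟨M, hM, hYM⟩ := hM
      let F : SimpleGraph V :=
        { Adj := fun x y => F1.Adj x y ∨ M.Adj x y
          symm := ⟨fun x y h => h.elim (fun h => Or.inl h.symm) (fun h => Or.inr h.symm)⟩
          loopless := ⟨fun x h => h.elim (fun h => h.ne rfl) (fun h => h.adj_sub.ne rfl)⟩ }
      let lab : Sym2 V → ℕ := fun e => if e ∈ M.edgeSet then t else lab1 e
      have hlabM : ∀ x y, M.Adj x y → lab s(x, y) = t := by
        intro x y hxy
        simp only [lab]
        rw [if_pos (Subgraph.mem_edgeSet.2 hxy)]
      have hlab1 : ∀ x y, ¬ M.Adj x y → lab s(x, y) = lab1 s(x, y) := by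
        intro x y hxy
        simp only [lab]
        rw [if_neg (fun h => hxy (Subgraph.mem_edgeSet.1 h))]
      have hMF : ∀ x y, M.Adj x y → ¬ F1.Adj x y := fun x y hxy => hxy.adj_sub.2.2.2.2.2
      refine ⟨F, lab, ?_, ?_, ?_⟩
      · intro x y hxy
        by_cases hm : M.Adj x y
        · rw [hlabM x y hm]
          obtain ⟨g1, g2, g3, g4, g5, _⟩ := hm.adj_sub
          exact ⟨g1, g2, g3, le_rfl, g4⟩
        · rw [hlab1 x y hm]
          rcases hxy with hxy | hxy
          · obtain ⟨g1, g2, g3, g4, g5⟩ := h1 x y hxy
            exact ⟨g1, g2, g3, by omega, g5⟩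
          · exact absurd hxy hm
      · have key : ∀ x y z, F.Adj x y → F.Adj x z → y ≠ z → M.Adj x y → ¬ M.Adj x z →
            lab s(x, y) ≠ lab s(x, z) := by
          intro x y z hxy hxz hyz hm1 hm2
          rw [hlabM x y hm1, hlab1 x z hm2]
          rcases hxz with hxz | hxz
          · have := (h1 x z hxz).2.2.2.1
            omega
          · exact absurd hxz hm2
        intro x y z hxy hxz hyz
        by_cases hm1 : M.Adj x y
        · by_cases hm2 : M.Adj x z
          · exact absurd (hM.eq_of_adj_left hm1 hm2) hyz
          · exact key x y z hxy hxz hyz hm1 hm2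
        · by_cases hm2 : M.Adj x z
          · exact (key x z y hxz hxy hyz.symm hm2 hm1).symm
          · rw [hlab1 x y hm1, hlab1 x z hm2]
            exact h2 x y z (hxy.resolve_right hm1) (hxz.resolve_right hm2) hyz
      · intro x hx
        have hsub : F1.neighborSet x ⊆ F.neighborSet x := fun y hy => Or.inl hy
        have hle := Set.ncard_le_ncard hsub (Set.toFinite _)
        by_cases hxY : x ∈ Y
        · obtain ⟨y, hy, _⟩ := hM (hYM hxY)
          have h4 : (insert y (F1.neighborSet x)) ⊆ F.neighborSet x := by
            intro z hz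
            rw [Set.mem_insert_iff] at hz
            rcases hz with rfl | hz
            · exact Or.inr hy
            · exact Or.inl hz
          have h5 := Set.ncard_le_ncard h4 (Set.toFinite _)
          have hnot : y ∉ F1.neighborSet x := fun h => hMF x y hy h
          rw [Set.ncard_insert_of_notMem hnot] at h5
          have := h3 x hx
          omega
        · by_cases hjx : t + 1 ≤ j x
          · have : ¬ ((F1.neighborSet x).ncard + t < j x) := fun h => hxY ⟨hx, hjx, h⟩
            omega
          · omega
    · exfalso
      obtain ⟨S, Q, hSQ, hQ1, hQ2, hQ3⟩ := tutteY Γ Y hM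
      -- representatives of minimal layer
      have hrep : ∀ q : Finset V, ∃ r : V, q ∈ Q → r ∈ q ∧ ∀ z ∈ q, j r ≤ j z := by
        intro q
        by_cases hq : q ∈ Q
        · obtain ⟨r, hr, hr'⟩ := Finset.exists_min_image q j (hQ1 q hq)
          exact ⟨r, fun _ => ⟨hr, hr'⟩⟩
        · obtain ⟨q0, hq0⟩ : Q.Nonempty := Finset.card_pos.1 (by omega)
          obtain ⟨r, _⟩ := hQ1 q0 hq0
          exact ⟨r, fun h => absurd h hq⟩
      choose r hr using hrep
      have hr1 : ∀ q ∈ Q, r q ∈ q := fun q hq => (hr q hq).1
      have hr2 : ∀ q ∈ Q, ∀ z ∈ q, j (r q) ≤ j z := fun q hq => (hr q hq).2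
      let W0 := Q.image r
      have hW0card : W0.card = Q.card := by
        apply Finset.card_image_of_injOn
        intro q hq q' hq' heq
        by_contra hne
        have := hQ3 q hq q' hq' hne
        rw [Finset.disjoint_left] at this
        have h5 : r q ∈ q' := by
          have e1 : r q = r q' := heq
          rw [e1]; exact hr1 q' hq'
        exact this (hr1 q hq) h5
      have hW0Y : ∀ w ∈ W0, w ∈ Y := by
        intro w hw
        rw [Finset.mem_image] at hw
        obtain ⟨q, hq, rfl⟩ := hw
        exact (hQ2 q hq _ (hr1 q hq)).1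
      obtain ⟨c, hc⟩ := layer_recolour (F := F1) (j := j) (t := t) W0 (fun w hw => (hW0Y w hw).2.2)
      -- adjacency facts
      have hF1 : ∀ w ∈ W0, ∀ z ∈ W, H.Adj w z → t ≤ j z → j z < j w → z ∉ S → F1.Adj w z := by
        intro w hw z hz hwz htz hzw hzS
        rw [Finset.mem_image] at hw
        obtain ⟨q, hq, rfl⟩ := hw
        by_contra hcon
        have hY := (hQ2 q hq _ (hr1 q hq))
        have hΓ : Γ.Adj (r q) z := ⟨hwz, hY.1.1, hz, by have := hY.1.2.1; omega, htz, hcon⟩
        rcases hY.2.2 z hΓ with h | h
        · have := hr2 q hq z h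
          omega
        · exact hzS h
      have hF2 : ∀ w ∈ W0, ∀ w' ∈ W0, H.Adj w w' → F1.Adj w w' := by
        intro w hw w' hw' hadj
        rw [Finset.mem_image] at hw hw'
        obtain ⟨q, hq, rfl⟩ := hw
        obtain ⟨q', hq', rfl⟩ := hw'
        by_contra hcon
        have hY := (hQ2 q hq _ (hr1 q hq))
        have hY' := (hQ2 q' hq' _ (hr1 q' hq'))
        have hΓ : Γ.Adj (r q) (r q') := ⟨hadj, hY.1.1, hY'.1.1, by have := hY.1.2.1; omega,
          by have := hY'.1.2.1; omega, hcon⟩
        rcases hY.2.2 _ hΓ with h | h
        · by_cases hqq : q = q'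
          · subst hqq
            exact hadj.ne rfl
          · exact (Finset.disjoint_left.1 (hQ3 q hq q' hq' hqq)) h (hr1 q' hq')
        · exact hY'.2.1 h
      have hclass : ∀ γ, (W0.filter (fun w => c w = γ)).card ≤ (S.filter (fun x => j x = γ)).card := by
        intro γ
        let Lγ := W.filter (fun x => j x = γ)
        have hdisj : Disjoint (Lγ \ S) (W0.filter (fun w => c w = γ)) := by
          rw [Finset.disjoint_left]
          intro x hx hx'
          rw [Finset.mem_sdiff, Finset.mem_filter] at hx
          rw [Finset.mem_filter] at hx'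
          have := (hc x hx'.1).2.1
          omega
        have hle := hj.2 γ ((Lγ \ S) ∪ (W0.filter (fun w => c w = γ)))
          (by
            intro x hx
            rw [Finset.mem_union, Finset.mem_sdiff, Finset.mem_filter, Finset.mem_filter] at hx
            rcases hx with hx | hx
            · exact hx.1.1
            · exact (hW0Y x hx.1).1)
          (by
            intro x hx
            rw [Finset.mem_union, Finset.mem_sdiff, Finset.mem_filter, Finset.mem_filter] at hx
            rcases hx with hx | hx
            · exact hx.1.2.ge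
            · have := (hc x hx.1).2.1
              omega)
          (by
            intro x hx y hy hxy
            rw [Finset.mem_union, Finset.mem_sdiff, Finset.mem_filter, Finset.mem_filter] at hx hy
            rcases hx with hx | hx
            · rcases hy with hy | hy
              · exact hj.1 x hx.1.1 y hy.1.1 hxy (hx.1.2.trans hy.1.2.symm)
              · have g1 := hc y hy.1
                have g2 := hF1 y hy.1 x hx.1.1 hxy.symm (by have := g1.1; omega)
                  (by have := g1.2.1; omega) hx.2
                exact g1.2.2.1 x g2 (hy.2.trans hx.1.2.symm)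
            · rcases hy with hy | hy
              · have g1 := hc x hx.1
                have g2 := hF1 x hx.1 y hy.1.1 hxy (by have := g1.1; omega)
                  (by have := g1.2.1; omega) hy.2
                exact g1.2.2.1 y g2 (hx.2.trans hy.1.2.symm)
              · exact (hc x hx.1).2.2.2 y hy.1 (hF2 x hx.1 y hy.1 hxy) (hx.2.trans hy.2.symm))
        rw [Finset.card_union_of_disjoint hdisj] at hle
        have hsplit : (Lγ \ S).card + (Lγ ∩ S).card = Lγ.card := Finset.card_sdiff_add_card_inter _ _
        have hle2 : (Lγ ∩ S).card ≤ (S.filter (fun x => j x = γ)).card := by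
          apply Finset.card_le_card
          intro x hx
          rw [Finset.mem_inter, Finset.mem_filter] at hx
          rw [Finset.mem_filter]
          exact ⟨hx.2, hx.1.2⟩
        have e1 : (W.filter (fun x => j x = γ)).card = Lγ.card := rfl
        omega
      have hsum : W0.card ≤ S.card := by
        have hmaps : ∀ w ∈ W0, c w ∈ Finset.range (t + (n + 1)) := by
          intro w hw
          rw [Finset.mem_range]
          have g1 := (hc w hw).2.1
          have g2 := ht w (hW0Y w hw).1
          omega
        rw [Finset.card_eq_sum_card_fiberwise hmaps]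
        have h5 : ∑ γ ∈ Finset.range (t + (n + 1)), (S.filter (fun x => j x = γ)).card ≤ S.card := by
          have h6 : ∑ γ ∈ Finset.range (t + (n + 1)), (S.filter (fun x => j x = γ)).card =
              ((S.filter (fun x => j x ∈ Finset.range (t + (n + 1))))).card := by
            rw [Finset.card_eq_sum_card_fiberwise (f := j) (t := Finset.range (t + (n + 1)))]
            · refine Finset.sum_congr rfl (fun γ hγ => ?_)
              congr 1
              ext x
              simp only [Finset.mem_filter]
              constructor
              · rintro ⟨g1, g2⟩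
                exact ⟨⟨g1, by rw [g2]; exact hγ⟩, g2⟩
              · rintro ⟨⟨g1, _⟩, g2⟩
                exact ⟨g1, g2⟩
            · intro x hx
              exact (Finset.mem_filter.1 hx).2
          rw [h6]
          exact Finset.card_filter_le _ _
        exact (Finset.sum_le_sum (fun γ _ => hclass γ)).trans h5
      omega

end Pool.Agent.H28
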