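import Mathlib
import Pool.Agent.H28.Scheme
import Pool.Agent.H28.VAL
import Pool.Agent.H28.Layer

/-!
Preparatory lemmas: class assignment, saturating matchings, the use of the adjacency lemma.
-/

set_option autoImplicit false
set_option linter.unusedSectionVars false

namespace Pool.Agent.H28

open SimpleGraph

variable {V : Type*} [Fintype V] [DecidableEq V]

/-- Assignment of classes: the set `B0` may receive the class `≥ p` only if blocked. -/
theorem class_assign (G : SimpleGraph V) (A b B0 : Set V) (a1 a p : ℕ) (hAb : A ⊆ b)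
    (hB0 : ∀ v ∈ b, v ∉ B0) (h1 : 1 ≤ a1) (h2 : a1 < a) (h3 : a < p)
    (hA : ∀ v ∈ A, {u | G.Adj v u ∧ u ∈ A}.ncard < a1)
    (hb : ∀ v ∈ b, v ∉ A → {u | G.Adj v u ∧ u ∈ b ∧ u ∉ A}.ncard < a - a1)
    (ht : ∀ v, v ∉ b → v ∉ B0 → {u | G.Adj v u ∧ u ∉ b ∧ u ∉ B0}.ncard < p - a) :
    ∃ cl : V → ℕ, (∀ v ∈ A, cl v < a1) ∧ (∀ v ∈ b, cl v < a) ∧ (∀ v, v ∉ B0 → cl v < p) ∧
      (∀ u v, G.Adj u v → cl u < p → cl v < p → cl u ≠ cl v) ∧
      (∀ x, p ≤ cl x → ∀ i, i < p → ∃ v, G.Adj x v ∧ cl v = i) := by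
  classical
  obtain ⟨cA, hcA, hcA'⟩ := greedy (fun u v : V => G.Adj u v ∧ u ∈ A ∧ v ∈ A)
    (fun u v h => ⟨h.1.symm, h.2.2, h.2.1⟩) a1 (by
      intro v
      by_cases hv : v ∈ A
      · refine lt_of_le_of_lt (Set.ncard_le_ncard ?_ (Set.toFinite _)) (hA v hv)
        rintro u ⟨g1, _, g3⟩
        exact ⟨g1, g3⟩
      · have : {u | G.Adj v u ∧ v ∈ A ∧ u ∈ A} = ∅ := by
          rw [Set.eq_empty_iff_forall_notMem]
          rintro u ⟨_, g, _⟩
          exact hv g
        rw [this, Set.ncard_empty]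
        omega)
  obtain ⟨c2, hc2, hc2'⟩ := greedy (fun u v : V => G.Adj u v ∧ (u ∈ b ∧ u ∉ A) ∧ (v ∈ b ∧ v ∉ A))
    (fun u v h => ⟨h.1.symm, h.2.2, h.2.1⟩) (a - a1) (by
      intro v
      by_cases hv : v ∈ b ∧ v ∉ A
      · refine lt_of_le_of_lt (Set.ncard_le_ncard ?_ (Set.toFinite _)) (hb v hv.1 hv.2)
        rintro u ⟨g1, _, g3⟩
        exact ⟨g1, g3⟩
      · have : {u | G.Adj v u ∧ (v ∈ b ∧ v ∉ A) ∧ (u ∈ b ∧ u ∉ A)} = ∅ := by
          rw [Set.eq_empty_iff_forall_notMem]
          rintro u ⟨_, g, _⟩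
          exact hv g
        rw [this, Set.ncard_empty]
        omega)
  obtain ⟨c3, hc3, hc3'⟩ := greedy (fun u v : V => G.Adj u v ∧ (u ∉ b ∧ u ∉ B0) ∧ (v ∉ b ∧ v ∉ B0))
    (fun u v h => ⟨h.1.symm, h.2.2, h.2.1⟩) (p - a) (by
      intro v
      by_cases hv : v ∉ b ∧ v ∉ B0
      · refine lt_of_le_of_lt (Set.ncard_le_ncard ?_ (Set.toFinite _)) (ht v hv.1 hv.2)
        rintro u ⟨g1, _, g3⟩
        exact ⟨g1, g3⟩
      · have : {u | G.Adj v u ∧ (v ∉ b ∧ v ∉ B0) ∧ (u ∉ b ∧ u ∉ B0)} = ∅ := by
          rw [Set.eq_empty_iff_forall_notMem]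
          rintro u ⟨_, g, _⟩
          exact hv g
        rw [this, Set.ncard_empty]
        omega)
  obtain ⟨c0, hc0⟩ : ∃ c0 : V → ℕ, ∀ v, c0 v = if v ∈ A then cA v else if v ∈ b then a1 + c2 v
      else a + c3 v := ⟨_, fun _ => rfl⟩
  have e1 : ∀ v ∈ A, c0 v = cA v := fun v hv => by rw [hc0, if_pos hv]
  have e2 : ∀ v ∈ b, v ∉ A → c0 v = a1 + c2 v := fun v hv hv' => by rw [hc0, if_neg hv', if_pos hv]
  have e3 : ∀ v, v ∉ b → c0 v = a + c3 v := fun v hv => by
    rw [hc0, if_neg (fun h => hv (hAb h)), if_neg hv]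
  -- the family of admissible assignments
  let Adm : (V → ℕ) → Prop := fun cl => (∀ v, v ∉ B0 → cl v = c0 v) ∧
    (∀ u v, G.Adj u v → cl u < p → cl v < p → cl u ≠ cl v)
  have hex : ∃ k, ∃ cl, Adm cl ∧ (Finset.univ.filter (fun v => p ≤ cl v)).card = k := by
    refine ⟨_, fun v => if v ∈ B0 then p else c0 v, ⟨?_, ?_⟩, rfl⟩
    · intro v hv
      simp only [if_neg hv]
    · intro u v huv hu hv
      by_cases hu0 : u ∈ B0
      · simp only [if_pos hu0] at hu
        omega
      · by_cases hv0 : v ∈ B0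
        · simp only [if_pos hv0] at hv
          omega
        · simp only [if_neg hu0, if_neg hv0]
          by_cases huA : u ∈ A
          · by_cases hvA : v ∈ A
            · rw [e1 u huA, e1 v hvA]
              exact hcA' u v huv.ne ⟨huv, huA, hvA⟩
            · have := hcA u
              rw [e1 u huA]
              by_cases hvb : v ∈ b
              · rw [e2 v hvb hvA]; omega
              · rw [e3 v hvb]; omega
          · by_cases hub : u ∈ b
            · rw [e2 u hub huA]
              have := hc2 u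
              by_cases hvA : v ∈ A
              · rw [e1 v hvA]; have := hcA v; omega
              · by_cases hvb : v ∈ b
                · rw [e2 v hvb hvA]
                  have := hc2' u v huv.ne ⟨huv, ⟨hub, huA⟩, ⟨hvb, hvA⟩⟩
                  omega
                · rw [e3 v hvb]; omega
            · rw [e3 u hub]
              by_cases hvA : v ∈ A
              · rw [e1 v hvA]; have := hcA v; omega
              · by_cases hvb : v ∈ b
                · rw [e2 v hvb hvA]; have := hc2 v; omega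
                · rw [e3 v hvb]
                  have := hc3' u v huv.ne ⟨huv, ⟨hub, hu0⟩, ⟨hvb, hv0⟩⟩
                  omega
  obtain ⟨cl, ⟨hcl1, hcl2⟩, hclk⟩ := Nat.find_spec hex
  have hmin : ∀ cl', Adm cl' → (Finset.univ.filter (fun v => p ≤ cl v)).card ≤
      (Finset.univ.filter (fun v => p ≤ cl' v)).card := by
    intro cl' h'
    rw [hclk]
    exact Nat.find_min' hex ⟨cl', h', rfl⟩
  refine ⟨cl, ?_, ?_, ?_, hcl2, ?_⟩
  · intro v hv
    rw [hcl1 v (hB0 v (hAb hv)), e1 v hv]
    exact hcA v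
  · intro v hv
    rw [hcl1 v (hB0 v hv)]
    by_cases hvA : v ∈ A
    · rw [e1 v hvA]; have := hcA v; omega
    · rw [e2 v hv hvA]; have := hc2 v; omega
  · intro v hv
    rw [hcl1 v hv]
    by_cases hvA : v ∈ A
    · rw [e1 v hvA]; have := hcA v; omega
    · by_cases hvb : v ∈ b
      · rw [e2 v hvb hvA]; have := hc2 v; omega
      · rw [e3 v hvb]; have := hc3 v; omega
  · intro x hx i hi
    by_contra hcon
    push Not at hcon
    have hxB : x ∈ B0 := by
      by_contra hxB
      have h4 := hcl1 x hxB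
      have h5 : c0 x < p := by
        by_cases hvA : x ∈ A
        · rw [e1 x hvA]; have := hcA x; omega
        · by_cases hvb : x ∈ b
          · rw [e2 x hvb hvA]; have := hc2 x; omega
          · rw [e3 x hvb]; have := hc3 x; omega
      omega
    have hadm : Adm (Function.update cl x i) := by
      refine ⟨?_, ?_⟩
      · intro v hv
        rw [Function.update_of_ne (fun h : v = x => hv (by rw [h]; exact hxB))]
        exact hcl1 v hv
      · intro u v huv hu hv
        by_cases hux : u = x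
        · subst hux
          have hvu : v ≠ u := huv.ne'
          rw [Function.update_self, Function.update_of_ne hvu]
          exact fun h => hcon v huv h.symm
        · by_cases hvx : v = x
          · subst hvx
            rw [Function.update_self, Function.update_of_ne hux]
            exact hcon u huv.symm
          · rw [Function.update_of_ne hux, Function.update_of_ne hvx] at *
            exact hcl2 u v huv hu hv
    have hlt : (Finset.univ.filter (fun v => p ≤ Function.update cl x i v)).card <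
        (Finset.univ.filter (fun v => p ≤ cl v)).card := by
      apply Finset.card_lt_card
      rw [Finset.ssubset_iff_of_subset]
      · refine ⟨x, ?_, ?_⟩
        · simpa using hx
        · simpa using hi
      · intro v hv
        simp only [Finset.mem_filter, Finset.mem_univ, true_and] at hv ⊢
        by_cases hvx : v = x
        · rw [hvx]; exact hx
        · rwa [Function.update_of_ne hvx] at hv
    have := hmin _ hadm
    omega

/-- Edge-disjoint matchings saturating `T` in a bipartite relation. -/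
theorem saturate (R : V → V → Prop) (T : Set V) (q : ℕ)
    (hrow : ∀ a ∈ T, q ≤ {b | R a b}.ncard) (hcol : ∀ b, {a | a ∈ T ∧ R a b}.ncard ≤ q) :
    ∃ (E : V → V → Prop) (c : V → V → ℕ), (∀ a b, E a b → R a b ∧ a ∈ T ∧ c a b < q) ∧
      (∀ a b b', E a b → E a b' → b ≠ b' → c a b ≠ c a b') ∧
      (∀ a a' b, E a b → E a' b → a ≠ a' → c a b ≠ c a' b) ∧
      (∀ a ∈ T, ∀ i, i < q → ∃ b, E a b ∧ c a b = i) := by
  classical
  have hsub : ∀ a, ∃ N : Finset V, a ∈ T → N.card = q ∧ ∀ b ∈ N, R a b := by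
    intro a
    by_cases ha : a ∈ T
    · have h := hrow a ha
      rw [Set.ncard_eq_toFinset_card'] at h
      obtain ⟨N, hN1, hN2⟩ := Finset.exists_subset_card_eq h
      refine ⟨N, fun _ => ⟨hN2, fun b hb => ?_⟩⟩
      have := hN1 hb
      simpa using this
    · exact ⟨∅, fun h => absurd h ha⟩
  choose N hN using hsub
  obtain ⟨c, hc1, hc2, hc3⟩ := konig (fun a b => a ∈ T ∧ b ∈ N a) q
    (by
      intro a
      by_cases ha : a ∈ T
      · have : {b | a ∈ T ∧ b ∈ N a} = (N a : Set V) := by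
          ext b
          exact ⟨fun h => h.2, fun h => ⟨ha, h⟩⟩
        rw [this, Set.ncard_coe_finset, (hN a ha).1]
      · have : {b | a ∈ T ∧ b ∈ N a} = ∅ := by
          rw [Set.eq_empty_iff_forall_notMem]
          exact fun b h => ha h.1
        rw [this, Set.ncard_empty]
        exact Nat.zero_le _)
    (by
      intro b
      refine (Set.ncard_le_ncard ?_ (Set.toFinite _)).trans (hcol b)
      rintro a ⟨ha, hb⟩
      exact ⟨ha, (hN a ha).2 b hb⟩)
  refine ⟨fun a b => a ∈ T ∧ b ∈ N a, c, ?_, hc2, hc3, ?_⟩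
  · rintro a b ⟨ha, hb⟩
    exact ⟨(hN a ha).2 b hb, ha, hc1 a b ⟨ha, hb⟩⟩
  · intro a ha i hi
    have hinj : Set.InjOn (fun b => c a b) (N a : Set V) := by
      intro b hb b' hb' hbb
      by_contra hne
      exact hc2 a b b' ⟨ha, hb⟩ ⟨ha, hb'⟩ hne hbb
    have himg : (N a).image (fun b => c a b) = Finset.range q := by
      apply Finset.eq_of_subset_of_card_le
      · intro k hk
        rw [Finset.mem_image] at hk
        obtain ⟨b, hb, rfl⟩ := hk
        rw [Finset.mem_range]
        exact hc1 a b ⟨ha, hb⟩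
      · rw [Finset.card_range, Finset.card_image_of_injOn hinj, (hN a ha).1]
    have hi' : i ∈ (N a).image (fun b => c a b) := by
      rw [himg, Finset.mem_range]; exact hi
    rw [Finset.mem_image] at hi'
    obtain ⟨b, hb, hb'⟩ := hi'
    exact ⟨b, ⟨ha, hb⟩, hb'⟩

/-- Application of the adjacency lemma. -/
theorem val_app (G4 : SimpleGraph V) (p r : ℕ) (B A : Set V)
    (h1 : ∀ v, (G4.neighborSet v).ncard ≤ p)
    (h2 : ∀ v, v ∉ B → (G4.neighborSet v).ncard < p)
    (h3 : ∀ v ∈ A, (G4.neighborSet v).ncard + r ≤ p)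
    (h4 : ∀ w ∈ B, ∃ y ∈ A, G4.Adj w y)
    (h5 : ∀ w ∈ B, {z | G4.Adj w z ∧ z ∈ B}.ncard ≤ r) : ECol G4 p := by
  by_contra hG
  obtain ⟨H, hHG, hH, hcrit⟩ := exists_critical hG
  have hsub : ∀ v, H.neighborSet v ⊆ G4.neighborSet v := fun v w hw => hHG hw
  have hdegH : ∀ v, (H.neighborSet v).ncard ≤ (G4.neighborSet v).ncard := fun v =>
    Set.ncard_le_ncard (hsub v) (Set.toFinite _)
  have hdegp : ∀ v, (H.neighborSet v).ncard ≤ p := fun v => (hdegH v).trans (h1 v)
  have hinB : ∀ v, (H.neighborSet v).ncard = p → v ∈ B := by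
    intro v hv
    by_contra hvB
    have := h2 v hvB
    have := hdegH v
    omega
  by_cases hE : ∃ x y, H.Adj x y
  · obtain ⟨x, y, hxy⟩ := hE
    have hval := val hdegp hxy hH (hcrit x y hxy)
    have hy := hdegp y
    have hpos : 0 < {z | H.Adj x z ∧ z ≠ y ∧ (H.neighborSet z).ncard = p}.ncard := by omega
    obtain ⟨z, hz⟩ := (Set.ncard_pos (Set.toFinite _)).1 hpos
    have hzp : (H.neighborSet z).ncard = p := hz.2.2
    have hzB := hinB z hzp
    have heq : H.neighborSet z = G4.neighborSet z := by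
      apply Set.eq_of_subset_of_ncard_le (hsub z) _ (Set.toFinite _)
      rw [hzp]; exact h1 z
    obtain ⟨w, hwA, hzw⟩ := h4 z hzB
    have hzw' : H.Adj z w := by
      have : w ∈ H.neighborSet z := by rw [heq]; exact hzw
      exact this
    have hval2 := val hdegp hzw' hH (hcrit z w hzw')
    have h6 := h3 w hwA
    have h7 := hdegH w
    have h8 : {z' | H.Adj z z' ∧ z' ≠ w ∧ (H.neighborSet z').ncard = p}.ncard ≤
        {z' | G4.Adj z z' ∧ z' ∈ B}.ncard := by
      apply Set.ncard_le_ncard _ (Set.toFinite _)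
      rintro z' ⟨g1, _, g3⟩
      exact ⟨hHG g1, hinB z' g3⟩
    have h9 := h5 z hzB
    omega
  · push Not at hE
    exact hH ⟨fun _ => 0, fun u v huv => absurd huv (hE u v), fun u v _ huv => absurd huv (hE u v)⟩

end Pool.Agent.H28
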