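import Mathlib
import Pool.Agent.H28.Core1

/-!
The deterministic core of the theorem on `p ≥ (3/4+ε)Δ`.
-/

set_option autoImplicit false
set_option linter.unusedSectionVars false

namespace Pool.Agent.H28

open SimpleGraph

variable {V : Type*} [Fintype V] [DecidableEq V]

theorem core (G : SimpleGraph V) (n p r a1 a q : ℕ) (A b1 b2 B0 : Set V)
    (hn : p + r = n) (hrp : r < p) (hreg : ∀ v, (G.neighborSet v).ncard = n)
    (hAb : A ⊆ b1) (h12 : ∀ v ∈ b1, v ∉ b2) (hB1 : ∀ v ∈ b1, v ∉ B0) (hB2 : ∀ v ∈ b2, v ∉ B0)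
    (ha1 : 1 ≤ a1) (ha2 : 2 * a1 ≤ a) (hap : a < p)
    (H1 : ∀ v ∈ A, {u | G.Adj v u ∧ u ∈ A}.ncard < a1)
    (H2 : ∀ v ∈ b1 ∪ b2, v ∉ A → {u | G.Adj v u ∧ u ∈ b1 ∪ b2 ∧ u ∉ A}.ncard < a - a1)
    (H3 : ∀ v, v ∉ b1 ∪ b2 → v ∉ B0 → {u | G.Adj v u ∧ u ∉ b1 ∪ b2 ∧ u ∉ B0}.ncard < p - a)
    (H5 : ∀ v ∈ b1, {u | G.Adj v u ∧ u ∈ b2}.ncard ≤ p - a)
    (H5' : ∀ v ∈ b2, {u | G.Adj v u ∧ u ∈ b1}.ncard ≤ p - a)
    (H6 : ∀ v ∈ b1, r + 1 ≤ {u | G.Adj v u ∧ u ∈ b2}.ncard)
    (H6' : ∀ v ∈ b2, r + 1 ≤ {u | G.Adj v u ∧ u ∈ b1}.ncard)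
    (H7 : ∀ v ∈ A, 2 * r ≤ {u | G.Adj v u ∧ u ∈ b2}.ncard + {u | G.Adj v u ∧ u ∈ A}.ncard)
    (H8 : ∀ v, v ∉ b1 ∪ b2 → q ≤ {u | G.Adj v u ∧ u ∈ b1 ∪ b2}.ncard)
    (H8' : ∀ v ∈ b1 ∪ b2, {u | G.Adj v u ∧ u ∉ b1 ∪ b2}.ncard ≤ q) (H8'' : r + 1 ≤ q)
    (H9 : ∀ v, r < {u | G.Adj v u ∧ u ∈ A}.ncard) :
    ∃ (fV : V → ℕ) (fE : Sym2 V → ℕ),
      (∀ v, fV v ≤ n + 2 * p - 1) ∧ (∀ e ∈ G.edgeSet, fE e ≤ n + 2 * p - 1) ∧
      (∀ u v, G.Adj u v → fV u ≠ fV v) ∧
      (∀ u v, G.Adj u v → (p : ℤ) ≤ |(fV u : ℤ) - (fE s(u, v) : ℤ)|) ∧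
      (∀ u v w, G.Adj u v → G.Adj u w → v ≠ w → fE s(u, v) ≠ fE s(u, w)) := by
  classical
  -- Step 1: classes
  obtain ⟨cl, hclA, hclb, hclB0, hclp, hclmax⟩ := class_assign G A (b1 ∪ b2) B0 a1 a p
    (fun v hv => Or.inl (hAb hv))
    (fun v hv => hv.elim (hB1 v) (hB2 v)) ha1 (by omega) hap H1 H2 H3
  -- Step 2: the set B
  obtain ⟨B, hB⟩ : ∃ B : Set V, ∀ v, v ∈ B ↔ p ≤ cl v := ⟨{v | p ≤ cl v}, fun v => Iff.rfl⟩
  have hBT : ∀ v ∈ B, v ∉ b1 ∪ b2 := by
    intro v hv hv'
    have h1 := hclb v hv'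
    have h2 := (hB v).1 hv
    omega
  have hdB : ∀ x ∈ B, {y | G.Adj x y ∧ y ∈ B}.ncard ≤ r := by
    intro x hx
    have hx' := (hB x).1 hx
    have h := hclmax x hx'
    have : Nonempty V := ⟨x⟩
    choose! g hg1 hg2 using h
    have h1 : p ≤ {y | G.Adj x y ∧ y ∉ B}.ncard := by
      have h2 : (Finset.range p).card ≤ {y | G.Adj x y ∧ y ∉ B}.ncard := by
        rw [← Set.ncard_coe_finset]
        apply Set.ncard_le_ncard_of_injOn g
        · intro i hi
          have hi' : i < p := by simpa using hi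
          refine ⟨hg1 i hi', fun hB' => ?_⟩
          have h3 := (hB _).1 hB'
          rw [hg2 i hi'] at h3
          omega
        · intro i hi i' hi' hii
          have hi1 : i < p := by simpa using hi
          have hi2 : i' < p := by simpa using hi'
          have h3 := hg2 i hi1
          have h4 := hg2 i' hi2
          rw [hii] at h3
          omega
      rwa [Finset.card_range] at h2
    have h2 : {y | G.Adj x y ∧ y ∈ B}.ncard + {y | G.Adj x y ∧ y ∉ B}.ncard = n := by
      rw [← hreg x, ← Set.ncard_union_eq]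
      · congr 1
        ext y
        constructor
        · rintro (h | h) <;> exact h.1
        · intro h
          by_cases hy : y ∈ B
          · exact Or.inl ⟨h, hy⟩
          · exact Or.inr ⟨h, hy⟩
      · rw [Set.disjoint_left]
        rintro y ⟨_, h3⟩ ⟨_, h4⟩
        exact h4 h3
    omega
  -- Step 3: layering of B
  obtain ⟨Bf, hBf⟩ : ∃ Bf : Finset V, ∀ v, v ∈ Bf ↔ v ∈ B :=
    ⟨Finset.univ.filter (fun v => v ∈ B), fun v => by simp⟩
  obtain ⟨j, hj⟩ := exists_layering G Bf.card Bf le_rfl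
  have hjr : ∀ x ∈ B, j x ≤ r := by
    intro x hx
    refine (layering_le hj ((hBf x).2 hx)).trans (le_trans (le_of_eq ?_) (hdB x hx))
    congr 1
    ext y
    constructor
    · rintro ⟨h1, h2⟩
      exact ⟨h1, (hBf y).1 h2⟩
    · rintro ⟨h1, h2⟩
      exact ⟨h1, (hBf y).2 h2⟩
  -- Step 4: the low matchings in B
  obtain ⟨FL, labL, hL1, hL2, hL3⟩ := layer_cover G Bf j hj (r + 1) 0 (fun x hx => by
    have := hjr x ((hBf x).1 hx)
    omega)
  have hLB : ∀ x y, FL.Adj x y → x ∈ B ∧ y ∈ B := fun x y h =>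
    ⟨(hBf x).1 (hL1 x y h).2.1, (hBf y).1 (hL1 x y h).2.2.1⟩
  -- Step 5: saturating matchings
  obtain ⟨E, c, hE1, hE2, hE3, hE4⟩ := saturate (fun u v => G.Adj u v ∧ v ∈ b1 ∪ b2)
    {v | v ∉ b1 ∪ b2} q (fun u hu => H8 u hu) (by
      intro v
      by_cases hv : v ∈ b1 ∪ b2
      · refine (Set.ncard_le_ncard ?_ (Set.toFinite _)).trans (H8' v hv)
        rintro u ⟨h1, h2, _⟩
        exact ⟨h2.symm, h1⟩
      · have : {u | u ∈ {v | v ∉ b1 ∪ b2} ∧ G.Adj u v ∧ v ∈ b1 ∪ b2} = ∅ := by
          rw [Set.eq_empty_iff_forall_notMem]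
          rintro u ⟨_, _, h3⟩
          exact hv h3
        rw [this, Set.ncard_empty]
        exact Nat.zero_le _)
  obtain ⟨E', hE'⟩ : ∃ E' : V → V → Prop, ∀ u v, E' u v ↔ E u v ∧
      ((c u v < r ∧ (u ∈ B → j u ≤ c u v)) ∨ (c u v = r ∧ u ∉ B)) :=
    ⟨fun u v => E u v ∧ ((c u v < r ∧ (u ∈ B → j u ≤ c u v)) ∨ (c u v = r ∧ u ∉ B)),
      fun u v => Iff.rfl⟩
  have hE'T : ∀ u v, E' u v → G.Adj u v ∧ u ∉ b1 ∪ b2 ∧ v ∈ b1 ∪ b2 := by
    intro u v h
    obtain ⟨⟨h1, h2⟩, h3, _⟩ := hE1 u v ((hE' u v).1 h).1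
    exact ⟨h1, h3, h2⟩
  have hE'anti : ∀ u v, E' u v → ¬ E' v u := fun u v h h' => (hE'T v u h').2.1 (hE'T u v h).2.2
  let lbl : ℕ → ℕ := fun i => if i < r then 2 * p + i else 2 * p - 1
  have hlbl_inj : ∀ i i', i ≤ r → i' ≤ r → lbl i = lbl i' → i = i' := by
    intro i i' hi hi' h
    simp only [lbl] at h
    split_ifs at h <;> omega
  have hE'c : ∀ u v, E' u v → c u v ≤ r := by
    intro u v h
    rcases ((hE' u v).1 h).2 with h | h
    · exact h.1.le
    · exact h.1.le
  have hlbl_range : ∀ i, i ≤ r → 2 * p - 1 ≤ lbl i ∧ lbl i < 2 * p + r + (if r = 0 then 1 else 0) := by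
    intro i hi
    simp only [lbl]
    split_ifs <;> omega
  have hlbl_range2 : ∀ i, i ≤ r → 2 * p - 1 ≤ lbl i ∧ lbl i ≤ 2 * p + r - 1 := by
    intro i hi
    simp only [lbl]
    split_ifs <;> omega
  let FS : SimpleGraph V :=
    { Adj := fun u v => E' u v ∨ E' v u
      symm := ⟨fun u v h => h.symm⟩
      loopless := ⟨fun u h => by
        rcases h with h | h
        · exact (hE'T u u h).1.ne rfl
        · exact (hE'T u u h).1.ne rfl⟩ }
  let labS : Sym2 V → ℕ := Sym2.lift ⟨fun u v => (if E' u v then lbl (c u v) else 0) +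
    (if E' v u then lbl (c v u) else 0), fun u v => by
      show (if E' u v then lbl (c u v) else 0) + (if E' v u then lbl (c v u) else 0) =
        (if E' v u then lbl (c v u) else 0) + (if E' u v then lbl (c u v) else 0)
      rw [add_comm]⟩
  have hlabS1 : ∀ u v, E' u v → labS s(u, v) = lbl (c u v) := by
    intro u v h
    show (if E' u v then lbl (c u v) else 0) + (if E' v u then lbl (c v u) else 0) = _
    rw [if_pos h, if_neg (hE'anti u v h), add_zero]
  have hlabS2 : ∀ u v, E' v u → labS s(u, v) = lbl (c v u) := by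
    intro u v h
    rw [Sym2.eq_swap]
    exact hlabS1 v u h
  have hFS_proper : ∀ u v w, FS.Adj u v → FS.Adj u w → v ≠ w → labS s(u, v) ≠ labS s(u, w) := by
    intro u v w huv huw hvw
    rcases huv with huv | huv
    · rcases huw with huw | huw
      · rw [hlabS1 u v huv, hlabS1 u w huw]
        intro h
        exact hE2 u v w ((hE' u v).1 huv).1 ((hE' u w).1 huw).1 hvw
          (hlbl_inj _ _ (hE'c u v huv) (hE'c u w huw) h)
      · exact absurd (hE'T w u huw).2.2 (hE'T u v huv).2.1
    · rcases huw with huw | huw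
      · exact absurd (hE'T v u huv).2.2 (hE'T u w huw).2.1
      · rw [hlabS2 u v huv, hlabS2 u w huw]
        intro h
        exact hE3 v w u ((hE' v u).1 huv).1 ((hE' w u).1 huw).1 hvw
          (hlbl_inj _ _ (hE'c v u huv) (hE'c w u huw) h)
  -- Step 6: the edges between b1 and b2
  obtain ⟨c3, hc31, hc32, hc33⟩ := konig (fun u v => G.Adj u v ∧ u ∈ b1 ∧ v ∈ b2) (p - a)
    (by
      intro u
      by_cases hu : u ∈ b1
      · refine (Set.ncard_le_ncard ?_ (Set.toFinite _)).trans (H5 u hu)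
        rintro v ⟨h1, _, h3⟩
        exact ⟨h1, h3⟩
      · have : {v | G.Adj u v ∧ u ∈ b1 ∧ v ∈ b2} = ∅ := by
          rw [Set.eq_empty_iff_forall_notMem]
          rintro v ⟨_, h2, _⟩
          exact hu h2
        rw [this, Set.ncard_empty]
        exact Nat.zero_le _)
    (by
      intro v
      by_cases hv : v ∈ b2
      · refine (Set.ncard_le_ncard ?_ (Set.toFinite _)).trans (H5' v hv)
        rintro u ⟨h1, h2, _⟩
        exact ⟨h1.symm, h2⟩
      · have : {u | G.Adj u v ∧ u ∈ b1 ∧ v ∈ b2} = ∅ := by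
          rw [Set.eq_empty_iff_forall_notMem]
          rintro u ⟨_, _, h3⟩
          exact hv h3
        rw [this, Set.ncard_empty]
        exact Nat.zero_le _)
  obtain ⟨E3, hE3d⟩ : ∃ E3 : V → V → Prop, ∀ u v, E3 u v ↔ G.Adj u v ∧ u ∈ b1 ∧ v ∈ b2 :=
    ⟨_, fun u v => Iff.rfl⟩
  have hE3anti : ∀ u v, E3 u v → ¬ E3 v u := fun u v h h' =>
    h12 u ((hE3d u v).1 h).2.1 ((hE3d v u).1 h').2.2
  let F3 : SimpleGraph V :=
    { Adj := fun u v => E3 u v ∨ E3 v u
      symm := ⟨fun u v h => h.symm⟩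
      loopless := ⟨fun u h => by
        rcases h with h | h
        · exact ((hE3d u u).1 h).1.ne rfl
        · exact ((hE3d u u).1 h).1.ne rfl⟩ }
  let lab3 : Sym2 V → ℕ := Sym2.lift ⟨fun u v => (if E3 u v then p + (a - 1) + c3 u v else 0) +
    (if E3 v u then p + (a - 1) + c3 v u else 0), fun u v => by
      show (if E3 u v then p + (a - 1) + c3 u v else 0) + (if E3 v u then p + (a - 1) + c3 v u else 0) =
        (if E3 v u then p + (a - 1) + c3 v u else 0) + (if E3 u v then p + (a - 1) + c3 u v else 0)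
      rw [add_comm]⟩
  have hlab31 : ∀ u v, E3 u v → lab3 s(u, v) = p + (a - 1) + c3 u v := by
    intro u v h
    show (if E3 u v then p + (a - 1) + c3 u v else 0) + (if E3 v u then p + (a - 1) + c3 v u else 0) = _
    rw [if_pos h, if_neg (hE3anti u v h), add_zero]
  have hlab32 : ∀ u v, E3 v u → lab3 s(u, v) = p + (a - 1) + c3 v u := by
    intro u v h
    rw [Sym2.eq_swap]
    exact hlab31 v u h
  have hF3_proper : ∀ u v w, F3.Adj u v → F3.Adj u w → v ≠ w → lab3 s(u, v) ≠ lab3 s(u, w) := by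
    intro u v w huv huw hvw
    rcases huv with huv | huv
    · rcases huw with huw | huw
      · rw [hlab31 u v huv, hlab31 u w huw]
        have := hc32 u v w ((hE3d u v).1 huv) ((hE3d u w).1 huw) hvw
        omega
      · exact absurd ((hE3d w u).1 huw).2.2 (h12 u ((hE3d u v).1 huv).2.1)
    · rcases huw with huw | huw
      · exact absurd ((hE3d v u).1 huv).2.2 (h12 u ((hE3d u w).1 huw).2.1)
      · rw [hlab32 u v huv, hlab32 u w huw]
        have := hc33 v w u ((hE3d v u).1 huv) ((hE3d w u).1 huw) hvw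
        omega
  have hF3_range : ∀ u v, F3.Adj u v → p + a - 1 ≤ lab3 s(u, v) ∧ lab3 s(u, v) ≤ 2 * p - 2 := by
    intro u v huv
    rcases huv with huv | huv
    · rw [hlab31 u v huv]
      have := hc31 u v ((hE3d u v).1 huv)
      omega
    · rw [hlab32 u v huv]
      have := hc31 v u ((hE3d v u).1 huv)
      omega
  -- Step 7: the edges inside A
  let FA : SimpleGraph V :=
    { Adj := fun u v => G.Adj u v ∧ u ∈ A ∧ v ∈ A
      symm := ⟨fun u v h => ⟨h.1.symm, h.2.2, h.2.1⟩⟩
      loopless := ⟨fun u h => h.1.ne rfl⟩ }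
  have hFAcol : ECol FA a1 := by
    have h1 : ECol FA (a1 - 1 + 1) := vizing (fun v => by
      by_cases hv : v ∈ A
      · have h2 := H1 v hv
        have h3 : (FA.neighborSet v).ncard ≤ {u | G.Adj v u ∧ u ∈ A}.ncard := by
          apply Set.ncard_le_ncard _ (Set.toFinite _)
          rintro u ⟨g1, _, g3⟩
          exact ⟨g1, g3⟩
        omega
      · have : FA.neighborSet v = ∅ := by
          rw [Set.eq_empty_iff_forall_notMem]
          rintro u ⟨_, g2, _⟩
          exact hv g2
        rw [this, Set.ncard_empty]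
        exact Nat.zero_le _)
    have e : a1 - 1 + 1 = a1 := by omega
    rwa [e] at h1
  obtain ⟨cA, hcA1, hcA2⟩ := hFAcol
  -- Step 8: the remaining graph
  let G4 : SimpleGraph V :=
    { Adj := fun u v => G.Adj u v ∧ ¬ FL.Adj u v ∧ ¬ FS.Adj u v ∧ ¬ F3.Adj u v ∧ ¬ FA.Adj u v
      symm := ⟨fun u v h => ⟨h.1.symm, fun h' => h.2.1 h'.symm, fun h' => h.2.2.1 h'.symm,
        fun h' => h.2.2.2.1 h'.symm, fun h' => h.2.2.2.2 h'.symm⟩⟩
      loopless := ⟨fun u h => h.1.ne rfl⟩ }
  -- counting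
  have hcount : ∀ (v : V) (U : Set V), (∀ u ∈ U, G.Adj v u ∧ (FL.Adj v u ∨ FS.Adj v u ∨ F3.Adj v u ∨
      FA.Adj v u)) → (G4.neighborSet v).ncard + U.ncard ≤ n := by
    intro v U hU
    rw [← hreg v, ← Set.ncard_union_eq]
    · apply Set.ncard_le_ncard _ (Set.toFinite _)
      rintro u (hu | hu)
      · exact hu.1
      · exact (hU u hu).1
    · rw [Set.disjoint_left]
      rintro u hu hu'
      rcases (hU u hu').2 with h | h | h | h
      · exact hu.2.1 h
      · exact hu.2.2.1 h
      · exact hu.2.2.2.1 h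
      · exact hu.2.2.2.2 h
  have hsplit_bot : ∀ v ∈ b1 ∪ b2, (G4.neighborSet v).ncard + (r + 1) ≤ n := by
    intro v hv
    rcases hv with hv | hv
    · have h1 := hcount v {u | G.Adj v u ∧ u ∈ b2} (fun u hu =>
        ⟨hu.1, Or.inr (Or.inr (Or.inl (Or.inl ((hE3d v u).2 ⟨hu.1, hv, hu.2⟩))))⟩)
      have h2 := H6 v hv
      omega
    · have h1 := hcount v {u | G.Adj v u ∧ u ∈ b1} (fun u hu =>
        ⟨hu.1, Or.inr (Or.inr (Or.inl (Or.inr ((hE3d u v).2 ⟨hu.1.symm, hu.2, hv⟩))))⟩)
      have h2 := H6' v hv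
      omega
  have hsplit_top : ∀ v, v ∉ b1 ∪ b2 → v ∉ B → (G4.neighborSet v).ncard + (r + 1) ≤ n := by
    intro v hv hvB
    have h := hE4 v hv
    have : Nonempty V := ⟨v⟩
    choose! g hg1 hg2 using h
    have h1 := hcount v (g '' Set.Iio (r + 1)) (by
      rintro u ⟨i, hi, rfl⟩
      have hi' : i < r + 1 := hi
      have hEi := hg1 i (by omega)
      have hci := hg2 i (by omega)
      have hE'i : E' v (g i) := by
        rw [hE']
        refine ⟨hEi, ?_⟩
        rw [hci]
        rcases Nat.lt_or_ge i r with h | h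
        · exact Or.inl ⟨h, fun h' => absurd h' hvB⟩
        · exact Or.inr ⟨by omega, hvB⟩
      exact ⟨(hE'T _ _ hE'i).1, Or.inr (Or.inl (Or.inl hE'i))⟩)
    have h2 : (g '' Set.Iio (r + 1)).ncard = r + 1 := by
      rw [Set.ncard_image_of_injOn]
      · rw [← Finset.coe_range, Set.ncard_coe_finset, Finset.card_range]
      · intro i hi i' hi' hii
        have hi1 : i < r + 1 := hi
        have hi2 : i' < r + 1 := hi'
        have e1 := hg2 i (by omega)
        have e2 := hg2 i' (by omega)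
        rw [hii] at e1
        omega
    omega
  have hsplit_B : ∀ v ∈ B, (G4.neighborSet v).ncard + r ≤ n := by
    intro v hvB
    have h := hE4 v (hBT v hvB)
    have : Nonempty V := ⟨v⟩
    choose! g hg1 hg2 using h
    have h1 := hcount v ((g '' Set.Ico (j v) r) ∪ FL.neighborSet v) (by
      rintro u (⟨i, hi, rfl⟩ | hu)
      · have hi1 : j v ≤ i := hi.1
        have hi2 : i < r := hi.2
        have hEi := hg1 i (by omega)
        have hci := hg2 i (by omega)
        have hE'i : E' v (g i) := by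
          rw [hE']
          refine ⟨hEi, Or.inl ?_⟩
          rw [hci]
          exact ⟨hi2, fun _ => hi1⟩
        exact ⟨(hE'T _ _ hE'i).1, Or.inr (Or.inl (Or.inl hE'i))⟩
      · exact ⟨(hL1 v u hu).1, Or.inl hu⟩)
    have h2 : (g '' Set.Ico (j v) r).ncard = r - j v := by
      rw [Set.ncard_image_of_injOn]
      · rw [← Finset.coe_Ico, Set.ncard_coe_finset, Nat.card_Ico]
      · intro i hi i' hi' hii
        have hi1 : i < r := hi.2
        have hi2 : i' < r := hi'.2
        have e1 := hg2 i (by omega)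
        have e2 := hg2 i' (by omega)
        rw [hii] at e1
        omega
    have h3 : Disjoint (g '' Set.Ico (j v) r) (FL.neighborSet v) := by
      rw [Set.disjoint_left]
      rintro u ⟨i, hi, rfl⟩ hu
      have hi2 : i < r := hi.2
      have hEi := hg1 i (by omega)
      exact hBT _ (hLB _ _ hu).2 (hE1 _ _ hEi).1.2
    rw [Set.ncard_union_eq h3] at h1
    have h4 := hL3 v ((hBf v).2 hvB)
    have h5 := hjr v hvB
    omega
  have hG4 : ECol G4 p := by
    apply val_app G4 p r B A
    · intro v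
      by_cases hvB : v ∈ B
      · have := hsplit_B v hvB; omega
      · by_cases hvb : v ∈ b1 ∪ b2
        · have := hsplit_bot v hvb; omega
        · have := hsplit_top v hvb hvB; omega
    · intro v hvB
      by_cases hvb : v ∈ b1 ∪ b2
      · have := hsplit_bot v hvb; omega
      · have := hsplit_top v hvb hvB; omega
    · intro v hv
      have h1 := hcount v ({u | G.Adj v u ∧ u ∈ b2} ∪ {u | G.Adj v u ∧ u ∈ A}) (by
        rintro u (hu | hu)
        · exact ⟨hu.1, Or.inr (Or.inr (Or.inl (Or.inl ((hE3d v u).2 ⟨hu.1, hAb hv, hu.2⟩))))⟩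
        · exact ⟨hu.1, Or.inr (Or.inr (Or.inr ⟨hu.1, hv, hu.2⟩))⟩)
      rw [Set.ncard_union_eq] at h1
      · have := H7 v hv
        omega
      · rw [Set.disjoint_left]
        rintro u ⟨_, g1⟩ ⟨_, g2⟩
        exact h12 u (hAb g2) g1
    · intro w hw
      by_contra hcon
      push Not at hcon
      -- all A-neighbours of w are matched to w in FS
      have hall : ∀ y, G.Adj w y → y ∈ A → E' w y := by
        intro y hwy hy
        by_contra hE'wy
        apply hcon y hy
        have hyb : y ∈ b1 ∪ b2 := Or.inl (hAb hy)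
        have hwb := hBT w hw
        refine ⟨hwy, ?_, ?_, ?_, ?_⟩
        · intro h
          exact hBT y (hLB w y h).2 hyb
        · rintro (h | h)
          · exact hE'wy h
          · exact (hE'T y w h).2.1 hyb
        · rintro (h | h)
          · exact hwb (Or.inl ((hE3d w y).1 h).2.1)
          · exact hwb (Or.inr ((hE3d y w).1 h).2.2)
        · rintro ⟨_, h, _⟩
          exact hwb (Or.inl (hAb h))
      have h1 : {y | G.Adj w y ∧ y ∈ A}.ncard ≤ (Finset.range r : Finset ℕ).card := by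
        rw [← Set.ncard_coe_finset]
        apply Set.ncard_le_ncard_of_injOn (fun y => c w y)
        · rintro y ⟨g1, g2⟩
          have := hall y g1 g2
          rcases ((hE' w y).1 this).2 with h | h
          · simpa using h.1
          · exact absurd hw h.2
        · rintro y ⟨g1, g2⟩ y' ⟨g1', g2'⟩ hyy
          by_contra hne
          exact hE2 w y y' ((hE' w y).1 (hall y g1 g2)).1 ((hE' w y').1 (hall y' g1' g2')).1 hne hyy
      rw [Finset.card_range] at h1
      have := H9 w
      omega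
    · intro w hw
      refine le_trans (Set.ncard_le_ncard ?_ (Set.toFinite _)) (hdB w hw)
      rintro z ⟨g1, g2⟩
      exact ⟨g1.1, g2⟩
  obtain ⟨c4, hc41, hc42⟩ := hG4
  -- Step 9: the labelling
  let fE : Sym2 V → ℕ := fun e =>
    if e ∈ FL.edgeSet then labL e
    else if e ∈ FS.edgeSet then labS e
    else if e ∈ F3.edgeSet then lab3 e
    else if e ∈ FA.edgeSet then p + (a1 - 1) + cA e
    else 2 * p + r + c4 e
  have hkind : ∀ u v, G.Adj u v →
      (FL.Adj u v ∧ fE s(u, v) = labL s(u, v) ∧ fE s(u, v) ≤ r) ∨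
      (FS.Adj u v ∧ fE s(u, v) = labS s(u, v) ∧ 2 * p - 1 ≤ fE s(u, v) ∧
        fE s(u, v) ≤ 2 * p + r - 1) ∨
      (F3.Adj u v ∧ fE s(u, v) = lab3 s(u, v) ∧ p + a - 1 ≤ fE s(u, v) ∧
        fE s(u, v) ≤ 2 * p - 2) ∨
      (FA.Adj u v ∧ fE s(u, v) = p + (a1 - 1) + cA s(u, v) ∧ p + a1 - 1 ≤ fE s(u, v) ∧
        fE s(u, v) ≤ p + a - 2) ∨
      (G4.Adj u v ∧ fE s(u, v) = 2 * p + r + c4 s(u, v) ∧ 2 * p + r ≤ fE s(u, v) ∧
        fE s(u, v) ≤ 3 * p + r - 1) := by
    intro u v huv
    by_cases hL : FL.Adj u v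
    · left
      have e : fE s(u, v) = labL s(u, v) := by
        simp only [fE]
        rw [if_pos ((SimpleGraph.mem_edgeSet FL).2 hL)]
      refine ⟨hL, e, ?_⟩
      rw [e]
      have h1 := (hL1 u v hL).2.2.2.2
      have h2 := hjr u (hLB u v hL).1
      omega
    · right
      have nL : s(u, v) ∉ FL.edgeSet := fun h => hL ((SimpleGraph.mem_edgeSet FL).1 h)
      by_cases hS : FS.Adj u v
      · left
        have e : fE s(u, v) = labS s(u, v) := by
          simp only [fE]
          rw [if_neg nL, if_pos ((SimpleGraph.mem_edgeSet FS).2 hS)]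
        refine ⟨hS, e, ?_⟩
        rw [e]
        rcases hS with h | h
        · rw [hlabS1 u v h]
          exact hlbl_range2 _ (hE'c u v h)
        · rw [hlabS2 u v h]
          exact hlbl_range2 _ (hE'c v u h)
      · right
        have nS : s(u, v) ∉ FS.edgeSet := fun h => hS ((SimpleGraph.mem_edgeSet FS).1 h)
        by_cases h3 : F3.Adj u v
        · left
          have e : fE s(u, v) = lab3 s(u, v) := by
            simp only [fE]
            rw [if_neg nL, if_neg nS, if_pos ((SimpleGraph.mem_edgeSet F3).2 h3)]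
          refine ⟨h3, e, ?_⟩
          rw [e]
          exact hF3_range u v h3
        · right
          have n3 : s(u, v) ∉ F3.edgeSet := fun h => h3 ((SimpleGraph.mem_edgeSet F3).1 h)
          by_cases hA : FA.Adj u v
          · left
            have e : fE s(u, v) = p + (a1 - 1) + cA s(u, v) := by
              simp only [fE]
              rw [if_neg nL, if_neg nS, if_neg n3, if_pos ((SimpleGraph.mem_edgeSet FA).2 hA)]
            refine ⟨hA, e, ?_⟩
            rw [e]
            have := hcA1 u v hA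
            omega
          · right
            have nA : s(u, v) ∉ FA.edgeSet := fun h => hA ((SimpleGraph.mem_edgeSet FA).1 h)
            have e : fE s(u, v) = 2 * p + r + c4 s(u, v) := by
              simp only [fE]
              rw [if_neg nL, if_neg nS, if_neg n3, if_neg nA]
            have h4 : G4.Adj u v := ⟨huv, hL, hS, h3, hA⟩
            refine ⟨h4, e, ?_⟩
            rw [e]
            have := hc41 u v h4
            omega
  obtain ⟨fV, hfV⟩ : ∃ fV : V → ℕ, ∀ v, fV v = if cl v < p then cl v else p + j v :=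
    ⟨_, fun _ => rfl⟩
  have hfVP : ∀ v, v ∉ B → fV v = cl v ∧ cl v < p := by
    intro v hv
    have : cl v < p := by
      by_contra h
      exact hv ((hB v).2 (by omega))
    exact ⟨by rw [hfV, if_pos this], this⟩
  have hfVB : ∀ v ∈ B, fV v = p + j v := by
    intro v hv
    have : ¬ cl v < p := by
      have := (hB v).1 hv
      omega
    rw [hfV, if_neg this]
  refine ⟨fV, fE, ?_, ?_, ?_, ?_, ?_⟩
  · intro v
    by_cases hv : v ∈ B
    · rw [hfVB v hv]
      have := hjr v hv
      omega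
    · have := hfVP v hv
      omega
  · intro e he
    induction e with
    | _ u v =>
    have huv := (SimpleGraph.mem_edgeSet G).1 he
    rcases hkind u v huv with h | h | h | h | h <;> omega
  · intro u v huv
    by_cases hu : u ∈ B
    · by_cases hv : v ∈ B
      · rw [hfVB u hu, hfVB v hv]
        have := hj.1 u ((hBf u).2 hu) v ((hBf v).2 hv) huv
        omega
      · have h1 := hfVP v hv
        rw [hfVB u hu]
        omega
    · by_cases hv : v ∈ B
      · have h1 := hfVP u hu
        rw [hfVB v hv]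
        omega
      · have h1 := hfVP u hu
        have h2 := hfVP v hv
        rw [h1.1, h2.1]
        exact hclp u v huv h1.2 h2.2
  · intro u v huv
    rw [le_abs]
    rcases hkind u v huv with h | h | h | h | h
    · -- low labels
      left
      obtain ⟨h1, h2, h3⟩ := h
      have hu := (hLB u v h1).1
      rw [hfVB u hu, h2]
      have := (hL1 u v h1).2.2.2.2
      omega
    · right
      obtain ⟨h1, h2, h3, h4⟩ := h
      by_cases hu : u ∈ B
      · rw [hfVB u hu]
        rcases h1 with h1 | h1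
        · rw [h2, hlabS1 u v h1]
          rcases ((hE' u v).1 h1).2 with g | g
          · simp only [lbl, if_pos g.1]
            have := g.2 hu
            omega
          · exact absurd hu g.2
        · exact absurd (hE'T v u h1).2.2 (hBT u hu)
      · have := hfVP u hu
        omega
    · right
      obtain ⟨h1, h2, h3, h4⟩ := h
      have hub : u ∈ b1 ∪ b2 := by
        rcases h1 with h1 | h1
        · exact Or.inl ((hE3d u v).1 h1).2.1
        · exact Or.inr ((hE3d v u).1 h1).2.2
      have hcu := hclb u hub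
      have huB : u ∉ B := fun h => hBT u h hub
      have := hfVP u huB
      omega
    · right
      obtain ⟨h1, h2, h3, h4⟩ := h
      have hcu := hclA u h1.2.1
      have huB : u ∉ B := fun h => hBT u h (Or.inl (hAb h1.2.1))
      have := hfVP u huB
      omega
    · right
      obtain ⟨h1, h2, h3, h4⟩ := h
      by_cases hu : u ∈ B
      · rw [hfVB u hu]
        have := hjr u hu
        omega
      · have := hfVP u hu
        omega
  · intro u v w huv huw hvw heq
    rcases hkind u v huv with h | h | h | h | h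
    · rcases hkind u w huw with g | g | g | g | g
      · exact hL2 u v w h.1 g.1 hvw (by rw [← h.2.1, ← g.2.1]; exact heq)
      all_goals omega
    · rcases hkind u w huw with g | g | g | g | g
      · omega
      · exact hFS_proper u v w h.1 g.1 hvw (by rw [← h.2.1, ← g.2.1]; exact heq)
      all_goals omega
    · rcases hkind u w huw with g | g | g | g | g
      · omega
      · omega
      · exact hF3_proper u v w h.1 g.1 hvw (by rw [← h.2.1, ← g.2.1]; exact heq)
      all_goals omega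
    · rcases hkind u w huw with g | g | g | g | g
      · omega
      · omega
      · omega
      · exact hcA2 u v w h.1 g.1 hvw (by omega)
      · omega
    · rcases hkind u w huw with g | g | g | g | g
      · omega
      · omega
      · omega
      · omega
      · exact hc42 u v w h.1 g.1 hvw (by omega)

end Pool.Agent.H28
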