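import Mathlib
import Pool.Agent.H28.Core2
import Pool.Agent.H28.Groups

/-!
The bound for regular graphs.
-/

set_option autoImplicit false
set_option linter.unusedSectionVars false

namespace Pool.Agent.H28

open Finset

theorem regular_case (m : ℕ) (hm : 5 ≤ m) :
    ∃ N0 : ℕ, ∀ n : ℕ, N0 ≤ n → ∀ (V : Type) [Fintype V] [DecidableEq V] (G : SimpleGraph V),
      (∀ v, (G.neighborSet v).ncard = n) → ∀ p r : ℕ, p + r = n → (3 * m + 4) * n ≤ 4 * m * p →
      ∃ (fV : V → ℕ) (fE : Sym2 V → ℕ),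
      (∀ v, fV v ≤ n + 2 * p - 1) ∧ (∀ e ∈ G.edgeSet, fE e ≤ n + 2 * p - 1) ∧
      (∀ u v, G.Adj u v → fV u ≠ fV v) ∧
      (∀ u v, G.Adj u v → (p : ℤ) ≤ |(fV u : ℤ) - (fE s(u, v) : ℤ)|) ∧
      (∀ u v w, G.Adj u v → G.Adj u w → v ≠ w → fE s(u, v) ≠ fE s(u, w)) := by
  obtain ⟨N1, hN1⟩ := groups m (by omega)
  refine ⟨max N1 (64 * m), fun n hn V _ _ G hreg p r hpr hp => ?_⟩
  have hn1 : N1 ≤ n := le_trans (le_max_left _ _) hn
  have hn2 : 64 * m ≤ n := le_trans (le_max_right _ _) hn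
  obtain ⟨f, hf⟩ := hN1 n hn1 V G hreg
  have hm' : (5 : ℝ) ≤ m := by exact_mod_cast hm
  have hm0 : (0 : ℝ) < m := by linarith
  obtain ⟨μ, hμ⟩ : ∃ μ : ℝ, μ = n / (4 * m) := ⟨_, rfl⟩
  rw [← hμ] at hf
  have hμn : μ * (4 * m) = n := by rw [hμ]; field_simp
  have hμ16 : 16 ≤ μ := by
    rw [hμ, le_div_iff₀ (by positivity)]
    have : (64 * m : ℝ) ≤ n := by exact_mod_cast hn2
    linarith
  have hμ0 : 0 < μ := by linarith
  obtain ⟨X, hX⟩ : ∃ X : ℝ, X = m * μ := ⟨_, rfl⟩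
  have hXn : 4 * X = n := by rw [hX, ← hμn]; ring
  have hX5 : 5 * μ ≤ X := by
    rw [hX]; exact mul_le_mul_of_nonneg_right hm' hμ0.le
  have hpR : 3 * X + 4 * μ ≤ p := by
    have h1 : ((3 * m + 4) * n : ℝ) ≤ 4 * m * p := by exact_mod_cast hp
    rw [← hμn] at h1
    have h2 : (4 * m : ℝ) * (3 * X + 4 * μ) ≤ 4 * m * p := by
      refine le_trans (le_of_eq ?_) h1
      rw [hX]; ring
    exact le_of_mul_le_mul_left h2 (by positivity)
  have hrR : (r : ℝ) ≤ X - 4 * μ := by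
    have h1 : (p : ℝ) + r = n := by exact_mod_cast hpr
    linarith
  clear hp hn hn1 hn2 hN1 N1
  -- ranges of groups
  have hcard : ∀ i j : ℕ, i ≤ j → j ≤ 4 * m →
      (Finset.univ.filter (fun x : Fin (4 * m) => i ≤ (x : ℕ) ∧ (x : ℕ) < j)).card = j - i := by
    intro i j hij hj
    rw [← Nat.card_Ico, ← Finset.card_map (Fin.valEmbedding)]
    congr 1
    ext x
    simp only [Finset.mem_map, Finset.mem_filter, Finset.mem_univ, true_and,
      Fin.valEmbedding_apply, Finset.mem_Ico]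
    constructor
    · rintro ⟨y, hy, rfl⟩
      exact hy
    · intro hx
      exact ⟨⟨x, by omega⟩, hx, rfl⟩
  obtain ⟨R, hR⟩ : ∃ R : ℕ → ℕ → Set V, ∀ i j v, v ∈ R i j ↔ i ≤ (f v : ℕ) ∧ (f v : ℕ) < j :=
    ⟨fun i j => {v | i ≤ (f v : ℕ) ∧ (f v : ℕ) < j}, fun i j v => Iff.rfl⟩
  have hdeg : ∀ (i j : ℕ) (v : V), i ≤ j → j ≤ 4 * m →
      ((j : ℝ) - i - 1 / 4) * μ ≤ ({u | G.Adj v u ∧ u ∈ R i j}.ncard : ℝ) ∧
      ({u | G.Adj v u ∧ u ∈ R i j}.ncard : ℝ) ≤ ((j : ℝ) - i + 1 / 4) * μ := by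
    intro i j v hij hj
    have h1 := hf v (Finset.univ.filter (fun x : Fin (4 * m) => i ≤ (x : ℕ) ∧ (x : ℕ) < j))
    rw [hcard i j hij hj] at h1
    have h2 : {u | G.Adj v u ∧ f u ∈ Finset.univ.filter (fun x : Fin (4 * m) => i ≤ (x : ℕ) ∧ (x : ℕ) < j)} =
        {u | G.Adj v u ∧ u ∈ R i j} := by
      ext u
      simp only [Set.mem_ofPred_eq, Finset.mem_filter, Finset.mem_univ, true_and, hR]
    rw [h2] at h1
    rw [Nat.cast_sub hij] at h1
    exact h1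
  -- the quantities
  obtain ⟨a1, ha1⟩ : ∃ a1 : ℕ, a1 = ⌊X - 2.75 * μ⌋₊ + 1 := ⟨_, rfl⟩
  obtain ⟨a2, ha2⟩ : ∃ a2 : ℕ, a2 = ⌊X + 5.25 * μ⌋₊ + 1 := ⟨_, rfl⟩
  obtain ⟨q, hq⟩ : ∃ q : ℕ, q = ⌊2 * X + 1.75 * μ⌋₊ := ⟨_, rfl⟩
  have ha1l : X - 2.75 * μ < a1 := by
    rw [ha1]; push_cast; exact Nat.lt_floor_add_one _
  have ha1u : (a1 : ℝ) ≤ X - 2.75 * μ + 1 := by
    rw [ha1]; push_cast
    have := Nat.floor_le (show 0 ≤ X - 2.75 * μ by linarith)
    linarith
  have ha2l : X + 5.25 * μ < a2 := by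
    rw [ha2]; push_cast; exact Nat.lt_floor_add_one _
  have ha2u : (a2 : ℝ) ≤ X + 5.25 * μ + 1 := by
    rw [ha2]; push_cast
    have := Nat.floor_le (show 0 ≤ X + 5.25 * μ by linarith)
    linarith
  have hqu : (q : ℝ) ≤ 2 * X + 1.75 * μ := by
    rw [hq]; exact Nat.floor_le (by linarith)
  have hql : 2 * X + 1.75 * μ < q + 1 := by
    rw [hq]; exact Nat.lt_floor_add_one _
  have ha12 : a1 ≤ a2 := by
    rw [ha1, ha2]
    have := Nat.floor_le_floor (show X - 2.75 * μ ≤ X + 5.25 * μ by linarith)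
    omega
  have hap : a1 + a2 < p := by
    have : ((a1 + a2 : ℕ) : ℝ) < p := by push_cast; linarith
    exact_mod_cast this
  have hpaR : X + 1.25 * μ < ((p - (a1 + a2) : ℕ) : ℝ) := by
    rw [Nat.cast_sub hap.le]
    push_cast
    linarith
  -- set identities
  have hb12 : ∀ u, u ∈ R 0 (m + 1) ∪ R (m + 1) (2 * m + 2) ↔ u ∈ R 0 (2 * m + 2) := by
    intro u
    rw [Set.mem_union, hR, hR, hR]
    omega
  have htop : ∀ u, u ∉ R 0 (m + 1) ∪ R (m + 1) (2 * m + 2) ↔ u ∈ R (2 * m + 2) (4 * m) := by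
    intro u
    rw [hb12, hR, hR]
    have := (f u).2
    omega
  -- a way to transfer
  have key_le : ∀ (x y : ℕ), (x : ℝ) ≤ y → x ≤ y := fun x y h => by exact_mod_cast h
  have key_lt : ∀ (x y : ℕ), (x : ℝ) < y → x < y := fun x y h => by exact_mod_cast h
  have cm3 : ((m - 3 : ℕ) : ℝ) = m - 3 := by rw [Nat.cast_sub (by omega)]; norm_num
  refine core G n p r a1 (a1 + a2) q (R 0 (m - 3)) (R 0 (m + 1)) (R (m + 1) (2 * m + 2))
    (R (3 * m + 3) (4 * m)) hpr ?_ hreg ?_ ?_ ?_ ?_ (by omega) (by omega) hap ?_ ?_ ?_ ?_ ?_ ?_ ?_ ?_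
    ?_ ?_ ?_ ?_
  · apply key_lt; linarith
  · intro v hv
    rw [hR] at hv ⊢
    omega
  · intro v hv
    rw [hR] at hv ⊢
    omega
  · intro v hv
    rw [hR] at hv ⊢
    omega
  · intro v hv
    rw [hR] at hv ⊢
    omega
  · -- H1
    intro v _
    have h := (hdeg 0 (m - 3) v (by omega) (by omega)).2
    rw [cm3] at h
    apply key_lt
    refine lt_of_le_of_lt h ?_
    have e : ((m : ℝ) - 3 - (0 : ℕ) + 1 / 4) * μ = X - 2.75 * μ := by rw [hX]; push_cast; ring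
    rw [e]; exact ha1l
  · -- H2
    intro v _ _
    have e0 : {u | G.Adj v u ∧ u ∈ R 0 (m + 1) ∪ R (m + 1) (2 * m + 2) ∧ u ∉ R 0 (m - 3)} =
        {u | G.Adj v u ∧ u ∈ R (m - 3) (2 * m + 2)} := by
      ext u
      simp only [Set.mem_ofPred_eq]
      rw [hb12, hR, hR, hR]
      constructor
      · rintro ⟨g1, g2, g3⟩
        exact ⟨g1, by omega, by omega⟩
      · rintro ⟨g1, g2, g3⟩
        exact ⟨g1, by omega, by omega⟩
    rw [e0]
    have h := (hdeg (m - 3) (2 * m + 2) v (by omega) (by omega)).2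
    rw [cm3] at h
    apply key_lt
    refine lt_of_le_of_lt h ?_
    have e : (((2 * m + 2 : ℕ) : ℝ) - (m - 3) + 1 / 4) * μ = X + 5.25 * μ := by
      rw [hX]; push_cast; ring
    rw [e, Nat.add_sub_cancel_left]
    exact ha2l
  · -- H3
    intro v _ _
    have e0 : {u | G.Adj v u ∧ u ∉ R 0 (m + 1) ∪ R (m + 1) (2 * m + 2) ∧ u ∉ R (3 * m + 3) (4 * m)} =
        {u | G.Adj v u ∧ u ∈ R (2 * m + 2) (3 * m + 3)} := by
      ext u
      simp only [Set.mem_ofPred_eq]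
      rw [htop, hR, hR, hR]
      have := (f u).2
      constructor
      · rintro ⟨g1, g2, g3⟩
        exact ⟨g1, by omega, by omega⟩
      · rintro ⟨g1, g2, g3⟩
        exact ⟨g1, by omega, by omega⟩
    rw [e0]
    have h := (hdeg (2 * m + 2) (3 * m + 3) v (by omega) (by omega)).2
    apply key_lt
    refine lt_of_le_of_lt h ?_
    have e : (((3 * m + 3 : ℕ) : ℝ) - (2 * m + 2 : ℕ) + 1 / 4) * μ = X + 1.25 * μ := by
      rw [hX]; push_cast; ring
    rw [e]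
    exact hpaR
  · -- H5
    intro v _
    have h := (hdeg (m + 1) (2 * m + 2) v (by omega) (by omega)).2
    apply key_le
    refine h.trans ?_
    have e : (((2 * m + 2 : ℕ) : ℝ) - (m + 1 : ℕ) + 1 / 4) * μ = X + 1.25 * μ := by
      rw [hX]; push_cast; ring
    rw [e]
    exact hpaR.le
  · intro v _
    have h := (hdeg 0 (m + 1) v (by omega) (by omega)).2
    apply key_le
    refine h.trans ?_
    have e : (((m + 1 : ℕ) : ℝ) - (0 : ℕ) + 1 / 4) * μ = X + 1.25 * μ := by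
      rw [hX]; push_cast; ring
    rw [e]
    exact hpaR.le
  · -- H6
    intro v _
    have h := (hdeg (m + 1) (2 * m + 2) v (by omega) (by omega)).1
    apply key_le
    refine le_trans ?_ h
    have e : (((2 * m + 2 : ℕ) : ℝ) - (m + 1 : ℕ) - 1 / 4) * μ = X + 0.75 * μ := by
      rw [hX]; push_cast; ring
    rw [e]
    push_cast
    linarith
  · intro v _
    have h := (hdeg 0 (m + 1) v (by omega) (by omega)).1
    apply key_le
    refine le_trans ?_ h
    have e : (((m + 1 : ℕ) : ℝ) - (0 : ℕ) - 1 / 4) * μ = X + 0.75 * μ := by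
      rw [hX]; push_cast; ring
    rw [e]
    push_cast
    linarith
  · -- H7
    intro v _
    have h := (hdeg (m + 1) (2 * m + 2) v (by omega) (by omega)).1
    have h' := (hdeg 0 (m - 3) v (by omega) (by omega)).1
    rw [cm3] at h'
    have e : (((2 * m + 2 : ℕ) : ℝ) - (m + 1 : ℕ) - 1 / 4) * μ = X + 0.75 * μ := by
      rw [hX]; push_cast; ring
    have e' : ((m : ℝ) - 3 - (0 : ℕ) - 1 / 4) * μ = X - 3.25 * μ := by rw [hX]; push_cast; ring
    rw [e] at h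
    rw [e'] at h'
    apply key_le
    push_cast
    linarith
  · -- H8
    intro v _
    have e0 : {u | G.Adj v u ∧ u ∈ R 0 (m + 1) ∪ R (m + 1) (2 * m + 2)} =
        {u | G.Adj v u ∧ u ∈ R 0 (2 * m + 2)} := by
      ext u
      simp only [Set.mem_ofPred_eq]
      rw [hb12]
    rw [e0]
    have h := (hdeg 0 (2 * m + 2) v (by omega) (by omega)).1
    have e : (((2 * m + 2 : ℕ) : ℝ) - (0 : ℕ) - 1 / 4) * μ = 2 * X + 1.75 * μ := by
      rw [hX]; push_cast; ring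
    rw [e] at h
    apply key_le
    linarith
  · -- H8'
    intro v _
    have e0 : {u | G.Adj v u ∧ u ∉ R 0 (m + 1) ∪ R (m + 1) (2 * m + 2)} =
        {u | G.Adj v u ∧ u ∈ R (2 * m + 2) (4 * m)} := by
      ext u
      simp only [Set.mem_ofPred_eq]
      rw [htop]
    rw [e0]
    have h := (hdeg (2 * m + 2) (4 * m) v (by omega) (by omega)).2
    have e : (((4 * m : ℕ) : ℝ) - (2 * m + 2 : ℕ) + 1 / 4) * μ = 2 * X - 1.75 * μ := by
      rw [hX]; push_cast; ring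
    rw [e] at h
    apply key_le
    linarith
  · -- H8''
    apply key_le
    push_cast
    linarith
  · -- H9
    intro v
    have h' := (hdeg 0 (m - 3) v (by omega) (by omega)).1
    rw [cm3] at h'
    have e' : ((m : ℝ) - 3 - (0 : ℕ) - 1 / 4) * μ = X - 3.25 * μ := by rw [hX]; push_cast; ring
    rw [e'] at h'
    apply key_lt
    linarith

end Pool.Agent.H28
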