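import Mathlib

/-!
The Beck-Fiala theorem.
-/

set_option autoImplicit false
set_option linter.unusedSectionVars false

namespace Pool.Agent.H28

variable {V : Type*} [Fintype V] [DecidableEq V] {ι : Type*} [Fintype ι] [DecidableEq ι]

/-- Beck-Fiala, real version with arbitrary starting point. -/
theorem beck_fiala_real (C : ι → Finset V) {s : ℕ} (hs : 1 ≤ s)
    (hC : ∀ v, (Finset.univ.filter (fun h => v ∈ C h)).card ≤ s) :
    ∀ (n : ℕ) (x : V → ℝ), (∀ v, |x v| ≤ 1) →
      (Finset.univ.filter (fun v => |x v| < 1)).card ≤ n →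
      ∃ σ : V → ℝ, (∀ v, |σ v| = 1) ∧ (∀ v, |x v| = 1 → σ v = x v) ∧
        ∀ h, |∑ v ∈ C h, (σ v - x v)| < 2 * s := by
  classical
  intro n
  induction n with
  | zero =>
    intro x hx hn
    have h0 : ∀ v, |x v| = 1 := by
      intro v
      by_contra hne
      have hlt : |x v| < 1 := lt_of_le_of_ne (hx v) hne
      have : v ∈ Finset.univ.filter (fun v => |x v| < 1) := by simp [hlt]
      have := Finset.card_pos.2 ⟨v, this⟩
      omega
    refine ⟨x, h0, fun v _ => rfl, fun h => ?_⟩
    have : (0 : ℝ) < s := by exact_mod_cast hs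
    simp only [sub_self, Finset.sum_const_zero, abs_zero]
    linarith
  | succ n ih =>
    intro x hx hn
    obtain ⟨Fl, hFl⟩ : ∃ Fl, Fl = Finset.univ.filter (fun v => |x v| < 1) := ⟨_, rfl⟩
    rw [← hFl] at hn
    have hmem : ∀ v, v ∈ Fl ↔ |x v| < 1 := by intro v; rw [hFl]; simp
    by_cases hlt : Fl.card ≤ n
    · exact ih x hx (by rw [← hFl]; exact hlt)
    have hcard : Fl.card = n + 1 := by omega
    obtain ⟨A, hA⟩ : ∃ A : Finset ι, A = Finset.univ.filter (fun h => s < (C h ∩ Fl).card) := ⟨_, rfl⟩
    have hAmem : ∀ h, h ∈ A ↔ s < (C h ∩ Fl).card := by intro h; rw [hA]; simp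
    have hAcard : A.card < Fl.card := by
      have h1 : A.card * (s + 1) ≤ Fl.card * s := by
        apply Finset.card_mul_le_card_mul (fun (h : ι) (v : V) => v ∈ C h)
        · intro h hh
          have := (hAmem h).1 hh
          have e1 : Finset.bipartiteAbove (fun (h : ι) (v : V) => v ∈ C h) Fl h = C h ∩ Fl := by
            ext v
            simp [Finset.bipartiteAbove, and_comm]
          rw [e1]
          omega
        · intro v _
          refine le_trans (Finset.card_le_card ?_) (hC v)
          intro h hh
          rw [Finset.mem_bipartiteBelow] at hh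
          simp [hh.2]
      by_contra hge
      have h2 : Fl.card * (s + 1) ≤ A.card * (s + 1) := Nat.mul_le_mul_right _ (by omega)
      nlinarith
    -- kernel vector
    obtain ⟨y, hy0, hyF, hyC⟩ : ∃ y : V → ℝ, (∃ v, y v ≠ 0) ∧ (∀ v, v ∉ Fl → y v = 0) ∧
        ∀ h ∈ A, ∑ v ∈ C h, y v = 0 := by
      let φ : (Fl → ℝ) →ₗ[ℝ] (A → ℝ) :=
        { toFun := fun z h => ∑ v : Fl, if (v : V) ∈ C h then z v else 0
          map_add' := by
            intro z w
            ext h
            simp only [Pi.add_apply]
            rw [← Finset.sum_add_distrib]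
            apply Finset.sum_congr rfl
            intro v _
            split_ifs <;> simp
          map_smul' := by
            intro c z
            ext h
            simp only [Pi.smul_apply, smul_eq_mul, RingHom.id_apply]
            rw [Finset.mul_sum]
            apply Finset.sum_congr rfl
            intro v _
            split_ifs <;> simp }
      have hker : LinearMap.ker φ ≠ ⊥ := by
        apply LinearMap.ker_ne_bot_of_finrank_lt
        rw [Module.finrank_fintype_fun_eq_card, Module.finrank_fintype_fun_eq_card]
        simpa using hAcard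
      obtain ⟨z, hz, hz0⟩ := Submodule.exists_mem_ne_zero_of_ne_bot hker
      refine ⟨fun v => if hv : v ∈ Fl then z ⟨v, hv⟩ else 0, ?_, ?_, ?_⟩
      · by_contra hcon
        push Not at hcon
        apply hz0
        ext v
        have := hcon v
        rw [dif_pos v.2] at this
        simpa using this
      · intro v hv
        simp [hv]
      · intro h hh
        have h1 := congrFun (LinearMap.mem_ker.1 hz) ⟨h, hh⟩
        have h2 : ∑ v : Fl, (if (v : V) ∈ C h then z v else 0) = 0 := h1
        refine Eq.trans ?_ h2
        have h3 : ∑ v ∈ C h, (if hv : v ∈ Fl then z ⟨v, hv⟩ else 0) =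
            ∑ v : V, (if v ∈ C h then (if hv : v ∈ Fl then z ⟨v, hv⟩ else 0) else 0) := by
          rw [← Finset.sum_filter]
          apply Finset.sum_congr _ (fun _ _ => rfl)
          ext v; simp
        have h4 : ∑ v : V, (if v ∈ C h then (if hv : v ∈ Fl then z ⟨v, hv⟩ else 0) else 0) =
            ∑ v ∈ Fl, (if v ∈ C h then (if hv : v ∈ Fl then z ⟨v, hv⟩ else 0) else 0) := by
          symm
          apply Finset.sum_subset (Finset.subset_univ _)
          intro v _ hv
          simp [hv]
        refine h3.trans (h4.trans ?_)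
        rw [← Finset.sum_coe_sort Fl]
        apply Finset.sum_congr rfl
        intro v _
        simp
    -- the step length
    obtain ⟨v1, hv1⟩ := hy0
    obtain ⟨τ, hτ⟩ : ∃ τ : V → ℝ, ∀ v, τ v = (if 0 < y v then (1 - x v) / y v else (-1 - x v) / y v) :=
      ⟨_, fun v => rfl⟩
    obtain ⟨v0, hv0, hmin⟩ := Finset.exists_min_image (Finset.univ.filter (fun v => y v ≠ 0)) τ
      ⟨v1, by simp [hv1]⟩
    rw [Finset.mem_filter] at hv0
    have hτpos : ∀ v, y v ≠ 0 → 0 < τ v := by
      intro v hv
      have hvF : v ∈ Fl := by
        by_contra h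
        exact hv (hyF v h)
      have h1 := (hmem v).1 hvF
      rw [abs_lt] at h1
      rw [hτ]
      split_ifs with h2
      · exact div_pos (by linarith) h2
      · have h3 : y v < 0 := lt_of_le_of_ne (not_lt.1 h2) hv
        exact div_pos_of_neg_of_neg (by linarith) h3
    have ht0 := hτpos v0 hv0.2
    obtain ⟨t, ht⟩ : ∃ t, t = τ v0 := ⟨_, rfl⟩
    rw [← ht] at ht0
    have hx'1 : ∀ v, |x v + t * y v| ≤ 1 := by
      intro v
      have hxv := abs_le.1 (hx v)
      by_cases hyv : y v = 0
      · rw [hyv, mul_zero, add_zero]; exact hx v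
      · have hle : t ≤ τ v := by rw [ht]; exact hmin v (by simp [hyv])
        rw [hτ] at hle
        rw [abs_le]
        split_ifs at hle with h2
        · rw [le_div_iff₀ h2] at hle
          have : 0 ≤ t * y v := by positivity
          constructor <;> linarith
        · have h3 : y v < 0 := lt_of_le_of_ne (not_lt.1 h2) hyv
          rw [le_div_iff_of_neg h3] at hle
          have : t * y v ≤ 0 := mul_nonpos_of_nonneg_of_nonpos ht0.le h3.le
          constructor <;> linarith
    have hx'0 : |x v0 + t * y v0| = 1 := by
      have hyv := hv0.2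
      rw [ht, hτ]
      split_ifs with h2
      · rw [div_mul_cancel₀ _ hyv]
        simp
      · rw [div_mul_cancel₀ _ hyv]
        simp
    have hcard' : (Finset.univ.filter (fun v => |x v + t * y v| < 1)).card ≤ n := by
      have hsub : Finset.univ.filter (fun v => |x v + t * y v| < 1) ⊆ Fl.erase v0 := by
        intro v hv
        rw [Finset.mem_filter] at hv
        rw [Finset.mem_erase]
        refine ⟨?_, ?_⟩
        · rintro rfl
          linarith [hv.2]
        · by_contra h
          rw [hyF v h, mul_zero, add_zero] at hv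
          exact h ((hmem v).2 hv.2)
      have hv0F : v0 ∈ Fl := by
        by_contra h
        exact hv0.2 (hyF v0 h)
      have := Finset.card_le_card hsub
      rw [Finset.card_erase_of_mem hv0F] at this
      omega
    obtain ⟨σ, hσ1, hσ2, hσ3⟩ := ih (fun v => x v + t * y v) hx'1 hcard'
    have hσx : ∀ v, |x v| = 1 → σ v = x v := by
      intro v hv
      have hvF : v ∉ Fl := by
        intro h
        have := (hmem v).1 h
        linarith
      have h1 : x v + t * y v = x v := by rw [hyF v hvF]; ring
      have h2 := hσ2 v (by show |x v + t * y v| = 1; rw [h1]; exact hv)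
      rw [h2]
      exact h1
    refine ⟨σ, hσ1, hσx, fun h => ?_⟩
    by_cases hh : h ∈ A
    · have h1 := hσ3 h
      have h2 : ∑ v ∈ C h, (σ v - (x v + t * y v)) = ∑ v ∈ C h, (σ v - x v) := by
        have h3 := hyC h hh
        rw [Finset.sum_sub_distrib, Finset.sum_sub_distrib, Finset.sum_add_distrib,
          ← Finset.mul_sum, h3]
        ring
      rw [h2] at h1
      exact h1
    · have h1 : (C h ∩ Fl).card ≤ s := by
        by_contra hcon
        exact hh ((hAmem h).2 (by omega))
      have h2 : ∑ v ∈ C h, (σ v - x v) = ∑ v ∈ C h ∩ Fl, (σ v - x v) := by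
        symm
        apply Finset.sum_subset Finset.inter_subset_left
        intro v hv hv'
        have hvF : v ∉ Fl := fun h => hv' (Finset.mem_inter.2 ⟨hv, h⟩)
        have h3 : |x v| = 1 := by
          by_contra hne
          exact hvF ((hmem v).2 (lt_of_le_of_ne (hx v) hne))
        rw [hσx v h3, sub_self]
      rw [h2]
      rcases (C h ∩ Fl).eq_empty_or_nonempty with he | hne
      · rw [he]
        simp only [Finset.sum_empty, abs_zero]
        have : (0 : ℝ) < s := by exact_mod_cast hs
        linarith
      · calc |∑ v ∈ C h ∩ Fl, (σ v - x v)| ≤ ∑ v ∈ C h ∩ Fl, |σ v - x v| := Finset.abs_sum_le_sum_abs _ _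
          _ < ∑ v ∈ C h ∩ Fl, (2 : ℝ) := by
              apply Finset.sum_lt_sum_of_nonempty hne
              intro v hv
              have h3 := (hmem v).1 (Finset.mem_inter.1 hv).2
              have h4 := abs_sub (σ v) (x v)
              rw [hσ1 v] at h4
              linarith
          _ = (C h ∩ Fl).card * 2 := by rw [Finset.sum_const, nsmul_eq_mul]
          _ ≤ 2 * s := by
              have : ((C h ∩ Fl).card : ℝ) ≤ s := by exact_mod_cast h1
              linarith

/-- **Beck-Fiala**: a family of sets with every point in at most `s ≥ 1` sets has a two-colouring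
with discrepancy less than `2s` on every set. -/
theorem beck_fiala (C : ι → Finset V) {s : ℕ} (hs : 1 ≤ s)
    (hC : ∀ v, (Finset.univ.filter (fun h => v ∈ C h)).card ≤ s) :
    ∃ g : V → Bool, ∀ h b, (C h).card + 1 ≤ 2 * ((C h).filter (fun v => g v = b)).card + 2 * s := by
  classical
  obtain ⟨σ, hσ1, _, hσ3⟩ := beck_fiala_real C hs hC (Fintype.card V) (fun _ => 0) (by simp)
    (Finset.card_le_univ _)
  refine ⟨fun v => decide (σ v = 1), fun h b => ?_⟩
  obtain ⟨P, hP⟩ : ∃ P, P = (C h).filter (fun v => σ v = 1) := ⟨_, rfl⟩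
  obtain ⟨N, hN⟩ : ∃ N, N = (C h).filter (fun v => ¬ σ v = 1) := ⟨_, rfl⟩
  have hcard : P.card + N.card = (C h).card := by
    rw [hP, hN]; exact Finset.card_filter_add_card_filter_not _
  have hsum : ∑ v ∈ C h, (σ v - 0) = (P.card : ℝ) - N.card := by
    rw [← Finset.sum_filter_add_sum_filter_not (C h) (fun v => σ v = 1)]
    have e1 : ∑ v ∈ (C h).filter (fun v => σ v = 1), (σ v - 0) = P.card := by
      rw [← hP]
      rw [Finset.sum_congr rfl (g := fun _ => (1 : ℝ))]
      · simp
      · intro v hv
        rw [hP, Finset.mem_filter] at hv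
        rw [hv.2]; ring
    have e2 : ∑ v ∈ (C h).filter (fun v => ¬ σ v = 1), (σ v - 0) = - N.card := by
      rw [← hN]
      rw [Finset.sum_congr rfl (g := fun _ => (-1 : ℝ))]
      · simp
      · intro v hv
        rw [hN, Finset.mem_filter] at hv
        have h1 := hσ1 v
        rcases (abs_eq (by norm_num : (0:ℝ) ≤ 1)).1 h1 with h2 | h2
        · exact absurd h2 hv.2
        · rw [h2]; ring
    rw [e1, e2]; ring
  have h3 := hσ3 h
  rw [hsum, abs_lt] at h3
  have h4 : (N.card : ℝ) < P.card + 2 * s := by linarith [h3.1]
  have h5 : (P.card : ℝ) < N.card + 2 * s := by linarith [h3.2]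
  have h4' : N.card < P.card + 2 * s := by exact_mod_cast h4
  have h5' : P.card < N.card + 2 * s := by exact_mod_cast h5
  cases b with
  | true =>
    have e : (C h).filter (fun v => decide (σ v = 1) = true) = P := by
      rw [hP]; ext v; simp
    rw [e]; omega
  | false =>
    have e : (C h).filter (fun v => decide (σ v = 1) = false) = N := by
      rw [hN]; ext v; simp
    rw [e]; omega

end Pool.Agent.H28
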