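import Mathlib
import Pool.Agent.H28.VAL
import Pool.Agent.H28.TutteY
import Pool.Agent.H28.BeckFiala

/-!
`(p,1)`-total labelings of `s`-degenerate graphs of large maximum degree.
-/

set_option autoImplicit false
set_option linter.unusedSectionVars false

namespace Pool.Agent.H28

open SimpleGraph

variable {V : Type*} [Fintype V] [DecidableEq V]

/-- `G` is `s`-degenerate. -/
def Degen (G : SimpleGraph V) (s : ℕ) : Prop :=
  ∀ S : Finset V, S.Nonempty → ∃ v ∈ S, {w | G.Adj v w ∧ w ∈ S}.ncard ≤ s

theorem degen_order {G : SimpleGraph V} {s : ℕ} (hG : Degen G s) :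
    ∃ o : V → ℕ, Function.Injective o ∧ ∀ v, {w | G.Adj v w ∧ o v < o w}.ncard ≤ s := by
  classical
  have main : ∀ n : ℕ, ∀ S : Finset V, S.card = n → ∃ o : V → ℕ,
      (∀ x ∈ S, ∀ y ∈ S, o x = o y → x = y) ∧
      ∀ v ∈ S, {w | G.Adj v w ∧ w ∈ S ∧ o v < o w}.ncard ≤ s := by
    intro n
    induction n with
    | zero =>
      intro S hS
      have : S = ∅ := Finset.card_eq_zero.1 hS
      subst this
      exact ⟨fun _ => 0, by simp, by simp⟩
    | succ n ih =>
      intro S hS
      obtain ⟨v, hv, hvs⟩ := hG S (Finset.card_pos.1 (by omega))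
      obtain ⟨o, ho1, ho2⟩ := ih (S.erase v) (by rw [Finset.card_erase_of_mem hv]; omega)
      refine ⟨fun x => if x = v then 0 else o x + 1, ?_, ?_⟩
      · intro x hx y hy h
        by_cases hxv : x = v
        · by_cases hyv : y = v
          · rw [hxv, hyv]
          · simp [hxv, hyv] at h
        · by_cases hyv : y = v
          · simp [hxv, hyv] at h
          · simp only [hxv, hyv, if_false] at h
            exact ho1 x (Finset.mem_erase.2 ⟨hxv, hx⟩) y (Finset.mem_erase.2 ⟨hyv, hy⟩) (by omega)
      · intro x hx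
        by_cases hxv : x = v
        · subst hxv
          refine (Set.ncard_le_ncard ?_ (Set.toFinite _)).trans hvs
          rintro w ⟨h1, h2, _⟩
          exact ⟨h1, h2⟩
        · refine (Set.ncard_le_ncard ?_ (Set.toFinite _)).trans
            (ho2 x (Finset.mem_erase.2 ⟨hxv, hx⟩))
          rintro w ⟨h1, h2, h3⟩
          by_cases hwv : w = v
          · simp [hwv] at h3
          · simp only [hxv, hwv, if_false] at h3
            exact ⟨h1, Finset.mem_erase.2 ⟨hwv, h2⟩, by omega⟩
  obtain ⟨o, ho1, ho2⟩ := main _ Finset.univ rfl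
  refine ⟨o, fun x y h => ho1 x (Finset.mem_univ _) y (Finset.mem_univ _) h, fun v => ?_⟩
  refine (Set.ncard_le_ncard ?_ (Set.toFinite _)).trans (ho2 v (Finset.mem_univ _))
  rintro w ⟨h1, h2⟩
  exact ⟨h1, Finset.mem_univ _, h2⟩

/-- `s`-degenerate graphs with maximum degree at most `D`, `D ≥ 2s`, are `D`-edge-colourable. -/
theorem degen_class_one {G : SimpleGraph V} {s D : ℕ} (hs : 1 ≤ s) (hG : Degen G s)
    (hD : 2 * s ≤ D) (hdeg : ∀ v, (G.neighborSet v).ncard ≤ D) : ECol G D := by
  classical
  by_contra hcon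
  obtain ⟨H, hHG, hH, hcrit⟩ := exists_critical hcon
  have hdegH : ∀ v, (H.neighborSet v).ncard ≤ D := fun v =>
    (Set.ncard_le_ncard (fun w hw => hHG hw) (Set.toFinite _)).trans (hdeg v)
  obtain ⟨W, hW⟩ : ∃ W : Finset V, ∀ v, v ∈ W ↔ s < (H.neighborSet v).ncard :=
    ⟨Finset.univ.filter (fun v => s < (H.neighborSet v).ncard), fun v => by simp⟩
  rcases W.eq_empty_or_nonempty with hemp | hne
  · apply hH
    have h1 : ECol H (s + 1) := vizing (fun v => by
      by_contra h
      have : v ∈ W := (hW v).2 (by omega)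
      rw [hemp] at this
      simp at this)
    exact h1.mono_D (by omega)
  · obtain ⟨w, hw, hws⟩ := hG W hne
    have hw' := (hW w).1 hw
    -- a neighbour outside W
    obtain ⟨x, hx1, hx2⟩ : ∃ x, H.Adj w x ∧ x ∉ W := by
      by_contra hall
      push Not at hall
      have : (H.neighborSet w).ncard ≤ {u | G.Adj w u ∧ u ∈ W}.ncard :=
        Set.ncard_le_ncard (fun u hu => ⟨hHG hu, hall u hu⟩) (Set.toFinite _)
      omega
    have hval := val hdegH hx1 hH (hcrit w x hx1)
    have hxs : (H.neighborSet x).ncard ≤ s := by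
      by_contra h
      exact hx2 ((hW x).2 (by omega))
    have h2 : {z | H.Adj w z ∧ z ≠ x ∧ (H.neighborSet z).ncard = D}.ncard ≤
        {u | G.Adj w u ∧ u ∈ W}.ncard := by
      apply Set.ncard_le_ncard _ (Set.toFinite _)
      rintro z ⟨g1, _, g3⟩
      exact ⟨hHG g1, (hW z).2 (by omega)⟩
    omega

/-- A proper colouring with `s+1` colours. -/
theorem degen_colour {G : SimpleGraph V} {s : ℕ} (o : V → ℕ) (ho : Function.Injective o)
    (hos : ∀ v, {w | G.Adj v w ∧ o v < o w}.ncard ≤ s) :
    ∃ f : V → ℕ, (∀ v, f v ≤ s) ∧ (∀ u v, G.Adj u v → f u ≠ f v) := by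
  classical
  have main : ∀ S : Finset V, ∃ f : V → ℕ, (∀ v, f v ≤ s) ∧
      (∀ u ∈ S, ∀ v ∈ S, G.Adj u v → f u ≠ f v) := by
    intro S
    induction S using Finset.induction_on_min_value o with
    | empty => exact ⟨fun _ => 0, fun _ => Nat.zero_le _, by simp⟩
    | insert a S haS hmin ih =>
      obtain ⟨f, hf1, hf2⟩ := ih
      have hlt : ∀ x ∈ S, o a < o x := by
        intro x hx
        refine lt_of_le_of_ne (hmin x hx) (fun h => ?_)
        exact haS ((ho h) ▸ hx)
      let P := (Finset.univ : Finset V).filter (fun w => G.Adj a w ∧ o a < o w)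
      have hP : P.card ≤ s := by
        refine le_trans (le_of_eq ?_) (hos a)
        rw [← Set.ncard_coe_finset]
        congr 1
        ext w
        simp [P]
      have hcard : (P.image f).card < (Finset.range (s + 1)).card := by
        have h2 := Finset.card_image_le (s := P) (f := f)
        rw [Finset.card_range]
        omega
      obtain ⟨t0, ht0, ht0'⟩ := Finset.exists_mem_notMem_of_card_lt_card hcard
      rw [Finset.mem_range] at ht0
      have hne : ∀ x ∈ S, Function.update f a t0 x = f x := by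
        intro x hx
        rw [Function.update_of_ne]
        rintro rfl
        exact haS hx
      refine ⟨Function.update f a t0, ?_, ?_⟩
      · intro v
        by_cases hv : v = a
        · rw [hv, Function.update_self]; omega
        · rw [Function.update_of_ne hv]; exact hf1 v
      · have key : ∀ v ∈ S, G.Adj a v → t0 ≠ f v := by
          intro v hv hav heq
          apply ht0'
          rw [Finset.mem_image]
          exact ⟨v, by simp [P, hav, hlt v hv], heq.symm⟩
        intro u hu v hv huv
        rw [Finset.mem_insert] at hu hv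
        rcases hu with rfl | hu
        · rcases hv with rfl | hv
          · exact absurd rfl huv.ne
          · rw [Function.update_self, hne v hv]
            exact key v hv huv
        · rcases hv with rfl | hv
          · rw [Function.update_self, hne u hu]
            exact (key u hu huv.symm).symm
          · rw [hne u hu, hne v hv]
            exact hf2 u hu v hv huv
  obtain ⟨f, hf1, hf2⟩ := main Finset.univ
  exact ⟨f, hf1, fun u v => hf2 u (Finset.mem_univ _) v (Finset.mem_univ _)⟩

/-- Splitting the sets of children evenly into two groups. -/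
theorem degen_split {G : SimpleGraph V} {s : ℕ} (hs : 1 ≤ s) (o : V → ℕ)
    (ho : Function.Injective o) (hos : ∀ v, {w | G.Adj v w ∧ o v < o w}.ncard ≤ s) :
    ∃ g : V → Bool, ∀ v b, (G.neighborSet v).ncard + 1 ≤
      2 * {u | G.Adj v u ∧ o u < o v ∧ g u = b}.ncard + 3 * s := by
  classical
  obtain ⟨g, hg⟩ := beck_fiala (ι := V)
    (fun h => Finset.univ.filter (fun u => G.Adj h u ∧ o u < o h)) hs (by
      intro u
      refine le_trans (le_of_eq ?_) (hos u)
      rw [← Set.ncard_coe_finset]
      congr 1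
      ext h
      simp [G.adj_comm])
  refine ⟨g, fun v b => ?_⟩
  have h1 := hg v b
  have h2 : (G.neighborSet v).ncard ≤
      (Finset.univ.filter (fun u => G.Adj v u ∧ o u < o v)).card + {w | G.Adj v w ∧ o v < o w}.ncard := by
    rw [← Set.ncard_coe_finset]
    refine (Set.ncard_le_ncard ?_ (Set.toFinite _)).trans (Set.ncard_union_le _ _)
    intro y hy
    have hy' : G.Adj v y := hy
    rcases lt_trichotomy (o y) (o v) with h | h | h
    · left
      simp [hy', h]
    · exact absurd (ho h).symm hy'.ne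
    · exact Or.inr ⟨hy', h⟩
  have h3 := hos v
  have h4 : ((Finset.univ.filter (fun u => G.Adj v u ∧ o u < o v)).filter (fun u => g u = b)).card =
      {u | G.Adj v u ∧ o u < o v ∧ g u = b}.ncard := by
    rw [← Set.ncard_coe_finset]
    congr 1
    ext u
    simp [and_assoc]
  rw [h4] at h1
  omega

/-- Saturating matchings for all the low labels. `bl x i` says that the label `i` is blocked
at `x`. -/
theorem degen_layers {G : SimpleGraph V} {s N E : ℕ} (hs : 1 ≤ s) (o : V → ℕ)
    (hos : ∀ v, {w | G.Adj v w ∧ o v < o w}.ncard ≤ s)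
    (bl : V → ℕ → Prop) (hE : ∀ x, {i | i < N ∧ ¬ bl x i}.ncard ≤ E)
    (B : Set V) (hB : ∀ x ∈ B, ∀ i < N, ¬ bl x i →
      s + E ≤ {u | G.Adj x u ∧ o u < o x ∧ ¬ bl u i}.ncard + 1) :
    ∀ n, n ≤ N → ∃ (F : SimpleGraph V) (lab : Sym2 V → ℕ),
      (∀ x y, F.Adj x y → G.Adj x y ∧ lab s(x, y) < n ∧ ¬ bl x (lab s(x, y))) ∧
      (∀ x y z, F.Adj x y → F.Adj x z → y ≠ z → lab s(x, y) ≠ lab s(x, z)) ∧
      (∀ x ∈ B, ∀ i < n, ¬ bl x i → ∃ y, F.Adj x y ∧ lab s(x, y) = i) := by
  classical
  intro n
  induction n with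
  | zero =>
    intro _
    exact ⟨⊥, fun _ => 0, fun x y h => absurd h (by simp), fun x y z h => absurd h (by simp),
      fun x _ i hi => absurd hi (by omega)⟩
  | succ n ih =>
    intro hn
    obtain ⟨F1, lab1, h1, h2, h3⟩ := ih (by omega)
    let Γ : SimpleGraph V :=
      { Adj := fun x y => G.Adj x y ∧ ¬ bl x n ∧ ¬ bl y n ∧ ¬ F1.Adj x y
        symm := ⟨fun x y h => ⟨h.1.symm, h.2.2.1, h.2.1, fun h' => h.2.2.2 h'.symm⟩⟩
        loopless := ⟨fun x h => h.1.ne rfl⟩ }
    let Y : Set V := {x | x ∈ B ∧ ¬ bl x n}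
    by_cases hM : ∃ M : Γ.Subgraph, M.IsMatching ∧ Y ⊆ M.verts
    · obtain ⟨M, hM, hYM⟩ := hM
      let F : SimpleGraph V :=
        { Adj := fun x y => F1.Adj x y ∨ M.Adj x y
          symm := ⟨fun x y h => h.elim (fun h => Or.inl h.symm) (fun h => Or.inr h.symm)⟩
          loopless := ⟨fun x h => h.elim (fun h => h.ne rfl) (fun h => h.adj_sub.ne rfl)⟩ }
      let lab : Sym2 V → ℕ := fun e => if e ∈ M.edgeSet then n else lab1 e
      have hlabM : ∀ x y, M.Adj x y → lab s(x, y) = n := by
        intro x y hxy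
        simp only [lab]
        rw [if_pos (Subgraph.mem_edgeSet.2 hxy)]
      have hlab1 : ∀ x y, ¬ M.Adj x y → lab s(x, y) = lab1 s(x, y) := by
        intro x y hxy
        simp only [lab]
        rw [if_neg (fun h => hxy (Subgraph.mem_edgeSet.1 h))]
      have hMF : ∀ x y, M.Adj x y → ¬ F1.Adj x y := fun x y hxy => hxy.adj_sub.2.2.2
      refine ⟨F, lab, ?_, ?_, ?_⟩
      · intro x y hxy
        by_cases hm : M.Adj x y
        · rw [hlabM x y hm]
          obtain ⟨g1, g2, g3, g4⟩ := hm.adj_sub
          exact ⟨g1, by omega, g2⟩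
        · rw [hlab1 x y hm]
          rcases hxy with hxy | hxy
          · obtain ⟨g1, g2, g3⟩ := h1 x y hxy
            exact ⟨g1, by omega, g3⟩
          · exact absurd hxy hm
      · have key : ∀ x y z, F.Adj x y → F.Adj x z → y ≠ z → M.Adj x y → ¬ M.Adj x z →
            lab s(x, y) ≠ lab s(x, z) := by
          intro x y z hxy hxz hyz hm1 hm2
          rw [hlabM x y hm1, hlab1 x z hm2]
          rcases hxz with hxz | hxz
          · have := (h1 x z hxz).2.1
            omega
          · exact absurd hxz hm2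
        intro x y z hxy hxz hyz
        by_cases hm1 : M.Adj x y
        · by_cases hm2 : M.Adj x z
          · exact absurd (hM.eq_of_adj_left hm1 hm2) hyz
          · exact key x y z hxy hxz hyz hm1 hm2
        · by_cases hm2 : M.Adj x z
          · exact (key x z y hxz hxy hyz.symm hm2 hm1).symm
          · rw [hlab1 x y hm1, hlab1 x z hm2]
            exact h2 x y z (hxy.resolve_right hm1) (hxz.resolve_right hm2) hyz
      · intro x hx i hi hif
        by_cases hin : i = n
        · subst hin
          have hxY : x ∈ Y := ⟨hx, hif⟩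
          obtain ⟨y, hy, _⟩ := hM (hYM hxY)
          exact ⟨y, Or.inr hy, hlabM x y hy⟩
        · obtain ⟨y, hy, hy'⟩ := h3 x hx i (by omega) hif
          refine ⟨y, Or.inl hy, ?_⟩
          rw [hlab1 x y (fun h => hMF x y h hy)]
          exact hy'
    · exfalso
      obtain ⟨S, Q, hSQ, hQ1, hQ2, hQ3⟩ := tutteY Γ Y hM
      have hrep : ∀ q : Finset V, ∃ r : V, q ∈ Q → r ∈ q ∧ ∀ z ∈ q, o r ≤ o z := by
        intro q
        by_cases hq : q ∈ Q
        · obtain ⟨r, hr, hr'⟩ := Finset.exists_min_image q o (hQ1 q hq)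
          exact ⟨r, fun _ => ⟨hr, hr'⟩⟩
        · obtain ⟨q0, hq0⟩ : Q.Nonempty := Finset.card_pos.1 (by omega)
          obtain ⟨r, _⟩ := hQ1 q0 hq0
          exact ⟨r, fun h => absurd h hq⟩
      choose r hr using hrep
      have hr1 : ∀ q ∈ Q, r q ∈ q := fun q hq => (hr q hq).1
      have hr2 : ∀ q ∈ Q, ∀ z ∈ q, o (r q) ≤ o z := fun q hq => (hr q hq).2
      have hcount : Q.card * s ≤ S.card * s := by
        apply Finset.card_mul_le_card_mul (fun (C : Finset V) (z : V) => G.Adj (r C) z ∧ o z < o (r C))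
        · intro C hC
          have hY := hQ2 C hC _ (hr1 C hC)
          obtain ⟨x, hx⟩ : ∃ x, x = r C := ⟨_, rfl⟩
          have hxC := hr1 C hC
          have hxmin := hr2 C hC
          rw [← hx] at hY hxC hxmin
          -- degree in F1
          have hF1 : (F1.neighborSet x).ncard + 1 ≤ E := by
            refine le_trans ?_ (hE x)
            have e1 : n ∈ {i | i < N ∧ ¬ bl x i} := ⟨by omega, hY.1.2⟩
            have hfin : {i | i < N ∧ ¬ bl x i}.Finite := (Set.finite_Iio N).subset (fun i hi => hi.1)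
            have e2 := Set.ncard_sdiff_singleton_add_one e1 hfin
            have e3 : (F1.neighborSet x).ncard ≤ ({i | i < N ∧ ¬ bl x i} \ {n}).ncard := by
              apply Set.ncard_le_ncard_of_injOn (fun y => lab1 s(x, y)) _ _
                (hfin.subset Set.sdiff_subset)
              · intro y hy
                have := h1 x y hy
                exact ⟨⟨by omega, this.2.2⟩, fun h => by
                  have h' : lab1 s(x, y) = n := h
                  omega⟩
              · intro y hy z hz hyz
                by_contra hne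
                exact h2 x y z hy hz hne hyz
            omega
          have hdeg : {u | G.Adj x u ∧ o u < o x ∧ ¬ bl u n}.ncard ≤
              (S.filter (fun z => G.Adj x z ∧ o z < o x)).card + (F1.neighborSet x).ncard := by
            rw [← Set.ncard_coe_finset]
            refine (Set.ncard_le_ncard ?_ (Set.toFinite _)).trans (Set.ncard_union_le _ _)
            rintro y ⟨hy', hyo, hyb⟩
            by_cases hF : F1.Adj x y
            · exact Or.inr hF
            · left
              have hΓ : Γ.Adj x y := ⟨hy', hY.1.2, hyb, hF⟩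
              rcases hY.2.2 y hΓ with h' | h'
              · have := hxmin y h'
                omega
              · simp only [Finset.coe_filter, Set.mem_ofPred_eq]
                exact ⟨h', hy', hyo⟩
          have hb := hB x hY.1.1 n (by omega) hY.1.2
          rw [Finset.bipartiteAbove, ← hx]
          omega
        · intro z hz
          refine le_trans ?_ (hos z)
          have hinj : ((Q.filter (fun C => G.Adj (r C) z ∧ o z < o (r C))).image r).card =
              (Q.filter (fun C => G.Adj (r C) z ∧ o z < o (r C))).card := by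
            apply Finset.card_image_of_injOn
            intro C hC C' hC' heq
            simp only [Finset.coe_filter, Set.mem_ofPred_eq] at hC hC'
            by_contra hne
            have := hQ3 C hC.1 C' hC'.1 hne
            rw [Finset.disjoint_left] at this
            have h5 : r C ∈ C' := by
              have e1 : r C = r C' := heq
              rw [e1]; exact hr1 C' hC'.1
            exact this (hr1 C hC.1) h5
          rw [Finset.bipartiteBelow, ← hinj, ← Set.ncard_coe_finset]
          apply Set.ncard_le_ncard _ (Set.toFinite _)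
          intro w hw
          simp only [Finset.coe_image, Finset.coe_filter, Set.mem_image, Set.mem_ofPred_eq] at hw
          obtain ⟨C, ⟨_, hC1, hC2⟩, rfl⟩ := hw
          exact ⟨hC1.symm, hC2⟩
      have := Nat.le_of_mul_le_mul_right hcount hs
      omega

theorem degen_main {G : SimpleGraph V} {s p Δ : ℕ} (hs : 1 ≤ s) (hp : 1 ≤ p) (hG : Degen G s)
    (hΔ : ∀ v, (G.neighborSet v).ncard ≤ Δ) (hbig : 11 * s + 6 * p ≤ Δ + 7) :
    ∃ (fV : V → ℕ) (fE : Sym2 V → ℕ), (∀ v, fV v ≤ Δ + 2 * p - 2) ∧
      (∀ u v, G.Adj u v → fE s(u, v) ≤ Δ + 2 * p - 2) ∧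
      (∀ u v, G.Adj u v → fV u ≠ fV v) ∧
      (∀ u v, G.Adj u v → fV u + p ≤ fE s(u, v) ∨ fE s(u, v) + p ≤ fV u) ∧
      (∀ u v w, G.Adj u v → G.Adj u w → v ≠ w → fE s(u, v) ≠ fE s(u, w)) := by
  classical
  obtain ⟨o, ho, hos⟩ := degen_order hG
  obtain ⟨f, hf1, hf2⟩ := degen_colour o ho hos
  obtain ⟨g, hg⟩ := degen_split hs o ho hos
  obtain ⟨L, hL⟩ : ∃ L, L = s + 2 * p - 1 := ⟨_, rfl⟩
  obtain ⟨E, hE⟩ : ∃ E, E = 2 * s + 2 * p - 1 := ⟨_, rfl⟩
  obtain ⟨w, hw⟩ : ∃ w : V → ℕ, ∀ v, w v = (if g v = true then L else 0) + f v := ⟨_, fun _ => rfl⟩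
  have hw1 : ∀ v, g v = true → w v = L + f v := by intro v hv; rw [hw, if_pos hv]
  have hw0 : ∀ v, g v = false → w v = f v := by intro v hv; rw [hw, if_neg (by simp [hv])]; simp
  have hwle : ∀ v, w v + (2 * p - 1) ≤ 2 * L := by
    intro v
    have := hf1 v
    cases hgv : g v
    · rw [hw0 v hgv]; omega
    · rw [hw1 v hgv]; omega
  obtain ⟨bl, hbl⟩ : ∃ bl : V → ℕ → Prop, ∀ v i, bl v i ↔ w v ≤ i ∧ i < w v + (2 * p - 1) :=
    ⟨fun v i => w v ≤ i ∧ i < w v + (2 * p - 1), fun _ _ => Iff.rfl⟩
  have hset : ∀ x, {i | i < 2 * L ∧ ¬ bl x i}.ncard = E := by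
    intro x
    have e1 : {i | i < 2 * L ∧ ¬ bl x i} =
        ↑(Finset.range (2 * L) \ Finset.Ico (w x) (w x + (2 * p - 1))) := by
      ext i
      simp only [Set.mem_ofPred_eq, Finset.coe_sdiff, Finset.coe_range, Finset.coe_Ico, Set.mem_sdiff,
        Set.mem_Iio, Set.mem_Ico, hbl]
    rw [e1, Set.ncard_coe_finset, Finset.card_sdiff_of_subset, Finset.card_range, Nat.card_Ico]
    · omega
    · intro i hi
      rw [Finset.mem_Ico] at hi
      rw [Finset.mem_range]
      have := hwle x
      omega
  obtain ⟨B, hB⟩ : ∃ B : Set V, ∀ x, x ∈ B ↔ Δ - E < (G.neighborSet x).ncard :=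
    ⟨{x | Δ - E < (G.neighborSet x).ncard}, fun _ => Iff.rfl⟩
  obtain ⟨F, lab, hF1, hF2, hF3⟩ := degen_layers (N := 2 * L) (E := E) hs o hos bl
    (fun x => (hset x).le) B (by
      intro x hx i hi hib
      have hx' := (hB x).1 hx
      have key : ∀ b : Bool, (∀ u, g u = b → ¬ bl u i) →
          s + E ≤ {u | G.Adj x u ∧ o u < o x ∧ ¬ bl u i}.ncard + 1 := by
        intro b hb
        have h1 := hg x b
        have h2 : {u | G.Adj x u ∧ o u < o x ∧ g u = b}.ncard ≤
            {u | G.Adj x u ∧ o u < o x ∧ ¬ bl u i}.ncard := by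
          apply Set.ncard_le_ncard _ (Set.toFinite _)
          rintro u ⟨g1, g2, g3⟩
          exact ⟨g1, g2, hb u g3⟩
        omega
      by_cases hiL : i < L
      · apply key true
        intro u hu
        rw [hbl, hw1 u hu]
        omega
      · apply key false
        intro u hu
        have := hf1 u
        rw [hbl, hw0 u hu]
        omega) (2 * L) le_rfl
  -- the rest
  let G' : SimpleGraph V :=
    { Adj := fun x y => G.Adj x y ∧ ¬ F.Adj x y
      symm := ⟨fun x y h => ⟨h.1.symm, fun h' => h.2 h'.symm⟩⟩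
      loopless := ⟨fun x h => h.1.ne rfl⟩ }
  have hdegG' : ∀ v, (G'.neighborSet v).ncard ≤ Δ - E := by
    intro v
    by_cases hv : v ∈ B
    · have h1 : E ≤ (F.neighborSet v).ncard := by
        rw [← hset v]
        have h2 : {i | i < 2 * L ∧ ¬ bl v i} ⊆ (fun y => lab s(v, y)) '' (F.neighborSet v) := by
          rintro i ⟨hi1, hi2⟩
          obtain ⟨y, hy, hy'⟩ := hF3 v hv i hi1 hi2
          exact ⟨y, hy, hy'⟩
        exact (Set.ncard_le_ncard h2 (Set.toFinite _)).trans (Set.ncard_image_le (Set.toFinite _))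
      have h2 : (G'.neighborSet v ∪ F.neighborSet v).ncard ≤ (G.neighborSet v).ncard := by
        apply Set.ncard_le_ncard _ (Set.toFinite _)
        rintro y (hy | hy)
        · exact hy.1
        · exact (hF1 v y hy).1
      rw [Set.ncard_union_eq _ (Set.toFinite _) (Set.toFinite _)] at h2
      · have := hΔ v
        omega
      · rw [Set.disjoint_left]
        intro y hy hy'
        exact hy.2 hy'
    · have h1 : ¬ (Δ - E < (G.neighborSet v).ncard) := fun h => hv ((hB v).2 h)
      have h2 : (G'.neighborSet v).ncard ≤ (G.neighborSet v).ncard :=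
        Set.ncard_le_ncard (fun y hy => hy.1) (Set.toFinite _)
      omega
  have hdegen' : Degen G' s := by
    intro S hS
    obtain ⟨v, hv, hv'⟩ := hG S hS
    refine ⟨v, hv, (Set.ncard_le_ncard ?_ (Set.toFinite _)).trans hv'⟩
    rintro y ⟨hy, hy'⟩
    exact ⟨hy.1, hy'⟩
  obtain ⟨c, hc1, hc2⟩ := degen_class_one hs hdegen' (D := Δ - E) (by omega) hdegG'
  have hfE1 : ∀ u v, F.Adj u v → (if s(u, v) ∈ F.edgeSet then lab s(u, v) else 2 * L + c s(u, v)) =
      lab s(u, v) := fun u v h => if_pos h
  have hfE2 : ∀ u v, ¬ F.Adj u v → (if s(u, v) ∈ F.edgeSet then lab s(u, v) else 2 * L + c s(u, v)) =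
      2 * L + c s(u, v) := fun u v h => if_neg h
  refine ⟨fun v => w v + (p - 1), fun e => if e ∈ F.edgeSet then lab e else 2 * L + c e,
    ?_, ?_, ?_, ?_, ?_⟩
  · intro v
    have := hwle v
    show w v + (p - 1) ≤ _
    omega
  · intro u v huv
    show (if s(u, v) ∈ F.edgeSet then lab s(u, v) else 2 * L + c s(u, v)) ≤ _
    by_cases h : F.Adj u v
    · rw [hfE1 u v h]
      have := (hF1 u v h).2.1
      omega
    · rw [hfE2 u v h]
      have := hc1 u v ⟨huv, h⟩
      omega
  · intro u v huv
    show w u + (p - 1) ≠ w v + (p - 1)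
    have h1 := hf2 u v huv
    have h2 := hf1 u
    have h3 := hf1 v
    cases hgu : g u <;> cases hgv : g v
    · rw [hw0 u hgu, hw0 v hgv]; omega
    · rw [hw0 u hgu, hw1 v hgv]; omega
    · rw [hw1 u hgu, hw0 v hgv]; omega
    · rw [hw1 u hgu, hw1 v hgv]; omega
  · intro u v huv
    show w u + (p - 1) + p ≤ (if s(u, v) ∈ F.edgeSet then lab s(u, v) else 2 * L + c s(u, v)) ∨
      (if s(u, v) ∈ F.edgeSet then lab s(u, v) else 2 * L + c s(u, v)) + p ≤ w u + (p - 1)
    by_cases h : F.Adj u v
    · rw [hfE1 u v h]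
      have := (hF1 u v h).2.2
      rw [hbl] at this
      omega
    · rw [hfE2 u v h]
      have := hwle u
      omega
  · intro u v x huv hux hvx
    show (if s(u, v) ∈ F.edgeSet then lab s(u, v) else 2 * L + c s(u, v)) ≠
      (if s(u, x) ∈ F.edgeSet then lab s(u, x) else 2 * L + c s(u, x))
    by_cases h : F.Adj u v <;> by_cases h' : F.Adj u x
    · rw [hfE1 u v h, hfE1 u x h']
      exact hF2 u v x h h' hvx
    · rw [hfE1 u v h, hfE2 u x h']
      have := (hF1 u v h).2.1
      omega
    · rw [hfE2 u v h, hfE1 u x h']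
      have := (hF1 u x h').2.1
      omega
    · rw [hfE2 u v h, hfE2 u x h']
      have := hc2 u v x ⟨huv, h⟩ ⟨hux, h'⟩ hvx
      omega

end Pool.Agent.H28
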