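import Pool.Agent.H62.Per.Defs2

/-! Distinct perimeters (MP_588c6d_co): module EXCL. -/

set_option autoImplicit false

namespace Pool.Agent.H28.PerExcl

open Pool.Agent.H62.Per

/-- the plane as complex numbers -/
def toC (p : Pl) : ℂ := ⟨p.1, p.2⟩

theorem dd_eq (p q : Pl) : dd p q = dist (toC p) (toC q) := by
  unfold dd toC
  rw [Complex.dist_eq_re_im]

theorem dd_comm (p q : Pl) : dd p q = dd q p := by
  rw [dd_eq, dd_eq, dist_comm]

/-- the case of a convex quadrilateral `x y p q` with positive orientations -/
theorem core (p q x y : Pl) (ha : 0 < ori x y p) (hb : 0 < ori x y q) (hc : 0 < ori p q x)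
    (hd : 0 < ori p q y) : dd p y + dd q x < dd p x + dd q y := by
  set a := ori x y p with haa
  set b := ori x y q with hbb
  set c := ori p q x with hcc
  set d := ori p q y with hdd
  have hE : a + c = b + d := by
    simp only [haa, hbb, hcc, hdd, ori]; ring
  have hEp : 0 < b + d := by linarith
  have h1 : b * p.1 + d * x.1 = a * q.1 + c * y.1 := by
    simp only [haa, hbb, hcc, hdd, ori]; ring
  have h2 : b * p.2 + d * x.2 = a * q.2 + c * y.2 := by
    simp only [haa, hbb, hcc, hdd, ori]; ring
  -- the intersection point
  let O : Pl := ((b * p.1 + d * x.1) / (b + d), (b * p.2 + d * x.2) / (b + d))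
  have hO1 : toC O = AffineMap.lineMap (toC p) (toC x) (d / (b + d)) := by
    apply Complex.ext
    · simp only [toC, O, AffineMap.lineMap_apply, vsub_eq_sub, vadd_eq_add, Complex.add_re,
        Complex.real_smul, Complex.mul_re, Complex.ofReal_re, Complex.ofReal_im, Complex.sub_re,
        Complex.sub_im]
      field_simp
      ring
    · simp only [toC, O, AffineMap.lineMap_apply, vsub_eq_sub, vadd_eq_add, Complex.add_im,
        Complex.real_smul, Complex.mul_im, Complex.ofReal_re, Complex.ofReal_im, Complex.sub_re,
        Complex.sub_im]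
      field_simp
      ring
  have hO2 : toC O = AffineMap.lineMap (toC q) (toC y) (c / (b + d)) := by
    apply Complex.ext
    · simp only [toC, O, AffineMap.lineMap_apply, vsub_eq_sub, vadd_eq_add, Complex.add_re,
        Complex.real_smul, Complex.mul_re, Complex.ofReal_re, Complex.ofReal_im, Complex.sub_re,
        Complex.sub_im]
      rw [h1]
      have : a = b + d - c := by linarith
      rw [this]
      field_simp
      ring
    · simp only [toC, O, AffineMap.lineMap_apply, vsub_eq_sub, vadd_eq_add, Complex.add_im,
        Complex.real_smul, Complex.mul_im, Complex.ofReal_re, Complex.ofReal_im, Complex.sub_re,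
        Complex.sub_im]
      rw [h2]
      have : a = b + d - c := by linarith
      rw [this]
      field_simp
      ring
  have w1 : Wbtw ℝ (toC p) (toC O) (toC x) := by
    refine ⟨d / (b + d), ⟨by positivity, ?_⟩, hO1.symm⟩
    rw [div_le_one hEp]; linarith
  have w2 : Wbtw ℝ (toC q) (toC O) (toC y) := by
    refine ⟨c / (b + d), ⟨by positivity, ?_⟩, hO2.symm⟩
    rw [div_le_one hEp]; linarith
  have e1 := w1.dist_add_dist
  have e2 := w2.dist_add_dist
  have i1 : dist (toC p) (toC y) < dist (toC p) (toC O) + dist (toC O) (toC y) := by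
    refine lt_of_le_of_ne (dist_triangle _ _ _) (fun h => ?_)
    have w3 : Wbtw ℝ (toC p) (toC O) (toC y) := dist_add_dist_eq_iff.1 h.symm
    obtain ⟨t, -, ht⟩ := w3
    have r1 : O.1 = t * (y.1 - p.1) + p.1 := by
      have := congrArg Complex.re ht
      simp only [toC, AffineMap.lineMap_apply, vsub_eq_sub, vadd_eq_add, Complex.add_re,
        Complex.real_smul, Complex.mul_re, Complex.ofReal_re, Complex.ofReal_im, Complex.sub_re,
        Complex.sub_im] at this
      linarith
    have r2 : O.2 = t * (y.2 - p.2) + p.2 := by
      have := congrArg Complex.im ht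
      simp only [toC, AffineMap.lineMap_apply, vsub_eq_sub, vadd_eq_add, Complex.add_im,
        Complex.real_smul, Complex.mul_im, Complex.ofReal_re, Complex.ofReal_im, Complex.sub_re,
        Complex.sub_im] at this
      linarith
    have s1 : O.1 * (b + d) = b * p.1 + d * x.1 := by
      simp only [O]; field_simp
    have s2 : O.2 * (b + d) = b * p.2 + d * x.2 := by
      simp only [O]; field_simp
    have key : d * a = 0 := by
      have e : d * a = ((b * p.1 + d * x.1) - (b + d) * p.1) * (y.2 - p.2) -
          ((b * p.2 + d * x.2) - (b + d) * p.2) * (y.1 - p.1) := by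
        rw [haa, ori]; ring
      rw [e, ← s1, ← s2, r1, r2]; ring
    exact absurd key (by positivity)
  have i2 : dist (toC q) (toC x) ≤ dist (toC q) (toC O) + dist (toC O) (toC x) :=
    dist_triangle _ _ _
  rw [dd_eq, dd_eq, dd_eq, dd_eq]
  linarith

theorem ori_swap (x y p : Pl) : ori y x p = - ori x y p := by
  unfold ori; ring

/-- MODULE EXCL -/
theorem excl : EXCL := by
  intro p q x y h1 h2 h
  rcases lt_or_gt_of_ne (left_ne_zero_of_mul h1.ne') with a1 | a1
  · have a2 : ori x y q < 0 := by nlinarith
    rcases lt_or_gt_of_ne (left_ne_zero_of_mul h2.ne') with c1 | c1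
    · have c2 : ori p q y < 0 := by nlinarith
      have := core q p y x (by rw [ori_swap]; linarith) (by rw [ori_swap]; linarith)
        (by rw [ori_swap]; linarith) (by rw [ori_swap]; linarith)
      linarith
    · have c2 : 0 < ori p q y := by nlinarith
      have := core p q y x (by rw [ori_swap]; linarith) (by rw [ori_swap]; linarith) c2 c1
      linarith
  · have a2 : 0 < ori x y q := by nlinarith
    rcases lt_or_gt_of_ne (left_ne_zero_of_mul h2.ne') with c1 | c1
    · have c2 : ori p q y < 0 := by nlinarith
      have := core q p x y a2 a1 (by rw [ori_swap]; linarith) (by rw [ori_swap]; linarith)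
      linarith
    · have c2 : 0 < ori p q y := by nlinarith
      have := core p q x y a1 a2 c1 c2
      linarith

end Pool.Agent.H28.PerExcl
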