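import Pool.Agent.H28.SPLines

/-!
Balanced diamond-free graphs: if no induced subgraph has an odd closed walk of pure edges, then
all induced subgraphs are clique-bicolourable (Berge), hence perfect.
-/

namespace Pool.Agent.H28.SP

open Finset

variable {V : Type*} [Fintype V] [DecidableEq V]

lemma PureEdge.symm {G : SimpleGraph V} {U : Finset V} {v w : V} (h : PureEdge G U v w) :
    PureEdge G U w v := ⟨h.1.symm, fun x hx h' => h.2 x hx ⟨h'.2, h'.1⟩⟩

/-- the graph of the pure edges of `G[U]` -/
def PureGraph (G : SimpleGraph V) (U : Finset V) : SimpleGraph V where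
  Adj v w := v ∈ U ∧ w ∈ U ∧ PureEdge G U v w
  symm := ⟨fun _ _ h => ⟨h.2.1, h.1, h.2.2.symm⟩⟩
  loopless := ⟨fun _ h => h.2.2.1.ne rfl⟩

lemma maxCliqueIn_pair {G : SimpleGraph V} {U : Finset V} {v w : V} (hv : v ∈ U) (hw : w ∈ U)
    (h : PureEdge G U v w) : MaxCliqueIn G U {v, w} := by
  refine ⟨⟨?_, ?_⟩, ?_⟩
  · intro x hx
    rw [Finset.mem_insert, Finset.mem_singleton] at hx
    rcases hx with rfl | rfl
    · exact hv
    · exact hw
  · rw [Finset.coe_pair, SimpleGraph.isClique_pair]
    exact fun _ => h.1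
  · intro D hD hle x hx
    have hvD : v ∈ D := hle (by simp)
    have hwD : w ∈ D := hle (by simp)
    rw [Finset.mem_insert, Finset.mem_singleton]
    by_contra hne
    push Not at hne
    exact h.2 x (hD.1 hx) ⟨hD.2 (by exact_mod_cast hvD) (by exact_mod_cast hx) (Ne.symm hne.1),
      hD.2 (by exact_mod_cast hwD) (by exact_mod_cast hx) (Ne.symm hne.2)⟩

lemma PureEdge.mono {G : SimpleGraph V} {U W : Finset V} {v w : V} (h : PureEdge G U v w)
    (hW : W ⊆ U) : PureEdge G W v w := ⟨h.1, fun x hx => h.2 x (hW hx)⟩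

/-- restriction of a maximal clique to a subset in which it keeps two vertices -/
lemma maxCliqueIn_inter {G : SimpleGraph V} (hG : DiamondFree G) {U W C : Finset V}
    (hWU : W ⊆ U) (hC : MaxCliqueIn G U C) (h2 : 2 ≤ (C ∩ W).card) :
    MaxCliqueIn G W (C ∩ W) := by
  have hCc := maxCliqueIn_clique hC
  refine ⟨⟨Finset.inter_subset_right, ?_⟩, ?_⟩
  · exact hCc.subset (by exact_mod_cast Finset.inter_subset_left)
  · intro D hD hle x hx
    rw [Finset.mem_inter]
    refine ⟨?_, hD.1 hx⟩
    obtain ⟨b, hb, c, hc, hbc⟩ := Finset.one_lt_card.mp h2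
    have hbD := hle hb
    have hcD := hle hc
    rw [Finset.mem_inter] at hb hc
    have hbc' := hCc (by exact_mod_cast hb.1) (by exact_mod_cast hc.1) hbc
    by_cases hxb : x = b
    · rw [hxb]; exact hb.1
    by_cases hxc : x = c
    · rw [hxc]; exact hc.1
    have hxb' := hD.2 (by exact_mod_cast hx) (by exact_mod_cast hbD) hxb
    have hxc' := hD.2 (by exact_mod_cast hx) (by exact_mod_cast hcD) hxc
    apply mem_of_forall_adj hC (hWU (hD.1 hx))
    intro d hd hxd
    by_cases hdb : b = d
    · subst hdb; exact hxb'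
    by_cases hdc : c = d
    · subst hdc; exact hxc'
    exact hG.adj hxb' hxc' hbc' (hCc (by exact_mod_cast hb.1) (by exact_mod_cast hd) hdb)
      (hCc (by exact_mod_cast hc.1) (by exact_mod_cast hd) hdc) hxd

/-- `c` is a bicolouring of the maximal cliques (with at least two vertices) of `G[U]` -/
def Bicol (G : SimpleGraph V) (U : Finset V) (c : V → Bool) : Prop :=
  ∀ C, MaxCliqueIn G U C → 2 ≤ C.card → ∀ b : Bool, ∃ x ∈ C, c x = b

lemma exists_pure_of_not_bicol {G : SimpleGraph V} (hG : DiamondFree G) {U : Finset V}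
    (hno : ∀ c, ¬ Bicol G U c) {j : V} (hj : j ∈ U) {c : V → Bool} (hc : Bicol G (U.erase j) c)
    (b : Bool) : ∃ k ∈ U, PureEdge G U j k ∧ c k = b := by
  have h1 := hno (Function.update c j b)
  unfold Bicol at h1
  push Not at h1
  obtain ⟨C, hC, hcard, b', hb'⟩ := h1
  have hjC : j ∈ C := by
    by_contra hjC
    obtain ⟨x, hx, hxb⟩ := hc C (maxCliqueIn_erase hC hjC) hcard b'
    have hxj : x ≠ j := fun h => hjC (h ▸ hx)
    apply hb' x hx
    rw [Function.update_of_ne hxj]
    exact hxb
  have hbb : b ≠ b' := by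
    have := hb' j hjC
    rwa [Function.update_self] at this
  have hCe : C ∩ U.erase j = C.erase j := by
    ext x
    simp only [Finset.mem_inter, Finset.mem_erase]
    constructor
    · rintro ⟨h1, h2, _⟩; exact ⟨h2, h1⟩
    · rintro ⟨h1, h2⟩; exact ⟨h2, h1, maxCliqueIn_subset hC h2⟩
  have hcard1 : (C.erase j).card = 1 := by
    have h3 : (C.erase j).card + 1 = C.card := Finset.card_erase_add_one hjC
    by_contra hne
    have h2 : 2 ≤ (C ∩ U.erase j).card := by rw [hCe]; omega
    obtain ⟨x, hx, hxb⟩ := hc _ (maxCliqueIn_inter hG (Finset.erase_subset _ _) hC h2) h2 b'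
    rw [hCe, Finset.mem_erase] at hx
    apply hb' x hx.2
    rw [Function.update_of_ne hx.1]
    exact hxb
  obtain ⟨k, hk⟩ := Finset.card_eq_one.mp hcard1
  have hkC : k ∈ C.erase j := by rw [hk]; simp
  rw [Finset.mem_erase] at hkC
  have hCeq : C = {j, k} := by rw [← Finset.insert_erase hjC, hk]
  refine ⟨k, maxCliqueIn_subset hC hkC.2, ⟨?_, ?_⟩, ?_⟩
  · exact maxCliqueIn_clique hC (by exact_mod_cast hjC) (by exact_mod_cast hkC.2) hkC.1.symm
  · rintro x hx ⟨h1, h2⟩
    have : x ∈ C := by
      apply mem_of_forall_adj hC hx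
      intro d hd _
      rw [hCeq, Finset.mem_insert, Finset.mem_singleton] at hd
      rcases hd with rfl | rfl
      · exact h1.symm
      · exact h2.symm
    rw [hCeq, Finset.mem_insert, Finset.mem_singleton] at this
    rcases this with rfl | rfl
    · exact h1.ne rfl
    · exact h2.ne rfl
  · have := hb' k hkC.2
    rw [Function.update_of_ne hkC.1] at this
    cases b <;> cases b' <;> simp_all

/-- Berge's theorem for diamond-free graphs -/
theorem exists_bicol {G : SimpleGraph V} (hG : DiamondFree G)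
    (hbip : ∀ U : Finset V, (PureGraph G U).Colorable 2) : ∀ U : Finset V, ∃ c, Bicol G U c := by
  classical
  intro U
  induction U using Finset.strongInduction with
  | H U ih =>
  by_contra hno
  push Not at hno
  rcases U.eq_empty_or_nonempty with rfl | ⟨r, hr⟩
  · apply hno (fun _ => true)
    intro C hC h2
    have := Finset.subset_empty.mp (maxCliqueIn_subset hC)
    subst this
    simp at h2
  set H := PureGraph G U with hH
  obtain ⟨φ⟩ := hbip U
  -- a vertex at maximum distance from `r`
  obtain ⟨j, hj, hjmax⟩ := Finset.exists_max_image (univ.filter (fun x => H.Reachable r x))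
    (fun x => H.dist r x) ⟨r, by simp⟩
  rw [Finset.mem_filter] at hj
  have hjr := hj.2
  have hmax : ∀ k, H.Reachable r k → H.dist r k ≤ H.dist r j := by
    intro k hk
    exact hjmax k (by rw [Finset.mem_filter]; exact ⟨Finset.mem_univ _, hk⟩)
  have hjU : j ∈ U := by
    obtain ⟨p⟩ := hjr.symm
    cases p with
    | nil => exact hr
    | cons h _ => exact h.1
  obtain ⟨c, hc⟩ := ih (U.erase j) (Finset.erase_ssubset hjU)
  obtain ⟨k, hkU, hjk, hck⟩ := exists_pure_of_not_bicol hG hno hjU hc true
  obtain ⟨l, hlU, hjl, hcl⟩ := exists_pure_of_not_bicol hG hno hjU hc false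
  -- along walks of `H` avoiding `j` the two colourings agree
  have hwalk : ∀ (x y : V) (p : H.Walk x y), j ∉ p.support → (c x = c y ↔ φ x = φ y) := by
    intro x y p
    induction p with
    | nil => simp
    | @cons x z y h p ihp =>
      intro hj'
      rw [SimpleGraph.Walk.support_cons, List.mem_cons, not_or] at hj'
      have h1 := ihp hj'.2
      have hzj : z ≠ j := fun hzj => hj'.2 (hzj ▸ p.start_mem_support)
      have hxj : x ≠ j := Ne.symm hj'.1
      have hφ : φ x ≠ φ z := φ.valid h
      have hcc : c x ≠ c z := by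
        intro heq
        have hm := maxCliqueIn_pair (G := G) (U := U.erase j) (v := x) (w := z)
          (Finset.mem_erase.mpr ⟨hxj, h.1⟩) (Finset.mem_erase.mpr ⟨hzj, h.2.1⟩)
          (h.2.2.mono (Finset.erase_subset _ _))
        obtain ⟨t, ht, htb⟩ := hc _ hm (by rw [Finset.card_pair h.2.2.1.ne]) (!(c x))
        rw [Finset.mem_insert, Finset.mem_singleton] at ht
        rcases ht with rfl | rfl
        · simp at htb
        · rw [heq] at htb; simp at htb
      have hφ2 : ∀ a b : Fin 2, a ≠ b ↔ a = 1 - b := by decide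
      have key : ∀ (a b d : Fin 2), a ≠ b → ((a = d) ↔ ¬ (b = d)) := by decide
      have key' : ∀ (a b d : Bool), a ≠ b → ((a = d) ↔ ¬ (b = d)) := by decide
      rw [key _ _ (φ y) hφ, key' _ _ (c y) hcc, h1]
  have hpath : ∀ k, H.Adj j k → ∃ p : H.Walk k r, j ∉ p.support := by
    intro k hjk
    have hrk : H.Reachable r k := hjr.trans hjk.reachable
    obtain ⟨p, hp⟩ := hrk.symm.exists_walk_length_eq_dist
    refine ⟨p, fun hjp => ?_⟩
    have h1 : (p.takeUntil j hjp).length + (p.dropUntil j hjp).length = p.length := by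
      rw [← SimpleGraph.Walk.length_append, SimpleGraph.Walk.take_spec]
    have h2 : H.dist j r ≤ (p.dropUntil j hjp).length := SimpleGraph.dist_le _
    have h3 : 1 ≤ (p.takeUntil j hjp).length := by
      rw [Nat.one_le_iff_ne_zero]
      intro h0
      have := SimpleGraph.Walk.eq_of_length_eq_zero h0
      exact hjk.ne this.symm
    have h4 := hmax k hrk
    rw [SimpleGraph.dist_comm (u := j)] at h2
    rw [SimpleGraph.dist_comm (u := k)] at hp
    omega
  obtain ⟨p, hp⟩ := hpath k ⟨hjU, hkU, hjk⟩
  obtain ⟨q, hq⟩ := hpath l ⟨hjU, hlU, hjl⟩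
  have e1 := hwalk k r p hp
  have e2 := hwalk l r q hq
  have f1 : φ j ≠ φ k := φ.valid (show H.Adj j k from ⟨hjU, hkU, hjk⟩)
  have f2 : φ j ≠ φ l := φ.valid (show H.Adj j l from ⟨hjU, hlU, hjl⟩)
  have f3 : φ k = φ l := by
    have key : ∀ (a b d : Fin 2), d ≠ a → d ≠ b → a = b := by decide
    exact key _ _ _ f1 f2
  rw [f3] at e1
  rw [hck] at e1
  rw [hcl] at e2
  by_cases h : φ l = φ r
  · have h1 := e1.mpr h
    have h2 := e2.mpr h
    rw [← h1] at h2
    simp at h2
  · have h1 : true ≠ c r := fun h' => h (e1.mp h')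
    have h2 : false ≠ c r := fun h' => h (e2.mp h')
    cases hcr : c r <;> simp_all

end Pool.Agent.H28.SP
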