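import Pool.Agent.H28.SPBal

/-!
Balanced diamond-free graphs are perfect; strongly perfect diamond-free graphs are balanced.
-/

namespace Pool.Agent.H28.SP

open Finset

variable {V : Type*} [Fintype V] [DecidableEq V]

open Classical in
/-- number of pairs (maximal clique of `G[W]`, colour occurring in it) -/
noncomputable def potential (G : SimpleGraph V) (W : Finset V) {n : ℕ} (c : V → Fin n) : ℕ :=
  ∑ C ∈ maxCliques G W, (C.image c).card

theorem col_of_bicol {G : SimpleGraph V} (hG : DiamondFree G)
    (hbic : ∀ U : Finset V, ∃ c, Bicol G U c) (W : Finset V) (n : ℕ)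
    (hn : ∀ K ⊆ W, G.IsClique (K : Set V) → K.card ≤ n) : Col G W n := by
  classical
  rcases W.eq_empty_or_nonempty with rfl | ⟨x0, hx0⟩
  · exact ⟨fun _ => 0, by simp, by simp⟩
  have hn1 : 1 ≤ n := by
    have := hn {x0} (by simpa using hx0) (by simp)
    simpa using this
  obtain ⟨c, _, hmax⟩ := Finset.exists_max_image (univ : Finset (V → Fin n))
    (fun c => potential G W c) ⟨fun _ => ⟨0, hn1⟩, Finset.mem_univ _⟩
  refine ⟨fun x => (c x : ℕ), fun v _ => (c v).2, ?_⟩
  intro u hu v hv huv heq
  have heq' : c u = c v := Fin.ext heq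
  obtain ⟨C, hKC, hC⟩ := exists_maxCliqueIn (G := G) (U := W) (K := {u, v}) (by
    intro x hx
    rw [Finset.mem_insert, Finset.mem_singleton] at hx
    rcases hx with rfl | rfl
    · exact hu
    · exact hv) (by
    rw [Finset.coe_pair, SimpleGraph.isClique_pair]
    exact fun _ => huv)
  have huC : u ∈ C := hKC (by simp)
  have hvC : v ∈ C := hKC (by simp)
  have hCn : C.card ≤ n := hn C (maxCliqueIn_subset hC) (maxCliqueIn_clique hC)
  have him : (C.image c).card < C.card := by
    apply lt_of_le_of_ne Finset.card_image_le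
    intro h
    have := Finset.card_image_iff.mp h
    exact huv.ne (this (by exact_mod_cast huC) (by exact_mod_cast hvC) heq')
  -- a colour `q` missing in `C`
  obtain ⟨q, hq⟩ : ∃ q : Fin n, q ∉ C.image c := by
    by_contra hcon
    push Not at hcon
    have : (C.image c).card = n := by
      rw [Finset.eq_univ_iff_forall.mpr hcon, Finset.card_univ, Fintype.card_fin]
    omega
  set p := c u with hp
  have hpq : p ≠ q := by
    intro h
    exact hq (h ▸ Finset.mem_image_of_mem c huC)
  set W' := W.filter (fun x => c x = p ∨ c x = q) with hW'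
  have hW'W : W' ⊆ W := Finset.filter_subset _ _
  obtain ⟨b, hb⟩ := hbic W'
  set c' : V → Fin n := fun x => if x ∈ W' then (if b x then p else q) else c x with hc'
  -- comparison clique by clique
  have hsplit : ∀ (e : V → Fin n) (D : Finset V), D ⊆ W →
      (∀ x ∈ D ∩ W', e x = p ∨ e x = q) → (∀ x ∈ D \ W', e x = c x) →
      (D.image e).card = ((D ∩ W').image e).card + ((D \ W').image c).card := by
    intro e D hDW h1 h2
    have e1 : D.image e = (D ∩ W').image e ∪ (D \ W').image c := by
      ext y
      simp only [Finset.mem_image, Finset.mem_union, Finset.mem_inter, Finset.mem_sdiff]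
      constructor
      · rintro ⟨x, hx, rfl⟩
        by_cases hxW : x ∈ W'
        · exact Or.inl ⟨x, ⟨hx, hxW⟩, rfl⟩
        · exact Or.inr ⟨x, ⟨hx, hxW⟩, (h2 x (Finset.mem_sdiff.mpr ⟨hx, hxW⟩)).symm⟩
      · rintro (⟨x, ⟨hx, _⟩, rfl⟩ | ⟨x, ⟨hx, hxW⟩, rfl⟩)
        · exact ⟨x, hx, rfl⟩
        · exact ⟨x, hx, h2 x (Finset.mem_sdiff.mpr ⟨hx, hxW⟩)⟩
    rw [e1, Finset.card_union_of_disjoint]
    rw [Finset.disjoint_left]
    intro y hy1 hy2
    rw [Finset.mem_image] at hy1 hy2
    obtain ⟨x, hx, rfl⟩ := hy1
    obtain ⟨x', hx', hxx⟩ := hy2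
    rw [Finset.mem_sdiff] at hx'
    apply hx'.2
    rw [hW', Finset.mem_filter]
    refine ⟨hDW hx'.1, ?_⟩
    rcases h1 x hx with h | h
    · left; rw [hxx, h]
    · right; rw [hxx, h]
  have hcW' : ∀ x ∈ W', c x = p ∨ c x = q := by
    intro x hx
    rw [hW', Finset.mem_filter] at hx
    exact hx.2
  have hc'W' : ∀ x ∈ W', c' x = if b x then p else q := by
    intro x hx; simp only [hc']; rw [if_pos hx]
  have hc'n : ∀ x, x ∉ W' → c' x = c x := by
    intro x hx; simp only [hc']; rw [if_neg hx]
  have hc'pq : ∀ x ∈ W', c' x = p ∨ c' x = q := by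
    intro x hx
    rw [hc'W' x hx]
    split_ifs
    · exact Or.inl rfl
    · exact Or.inr rfl
  have hsub2 : ∀ (e : V → Fin n) (D : Finset V), (∀ x ∈ D ∩ W', e x = p ∨ e x = q) →
      ((D ∩ W').image e).card ≤ 2 := by
    intro e D h
    calc ((D ∩ W').image e).card ≤ ({p, q} : Finset (Fin n)).card := by
          apply Finset.card_le_card
          intro y hy
          rw [Finset.mem_image] at hy
          obtain ⟨x, hx, rfl⟩ := hy
          rw [Finset.mem_insert, Finset.mem_singleton]
          exact h x hx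
      _ = 2 := Finset.card_pair hpq
  have hnew2 : ∀ D, MaxCliqueIn G W D → 2 ≤ (D ∩ W').card → ((D ∩ W').image c').card = 2 := by
    intro D hD h2
    have hm := maxCliqueIn_inter hG hW'W hD h2
    obtain ⟨x, hx, hxb⟩ := hb _ hm h2 true
    obtain ⟨y, hy, hyb⟩ := hb _ hm h2 false
    have hle := hsub2 c' D (fun z hz => hc'pq z (Finset.mem_inter.mp hz).2)
    have h3 : 2 ≤ ((D ∩ W').image c').card := by
      rw [← Nat.succ_le_iff.eq, Nat.succ_le_iff] at *
      apply Finset.one_lt_card.mpr
      refine ⟨c' x, Finset.mem_image_of_mem _ hx, c' y, Finset.mem_image_of_mem _ hy, ?_⟩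
      rw [hc'W' x (Finset.mem_inter.mp hx).2, hc'W' y (Finset.mem_inter.mp hy).2, hxb, hyb]
      simpa using hpq
    omega
  have hle : ∀ D ∈ maxCliques G W, (D.image c).card ≤ (D.image c').card := by
    intro D hD
    have hD' := mem_maxCliques.mp hD
    have hDW := maxCliqueIn_subset hD'
    rw [hsplit c D hDW (fun x hx => hcW' x (Finset.mem_inter.mp hx).2) (fun _ _ => rfl),
      hsplit c' D hDW (fun x hx => hc'pq x (Finset.mem_inter.mp hx).2)
        (fun x hx => hc'n x (Finset.mem_sdiff.mp hx).2)]
    apply Nat.add_le_add_right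
    rcases Nat.lt_or_ge (D ∩ W').card 2 with h | h
    · have h1 : ((D ∩ W').image c).card ≤ (D ∩ W').card := Finset.card_image_le
      rcases Nat.eq_zero_or_pos (D ∩ W').card with h0 | h0
      · omega
      · have h2 : 1 ≤ ((D ∩ W').image c').card := by
          apply Finset.card_pos.mpr
          exact (Finset.card_pos.mp h0).image _
        omega
    · rw [hnew2 D hD' h]
      exact hsub2 c D (fun x hx => hcW' x (Finset.mem_inter.mp hx).2)
  have hlt : (C.image c).card < (C.image c').card := by
    have hCW := maxCliqueIn_subset hC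
    rw [hsplit c C hCW (fun x hx => hcW' x (Finset.mem_inter.mp hx).2) (fun _ _ => rfl),
      hsplit c' C hCW (fun x hx => hc'pq x (Finset.mem_inter.mp hx).2)
        (fun x hx => hc'n x (Finset.mem_sdiff.mp hx).2)]
    apply Nat.add_lt_add_right
    have huW' : u ∈ W' := by rw [hW', Finset.mem_filter]; exact ⟨hu, Or.inl rfl⟩
    have hvW' : v ∈ W' := by rw [hW', Finset.mem_filter]; exact ⟨hv, Or.inl heq'.symm⟩
    have h2 : 2 ≤ (C ∩ W').card := by
      have : ({u, v} : Finset V) ⊆ C ∩ W' := by
        intro x hx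
        rw [Finset.mem_insert, Finset.mem_singleton] at hx
        rcases hx with rfl | rfl
        · exact Finset.mem_inter.mpr ⟨huC, huW'⟩
        · exact Finset.mem_inter.mpr ⟨hvC, hvW'⟩
      calc 2 = ({u, v} : Finset V).card := (Finset.card_pair huv.ne).symm
        _ ≤ _ := Finset.card_le_card this
    rw [hnew2 C hC h2]
    have h3 : (C ∩ W').image c ⊆ {p} := by
      intro y hy
      rw [Finset.mem_image] at hy
      obtain ⟨x, hx, rfl⟩ := hy
      rw [Finset.mem_inter] at hx
      rw [Finset.mem_singleton]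
      rcases hcW' x hx.2 with h | h
      · exact h
      · exact absurd (h ▸ Finset.mem_image_of_mem c hx.1) hq
    have h4 := Finset.card_le_card h3
    rw [Finset.card_singleton] at h4
    omega
  have hpot : potential G W c < potential G W c' := by
    unfold potential
    exact Finset.sum_lt_sum hle ⟨C, mem_maxCliques.mpr hC, hlt⟩
  have := hmax c' (Finset.mem_univ _)
  omega

theorem perfOn_of_bicol {G : SimpleGraph V} (hG : DiamondFree G)
    (hbic : ∀ U : Finset V, ∃ c, Bicol G U c) (U : Finset V) : PerfOn G U := by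
  intro W _ n hn
  exact cov_of_col (col_of_bicol hG hbic W n hn)

/-- An odd closed walk of `G` in which no vertex of the walk is adjacent to both ends of an edge
of the walk. -/
def OddPureWalk (G : SimpleGraph V) : Prop :=
  ∃ (v : V) (p : G.Walk v v), Odd p.length ∧
    ∀ d ∈ p.darts, ∀ z ∈ p.support, ¬ (G.Adj d.fst z ∧ G.Adj d.snd z)

theorem oddPureWalk_of_not_colorable {G : SimpleGraph V} {U : Finset V}
    (h : ¬ (PureGraph G U).Colorable 2) : OddPureWalk G := by
  rw [SimpleGraph.two_colorable_iff_forall_loop_even] at h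
  push Not at h
  obtain ⟨v, w, hw⟩ := h
  have key : ∀ (x y : V) (w : (PureGraph G U).Walk x y), ∃ p : G.Walk x y,
      p.length = w.length ∧ (∀ d ∈ p.darts, PureEdge G U d.fst d.snd) ∧
      (∀ z ∈ p.support, z = x ∨ z ∈ U) := by
    intro x y w
    induction w with
    | nil => exact ⟨SimpleGraph.Walk.nil, rfl, by simp, by simp⟩
    | @cons x z y h w ih =>
      obtain ⟨p, h1, h2, h3⟩ := ih
      refine ⟨SimpleGraph.Walk.cons h.2.2.1 p, ?_, ?_, ?_⟩
      · simp [h1]
      · intro d hd
        rw [SimpleGraph.Walk.darts_cons, List.mem_cons] at hd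
        rcases hd with rfl | hd
        · exact h.2.2
        · exact h2 d hd
      · intro t ht
        rw [SimpleGraph.Walk.support_cons, List.mem_cons] at ht
        rcases ht with rfl | ht
        · exact Or.inl rfl
        · rcases h3 t ht with rfl | h'
          · exact Or.inr h.2.1
          · exact Or.inr h'
  have hvU : v ∈ U := by
    cases w with
    | nil => simp at hw
    | cons h _ => exact h.1
  obtain ⟨p, h1, h2, h3⟩ := key v v w
  refine ⟨v, p, ?_, ?_⟩
  · rw [h1]; exact Nat.not_even_iff_odd.mp hw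
  · intro d hd z hz
    apply (h2 d hd).2
    rcases h3 z hz with rfl | h'
    · exact hvU
    · exact h'

theorem not_stronglyPerfect_of_oddPureWalk {G : SimpleGraph V} (h : OddPureWalk G) :
    ¬ StronglyPerfect G := by
  classical
  intro hSP
  obtain ⟨v, p, hodd, hp⟩ := h
  obtain ⟨S, hSU, hSi, hS⟩ := hSP p.support.toFinset ⟨v, by simp⟩
  have hedge : ∀ d ∈ p.darts, (d.fst ∈ S ↔ d.snd ∉ S) := by
    intro d hd
    have hf : d.fst ∈ p.support.toFinset := by
      rw [List.mem_toFinset]; exact p.dart_fst_mem_support_of_mem_darts hd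
    have hs : d.snd ∈ p.support.toFinset := by
      rw [List.mem_toFinset]; exact p.dart_snd_mem_support_of_mem_darts hd
    have hpe : PureEdge G p.support.toFinset d.fst d.snd :=
      ⟨d.adj, fun z hz => hp d hd z (by rwa [List.mem_toFinset] at hz)⟩
    obtain ⟨x, hx⟩ := hS _ (maxCliqueIn_pair hf hs hpe)
    rw [Finset.mem_inter, Finset.mem_insert, Finset.mem_singleton] at hx
    constructor
    · intro h1 h2
      exact hSi (by exact_mod_cast h1) (by exact_mod_cast h2) d.adj.ne d.adj
    · intro h1
      rcases hx.2 with h2 | h2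
      · rw [← h2]; exact hx.1
      · exact absurd (h2 ▸ hx.1) h1
  have key : ∀ (x y : V) (q : G.Walk x y), (∀ d ∈ q.darts, (d.fst ∈ S ↔ d.snd ∉ S)) →
      (Even q.length ↔ (x ∈ S ↔ y ∈ S)) := by
    intro x y q
    induction q with
    | nil => simp
    | @cons x z y h q ih =>
      intro hq
      have h1 := ih (fun d hd => hq d (by
        rw [SimpleGraph.Walk.darts_cons]; exact List.mem_cons_of_mem _ hd))
      have h2 := hq ⟨(x, z), h⟩ (by rw [SimpleGraph.Walk.darts_cons]; exact List.mem_cons_self)
      simp only at h2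
      rw [SimpleGraph.Walk.length_cons, Nat.even_add_one, h1]
      tauto
  have := (key v v p hedge).mpr Iff.rfl
  exact (Nat.not_even_iff_odd.mpr hodd) this

end Pool.Agent.H28.SP
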