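import Pool.Agent.H28.SPDefs

/-!
Core lemmas for `MP_f2aa9e_lc`: weighted versions of Lovász's replication lemma and of the weak
perfect graph theorem, in a covering form.
-/

namespace Pool.Agent.H28.SP

open Finset

variable {V : Type*} [Fintype V] [DecidableEq V]

/-- `w` can be covered by at most `n` sets with property `P`. -/
def Cov (P : Finset V → Prop) (w : V → ℕ) (n : ℕ) : Prop :=
  ∃ F : Multiset (Finset V), Multiset.card F ≤ n ∧ (∀ S ∈ F, P S) ∧
    ∀ v, w v ≤ Multiset.countP (fun S => v ∈ S) F

lemma sum_countP_le (A : Finset V) (d : V → ℕ) (m : ℕ) (F : Multiset (Finset V))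
    (h : ∀ S ∈ F, ∑ x ∈ A, (if x ∈ S then d x else 0) ≤ m) :
    ∑ x ∈ A, Multiset.countP (fun S => x ∈ S) F * d x ≤ Multiset.card F * m := by
  induction F using Multiset.induction_on with
  | empty => simp
  | cons S F ih =>
    have h1 := ih (fun T hT => h T (Multiset.mem_cons_of_mem hT))
    have h2 := h S (Multiset.mem_cons_self S F)
    have h3 : ∑ x ∈ A, Multiset.countP (fun S => x ∈ S) (S ::ₘ F) * d x
        = ∑ x ∈ A, (if x ∈ S then d x else 0)
          + ∑ x ∈ A, Multiset.countP (fun S => x ∈ S) F * d x := by
      rw [← Finset.sum_add_distrib]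
      apply Finset.sum_congr rfl
      intro x _
      rw [Multiset.countP_cons]
      split_ifs <;> ring
    rw [h3, Multiset.card_cons, Nat.succ_mul]
    linarith

/-- a clique and a stable set meet in at most one vertex -/
lemma card_inter_le_one {G : SimpleGraph V} {K S : Finset V} (hK : G.IsClique (K : Set V))
    (hS : G.IsIndepSet (S : Set V)) : (K ∩ S).card ≤ 1 := by
  rw [Finset.card_le_one]
  intro a ha b hb
  by_contra hab
  rw [Finset.mem_inter] at ha hb
  exact hS (by exact_mod_cast ha.2) (by exact_mod_cast hb.2) hab
    (hK (by exact_mod_cast ha.1) (by exact_mod_cast hb.1) hab)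

lemma sum_ite_le_one {G : SimpleGraph V} {K S : Finset V} (hK : G.IsClique (K : Set V))
    (hS : G.IsIndepSet (S : Set V)) : ∑ x ∈ K, (if x ∈ S then 1 else 0) ≤ 1 := by
  have := card_inter_le_one hK hS
  rw [← Finset.filter_mem_eq_inter, Finset.card_filter] at this
  exact this

lemma sum_ite_le_one' {G : SimpleGraph V} {K S : Finset V} (hK : G.IsClique (K : Set V))
    (hS : G.IsIndepSet (S : Set V)) : ∑ x ∈ S, (if x ∈ K then 1 else 0) ≤ 1 := by
  have := card_inter_le_one hK hS
  rw [Finset.inter_comm, ← Finset.filter_mem_eq_inter, Finset.card_filter] at this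
  exact this

/-- perfection of `G[U]`, in covering form -/
def PerfOn (G : SimpleGraph V) (U : Finset V) : Prop :=
  ∀ W ⊆ U, ∀ n, (∀ K ⊆ W, G.IsClique (K : Set V) → K.card ≤ n) →
    Cov (fun S => G.IsIndepSet (S : Set V)) (fun v => if v ∈ W then 1 else 0) n

lemma isIndepSet_singleton (G : SimpleGraph V) (v : V) :
    G.IsIndepSet ((({v} : Finset V)) : Set V) := by
  intro a ha b hb hab
  simp at ha hb
  exact absurd (ha.trans hb.symm) hab

/-- weighted replication lemma -/
theorem weighted (G : SimpleGraph V) (U : Finset V) (hP : PerfOn G U) :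
    ∀ (N : ℕ) (w : V → ℕ) (n : ℕ), (∑ v, w v = N) → (∀ v, v ∉ U → w v = 0) →
      (∀ K : Finset V, G.IsClique (K : Set V) → ∑ v ∈ K, w v ≤ n) →
      Cov (fun S => G.IsIndepSet (S : Set V)) w n := by
  intro N
  induction N using Nat.strong_induction_on with
  | _ N ih =>
  intro w n hN hU hK
  by_cases hw : ∀ v, w v ≤ 1
  · -- unweighted case
    have h1 := hP (univ.filter (fun v => 0 < w v)) (by
      intro v hv
      rw [Finset.mem_filter] at hv
      by_contra hvU
      have := hU v hvU
      omega) n (by
      intro K hKW hKc
      refine le_trans ?_ (hK K hKc)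
      rw [Finset.card_eq_sum_ones]
      apply Finset.sum_le_sum
      intro v hv
      exact (Finset.mem_filter.mp (hKW hv)).2)
    obtain ⟨F, hF1, hF2, hF3⟩ := h1
    refine ⟨F, hF1, hF2, fun v => ?_⟩
    have h2 := hF3 v
    simp only [Finset.mem_filter, Finset.mem_univ, true_and] at h2
    have h3 := hw v
    split_ifs at h2 with h4
    · omega
    · omega
  · push Not at hw
    obtain ⟨v, hv⟩ := hw
    -- w' = w - 1_v
    set w' : V → ℕ := fun x => if x = v then w x - 1 else w x with hw'
    have hw'le : ∀ x, w' x ≤ w x := by
      intro x; simp only [hw']; split_ifs <;> omega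
    have hw'v : w' v = w v - 1 := by simp [hw']
    have hw'x : ∀ x, x ≠ v → w' x = w x := by intro x hx; simp [hw', hx]
    have hsum' : ∑ x, w' x < N := by
      rw [← hN]
      apply Finset.sum_lt_sum (fun x _ => hw'le x)
      exact ⟨v, Finset.mem_univ v, by rw [hw'v]; omega⟩
    obtain ⟨F, hF1, hF2, hF3⟩ := ih _ hsum' w' n rfl
      (fun x hx => by have := hU x hx; have := hw'le x; omega)
      (fun K hKc => le_trans (Finset.sum_le_sum (fun x _ => hw'le x)) (hK K hKc))
    by_cases hcard : Multiset.card F + 1 ≤ n
    · refine ⟨({v} : Finset V) ::ₘ F, ?_, ?_, ?_⟩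
      · rw [Multiset.card_cons]; exact hcard
      · intro S hS
        rw [Multiset.mem_cons] at hS
        rcases hS with rfl | hS
        · exact isIndepSet_singleton G v
        · exact hF2 S hS
      · intro x
        rw [Multiset.countP_cons]
        have := hF3 x
        by_cases hx : x = v
        · subst hx
          simp
          omega
        · rw [hw'x x hx] at this
          omega
    · have hcard' : Multiset.card F = n := by omega
      have h1 : 1 ≤ Multiset.countP (fun S => v ∈ S) F := by
        have := hF3 v
        omega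
      obtain ⟨S, hSF, hvS⟩ := Multiset.countP_pos.mp h1
      obtain ⟨F', rfl⟩ := Multiset.exists_cons_of_mem hSF
      set w'' : V → ℕ := fun x => if x ∈ S ∧ x ≠ v then w' x - 1 else w' x with hw''
      have hw''le : ∀ x, w'' x ≤ w' x := by
        intro x; simp only [hw'']; split_ifs <;> omega
      have hcov : ∀ x, x ≠ v → w'' x ≤ Multiset.countP (fun S => x ∈ S) F' := by
        intro x hx
        have := hF3 x
        rw [Multiset.countP_cons] at this
        simp only [hw'']
        by_cases hxS : x ∈ S
        · simp only [hxS, if_true] at this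
          simp only [hxS, hx, ne_eq, not_false_eq_true, and_self, if_true]
          omega
        · simp only [hxS, if_false] at this
          simp only [hxS, false_and, if_false]
          omega
      rw [Multiset.card_cons] at hcard'
      have hclq : ∀ K : Finset V, G.IsClique (K : Set V) → ∑ x ∈ K, w'' x ≤ n - 1 := by
        intro K hKc
        by_cases hvK : v ∈ K
        · have e1 : ∑ x ∈ K, w'' x ≤ ∑ x ∈ K, w' x := Finset.sum_le_sum (fun x _ => hw''le x)
          have e2 : ∑ x ∈ K, w' x < ∑ x ∈ K, w x := by
            apply Finset.sum_lt_sum (fun x _ => hw'le x)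
            exact ⟨v, hvK, by rw [hw'v]; omega⟩
          have e3 := hK K hKc
          omega
        · have e1 : ∑ x ∈ K, w'' x ≤ ∑ x ∈ K, Multiset.countP (fun S => x ∈ S) F' * 1 := by
            apply Finset.sum_le_sum
            intro x hx
            rw [mul_one]
            exact hcov x (fun h => hvK (h ▸ hx))
          have e2 := sum_countP_le K (fun _ => 1) 1 F' (by
            intro T hT
            exact sum_ite_le_one hKc (hF2 T (Multiset.mem_cons_of_mem hT)))
          omega
      obtain ⟨F'', hG1, hG2, hG3⟩ := ih (∑ x, w'' x)
        (lt_of_le_of_lt (Finset.sum_le_sum (fun x _ => hw''le x)) hsum') w'' (n - 1) rfl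
        (fun x hx => by have := hU x hx; have := hw'le x; have := hw''le x; omega) hclq
      refine ⟨S ::ₘ F'', ?_, ?_, ?_⟩
      · rw [Multiset.card_cons]; omega
      · intro T hT
        rw [Multiset.mem_cons] at hT
        rcases hT with rfl | hT
        · exact hF2 _ (Multiset.mem_cons_self _ _)
        · exact hG2 T hT
      · intro x
        rw [Multiset.countP_cons]
        have h2 := hG3 x
        by_cases hx : x = v
        · subst hx
          have : w'' x = w' x := by simp [hw'']
          simp only [hvS, if_true]
          omega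
        · have hwx := hw'x x hx
          by_cases hxS : x ∈ S
          · have : w'' x = w' x - 1 := by simp [hw'', hxS, hx]
            simp only [hxS, if_true]
            omega
          · have : w'' x = w' x := by simp [hw'', hxS]
            simp only [hxS, if_false]
            omega

end Pool.Agent.H28.SP
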