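import Mathlib

/-!
Definitions for `MP_f2aa9e_lc` (strongly perfect diamond-free graphs). Induced subgraphs of a
graph `G` on the finite vertex type `V` are given by their vertex sets `U : Finset V`.
-/

namespace Pool.Agent.H28.SP

open Finset

variable {V : Type*} [Fintype V] [DecidableEq V]

/-- `C` is a maximal clique of the induced subgraph `G[U]`. -/
def MaxCliqueIn (G : SimpleGraph V) (U C : Finset V) : Prop :=
  Maximal (fun K : Finset V => K ⊆ U ∧ G.IsClique (K : Set V)) C

/-- `S` is a strong stable set of the induced subgraph `G[U]`: a stable set meeting every maximal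
clique of `G[U]`. -/
def StrongStableIn (G : SimpleGraph V) (U S : Finset V) : Prop :=
  S ⊆ U ∧ G.IsIndepSet (S : Set V) ∧ ∀ C, MaxCliqueIn G U C → (S ∩ C).Nonempty

/-- `G` is strongly perfect: every (nonempty) induced subgraph, `G` itself included, has a strong
stable set. -/
def StronglyPerfect (G : SimpleGraph V) : Prop :=
  ∀ U : Finset V, U.Nonempty → ∃ S, StrongStableIn G U S

/-- `G` has no induced diamond (`K₄` minus the edge `ad`). -/
def DiamondFree (G : SimpleGraph V) : Prop :=
  ¬ ∃ a b c d : V, G.Adj a b ∧ G.Adj a c ∧ G.Adj b c ∧ G.Adj b d ∧ G.Adj c d ∧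
    a ≠ d ∧ ¬ G.Adj a d

/-- The edge `vw` lies in no triangle of `G[U]`. -/
def PureEdge (G : SimpleGraph V) (U : Finset V) (v w : V) : Prop :=
  G.Adj v w ∧ ∀ x ∈ U, ¬ (G.Adj v x ∧ G.Adj w x)

/-- The *lines* of `G[U]`: for every edge `bc` of `G[U]` the set consisting of `b`, `c` and their
common neighbours in `U`, and for every isolated vertex `v` of `G[U]` the set `{v}`. There are at
most as many lines as `G[U]` has vertices and edges. (If `G` is diamond-free and `U` is nonempty,
the lines are the maximal cliques of `G[U]`; this is `mem_lines_iff`.) -/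
def lines (G : SimpleGraph V) [DecidableRel G.Adj] (U : Finset V) : Finset (Finset V) :=
  ((U.filter (fun v => ∀ x ∈ U, ¬ G.Adj v x)).image (fun v => {v})) ∪
  (((U ×ˢ U).filter (fun p => G.Adj p.1 p.2)).image
    (fun p => U.filter (fun x => (x = p.1 ∨ G.Adj x p.1) ∧ (x = p.2 ∨ G.Adj x p.2))))

/-- `F` is a *cheap cover* of `G[U]`: a multiset of lines of `G[U]` (repetitions allowed), with
fewer members than `G[U]` has lines, such that every vertex of `U` is in at least as many members
of `F` as it is in lines of `G[U]`. -/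
def CheapCover (G : SimpleGraph V) [DecidableRel G.Adj] (U : Finset V)
    (F : Multiset (Finset V)) : Prop :=
  (∀ K ∈ F, K ∈ lines G U) ∧
  (∀ v ∈ U, ((lines G U).filter (fun C => v ∈ C)).card
      ≤ Multiset.countP (fun K => v ∈ K) F) ∧
  Multiset.card F < (lines G U).card

/-- Lovász's certificate of imperfection for `G[U]`: `a, b ≥ 2`, `ab < |U|`, and for every
`v ∈ U` the set `U - v` is a union of `a` cliques and a union of `b` stable sets. -/
def ImperfectCert (G : SimpleGraph V) (U : Finset V) : Prop :=
  ∃ a b : ℕ, 2 ≤ a ∧ 2 ≤ b ∧ a * b < U.card ∧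
    ∀ v ∈ U, (Gᶜ.induce {x | x ∈ U ∧ x ≠ v}).Colorable a ∧
      (G.induce {x | x ∈ U ∧ x ≠ v}).Colorable b

end Pool.Agent.H28.SP
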