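import Pool.Agent.H28.SPCore

/-!
Weighted weak perfect graph theorem (covering form) and the duality for strong stable sets.
-/

namespace Pool.Agent.H28.SP

open Finset

variable {V : Type*} [Fintype V] [DecidableEq V]

open Classical in
/-- In a perfect graph some clique meets all stable sets of maximum weight. -/
lemma exists_hitting_clique (G : SimpleGraph V) (U : Finset V) (hP : PerfOn G U) (m : ℕ)
    (hm : 1 ≤ m) (d : V → ℕ)
    (hd : ∀ S : Finset V, G.IsIndepSet (S : Set V) → ∑ v ∈ S, d v ≤ m) :
    ∃ K : Finset V, K ⊆ U ∧ G.IsClique (K : Set V) ∧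
      ∀ S : Finset V, S ⊆ U → G.IsIndepSet (S : Set V) →
        ∑ v ∈ S, d v = m → (K ∩ S).Nonempty := by
  by_contra hcon
  push Not at hcon
  choose! S hSU hSi hSm hSK using hcon
  set 𝒦 : Finset (Finset V) := univ.filter (fun K => K ⊆ U ∧ G.IsClique (K : Set V)) with h𝒦
  have hmem : ∀ K, K ∈ 𝒦 ↔ K ⊆ U ∧ G.IsClique (K : Set V) := by
    intro K; rw [h𝒦, Finset.mem_filter]; simp
  have hpos : 1 ≤ 𝒦.card := by
    apply Finset.card_pos.mpr
    exact ⟨∅, (hmem ∅).mpr ⟨Finset.empty_subset _, by simp⟩⟩
  set w : V → ℕ := fun x => ∑ K ∈ 𝒦, if x ∈ S K then 1 else 0 with hw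
  have hwU : ∀ v, v ∉ U → w v = 0 := by
    intro v hv
    apply Finset.sum_eq_zero
    intro K hK
    rw [hmem] at hK
    rw [if_neg]
    intro h
    exact hv (hSU K hK.1 hK.2 h)
  have hwK : ∀ K' : Finset V, G.IsClique (K' : Set V) → ∑ x ∈ K', w x ≤ 𝒦.card - 1 := by
    intro K' hK'
    have hK0 : K' ∩ U ∈ 𝒦 := by
      rw [hmem]
      refine ⟨Finset.inter_subset_right, ?_⟩
      exact hK'.subset (by exact_mod_cast Finset.inter_subset_left)
    have e1 : ∑ x ∈ K', w x = ∑ K ∈ 𝒦, ∑ x ∈ K', (if x ∈ S K then 1 else 0) := by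
      rw [hw]; exact Finset.sum_comm
    rw [e1, ← Finset.add_sum_erase _ _ hK0]
    have e2 : ∑ x ∈ K', (if x ∈ S (K' ∩ U) then 1 else 0) = 0 := by
      apply Finset.sum_eq_zero
      intro x hx
      rw [if_neg]
      intro hxS
      rw [hmem] at hK0
      have h3 := hSK _ hK0.1 hK0.2
      have h4 : x ∈ K' ∩ U ∩ S (K' ∩ U) := by
        rw [Finset.mem_inter, Finset.mem_inter]
        exact ⟨⟨hx, hSU _ hK0.1 hK0.2 hxS⟩, hxS⟩
      rw [h3] at h4
      simp at h4
    rw [e2, zero_add, ← Finset.card_erase_of_mem hK0, Finset.card_eq_sum_ones]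
    apply Finset.sum_le_sum
    intro K hK
    have hK2 := (hmem K).mp (Finset.mem_of_mem_erase hK)
    exact sum_ite_le_one hK' (hSi K hK2.1 hK2.2)
  obtain ⟨F, hF1, hF2, hF3⟩ := weighted G U hP _ w (𝒦.card - 1) rfl hwU hwK
  have e3 : ∑ x, w x * d x ≤ ∑ x, Multiset.countP (fun T => x ∈ T) F * d x := by
    apply Finset.sum_le_sum
    intro x _
    exact Nat.mul_le_mul_right _ (hF3 x)
  have e4 : ∑ x, Multiset.countP (fun T => x ∈ T) F * d x ≤ Multiset.card F * m := by
    apply sum_countP_le
    intro T hT
    rw [← Finset.sum_filter]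
    have : (univ.filter (fun x => x ∈ T)) = T := by ext x; simp
    rw [this]
    exact hd T (hF2 T hT)
  have e5 : ∑ x, w x * d x = 𝒦.card * m := by
    have e6 : ∑ x, w x * d x = ∑ K ∈ 𝒦, ∑ x, (if x ∈ S K then d x else 0) := by
      rw [Finset.sum_comm]
      apply Finset.sum_congr rfl
      intro x _
      rw [hw, Finset.sum_mul]
      apply Finset.sum_congr rfl
      intro K _
      split_ifs <;> simp
    rw [e6, Finset.sum_const_nat (m := m)]
    intro K hK
    rw [hmem] at hK
    rw [← Finset.sum_filter]
    have : (univ.filter (fun x => x ∈ S K)) = S K := by ext x; simp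
    rw [this]
    exact hSm K hK.1 hK.2
  have e7 : Multiset.card F * m ≤ (𝒦.card - 1) * m := Nat.mul_le_mul_right _ hF1
  have e8 : 𝒦.card * m ≤ (𝒦.card - 1) * m := by
    rw [← e5]; exact le_trans e3 (le_trans e4 e7)
  have e9 : (𝒦.card - 1) * m < 𝒦.card * m := Nat.mul_lt_mul_of_pos_right (by omega) (by omega)
  omega

/-- Weighted weak perfect graph theorem: in a perfect graph, a weighting all of whose stable sets
have weight at most `m` can be covered by `m` cliques. -/
theorem wpgt (G : SimpleGraph V) (U : Finset V) (hP : PerfOn G U) :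
    ∀ (m : ℕ) (d : V → ℕ), (∀ v, v ∉ U → d v = 0) →
      (∀ S : Finset V, G.IsIndepSet (S : Set V) → ∑ v ∈ S, d v ≤ m) →
      Cov (fun K => K ⊆ U ∧ G.IsClique (K : Set V)) d m := by
  intro m
  induction m with
  | zero =>
    intro d _ hS
    refine ⟨0, by simp, by simp, fun v => ?_⟩
    have := hS {v} (isIndepSet_singleton G v)
    simpa using this
  | succ m ih =>
    intro d hU hS
    obtain ⟨K, hKU, hKc, hK⟩ := exists_hitting_clique G U hP (m + 1) (by omega) d hS
    obtain ⟨F, hF1, hF2, hF3⟩ := ih (fun v => if v ∈ K then d v - 1 else d v)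
      (by intro v hv
          have := hU v hv
          split_ifs <;> omega)
      (by
        intro S hSi
        have h1 : ∑ v ∈ S, (if v ∈ K then d v - 1 else d v) ≤ ∑ v ∈ S, d v := by
          apply Finset.sum_le_sum
          intro v _
          split_ifs <;> omega
        rcases Nat.lt_or_ge (∑ v ∈ S, d v) (m + 1) with h2 | h2
        · omega
        · have h3 : ∑ v ∈ S, d v = m + 1 := le_antisymm (hS S hSi) h2
          set S' := S.filter (fun v => 0 < d v) with hS'
          have h4 : ∑ v ∈ S', d v = ∑ v ∈ S, d v := by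
            rw [hS', Finset.sum_filter]
            apply Finset.sum_congr rfl
            intro v _
            split_ifs <;> omega
          have h5 : S' ⊆ U := by
            intro v hv
            rw [hS', Finset.mem_filter] at hv
            by_contra hvU
            have := hU v hvU
            omega
          have h6 : G.IsIndepSet (S' : Set V) := by
            apply hSi.mono
            exact_mod_cast Finset.filter_subset _ _
          obtain ⟨v, hv⟩ := hK S' h5 h6 (by rw [h4, h3])
          rw [Finset.mem_inter, hS', Finset.mem_filter] at hv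
          have h7 : ∑ v ∈ S, (if v ∈ K then d v - 1 else d v) < ∑ v ∈ S, d v := by
            apply Finset.sum_lt_sum
            · intro v _
              split_ifs <;> omega
            · refine ⟨v, hv.2.1, ?_⟩
              rw [if_pos hv.1]
              have := hv.2.2
              omega
          omega)
    refine ⟨K ::ₘ F, ?_, ?_, ?_⟩
    · rw [Multiset.card_cons]; omega
    · intro T hT
      rw [Multiset.mem_cons] at hT
      rcases hT with rfl | hT
      · exact ⟨hKU, hKc⟩
      · exact hF2 T hT
    · intro v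
      rw [Multiset.countP_cons]
      have := hF3 v
      simp only at this
      split_ifs at this ⊢ <;> omega

open Classical in
/-- the finite set of all maximal cliques of `G[U]` -/
noncomputable def maxCliques (G : SimpleGraph V) (U : Finset V) : Finset (Finset V) :=
  univ.filter (fun C => MaxCliqueIn G U C)

/-- `F` is a *cheap cover* of `G[U]` (maximal clique version): a multiset of maximal cliques of `G[U]` (repetitions
allowed), with fewer members than `G[U]` has maximal cliques, such that every vertex of `U` is in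
at least as many members of `F` as it is in maximal cliques of `G[U]`. -/
def CheapCoverM (G : SimpleGraph V) (U : Finset V) (F : Multiset (Finset V)) : Prop :=
  (∀ K ∈ F, MaxCliqueIn G U K) ∧
  (∀ v ∈ U, ((maxCliques G U).filter (fun C => v ∈ C)).card
      ≤ Multiset.countP (fun K => v ∈ K) F) ∧
  Multiset.card F < (maxCliques G U).card

lemma mem_maxCliques {G : SimpleGraph V} {U C : Finset V} :
    C ∈ maxCliques G U ↔ MaxCliqueIn G U C := by
  classical
  unfold maxCliques
  simp only [Finset.mem_filter, Finset.mem_univ, true_and]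

lemma double_count (G : SimpleGraph V) (U S : Finset V) :
    ∑ v ∈ S, ((maxCliques G U).filter (fun C => v ∈ C)).card
      = ∑ C ∈ maxCliques G U, ∑ v ∈ S, (if v ∈ C then 1 else 0) := by
  rw [Finset.sum_comm]
  apply Finset.sum_congr rfl
  intro v _
  rw [Finset.card_filter]

lemma maxCliqueIn_subset {G : SimpleGraph V} {U C : Finset V} (h : MaxCliqueIn G U C) :
    C ⊆ U := h.prop.1

lemma maxCliqueIn_clique {G : SimpleGraph V} {U C : Finset V} (h : MaxCliqueIn G U C) :
    G.IsClique (C : Set V) := h.prop.2

lemma exists_maxCliqueIn {G : SimpleGraph V} {U K : Finset V} (hK : K ⊆ U)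
    (hKc : G.IsClique (K : Set V)) : ∃ C, K ⊆ C ∧ MaxCliqueIn G U C := by
  obtain ⟨C, hC1, hC2⟩ := exists_maximal_ge_of_wellFoundedGT
    (fun K : Finset V => K ⊆ U ∧ G.IsClique (K : Set V)) K ⟨hK, hKc⟩
  exact ⟨C, hC1, hC2⟩

theorem cheapCover_of_no_strong (G : SimpleGraph V) (U : Finset V) (hP : PerfOn G U)
    (hno : ¬ ∃ S, StrongStableIn G U S) : ∃ F, CheapCoverM G U F := by
  set c := (maxCliques G U).card with hc
  have hcpos : 1 ≤ c := by
    obtain ⟨C, _, hC⟩ := exists_maxCliqueIn (G := G) (U := U) (K := ∅) (by simp) (by simp)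
    exact Finset.card_pos.mpr ⟨C, mem_maxCliques.mpr hC⟩
  have hdU : ∀ v, v ∉ U → ((maxCliques G U).filter (fun C => v ∈ C)).card = 0 := by
    intro v hv
    rw [Finset.card_eq_zero, Finset.filter_eq_empty_iff]
    intro C hC hvC
    exact hv (maxCliqueIn_subset (mem_maxCliques.mp hC) hvC)
  obtain ⟨F, hF1, hF2, hF3⟩ := wpgt G U hP (c - 1)
    (fun v => ((maxCliques G U).filter (fun C => v ∈ C)).card) hdU (by
      intro S hS
      rw [double_count]
      -- restrict to `S ∩ U`
      have hSU : ¬ (∀ C, MaxCliqueIn G U C → ((S ∩ U) ∩ C).Nonempty) := by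
        intro h
        apply hno
        refine ⟨S ∩ U, Finset.inter_subset_right, ?_, h⟩
        apply hS.mono
        exact_mod_cast Finset.inter_subset_left
      push Not at hSU
      obtain ⟨C0, hC0, hC0'⟩ := hSU
      have hC0m := mem_maxCliques.mpr hC0
      rw [← Finset.add_sum_erase _ _ hC0m]
      have e1 : ∑ v ∈ S, (if v ∈ C0 then 1 else 0) = 0 := by
        apply Finset.sum_eq_zero
        intro v hv
        rw [if_neg]
        intro hvC
        have : v ∈ S ∩ U ∩ C0 := by
          rw [Finset.mem_inter, Finset.mem_inter]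
          exact ⟨⟨hv, maxCliqueIn_subset hC0 hvC⟩, hvC⟩
        rw [hC0'] at this
        simp at this
      rw [e1, zero_add, hc, ← Finset.card_erase_of_mem hC0m, Finset.card_eq_sum_ones]
      apply Finset.sum_le_sum
      intro C hC
      exact sum_ite_le_one' (maxCliqueIn_clique (mem_maxCliques.mp (Finset.mem_of_mem_erase hC))) hS)
  -- enlarge every member of `F` to a maximal clique
  have hmax : ∀ K : Finset V, ∃ C, (K ⊆ U ∧ G.IsClique (K : Set V)) → K ⊆ C ∧ MaxCliqueIn G U C := by
    intro K
    by_cases h : K ⊆ U ∧ G.IsClique (K : Set V)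
    · obtain ⟨C, hC⟩ := exists_maxCliqueIn h.1 h.2
      exact ⟨C, fun _ => hC⟩
    · exact ⟨∅, fun h' => absurd h' h⟩
  choose M hM using hmax
  refine ⟨F.map M, ?_, ?_, ?_⟩
  · intro C hC
    rw [Multiset.mem_map] at hC
    obtain ⟨K, hK, rfl⟩ := hC
    exact (hM K (hF2 K hK)).2
  · intro v _
    refine le_trans (hF3 v) ?_
    rw [Multiset.countP_map, ← Multiset.countP_eq_card_filter]
    rw [Multiset.countP_eq_card_filter, Multiset.countP_eq_card_filter]
    apply Multiset.card_le_card
    rw [Multiset.le_filter]
    refine ⟨Multiset.filter_le _ _, ?_⟩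
    intro K hK
    rw [Multiset.mem_filter] at hK
    exact (hM K (hF2 K hK.1)).1 hK.2
  · rw [← hc, Multiset.card_map]
    omega

theorem no_strong_of_cheapCover (G : SimpleGraph V) (U : Finset V) (F : Multiset (Finset V))
    (hF : CheapCoverM G U F) : ¬ ∃ S, StrongStableIn G U S := by
  rintro ⟨S, hSU, hSi, hS⟩
  obtain ⟨hF1, hF2, hF3⟩ := hF
  have e1 : (maxCliques G U).card
      ≤ ∑ C ∈ maxCliques G U, ∑ v ∈ S, (if v ∈ C then 1 else 0) := by
    rw [Finset.card_eq_sum_ones]
    apply Finset.sum_le_sum
    intro C hC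
    obtain ⟨v, hv⟩ := hS C (mem_maxCliques.mp hC)
    rw [Finset.mem_inter] at hv
    calc 1 = (if v ∈ C then 1 else 0) := by rw [if_pos hv.2]
      _ ≤ _ := Finset.single_le_sum (f := fun v => if v ∈ C then 1 else 0)
          (fun _ _ => Nat.zero_le _) hv.1
  rw [← double_count] at e1
  have e2 : ∑ v ∈ S, ((maxCliques G U).filter (fun C => v ∈ C)).card
      ≤ ∑ v ∈ S, Multiset.countP (fun K => v ∈ K) F * 1 := by
    apply Finset.sum_le_sum
    intro v hv
    rw [mul_one]
    exact hF2 v (hSU hv)
  have e3 := sum_countP_le S (fun _ => 1) 1 F (by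
    intro K hK
    exact sum_ite_le_one' (maxCliqueIn_clique (hF1 K hK)) hSi)
  omega

/-- a strongly perfect graph is perfect (covering form) -/
theorem perfOn_of_stronglyPerfect (G : SimpleGraph V) (U : Finset V)
    (hG : ∀ W : Finset V, W ⊆ U → W.Nonempty → ∃ S, StrongStableIn G W S) : PerfOn G U := by
  have key : ∀ (n : ℕ) (W : Finset V), W ⊆ U →
      (∀ K ⊆ W, G.IsClique (K : Set V) → K.card ≤ n) →
      Cov (fun S => G.IsIndepSet (S : Set V)) (fun v => if v ∈ W then 1 else 0) n := by
    intro n
    induction n with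
    | zero =>
      intro W _ hW
      refine ⟨0, by simp, by simp, fun v => ?_⟩
      have : v ∉ W := by
        intro hv
        have := hW {v} (by simpa using hv) (by simp)
        simp at this
      simp [this]
    | succ n ih =>
      intro W hWU hW
      rcases W.eq_empty_or_nonempty with rfl | hne
      · exact ⟨0, by simp, by simp, fun v => by simp⟩
      · obtain ⟨S, hSW, hSi, hS⟩ := hG W hWU hne
        obtain ⟨F, hF1, hF2, hF3⟩ := ih (W \ S) (Finset.sdiff_subset.trans hWU) (by
          intro K hK hKc
          obtain ⟨C, hKC, hC⟩ := exists_maxCliqueIn (G := G) (U := W) (K := K)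
            (hK.trans Finset.sdiff_subset) hKc
          obtain ⟨v, hv⟩ := hS C hC
          rw [Finset.mem_inter] at hv
          have h1 : K ⊂ C := by
            rw [Finset.ssubset_iff_of_subset hKC]
            refine ⟨v, hv.2, fun hvK => ?_⟩
            have := hK hvK
            rw [Finset.mem_sdiff] at this
            exact this.2 hv.1
          have h2 := Finset.card_lt_card h1
          have h3 := hW C (maxCliqueIn_subset hC) (maxCliqueIn_clique hC)
          omega)
        refine ⟨S ::ₘ F, ?_, ?_, ?_⟩
        · rw [Multiset.card_cons]; omega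
        · intro T hT
          rw [Multiset.mem_cons] at hT
          rcases hT with rfl | hT
          · exact hSi
          · exact hF2 T hT
        · intro v
          rw [Multiset.countP_cons]
          have := hF3 v
          simp only [Finset.mem_sdiff] at this ⊢
          by_cases hvW : v ∈ W <;> by_cases hvS : v ∈ S <;> simp_all
  intro W hWU n hn
  exact key n W hWU hn

end Pool.Agent.H28.SP
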