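import Pool.Agent.H28.SPDual

/-!
Lovász's theorem on minimal imperfect graphs (Gasparian's linear algebra proof), giving a short
certificate of imperfection.
-/

namespace Pool.Agent.H28.SP

open Finset

variable {V : Type*} [Fintype V] [DecidableEq V]

/-- `H[W]` has a proper colouring with the colours `0, …, n-1`. -/
def Col (H : SimpleGraph V) (W : Finset V) (n : ℕ) : Prop :=
  ∃ c : V → ℕ, (∀ v ∈ W, c v < n) ∧ ∀ u ∈ W, ∀ v ∈ W, H.Adj u v → c u ≠ c v

lemma col_of_multiset (H : SimpleGraph V) (F : Multiset (Finset V)) :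
    (∀ S ∈ F, H.IsIndepSet (S : Set V)) → ∀ W : Finset V,
      (∀ v ∈ W, 1 ≤ Multiset.countP (fun S => v ∈ S) F) → Col H W (Multiset.card F) := by
  induction F using Multiset.induction_on with
  | empty =>
    intro _ W hW
    refine ⟨fun _ => 0, fun v hv => ?_, fun u hu => ?_⟩
    · have := hW v hv; simp at this
    · have := hW u hu; simp at this
  | cons S F ih =>
    intro hF W hW
    obtain ⟨c, hc1, hc2⟩ := ih (fun T hT => hF T (Multiset.mem_cons_of_mem hT)) (W \ S) (by
      intro v hv
      rw [Finset.mem_sdiff] at hv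
      have := hW v hv.1
      rw [Multiset.countP_cons, if_neg hv.2] at this
      omega)
    refine ⟨fun v => if v ∈ S then Multiset.card F else c v, ?_, ?_⟩
    · intro v hv
      rw [Multiset.card_cons]
      simp only
      split_ifs with h
      · omega
      · have := hc1 v (Finset.mem_sdiff.mpr ⟨hv, h⟩)
        omega
    · intro u hu v hv huv
      simp only
      by_cases hu' : u ∈ S <;> by_cases hv' : v ∈ S
      · exact absurd huv (hF S (Multiset.mem_cons_self _ _) (by exact_mod_cast hu')
          (by exact_mod_cast hv') huv.ne)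
      · rw [if_pos hu', if_neg hv']
        have := hc1 v (Finset.mem_sdiff.mpr ⟨hv, hv'⟩)
        omega
      · rw [if_neg hu', if_pos hv']
        have := hc1 u (Finset.mem_sdiff.mpr ⟨hu, hu'⟩)
        omega
      · rw [if_neg hu', if_neg hv']
        exact hc2 u (Finset.mem_sdiff.mpr ⟨hu, hu'⟩) v (Finset.mem_sdiff.mpr ⟨hv, hv'⟩) huv

lemma Col.mono {H : SimpleGraph V} {W : Finset V} {n m : ℕ} (h : Col H W n) (hnm : n ≤ m) :
    Col H W m := by
  obtain ⟨c, h1, h2⟩ := h
  exact ⟨c, fun v hv => lt_of_lt_of_le (h1 v hv) hnm, h2⟩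

lemma col_of_cov {H : SimpleGraph V} {W : Finset V} {n : ℕ}
    (h : Cov (fun S => H.IsIndepSet (S : Set V)) (fun v => if v ∈ W then 1 else 0) n) :
    Col H W n := by
  obtain ⟨F, hF1, hF2, hF3⟩ := h
  refine (col_of_multiset H F hF2 W ?_).mono hF1
  intro v hv
  have := hF3 v
  simp only [if_pos hv] at this
  exact this

lemma cov_of_col {H : SimpleGraph V} {W : Finset V} {n : ℕ} (h : Col H W n) :
    Cov (fun S => H.IsIndepSet (S : Set V)) (fun v => if v ∈ W then 1 else 0) n := by
  obtain ⟨c, hc1, hc2⟩ := h
  refine ⟨(Multiset.range n).map (fun j => W.filter (fun x => c x = j)), ?_, ?_, ?_⟩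
  · simp
  · intro S hS
    rw [Multiset.mem_map] at hS
    obtain ⟨j, _, rfl⟩ := hS
    intro a ha b hb hab h
    rw [Finset.mem_coe, Finset.mem_filter] at ha hb
    exact hc2 a ha.1 b hb.1 h (ha.2.trans hb.2.symm)
  · intro v
    simp only
    split_ifs with hv
    · rw [Nat.succ_le_iff, Multiset.countP_pos]
      refine ⟨W.filter (fun x => c x = c v), ?_, ?_⟩
      · rw [Multiset.mem_map]
        exact ⟨c v, by rw [Multiset.mem_range]; exact hc1 v hv, rfl⟩
      · rw [Finset.mem_filter]; exact ⟨hv, rfl⟩
    · exact Nat.zero_le _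

/-- linear algebra part -/
lemma card_le_of_families (W : Finset V) {ι : Type*} [Fintype ι] [DecidableEq ι]
    (f K : ι → Finset V) (hKW : ∀ i, K i ⊆ W) (N : ℕ) (hN : 1 ≤ N) (hcard : Fintype.card ι = N + 1)
    (h1 : ∀ i j, (K i ∩ f j).card ≤ 1) (h0 : ∀ i, (K i ∩ f i).card = 0)
    (hs : ∀ i, N ≤ ∑ j, (K i ∩ f j).card) : N + 1 ≤ W.card := by
  have hij : ∀ i j, j ≠ i → (K i ∩ f j).card = 1 := by
    intro i j hj
    by_contra hne
    have h2 : (K i ∩ f j).card = 0 := by have := h1 i j; omega
    have h3 : ∑ k, (K i ∩ f k).card ≤ ∑ k, (if k = i ∨ k = j then 0 else 1) := by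
      apply Finset.sum_le_sum
      intro k _
      split_ifs with hk
      · rcases hk with rfl | rfl
        · rw [h0]
        · rw [h2]
      · exact h1 i k
    have h4 : ∑ k : ι, (if k = i ∨ k = j then 0 else 1) = Fintype.card ι - 2 := by
      have h5 : ∀ k : ι, (if k = i ∨ k = j then 0 else 1) = (if k ∈ (univ \ {i, j} : Finset ι) then 1 else 0) := by
        intro k
        by_cases hk : k = i ∨ k = j
        · rw [if_pos hk, if_neg]
          simp only [Finset.mem_sdiff, Finset.mem_univ, true_and, Finset.mem_insert,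
            Finset.mem_singleton, not_not]
          exact hk
        · rw [if_neg hk, if_pos]
          simp only [Finset.mem_sdiff, Finset.mem_univ, true_and, Finset.mem_insert,
            Finset.mem_singleton]
          exact hk
      rw [Finset.sum_congr rfl (fun k _ => h5 k), ← Finset.sum_filter, Finset.filter_mem_eq_inter,
        Finset.univ_inter, Finset.sum_const, smul_eq_mul, mul_one, Finset.card_sdiff,
        Finset.inter_univ, Finset.card_pair (Ne.symm hj), Finset.card_univ]
    have h5 := hs i
    omega
  have hli : LinearIndependent ℚ (fun (j : ι) (x : W) => if (x : V) ∈ f j then (1 : ℚ) else 0) := by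
    rw [Fintype.linearIndependent_iff]
    intro g hg
    have hx : ∀ x ∈ W, ∑ j, g j * (if x ∈ f j then (1 : ℚ) else 0) = 0 := by
      intro x hx
      have := congrFun hg ⟨x, hx⟩
      simpa [Finset.sum_apply] using this
    have hi : ∀ i, ∑ j, g j - g i = 0 := by
      intro i
      have e1 : ∑ x ∈ K i, ∑ j, g j * (if x ∈ f j then (1 : ℚ) else 0) = 0 :=
        Finset.sum_eq_zero (fun x hxK => hx x (hKW i hxK))
      rw [Finset.sum_comm] at e1
      have e2 : ∀ j, ∑ x ∈ K i, g j * (if x ∈ f j then (1 : ℚ) else 0)
          = g j * ((K i ∩ f j).card : ℚ) := by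
        intro j
        rw [← Finset.mul_sum]
        congr 1
        rw [← Finset.filter_mem_eq_inter, Finset.card_filter]
        push_cast
        rfl
      rw [Finset.sum_congr rfl (fun j _ => e2 j)] at e1
      rw [← Finset.add_sum_erase _ _ (Finset.mem_univ i)] at e1 ⊢
      rw [h0 i] at e1
      have e3 : ∑ j ∈ univ.erase i, g j * ((K i ∩ f j).card : ℚ) = ∑ j ∈ univ.erase i, g j := by
        apply Finset.sum_congr rfl
        intro j hj
        rw [hij i j (Finset.ne_of_mem_erase hj)]
        simp
      rw [e3] at e1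
      simp only [Nat.cast_zero, mul_zero, zero_add] at e1
      rw [e1]
      ring
    have hall : ∀ i, g i = ∑ j, g j := fun i => by have := hi i; linarith
    have hsum : ∑ j, g j = (Fintype.card ι : ℚ) * ∑ j, g j := by
      conv_lhs => rw [Finset.sum_congr rfl (fun i _ => hall i)]
      rw [Finset.sum_const, Finset.card_univ, nsmul_eq_mul]
    rw [hcard] at hsum
    push_cast at hsum
    have hN' : (1 : ℚ) ≤ N := by exact_mod_cast hN
    have h0' : ∑ j, g j = 0 := by
      have h6 : (N : ℚ) * ∑ j, g j = 0 := by linarith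
      rcases mul_eq_zero.mp h6 with h7 | h7
      · linarith
      · exact h7
    intro i
    rw [hall i, h0']
  have := hli.fintype_card_le_finrank
  rw [hcard] at this
  simpa using this

/-- the certificate of imperfection, on `U` -/
def LovaszCertificate (G : SimpleGraph V) (U : Finset V) : Prop :=
  ∃ a b : ℕ, 2 ≤ a ∧ 2 ≤ b ∧ a * b < U.card ∧
    ∀ v ∈ U, Col Gᶜ (U.erase v) a ∧ Col G (U.erase v) b

lemma isIndepSet_compl_iff {G : SimpleGraph V} {K : Finset V} :
    Gᶜ.IsIndepSet (K : Set V) ↔ G.IsClique (K : Set V) := by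
  constructor
  · intro h a ha b hb hab
    by_contra hn
    exact h ha hb hab ((SimpleGraph.compl_adj G a b).mpr ⟨hab, hn⟩)
  · intro h a ha b hb hab hn
    exact ((SimpleGraph.compl_adj G a b).mp hn).2 (h ha hb hab)

lemma cov_singletons (G : SimpleGraph V) (W : Finset V) {n : ℕ} (h : W.card ≤ n) :
    Cov (fun S => G.IsIndepSet (S : Set V)) (fun v => if v ∈ W then 1 else 0) n := by
  refine ⟨W.val.map (fun v => {v}), ?_, ?_, ?_⟩
  · simpa using h
  · intro S hS
    rw [Multiset.mem_map] at hS
    obtain ⟨v, _, rfl⟩ := hS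
    exact isIndepSet_singleton G v
  · intro v
    simp only
    split_ifs with hv
    · rw [Nat.succ_le_iff, Multiset.countP_pos]
      exact ⟨{v}, Multiset.mem_map.mpr ⟨v, hv, rfl⟩, by simp⟩
    · exact Nat.zero_le _

theorem lovaszCertificate_of_minimal (G : SimpleGraph V) (U : Finset V) (hU : ¬ PerfOn G U)
    (hmin : ∀ W, W ⊂ U → PerfOn G W) : LovaszCertificate G U := by
  classical
  -- the number `n` of colours that does not suffice
  have hex : ∃ n, (∀ K ⊆ U, G.IsClique (K : Set V) → K.card ≤ n) ∧
      ¬ Cov (fun S => G.IsIndepSet (S : Set V)) (fun v => if v ∈ U then 1 else 0) n := by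
    unfold PerfOn at hU
    push Not at hU
    obtain ⟨W, hWU, n, hn1, hn2⟩ := hU
    by_cases hW : W = U
    · subst hW
      exact ⟨n, hn1, hn2⟩
    · exact absurd (hmin W (Finset.ssubset_iff_subset_ne.mpr ⟨hWU, hW⟩) W (Finset.Subset.refl W) n hn1) hn2
  obtain ⟨n, hn1, hn2⟩ := hex
  have hne : U.Nonempty := by
    rw [Finset.nonempty_iff_ne_empty]
    rintro rfl
    exact hn2 ⟨0, by simp, by simp, fun v => by simp⟩
  obtain ⟨x0, hx0⟩ := hne
  have hn1' : 1 ≤ n := by
    have := hn1 {x0} (by simpa using hx0) (by simp)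
    simpa using this
  have hn2' : 2 ≤ n := by
    by_contra hlt
    have hn : n = 1 := by omega
    subst hn
    apply hn2
    refine ⟨{U}, by simp, ?_, fun v => ?_⟩
    · intro S hS
      rw [Multiset.mem_singleton] at hS
      subst hS
      intro a ha b hb hab h
      have h3 := hn1 {a, b} (by
        intro x hx
        rw [Finset.mem_insert, Finset.mem_singleton] at hx
        rcases hx with rfl | rfl
        · exact ha
        · exact hb) (by
          rw [Finset.coe_pair, SimpleGraph.isClique_pair]
          exact fun _ => h)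
      rw [Finset.card_pair hab] at h3
      omega
    · rw [← Multiset.cons_zero, Multiset.countP_cons]
      simp
  -- the cliques avoiding a stable set
  have hK1 : ∀ S : Finset V, S ⊆ U → S.Nonempty → G.IsIndepSet (S : Set V) →
      ∃ K : Finset V, K ⊆ U ∧ G.IsClique (K : Set V) ∧ K.card = n ∧ (K ∩ S).card = 0 := by
    intro S hSU hSne hSi
    by_contra hcon
    push Not at hcon
    have hss : U \ S ⊂ U := by
      rw [Finset.ssubset_iff_of_subset Finset.sdiff_subset]
      obtain ⟨x, hx⟩ := hSne
      exact ⟨x, hSU hx, fun h => (Finset.mem_sdiff.mp h).2 hx⟩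
    obtain ⟨F, hF1, hF2, hF3⟩ := hmin _ hss (U \ S) (Finset.Subset.refl _) (n - 1) (by
      intro K hK hKc
      have h1 := hn1 K (hK.trans Finset.sdiff_subset) hKc
      have h2 : K.card ≠ n := by
        intro h
        refine hcon K (hK.trans Finset.sdiff_subset) hKc h ?_
        rw [Finset.card_eq_zero]
        ext x
        simp only [Finset.mem_inter, Finset.notMem_empty, iff_false, not_and]
        intro hxK
        exact (Finset.mem_sdiff.mp (hK hxK)).2
      omega)
    apply hn2
    refine ⟨S ::ₘ F, ?_, ?_, ?_⟩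
    · rw [Multiset.card_cons]; omega
    · intro T hT
      rw [Multiset.mem_cons] at hT
      rcases hT with rfl | hT
      · exact hSi
      · exact hF2 T hT
    · intro v
      rw [Multiset.countP_cons]
      have := hF3 v
      simp only [Finset.mem_sdiff] at this ⊢
      by_cases hvW : v ∈ U <;> by_cases hvS : v ∈ S <;> simp_all
  have hK2 : ∀ S : Finset V, S ⊆ U → G.IsIndepSet (S : Set V) →
      ∃ K : Finset V, K ⊆ U ∧ G.IsClique (K : Set V) ∧ K.card = n ∧ (K ∩ S).card = 0 := by
    intro S hSU hSi
    rcases S.eq_empty_or_nonempty with rfl | hSne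
    · obtain ⟨K, h1, h2, h3, _⟩ := hK1 {x0} (by simpa using hx0) (by simp)
        (isIndepSet_singleton G x0)
      exact ⟨K, h1, h2, h3, by simp⟩
    · exact hK1 S hSU hSne hSi
  -- a maximum stable set
  obtain ⟨S0, hS0, hmax⟩ := Finset.exists_max_image
    (U.powerset.filter (fun S : Finset V => G.IsIndepSet (S : Set V))) Finset.card
    ⟨∅, by rw [Finset.mem_filter]; simp⟩
  rw [Finset.mem_filter, Finset.mem_powerset] at hS0
  obtain ⟨hS0U, hS0i⟩ := hS0
  have hmax' : ∀ S : Finset V, S ⊆ U → G.IsIndepSet (S : Set V) → S.card ≤ S0.card := by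
    intro S h1 h2
    exact hmax S (by rw [Finset.mem_filter, Finset.mem_powerset]; exact ⟨h1, h2⟩)
  have hcolb : ∀ v ∈ U, Col G (U.erase v) n := by
    intro v hv
    apply col_of_cov
    exact hmin _ (Finset.erase_ssubset hv) (U.erase v) (Finset.Subset.refl _) n
      (fun K hK hKc => hn1 K (hK.trans (Finset.erase_subset _ _)) hKc)
  have hcola : ∀ v ∈ U, Col Gᶜ (U.erase v) S0.card := by
    intro v hv
    apply col_of_cov
    obtain ⟨F, hF1, hF2, hF3⟩ := wpgt G (U.erase v) (hmin _ (Finset.erase_ssubset hv)) S0.card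
      (fun x => if x ∈ U.erase v then 1 else 0) (by
        intro x hx
        rw [if_neg]
        exact fun h => hx h) (by
        intro S hSi
        rw [← Finset.sum_filter, ← Finset.card_eq_sum_ones]
        apply hmax'
        · intro x hx
          exact Finset.mem_of_mem_erase (Finset.mem_filter.mp hx).2
        · apply hSi.mono
          exact_mod_cast Finset.filter_subset _ _)
    exact ⟨F, hF1, fun K hK => isIndepSet_compl_iff.mpr (hF2 K hK).2, hF3⟩
  have ha2 : 2 ≤ S0.card := by
    by_contra hlt
    apply hn2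
    apply cov_singletons
    apply hn1 U (Finset.Subset.refl _)
    intro a ha b hb hab
    by_contra hadj
    have := hmax' {a, b} (by
      intro x hx
      rw [Finset.mem_insert, Finset.mem_singleton] at hx
      rcases hx with rfl | rfl
      · exact ha
      · exact hb) (by
        intro x hx y hy hxy h
        simp only [Finset.coe_insert, Finset.coe_singleton, Set.mem_insert_iff,
          Set.mem_singleton_iff] at hx hy
        rcases hx with rfl | rfl <;> rcases hy with rfl | rfl
        · exact hxy rfl
        · exact hadj h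
        · exact hadj h.symm
        · exact hxy rfl)
    rw [Finset.card_pair hab] at this
    omega
  refine ⟨S0.card, n, ha2, hn2', ?_, fun v hv => ⟨hcola v hv, hcolb v hv⟩⟩
  -- Gasparian's argument
  choose! c hc1 hc2 using hcolb
  let f : Option (S0 × Fin n) → Finset V := fun i =>
    match i with
    | none => S0
    | some p => (U.erase (p.1 : V)).filter (fun x => c (p.1 : V) x = (p.2 : ℕ))
  have hfU : ∀ i, f i ⊆ U := by
    intro i
    match i with
    | none => exact hS0U
    | some p => exact (Finset.filter_subset _ _).trans (Finset.erase_subset _ _)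
  have hfi : ∀ i, G.IsIndepSet (f i : Set V) := by
    intro i
    match i with
    | none => exact hS0i
    | some p =>
      intro x hx y hy hxy h
      have hx' := Finset.mem_filter.mp (Finset.mem_coe.mp hx)
      have hy' := Finset.mem_filter.mp (Finset.mem_coe.mp hy)
      exact hc2 (p.1 : V) (hS0U p.1.2) x hx'.1 y hy'.1 h (hx'.2.trans hy'.2.symm)
  choose K hKU hKc hKn hK0 using (fun i => hK2 (f i) (hfU i) (hfi i))
  have hfin := card_le_of_families U f K hKU (S0.card * n) (by nlinarith)
    (by rw [Fintype.card_option, Fintype.card_prod, Fintype.card_coe, Fintype.card_fin])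
    (fun i j => card_inter_le_one (hKc i) (hfi j)) hK0 (by
      intro i
      rw [Fintype.sum_option, Fintype.sum_prod_type]
      have e1 : ∀ s : S0, ∑ j : Fin n, (K i ∩ f (some (s, j))).card
          = ((K i).erase (s : V)).card := by
        intro s
        have e2 : ∀ j : Fin n, (K i ∩ f (some (s, j)))
            = ((K i).erase (s : V)).filter (fun x => c (s : V) x = (j : ℕ)) := by
          intro j
          ext x
          simp only [f, Finset.mem_inter, Finset.mem_filter, Finset.mem_erase]
          constructor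
          · rintro ⟨h1, ⟨h2, _⟩, h3⟩
            exact ⟨⟨h2, h1⟩, h3⟩
          · rintro ⟨⟨h1, h2⟩, h3⟩
            exact ⟨h2, ⟨h1, hKU i h2⟩, h3⟩
        rw [Finset.sum_congr rfl (fun j _ => by rw [e2 j])]
        have e3 := Finset.card_eq_sum_card_fiberwise (s := (K i).erase (s : V))
          (t := Finset.range n) (f := c (s : V)) (by
            intro x hx
            have hx' := Finset.mem_erase.mp (Finset.mem_coe.mp hx)
            exact Finset.mem_coe.mpr (Finset.mem_range.mpr (hc1 (s : V) (hS0U s.2) x
              (Finset.mem_erase.mpr ⟨hx'.1, hKU i hx'.2⟩))))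
        rw [e3, Finset.sum_range]
      rw [Finset.sum_congr rfl (fun s _ => e1 s)]
      have e4 : ∑ s : S0, ((K i).erase (s : V)).card + (K i ∩ S0).card = S0.card * n := by
        have e5 : (K i ∩ S0).card = ∑ s : S0, (if (s : V) ∈ K i then 1 else 0) := by
          rw [Finset.sum_coe_sort S0 (fun s => if s ∈ K i then 1 else 0), Finset.inter_comm,
            ← Finset.filter_mem_eq_inter, Finset.card_filter]
        rw [e5, ← Finset.sum_add_distrib]
        have e6 : ∀ s : S0, ((K i).erase (s : V)).card + (if (s : V) ∈ K i then 1 else 0) = n := by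
          intro s
          split_ifs with h
          · rw [Finset.card_erase_add_one h, hKn]
          · rw [Finset.erase_eq_of_notMem h, hKn, add_zero]
        rw [Finset.sum_congr rfl (fun s _ => e6 s)]
        simp
      have e7 : f none = S0 := rfl
      rw [e7]
      omega)
  omega

/-- the certificate is sound -/
theorem not_perfOn_of_lovaszCertificate (G : SimpleGraph V) (U : Finset V)
    (h : LovaszCertificate G U) : ¬ PerfOn G U := by
  classical
  obtain ⟨a, b, ha, hb, hab, hv⟩ := h
  intro hP
  have aux : ∀ (H : SimpleGraph V) (K : Finset V) (m W : _) , Col H W m → K ⊆ W →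
      H.IsClique (K : Set V) → K.card ≤ m := by
    intro H K m W hcol hKW hK
    obtain ⟨c, h1, h2⟩ := hcol
    have := Finset.card_le_card_of_injOn (s := K) (t := Finset.range m) c (by
      intro x hx
      exact Finset.mem_coe.mpr (Finset.mem_range.mpr (h1 x (hKW hx)))) (by
      intro x hx y hy hxy
      by_contra hne
      exact h2 x (hKW hx) y (hKW hy) (hK hx hy hne) hxy)
    simpa using this
  have hcl : ∀ (H : SimpleGraph V) (m : ℕ), 2 ≤ m → m < U.card → 
      (∀ v ∈ U, Col H (U.erase v) m) → m + 1 < U.card →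
      ∀ K ⊆ U, H.IsClique (K : Set V) → K.card ≤ m := by
    intro H m hm _ hcol hlt K hK hKc
    by_cases hKU : K = U
    · subst hKU
      have hne : K.Nonempty := Finset.card_pos.mp (by omega)
      obtain ⟨v, hvK⟩ := hne
      have h3 := aux H (K.erase v) m (K.erase v) (hcol v hvK) (Finset.Subset.refl _)
        (hKc.subset (by exact_mod_cast Finset.erase_subset v K))
      rw [Finset.card_erase_of_mem hvK] at h3
      omega
    · obtain ⟨v, hvU, hvK⟩ := Finset.exists_of_ssubset (Finset.ssubset_iff_subset_ne.mpr ⟨hK, hKU⟩)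
      refine aux H K m (U.erase v) (hcol v hvU) ?_ hKc
      intro x hx
      exact Finset.mem_erase.mpr ⟨fun h => hvK (h ▸ hx), hK hx⟩
  have h1 := hcl G b hb (by nlinarith) (fun v hvU => (hv v hvU).2) (by nlinarith)
  have h2 := hcl Gᶜ a ha (by nlinarith) (fun v hvU => (hv v hvU).1) (by nlinarith)
  obtain ⟨F, hF1, hF2, hF3⟩ := hP U (Finset.Subset.refl _) b h1
  have h3 := sum_countP_le U (fun _ => 1) a F (by
    intro S hS
    rw [← Finset.sum_filter, ← Finset.card_eq_sum_ones]
    apply h2
    · exact Finset.filter_subset _ _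
    · rw [SimpleGraph.isClique_compl]
      apply (hF2 S hS).mono
      intro x hx
      exact (Finset.mem_filter.mp (Finset.mem_coe.mp hx)).2)
  have h4 : U.card ≤ ∑ x ∈ U, Multiset.countP (fun S => x ∈ S) F * 1 := by
    rw [Finset.card_eq_sum_ones]
    apply Finset.sum_le_sum
    intro x hx
    have := hF3 x
    simp only [if_pos hx] at this
    omega
  have h5 : Multiset.card F * a ≤ b * a := Nat.mul_le_mul_right _ hF1
  nlinarith

end Pool.Agent.H28.SP
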