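import Pool.Agent.H28.SPBal2

/-!
Diamond-free graphs in which no vertex of a triangle is the centre of a claw.
-/

namespace Pool.Agent.H28.SP

open Finset

variable {V : Type*} [Fintype V] [DecidableEq V]

/-- No vertex of a triangle is the centre of a claw: of any three neighbours of a vertex `v` that
lies in a triangle, two are adjacent. -/
def NoClawAtTriangle (G : SimpleGraph V) : Prop :=
  ∀ v x y a b c : V, G.Adj v x → G.Adj v y → G.Adj x y →
    G.Adj v a → G.Adj v b → G.Adj v c → a ≠ b → a ≠ c → b ≠ c →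
    G.Adj a b ∨ G.Adj a c ∨ G.Adj b c

/-- the maximal cliques of `G[U]` with at least three vertices -/
noncomputable def big (G : SimpleGraph V) (U : Finset V) : Finset (Finset V) :=
  (maxCliques G U).filter (fun C => 3 ≤ C.card)

/-- the maximal cliques of `G[U]` with at most two vertices -/
noncomputable def small (G : SimpleGraph V) (U : Finset V) : Finset (Finset V) :=
  (maxCliques G U).filter (fun C => ¬ 3 ≤ C.card)

/-- the vertices in big cliques -/
noncomputable def leaves (G : SimpleGraph V) (U : Finset V) : Finset V := (big G U).biUnion id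

/-- `X` meets every pure edge of `G[U]` in exactly one vertex -/
def Exact (G : SimpleGraph V) (U X : Finset V) : Prop :=
  X ⊆ U ∧ ∀ v w, v ∈ U → w ∈ U → PureEdge G U v w → (v ∈ X ↔ w ∉ X)

lemma mem_leaves {G : SimpleGraph V} {U : Finset V} {l : V} :
    l ∈ leaves G U ↔ ∃ Q ∈ big G U, l ∈ Q := by
  unfold leaves
  simp

lemma mem_big {G : SimpleGraph V} {U Q : Finset V} :
    Q ∈ big G U ↔ MaxCliqueIn G U Q ∧ 3 ≤ Q.card := by
  unfold big
  rw [Finset.mem_filter, mem_maxCliques]

lemma mem_small {G : SimpleGraph V} {U Q : Finset V} :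
    Q ∈ small G U ↔ MaxCliqueIn G U Q ∧ ¬ 3 ≤ Q.card := by
  unfold small
  rw [Finset.mem_filter, mem_maxCliques]

/-- vertices of two maximal cliques sharing a vertex are not adjacent -/
lemma sep {G : SimpleGraph V} (hG : DiamondFree G) {U C D : Finset V} (hC : MaxCliqueIn G U C)
    (hD : MaxCliqueIn G U D) (hne : C ≠ D) {l x y : V} (hlC : l ∈ C) (hlD : l ∈ D) (hx : x ∈ C)
    (hxl : x ≠ l) (hy : y ∈ D) (hyl : y ≠ l) : x ≠ y ∧ ¬ G.Adj x y := by
  have h1 : x ≠ y := by
    intro h
    subst h
    exact hne (Finset.Subset.antisymm (maxClique_eq_of_two hG hC hD hxl hx hlC hy hlD)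
      (maxClique_eq_of_two hG hD hC hxl hy hlD hx hlC))
  refine ⟨h1, fun hadj => ?_⟩
  have hCc := maxCliqueIn_clique hC
  have hDc := maxCliqueIn_clique hD
  have hlx := hCc (by exact_mod_cast hlC) (by exact_mod_cast hx) hxl.symm
  have hly := hDc (by exact_mod_cast hlD) (by exact_mod_cast hy) hyl.symm
  have : y ∈ C := by
    apply mem_of_forall_adj hC (maxCliqueIn_subset hD hy)
    intro d hd hyd
    by_cases hdl : l = d
    · subst hdl; exact hly.symm
    by_cases hdx : x = d
    · subst hdx; exact hadj.symm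
    exact hG.adj hly.symm hadj.symm hlx (hCc (by exact_mod_cast hlC) (by exact_mod_cast hd) hdl)
      (hCc (by exact_mod_cast hx) (by exact_mod_cast hd) hdx) hyd
  exact hne (Finset.Subset.antisymm (maxClique_eq_of_two hG hC hD hyl this hlC hy hlD)
    (maxClique_eq_of_two hG hD hC hyl hy hlD this hlC))

/-- a vertex of a big clique is in at most one other maximal clique -/
lemma leaf_unique {G : SimpleGraph V} (hG : DiamondFree G) (hK : NoClawAtTriangle G)
    {U Q C D : Finset V} (hQ : Q ∈ big G U) (hC : MaxCliqueIn G U C) (hD : MaxCliqueIn G U D)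
    {l : V} (hlQ : l ∈ Q) (hlC : l ∈ C) (hlD : l ∈ D) (hCQ : C ≠ Q) (hDQ : D ≠ Q) : C = D := by
  by_contra hCD
  rw [mem_big] at hQ
  obtain ⟨hQ, hQ3⟩ := hQ
  have hQc := maxCliqueIn_clique hQ
  obtain ⟨x, hx, y, hy, hxy⟩ : ∃ x ∈ Q.erase l, ∃ y ∈ Q.erase l, x ≠ y := by
    apply Finset.one_lt_card.mp
    have := Finset.card_erase_add_one hlQ
    omega
  rw [Finset.mem_erase] at hx hy
  have other : ∀ C, MaxCliqueIn G U C → l ∈ C → ∃ c ∈ C, c ≠ l := by
    intro C hC hl
    by_contra hcon
    push Not at hcon
    have : x ∈ C := by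
      apply mem_of_forall_adj hC (maxCliqueIn_subset hQ hx.2)
      intro d hd _
      rw [hcon d hd]
      exact hQc (by exact_mod_cast hx.2) (by exact_mod_cast hlQ) hx.1
    exact hx.1 (hcon x this)
  obtain ⟨c, hc, hcl⟩ := other C hC hlC
  obtain ⟨d, hd, hdl⟩ := other D hD hlD
  have h1 := sep hG hC hD hCD hlC hlD hc hcl hd hdl
  have h2 := sep hG hC hQ hCQ hlC hlQ hc hcl hx.2 hx.1
  have h3 := sep hG hD hQ hDQ hlD hlQ hd hdl hx.2 hx.1
  have := hK l x y c d x
    (hQc (by exact_mod_cast hlQ) (by exact_mod_cast hx.2) hx.1.symm)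
    (hQc (by exact_mod_cast hlQ) (by exact_mod_cast hy.2) hy.1.symm)
    (hQc (by exact_mod_cast hx.2) (by exact_mod_cast hy.2) hxy)
    (maxCliqueIn_clique hC (by exact_mod_cast hlC) (by exact_mod_cast hc) hcl.symm)
    (maxCliqueIn_clique hD (by exact_mod_cast hlD) (by exact_mod_cast hd) hdl.symm)
    (hQc (by exact_mod_cast hlQ) (by exact_mod_cast hx.2) hx.1.symm)
    h1.1 h2.1 h3.1
  tauto

lemma pure_ne_big {G : SimpleGraph V} {U Q : Finset V} (hQ : Q ∈ big G U) {l a : V} :
    ({l, a} : Finset V) ≠ Q := by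
  intro h
  rw [mem_big] at hQ
  have : ({l, a} : Finset V).card ≤ 2 := Finset.card_le_two
  rw [h] at this
  omega

/-- in a minimal obstruction every vertex of a big clique `Q` is on exactly one pure edge and in
no further maximal clique -/
lemma MinObs.leaf {G : SimpleGraph V} (hG : DiamondFree G) (hK : NoClawAtTriangle G)
    {U : Finset V} (h : MinObs G U) {Q : Finset V} (hQ : Q ∈ big G U) {l : V} (hl : l ∈ Q) :
    ∃ a ∈ U, PureEdge G U l a ∧ ∀ C, MaxCliqueIn G U C → l ∈ C → C = Q ∨ C = {l, a} := by
  have hlU : l ∈ U := maxCliqueIn_subset (mem_big.mp hQ).1 hl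
  obtain ⟨a, ha, hla⟩ := h.pureEdge hG l hlU
  refine ⟨a, ha, hla, ?_⟩
  intro C hC hlC
  by_cases hCQ : C = Q
  · exact Or.inl hCQ
  · right
    exact leaf_unique hG hK hQ hC (maxCliqueIn_pair hlU ha hla) hl hlC (by simp) hCQ
      (pure_ne_big hQ)

lemma MinObs.big_disjoint {G : SimpleGraph V} (hG : DiamondFree G) (hK : NoClawAtTriangle G)
    {U : Finset V} (h : MinObs G U) {Q Q' : Finset V} (hQ : Q ∈ big G U) (hQ' : Q' ∈ big G U)
    {l : V} (hl : l ∈ Q) (hl' : l ∈ Q') : Q' = Q := by
  obtain ⟨a, ha, hla, hC⟩ := h.leaf hG hK hQ hl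
  rcases hC Q' (mem_big.mp hQ').1 hl' with h1 | h1
  · exact h1
  · exact absurd h1.symm (pure_ne_big hQ')

lemma MinObs.small_eq {G : SimpleGraph V} (hG : DiamondFree G)
    {U : Finset V} (h : MinObs G U) {e : Finset V} (he : e ∈ small G U) :
    ∃ v ∈ U, ∃ w ∈ U, PureEdge G U v w ∧ e = {v, w} := by
  rw [mem_small] at he
  obtain ⟨he, h3⟩ := he
  have hc := maxCliqueIn_clique he
  have hne : e.Nonempty := by
    by_contra hcon
    rw [Finset.not_nonempty_iff_eq_empty] at hcon
    subst hcon
    obtain ⟨u, hu⟩ := h.1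
    have := mem_of_forall_adj he hu (by simp)
    simp at this
  obtain ⟨v, hv⟩ := hne
  have hvU := maxCliqueIn_subset he hv
  have h1 : ∃ w ∈ e, w ≠ v := by
    by_contra hcon
    push Not at hcon
    obtain ⟨w, hw, hvw⟩ := h.pureEdge hG v hvU
    have : w ∈ e := by
      apply mem_of_forall_adj he hw
      intro d hd _
      rw [hcon d hd]
      exact hvw.1.symm
    exact hvw.1.ne (hcon w this).symm
  obtain ⟨w, hw, hwv⟩ := h1
  have hsub : ({v, w} : Finset V) ⊆ e := by
    intro x hx
    rw [Finset.mem_insert, Finset.mem_singleton] at hx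
    rcases hx with rfl | rfl
    · exact hv
    · exact hw
  have heq : ({v, w} : Finset V) = e := by
    apply Finset.eq_of_subset_of_card_le hsub
    rw [Finset.card_pair hwv.symm]
    omega
  refine ⟨v, hvU, w, maxCliqueIn_subset he hw, ⟨?_, ?_⟩, heq.symm⟩
  · exact hc (by exact_mod_cast hv) (by exact_mod_cast hw) hwv.symm
  · rintro x hx ⟨h1, h2⟩
    have : x ∈ e := by
      apply mem_of_forall_adj he hx
      intro d hd _
      rw [← heq, Finset.mem_insert, Finset.mem_singleton] at hd
      rcases hd with rfl | rfl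
      · exact h1.symm
      · exact h2.symm
    rw [← heq, Finset.mem_insert, Finset.mem_singleton] at this
    rcases this with rfl | rfl
    · exact h1.ne rfl
    · exact h2.ne rfl

lemma card_leaves_inter {G : SimpleGraph V} (hG : DiamondFree G) (hK : NoClawAtTriangle G)
    {U : Finset V} (h : MinObs G U) (X : Finset V) :
    (leaves G U ∩ X).card = ∑ Q ∈ big G U, (Q ∩ X).card := by
  have h1 : leaves G U ∩ X = (big G U).biUnion (fun Q => Q ∩ X) := by
    ext x
    rw [Finset.mem_inter, mem_leaves, Finset.mem_biUnion]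
    constructor
    · rintro ⟨⟨Q, hQ, hx⟩, hX⟩
      exact ⟨Q, hQ, Finset.mem_inter.mpr ⟨hx, hX⟩⟩
    · rintro ⟨Q, hQ, hx⟩
      rw [Finset.mem_inter] at hx
      exact ⟨⟨Q, hQ, hx.1⟩, hx.2⟩
  rw [h1, Finset.card_biUnion]
  intro Q hQ Q' hQ' hne
  rw [Finset.mem_coe] at hQ hQ'
  change Disjoint (Q ∩ X) (Q' ∩ X)
  rw [Finset.disjoint_left]
  intro x hx hx'
  rw [Finset.mem_inter] at hx hx'
  exact hne (h.big_disjoint hG hK hQ hQ' hx.1 hx'.1).symm

lemma countP_eq_sum {α : Type*} [DecidableEq α] (T : Finset α) (p : α → Prop) [DecidablePred p]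
    (F : Multiset α) : (∀ K ∈ F, K ∈ T) →
      Multiset.countP p F = ∑ C ∈ T, if p C then Multiset.count C F else 0 := by
  induction F using Multiset.induction_on with
  | empty => simp
  | cons K F ih =>
    intro h
    rw [Multiset.countP_cons, ih (fun C hC => h C (Multiset.mem_cons_of_mem hC))]
    have hK := h K (Multiset.mem_cons_self K F)
    have : (if p K then 1 else 0) = ∑ C ∈ T, if C = K then (if p C then 1 else 0) else 0 := by
      rw [Finset.sum_ite_eq' T K (fun C => if p C then 1 else 0), if_pos hK]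
    rw [this, ← Finset.sum_add_distrib]
    apply Finset.sum_congr rfl
    intro C _
    rw [Multiset.count_cons]
    split_ifs <;> rfl

lemma MinObs.exact_sum {G : SimpleGraph V} (hG : DiamondFree G) {U : Finset V} (h : MinObs G U)
    {X : Finset V} (hX : Exact G U X) {e : Finset V} (he : e ∈ small G U) (g : ℕ) :
    ∑ x ∈ X, (if x ∈ e then g else 0) = g := by
  obtain ⟨v, hv, w, hw, hvw, rfl⟩ := h.small_eq hG he
  have h1 := hX.2 v w hv hw hvw
  by_cases hvX : v ∈ X
  · have hwX := h1.mp hvX
    rw [Finset.sum_eq_single v, if_pos (by simp)]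
    · intro x hx hne
      rw [if_neg]
      intro hx'
      rw [Finset.mem_insert, Finset.mem_singleton] at hx'
      rcases hx' with rfl | rfl
      · exact hne rfl
      · exact hwX hx
    · intro h'; exact absurd hvX h'
  · have hwX : w ∈ X := by
      by_contra h'
      exact hvX (h1.mpr h')
    rw [Finset.sum_eq_single w, if_pos (by simp)]
    · intro x hx hne
      rw [if_neg]
      intro hx'
      rw [Finset.mem_insert, Finset.mem_singleton] at hx'
      rcases hx' with rfl | rfl
      · exact hvX hx
      · exact hne rfl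
    · intro h'; exact absurd hwX h'

lemma MinObs.two_le_count {G : SimpleGraph V} (hG : DiamondFree G) (hK : NoClawAtTriangle G)
    {U : Finset V} (h : MinObs G U) {F : Multiset (Finset V)} (hF : CheapCoverM G U F)
    {Q : Finset V} (hQ : Q ∈ big G U) : 2 ≤ Multiset.count Q F := by
  have hQ' := mem_big.mp hQ
  obtain ⟨l, hl⟩ : Q.Nonempty := by
    rw [← Finset.card_pos]; omega
  have hlU := maxCliqueIn_subset hQ'.1 hl
  obtain ⟨a, ha, hla, hC⟩ := h.leaf hG hK hQ hl
  have haF : ({l, a} : Finset V) ∉ F := by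
    obtain ⟨w, hw, hlw, hwF⟩ := h.cheapCover hG hF l hlU
    rcases hC _ (maxCliqueIn_pair hlU hw hlw) (by simp) with h1 | h1
    · exact absurd h1 (pure_ne_big hQ)
    · rwa [← h1]
  have h1 := hF.2.1 l hlU
  have h2 : 2 ≤ ((maxCliques G U).filter (fun C => l ∈ C)).card := by
    have : ({Q, {l, a}} : Finset (Finset V)) ⊆ (maxCliques G U).filter (fun C => l ∈ C) := by
      intro C hC
      rw [Finset.mem_insert, Finset.mem_singleton] at hC
      rw [Finset.mem_filter, mem_maxCliques]
      rcases hC with rfl | rfl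
      · exact ⟨hQ'.1, hl⟩
      · exact ⟨maxCliqueIn_pair hlU ha hla, by simp⟩
    calc 2 = ({Q, {l, a}} : Finset (Finset V)).card :=
          (Finset.card_pair (pure_ne_big hQ).symm).symm
      _ ≤ _ := Finset.card_le_card this
  rw [countP_eq_sum (maxCliques G U) _ F (fun K hK => mem_maxCliques.mpr (hF.1 K hK))] at h1
  have h3 : ∑ C ∈ maxCliques G U, (if l ∈ C then Multiset.count C F else 0) ≤
      ∑ C ∈ maxCliques G U, (if C = Q then Multiset.count C F else 0) := by
    apply Finset.sum_le_sum
    intro C hCm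
    by_cases hlC : l ∈ C
    · rw [if_pos hlC]
      rcases hC C (mem_maxCliques.mp hCm) hlC with rfl | rfl
      · rw [if_pos rfl]
      · rw [Multiset.count_eq_zero_of_notMem haF]
        exact Nat.zero_le _
    · rw [if_neg hlC]
      exact Nat.zero_le _
  rw [Finset.sum_ite_eq' (maxCliques G U) Q (fun C => Multiset.count C F),
    if_pos (mem_maxCliques.mpr hQ'.1)] at h3
  omega

/-- every exact set contains at least `b + 1` leaves -/
lemma lower {G : SimpleGraph V} (hG : DiamondFree G) (hK : NoClawAtTriangle G)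
    {U : Finset V} (h : MinObs G U) {F : Multiset (Finset V)} (hF : CheapCoverM G U F)
    {X : Finset V} (hX : Exact G U X) : (big G U).card + 1 ≤ (leaves G U ∩ X).card := by
  have hFT : ∀ K ∈ F, K ∈ maxCliques G U := fun K hK => mem_maxCliques.mpr (hF.1 K hK)
  have e1 : Multiset.card F = ∑ C ∈ maxCliques G U, Multiset.count C F := by
    have := countP_eq_sum (maxCliques G U) (fun _ => True) F hFT
    simpa using this
  have e2 : ∑ C ∈ big G U, Multiset.count C F + ∑ C ∈ small G U, Multiset.count C F =
      ∑ C ∈ maxCliques G U, Multiset.count C F := Finset.sum_filter_add_sum_filter_not _ _ _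
  have e3 : (big G U).card + (small G U).card = (maxCliques G U).card := by
    have : ∑ C ∈ big G U, 1 + ∑ C ∈ small G U, 1 = ∑ C ∈ maxCliques G U, 1 :=
      Finset.sum_filter_add_sum_filter_not _ _ _
    simpa using this
  have e4 : 2 * (big G U).card ≤ ∑ C ∈ big G U, Multiset.count C F := by
    have : ∑ C ∈ big G U, 2 ≤ ∑ C ∈ big G U, Multiset.count C F :=
      Finset.sum_le_sum (fun Q hQ => h.two_le_count hG hK hF hQ)
    rw [Finset.sum_const, smul_eq_mul] at this
    omega
  have e5 := hF.2.2
  -- the key inequality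
  have e6 : (small G U).card ≤ (leaves G U ∩ X).card + ∑ C ∈ small G U, Multiset.count C F := by
    have f1 : (small G U).card = ∑ e ∈ small G U, ∑ x ∈ X, (if x ∈ e then 1 else 0) := by
      rw [Finset.card_eq_sum_ones]
      exact Finset.sum_congr rfl (fun e he => (h.exact_sum hG hX he 1).symm)
    have f2 : ∑ C ∈ small G U, Multiset.count C F =
        ∑ e ∈ small G U, ∑ x ∈ X, (if x ∈ e then Multiset.count e F else 0) :=
      Finset.sum_congr rfl (fun e he => (h.exact_sum hG hX he _).symm)
    have f3 : (leaves G U ∩ X).card = ∑ x ∈ X, (if x ∈ leaves G U then 1 else 0) := by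
      rw [Finset.inter_comm, ← Finset.filter_mem_eq_inter, Finset.card_filter]
    rw [f1, f2, f3, Finset.sum_comm, Finset.sum_comm (s := small G U), ← Finset.sum_add_distrib]
    apply Finset.sum_le_sum
    intro v hv
    have hvU := hX.1 hv
    by_cases hvl : v ∈ leaves G U
    · rw [if_pos hvl]
      have : ∑ e ∈ small G U, (if v ∈ e then 1 else 0) ≤ 1 := by
        rw [← Finset.card_filter]
        apply Finset.card_le_one.mpr
        intro e he e' he'
        rw [Finset.mem_filter] at he he'
        obtain ⟨Q, hQ, hvQ⟩ := mem_leaves.mp hvl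
        have g1 := mem_small.mp he.1
        have g2 := mem_small.mp he'.1
        have g3 := mem_big.mp hQ
        apply leaf_unique hG hK hQ g1.1 g2.1 hvQ he.2 he'.2
        · intro h'; exact g1.2 (h' ▸ g3.2)
        · intro h'; exact g2.2 (h' ▸ g3.2)
      omega
    · rw [if_neg hvl, zero_add]
      have g1 := hF.2.1 v hvU
      rw [countP_eq_sum (maxCliques G U) _ F hFT, Finset.card_filter] at g1
      have g2 : ∑ C ∈ big G U, (if v ∈ C then Multiset.count C F else 0) +
          ∑ C ∈ small G U, (if v ∈ C then Multiset.count C F else 0) =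
          ∑ C ∈ maxCliques G U, (if v ∈ C then Multiset.count C F else 0) :=
        Finset.sum_filter_add_sum_filter_not _ _ _
      have g3 : ∑ C ∈ big G U, (if v ∈ C then 1 else 0) +
          ∑ C ∈ small G U, (if v ∈ C then 1 else 0) =
          ∑ C ∈ maxCliques G U, (if v ∈ C then 1 else 0) :=
        Finset.sum_filter_add_sum_filter_not _ _ _
      have g4 : ∑ C ∈ big G U, (if v ∈ C then Multiset.count C F else 0) = 0 := by
        apply Finset.sum_eq_zero
        intro C hC
        rw [if_neg]
        intro hvC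
        exact hvl (mem_leaves.mpr ⟨C, hC, hvC⟩)
      omega
  omega

lemma exists_exact {G : SimpleGraph V} (hG : DiamondFree G) (hK : NoClawAtTriangle G)
    {U : Finset V} (h : MinObs G U) {l : V} (hl : l ∈ leaves G U) :
    ∃ X, Exact G U X ∧ l ∈ X ∧ (leaves G U ∩ X).card = (big G U).card + 1 := by
  obtain ⟨Q, hQ, hlQ⟩ := mem_leaves.mp hl
  have hlU := maxCliqueIn_subset (mem_big.mp hQ).1 hlQ
  obtain ⟨a, ha, hla, hC⟩ := h.leaf hG hK hQ hlQ
  obtain ⟨S, hS⟩ := h.exists_erase hlU
  have hlS : l ∉ S := fun h' => Finset.notMem_erase l U (hS.1 h')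
  have hcl : ∀ w ∈ U, PureEdge G U l w → ({l, w} : Finset V) = {l, a} := by
    intro w hw hlw
    rcases hC _ (maxCliqueIn_pair hlU hw hlw) (by simp) with h1 | h1
    · exact absurd h1 (pure_ne_big hQ)
    · exact h1
  have hmiss : ∀ C, MaxCliqueIn G U C → C ≠ {l, a} → (S ∩ C).Nonempty := by
    intro C hCm hne
    by_contra hcon
    obtain ⟨w, hw, hlw, rfl⟩ := missed_is_pureEdge hG hlU h.2.1 hS hCm hcon
    exact hne (hcl w hw hlw)
  have haS : a ∉ S := by
    obtain ⟨C, hCm, hCmiss⟩ := h.exists_missed hlU hS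
    have hCe : C = {l, a} := by
      by_contra hne
      exact hCmiss (hmiss C hCm hne)
    intro haS
    exact hCmiss ⟨a, Finset.mem_inter.mpr ⟨haS, by rw [hCe]; simp⟩⟩
  have hSU : S ⊆ U := hS.1.trans (Finset.erase_subset _ _)
  refine ⟨insert l S, ⟨?_, ?_⟩, Finset.mem_insert_self _ _, ?_⟩
  · intro x hx
    rw [Finset.mem_insert] at hx
    rcases hx with rfl | hx
    · exact hlU
    · exact hSU hx
  · intro v w hv hw hvw
    rw [Finset.mem_insert, Finset.mem_insert]
    by_cases hvl : v = l
    · subst hvl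
      have h1 := hcl w hw hvw
      have hwa : w = a := by
        have : w ∈ ({v, a} : Finset V) := by rw [← h1]; simp
        rw [Finset.mem_insert, Finset.mem_singleton] at this
        rcases this with h2 | h2
        · exact absurd h2.symm hvw.1.ne
        · exact h2
      subst hwa
      have := hvw.1.ne.symm
      tauto
    · by_cases hwl : w = l
      · subst hwl
        have h1 := hcl v hv hvw.symm
        have hva : v = a := by
          have : v ∈ ({w, a} : Finset V) := by rw [← h1]; simp
          rw [Finset.mem_insert, Finset.mem_singleton] at this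
          rcases this with h2 | h2
          · exact absurd h2 hvw.1.ne
          · exact h2
        subst hva
        tauto
      · have h1 : (S ∩ {v, w}).Nonempty := by
          apply hmiss _ (maxCliqueIn_pair hv hw hvw)
          intro h'
          have : l ∈ ({v, w} : Finset V) := by rw [h']; simp
          rw [Finset.mem_insert, Finset.mem_singleton] at this
          rcases this with h2 | h2
          · exact hvl h2.symm
          · exact hwl h2.symm
        obtain ⟨x, hx⟩ := h1
        rw [Finset.mem_inter, Finset.mem_insert, Finset.mem_singleton] at hx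
        have h2 : ¬ (v ∈ S ∧ w ∈ S) := fun h' =>
          hS.2.1 (by exact_mod_cast h'.1) (by exact_mod_cast h'.2) hvw.1.ne hvw.1
        have h3 : v ∈ S ∨ w ∈ S := by
          rcases hx.2 with h4 | h4
          · left; rw [← h4]; exact hx.1
          · right; rw [← h4]; exact hx.1
        tauto
  · have h1 : leaves G U ∩ insert l S = insert l (leaves G U ∩ S) := by
      ext x
      simp only [Finset.mem_inter, Finset.mem_insert]
      constructor
      · rintro ⟨h1, rfl | h2⟩
        · exact Or.inl rfl
        · exact Or.inr ⟨h1, h2⟩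
      · rintro (rfl | ⟨h1, h2⟩)
        · exact ⟨hl, Or.inl rfl⟩
        · exact ⟨h1, Or.inr h2⟩
    rw [h1, Finset.card_insert_of_notMem (fun h' => hlS (Finset.mem_inter.mp h').2),
      card_leaves_inter hG hK h]
    congr 1
    rw [Finset.card_eq_sum_ones]
    apply Finset.sum_congr rfl
    intro Q' hQ'
    have hQm := (mem_big.mp hQ').1
    apply le_antisymm
    · apply Finset.card_le_one.mpr
      intro x hx y hy
      rw [Finset.mem_inter] at hx hy
      by_contra hne
      exact hS.2.1 (by exact_mod_cast hx.2) (by exact_mod_cast hy.2) hne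
        (maxCliqueIn_clique hQm (by exact_mod_cast hx.1) (by exact_mod_cast hy.1) hne)
    · rw [Finset.inter_comm]
      exact Finset.card_pos.mpr (hmiss Q' hQm (pure_ne_big hQ').symm)

lemma Exact.compl {G : SimpleGraph V} {U X : Finset V} (hX : Exact G U X) :
    Exact G U (U \ X) := by
  refine ⟨Finset.sdiff_subset, ?_⟩
  intro v w hv hw hvw
  have := hX.2 v w hv hw hvw
  rw [Finset.mem_sdiff, Finset.mem_sdiff]
  tauto

/-- exact sets that agree at `x` agree at every vertex reachable from `x` by pure edges -/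
lemma Exact.agree {G : SimpleGraph V} {U X Y : Finset V} (hX : Exact G U X) (hY : Exact G U Y)
    {x v : V} (hr : (PureGraph G U).Reachable x v) (hx : x ∈ X ↔ x ∈ Y) : v ∈ X ↔ v ∈ Y := by
  obtain ⟨p⟩ := hr
  induction p with
  | nil => exact hx
  | cons h _ ih =>
    apply ih
    have h1 := hX.2 _ _ h.1 h.2.1 h.2.2
    have h2 := hY.2 _ _ h.1 h.2.1 h.2.2
    tauto

open Classical in
lemma balance_le {G : SimpleGraph V} (hG : DiamondFree G) (hK : NoClawAtTriangle G)
    {U : Finset V} (h : MinObs G U) {F : Multiset (Finset V)} (hF : CheapCoverM G U F)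
    {X : Finset V} (hX : Exact G U X) {x : V} (hx : x ∈ leaves G U) (hxX : x ∈ X) :
    ((leaves G U).filter (fun v => v ∈ X ∧ (PureGraph G U).Reachable x v)).card ≤
      ((leaves G U).filter (fun v => v ∉ X ∧ (PureGraph G U).Reachable x v)).card := by
  obtain ⟨Y, hY, hxY, hYc⟩ := exists_exact hG hK h hx
  set R : V → Prop := fun v => (PureGraph G U).Reachable x v with hR
  have hY' : Exact G U (U.filter (fun v => (v ∈ Y ∧ ¬ R v) ∨ (v ∉ Y ∧ R v))) := by
    refine ⟨Finset.filter_subset _ _, ?_⟩
    intro v w hv hw hvw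
    have h1 := hY.2 v w hv hw hvw
    have hadj : (PureGraph G U).Adj v w := ⟨hv, hw, hvw⟩
    have h2 : R v ↔ R w :=
      ⟨fun h' => h'.trans hadj.reachable, fun h' => h'.trans hadj.symm.reachable⟩
    rw [Finset.mem_filter, Finset.mem_filter]
    tauto
  have h1 := lower hG hK h hF hY'
  rw [← hYc] at h1
  have hLU : ∀ v ∈ leaves G U, v ∈ U := by
    intro v hv
    obtain ⟨Q, hQ, hvQ⟩ := mem_leaves.mp hv
    exact maxCliqueIn_subset (mem_big.mp hQ).1 hvQ
  have hcard : ∀ Z : Finset V, (leaves G U ∩ Z).card =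
      ∑ v ∈ leaves G U, (if v ∈ Z then 1 else 0) := by
    intro Z
    rw [← Finset.filter_mem_eq_inter, Finset.card_filter]
  rw [hcard, hcard] at h1
  rw [Finset.card_filter, Finset.card_filter]
  have h2 : ∑ v ∈ leaves G U, (if v ∈ Y then 1 else 0) +
      ∑ v ∈ leaves G U, (if v ∉ X ∧ R v then 1 else 0) =
      ∑ v ∈ leaves G U,
        (if v ∈ U.filter (fun v => (v ∈ Y ∧ ¬ R v) ∨ (v ∉ Y ∧ R v)) then 1 else 0) +
      ∑ v ∈ leaves G U, (if v ∈ X ∧ R v then 1 else 0) := by
    rw [← Finset.sum_add_distrib, ← Finset.sum_add_distrib]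
    apply Finset.sum_congr rfl
    intro v hv
    have hvU := hLU v hv
    by_cases hRv : R v
    · have h3 : v ∈ X ↔ v ∈ Y := Exact.agree hX hY hRv (by simp [hxX, hxY])
      by_cases hvY : v ∈ Y
      · have hvX := h3.mpr hvY
        simp [hvU, hRv, hvY, hvX]
      · have hvX : v ∉ X := fun h' => hvY (h3.mp h')
        simp [hvU, hRv, hvY, hvX]
    · by_cases hvY : v ∈ Y
      · simp [hvU, hRv, hvY]
      · simp [hRv, hvY]
  change ∑ v ∈ leaves G U, (if v ∈ X ∧ R v then 1 else 0) ≤
    ∑ v ∈ leaves G U, (if v ∉ X ∧ R v then 1 else 0)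
  omega

open Classical in
/-- in every component of the pure graph both sides contain the same number of leaves -/
lemma balance {G : SimpleGraph V} (hG : DiamondFree G) (hK : NoClawAtTriangle G)
    {U : Finset V} (h : MinObs G U) {F : Multiset (Finset V)} (hF : CheapCoverM G U F)
    {X : Finset V} (hX : Exact G U X) (x : V) :
    ((leaves G U).filter (fun v => v ∈ X ∧ (PureGraph G U).Reachable x v)).card =
      ((leaves G U).filter (fun v => v ∉ X ∧ (PureGraph G U).Reachable x v)).card := by
  have hLU : ∀ v ∈ leaves G U, v ∈ U := by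
    intro v hv
    obtain ⟨Q, hQ, hvQ⟩ := mem_leaves.mp hv
    exact maxCliqueIn_subset (mem_big.mp hQ).1 hvQ
  have hre : ∀ {y : V}, (PureGraph G U).Reachable x y →
      ∀ v, ((PureGraph G U).Reachable y v ↔ (PureGraph G U).Reachable x v) :=
    fun hy v => ⟨fun h' => hy.trans h', fun h' => hy.symm.trans h'⟩
  apply le_antisymm
  · rcases ((leaves G U).filter
        (fun v => v ∈ X ∧ (PureGraph G U).Reachable x v)).eq_empty_or_nonempty with h0 | ⟨y, hy⟩
    · rw [h0, Finset.card_empty]
      exact Nat.zero_le _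
    · rw [Finset.mem_filter] at hy
      have h1 := balance_le hG hK h hF hX hy.1 hy.2.1
      simp only [hre hy.2.2] at h1
      exact h1
  · rcases ((leaves G U).filter
        (fun v => v ∉ X ∧ (PureGraph G U).Reachable x v)).eq_empty_or_nonempty with h0 | ⟨y, hy⟩
    · rw [h0, Finset.card_empty]
      exact Nat.zero_le _
    · rw [Finset.mem_filter] at hy
      have h1 := balance_le hG hK h hF hX.compl hy.1
        (Finset.mem_sdiff.mpr ⟨hLU y hy.1, hy.2.1⟩)
      simp only [hre hy.2.2] at h1
      have e1 : (leaves G U).filter (fun v => v ∈ U \ X ∧ (PureGraph G U).Reachable x v) =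
          (leaves G U).filter (fun v => v ∉ X ∧ (PureGraph G U).Reachable x v) := by
        apply Finset.filter_congr
        intro v hv
        have := hLU v hv
        rw [Finset.mem_sdiff]
        tauto
      have e2 : (leaves G U).filter (fun v => v ∉ U \ X ∧ (PureGraph G U).Reachable x v) =
          (leaves G U).filter (fun v => v ∈ X ∧ (PureGraph G U).Reachable x v) := by
        apply Finset.filter_congr
        intro v hv
        have := hLU v hv
        rw [Finset.mem_sdiff]
        tauto
      rw [e1, e2] at h1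
      exact h1

lemma half {G : SimpleGraph V} (hG : DiamondFree G) (hK : NoClawAtTriangle G)
    {U : Finset V} (h : MinObs G U) {F : Multiset (Finset V)} (hF : CheapCoverM G U F)
    {X : Finset V} (hX : Exact G U X) :
    (leaves G U ∩ X).card = (leaves G U \ X).card := by
  classical
  rw [← Finset.filter_mem_eq_inter, ← Finset.filter_notMem_eq_sdiff]
  set f : V → (PureGraph G U).ConnectedComponent := (PureGraph G U).connectedComponentMk with hf
  have e1 := Finset.card_eq_sum_card_fiberwise (f := f) (s := (leaves G U).filter (· ∈ X))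
    (t := (leaves G U).image f) (by
      intro x hx
      have hx' := Finset.mem_filter.mp (Finset.mem_coe.mp hx)
      exact Finset.mem_coe.mpr (Finset.mem_image_of_mem f hx'.1))
  have e2 := Finset.card_eq_sum_card_fiberwise (f := f) (s := (leaves G U).filter (· ∉ X))
    (t := (leaves G U).image f) (by
      intro x hx
      have hx' := Finset.mem_filter.mp (Finset.mem_coe.mp hx)
      exact Finset.mem_coe.mpr (Finset.mem_image_of_mem f hx'.1))
  rw [e1, e2]
  apply Finset.sum_congr rfl
  intro b hb
  rw [Finset.mem_image] at hb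
  obtain ⟨x, hx, rfl⟩ := hb
  have h1 := balance hG hK h hF hX x
  have h2 : ∀ v, f v = f x ↔ (PureGraph G U).Reachable x v := by
    intro v
    rw [hf, SimpleGraph.ConnectedComponent.eq]
    exact ⟨fun h' => h'.symm, fun h' => h'.symm⟩
  refine Eq.trans (congrArg Finset.card ?_) (Eq.trans h1 (congrArg Finset.card ?_))
  · ext v
    simp only [Finset.mem_filter, h2, and_assoc]
  · ext v
    simp only [Finset.mem_filter, h2, and_assoc]

/-- there are `2 b + 2` leaves -/
lemma card_leaves {G : SimpleGraph V} (hG : DiamondFree G) (hK : NoClawAtTriangle G)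
    {U : Finset V} (h : MinObs G U) {F : Multiset (Finset V)} (hF : CheapCoverM G U F)
    (hne : (leaves G U).Nonempty) : (leaves G U).card = 2 * (big G U).card + 2 := by
  obtain ⟨l, hl⟩ := hne
  obtain ⟨X, hX, _, hc⟩ := exists_exact hG hK h hl
  have h1 := half hG hK h hF hX
  have h2 := Finset.card_inter_add_card_sdiff (leaves G U) X
  omega

/-- every exact set contains exactly `b + 1` leaves -/
lemma card_exact {G : SimpleGraph V} (hG : DiamondFree G) (hK : NoClawAtTriangle G)
    {U : Finset V} (h : MinObs G U) {F : Multiset (Finset V)} (hF : CheapCoverM G U F)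
    {X : Finset V} (hX : Exact G U X) (hne : (leaves G U).Nonempty) :
    (leaves G U ∩ X).card = (big G U).card + 1 := by
  have h0 := card_leaves hG hK h hF hne
  have h1 := half hG hK h hF hX
  have h2 := Finset.card_inter_add_card_sdiff (leaves G U) X
  omega

theorem MinObs.sum_le_two {G : SimpleGraph V} (hG : DiamondFree G) (hK : NoClawAtTriangle G)
    {U : Finset V} (h : MinObs G U) {F : Multiset (Finset V)} (hF : CheapCoverM G U F) :
    ∑ C ∈ maxCliques G U, (C.card - 2) ≤ 2 := by
  have e1 : ∑ C ∈ big G U, (C.card - 2) + ∑ C ∈ small G U, (C.card - 2) =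
      ∑ C ∈ maxCliques G U, (C.card - 2) := Finset.sum_filter_add_sum_filter_not _ _ _
  have e2 : ∑ C ∈ small G U, (C.card - 2) = 0 := by
    apply Finset.sum_eq_zero
    intro C hC
    have := (mem_small.mp hC).2
    omega
  have e3 : ∑ C ∈ big G U, (C.card - 2) + 2 * (big G U).card = (leaves G U).card := by
    have h1 := card_leaves_inter hG hK h U
    have h2 : leaves G U ∩ U = leaves G U := by
      rw [Finset.inter_eq_left]
      intro v hv
      obtain ⟨Q, hQ, hvQ⟩ := mem_leaves.mp hv
      exact maxCliqueIn_subset (mem_big.mp hQ).1 hvQ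
    rw [h2] at h1
    have h3 : 2 * (big G U).card = ∑ C ∈ big G U, 2 := by
      rw [Finset.sum_const, smul_eq_mul, mul_comm]
    rw [h1, h3, ← Finset.sum_add_distrib]
    apply Finset.sum_congr rfl
    intro C hC
    have h4 := mem_big.mp hC
    rw [Finset.inter_eq_left.mpr (maxCliqueIn_subset h4.1)]
    omega
  rcases (leaves G U).eq_empty_or_nonempty with h0 | hne
  · rw [h0, Finset.card_empty] at e3
    omega
  · have := card_leaves hG hK h hF hne
    omega

end Pool.Agent.H28.SP
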