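import Pool.Agent.H28.SPKFinal

/-!
An obstruction can be enlarged by all vertices that are in no triangle.
-/

namespace Pool.Agent.H28.SP

open Finset

variable {V : Type*} [Fintype V] [DecidableEq V]

/-- the vertex `v` is in a triangle of `G` -/
def InTriangle (G : SimpleGraph V) (v : V) : Prop :=
  ∃ x y, G.Adj v x ∧ G.Adj v y ∧ G.Adj x y

lemma MinObs.two_le_card {G : SimpleGraph V} (hG : DiamondFree G) {U : Finset V}
    (h : MinObs G U) {C : Finset V} (hC : MaxCliqueIn G U C) : 2 ≤ C.card := by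
  by_cases h3 : 3 ≤ C.card
  · omega
  · obtain ⟨v, _, w, _, hvw, rfl⟩ := h.small_eq hG (mem_small.mpr ⟨hC, h3⟩)
    rw [Finset.card_pair hvw.1.ne]

/-- a clique with two vertices cannot be enlarged by a vertex that is in no triangle -/
lemma inTriangle_of_adj {G : SimpleGraph V} {C : Finset V} (hC : G.IsClique (C : Set V))
    (h2 : 2 ≤ C.card) {x : V} (hx : ∀ d ∈ C, G.Adj x d) : InTriangle G x := by
  obtain ⟨a, ha, b, hb, hab⟩ := Finset.one_lt_card.mp h2
  exact ⟨a, b, hx a ha, hx b hb, hC (by exact_mod_cast ha) (by exact_mod_cast hb) hab⟩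

theorem MinObs.enlarge {G : SimpleGraph V} (hG : DiamondFree G) {U : Finset V}
    (h : MinObs G U) (h2 : ∑ C ∈ maxCliques G U, (C.card - 2) ≤ 2) :
    ∃ W : Finset V, U ⊆ W ∧ (∀ v, v ∉ W → InTriangle G v) ∧
      ∑ C ∈ maxCliques G W, (C.card - 2) ≤ 2 ∧ ¬ ∃ S, StrongStableIn G W S := by
  classical
  set W : Finset V := U ∪ univ.filter (fun v => ¬ InTriangle G v) with hW
  have hUW : U ⊆ W := Finset.subset_union_left
  have hWU : ∀ v ∈ W, v ∉ U → ¬ InTriangle G v := by
    intro v hv hvU
    rw [hW, Finset.mem_union, Finset.mem_filter] at hv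
    rcases hv with hv | hv
    · exact absurd hv hvU
    · exact hv.2
  -- maximal cliques of `G[U]` are maximal in `G[W]`
  have hup : ∀ C, MaxCliqueIn G U C → MaxCliqueIn G W C := by
    intro C hC
    refine ⟨⟨(maxCliqueIn_subset hC).trans hUW, maxCliqueIn_clique hC⟩, ?_⟩
    intro D hD hCD x hx
    have hxU : x ∈ U ∨ x ∈ C := by
      by_cases hxC : x ∈ C
      · exact Or.inr hxC
      · left
        by_contra hxU
        refine hWU x (hD.1 hx) hxU (inTriangle_of_adj (maxCliqueIn_clique hC)
          (h.two_le_card hG hC) ?_)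
        intro d hd
        exact hD.2 (by exact_mod_cast hx) (by exact_mod_cast hCD hd) (fun h' => hxC (h' ▸ hd))
    rcases hxU with hxU | hxC
    · apply mem_of_forall_adj hC hxU
      intro d hd hxd
      exact hD.2 (by exact_mod_cast hx) (by exact_mod_cast hCD hd) hxd
    · exact hxC
  refine ⟨W, hUW, ?_, ?_, ?_⟩
  · intro v hv
    by_contra hcon
    exact hv (by rw [hW, Finset.mem_union, Finset.mem_filter]; exact Or.inr ⟨mem_univ _, hcon⟩)
  · -- big cliques of `G[W]` are maximal cliques of `G[U]`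
    have hdown : ∀ C, MaxCliqueIn G W C → 3 ≤ C.card → MaxCliqueIn G U C := by
      intro C hC h3
      have hCc := maxCliqueIn_clique hC
      have hCU : C ⊆ U := by
        intro x hx
        by_contra hxU
        refine hWU x (maxCliqueIn_subset hC hx) hxU (inTriangle_of_adj (C := C.erase x)
          (hCc.subset (by exact_mod_cast Finset.erase_subset _ _)) ?_ ?_)
        · have := Finset.card_erase_add_one hx
          omega
        · intro d hd
          rw [Finset.mem_erase] at hd
          exact hCc (by exact_mod_cast hx) (by exact_mod_cast hd.2) hd.1.symm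
      exact ⟨⟨hCU, hCc⟩, fun D hD hCD => hC.le_of_ge ⟨hD.1.trans hUW, hD.2⟩ hCD⟩
    have e1 : ∀ (Z : Finset V), ∑ C ∈ maxCliques G Z, (C.card - 2) =
        ∑ C ∈ big G Z, (C.card - 2) := by
      intro Z
      have e1 : ∑ C ∈ big G Z, (C.card - 2) + ∑ C ∈ small G Z, (C.card - 2) =
          ∑ C ∈ maxCliques G Z, (C.card - 2) := Finset.sum_filter_add_sum_filter_not _ _ _
      have e2 : ∑ C ∈ small G Z, (C.card - 2) = 0 := by
        apply Finset.sum_eq_zero
        intro C hC
        have := (mem_small.mp hC).2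
        omega
      omega
    rw [e1] at h2 ⊢
    refine le_trans (Finset.sum_le_sum_of_subset ?_) h2
    intro C hC
    rw [mem_big] at hC ⊢
    exact ⟨hdown C hC.1 hC.2, hC.2⟩
  · rintro ⟨S, hSW, hSi, hS⟩
    apply h.2.1
    refine ⟨S ∩ U, Finset.inter_subset_right, ?_, ?_⟩
    · apply hSi.mono
      exact_mod_cast Finset.inter_subset_left
    · intro C hC
      obtain ⟨x, hx⟩ := hS C (hup C hC)
      rw [Finset.mem_inter] at hx
      exact ⟨x, Finset.mem_inter.mpr
        ⟨Finset.mem_inter.mpr ⟨hx.1, maxCliqueIn_subset hC hx.2⟩, hx.2⟩⟩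

end Pool.Agent.H28.SP
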