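import Pool.Agent.H28.SPK

/-!
Perfection of minimal obstructions with a triangle, and the final form of Theorem K.
-/

namespace Pool.Agent.H28.SP

open Finset

variable {V : Type*} [Fintype V] [DecidableEq V]

/-- Berge's theorem for diamond-free graphs, relative version -/
theorem exists_bicol_rel {G : SimpleGraph V} (hG : DiamondFree G) {U0 : Finset V}
    (hbip : ∀ U : Finset V, U ⊆ U0 → (PureGraph G U).Colorable 2) :
    ∀ U : Finset V, U ⊆ U0 → ∃ c, Bicol G U c := by
  classical
  intro U
  induction U using Finset.strongInduction with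
  | H U ih =>
  intro hU0
  by_contra hno
  push Not at hno
  rcases U.eq_empty_or_nonempty with rfl | ⟨r, hr⟩
  · apply hno (fun _ => true)
    intro C hC h2
    have := Finset.subset_empty.mp (maxCliqueIn_subset hC)
    subst this
    simp at h2
  set H := PureGraph G U with hH
  obtain ⟨φ⟩ := hbip U hU0
  -- a vertex at maximum distance from `r`
  obtain ⟨j, hj, hjmax⟩ := Finset.exists_max_image (univ.filter (fun x => H.Reachable r x))
    (fun x => H.dist r x) ⟨r, by simp⟩
  rw [Finset.mem_filter] at hj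
  have hjr := hj.2
  have hmax : ∀ k, H.Reachable r k → H.dist r k ≤ H.dist r j := by
    intro k hk
    exact hjmax k (by rw [Finset.mem_filter]; exact ⟨Finset.mem_univ _, hk⟩)
  have hjU : j ∈ U := by
    obtain ⟨p⟩ := hjr.symm
    cases p with
    | nil => exact hr
    | cons h _ => exact h.1
  obtain ⟨c, hc⟩ := ih (U.erase j) (Finset.erase_ssubset hjU)
    ((Finset.erase_subset _ _).trans hU0)
  obtain ⟨k, hkU, hjk, hck⟩ := exists_pure_of_not_bicol hG hno hjU hc true
  obtain ⟨l, hlU, hjl, hcl⟩ := exists_pure_of_not_bicol hG hno hjU hc false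
  -- along walks of `H` avoiding `j` the two colourings agree
  have hwalk : ∀ (x y : V) (p : H.Walk x y), j ∉ p.support → (c x = c y ↔ φ x = φ y) := by
    intro x y p
    induction p with
    | nil => simp
    | @cons x z y h p ihp =>
      intro hj'
      rw [SimpleGraph.Walk.support_cons, List.mem_cons, not_or] at hj'
      have h1 := ihp hj'.2
      have hzj : z ≠ j := fun hzj => hj'.2 (hzj ▸ p.start_mem_support)
      have hxj : x ≠ j := Ne.symm hj'.1
      have hφ : φ x ≠ φ z := φ.valid h
      have hcc : c x ≠ c z := by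
        intro heq
        have hm := maxCliqueIn_pair (G := G) (U := U.erase j) (v := x) (w := z)
          (Finset.mem_erase.mpr ⟨hxj, h.1⟩) (Finset.mem_erase.mpr ⟨hzj, h.2.1⟩)
          (h.2.2.mono (Finset.erase_subset _ _))
        obtain ⟨t, ht, htb⟩ := hc _ hm (by rw [Finset.card_pair h.2.2.1.ne]) (!(c x))
        rw [Finset.mem_insert, Finset.mem_singleton] at ht
        rcases ht with rfl | rfl
        · simp at htb
        · rw [heq] at htb; simp at htb
      have hφ2 : ∀ a b : Fin 2, a ≠ b ↔ a = 1 - b := by decide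
      have key : ∀ (a b d : Fin 2), a ≠ b → ((a = d) ↔ ¬ (b = d)) := by decide
      have key' : ∀ (a b d : Bool), a ≠ b → ((a = d) ↔ ¬ (b = d)) := by decide
      rw [key _ _ (φ y) hφ, key' _ _ (c y) hcc, h1]
  have hpath : ∀ k, H.Adj j k → ∃ p : H.Walk k r, j ∉ p.support := by
    intro k hjk
    have hrk : H.Reachable r k := hjr.trans hjk.reachable
    obtain ⟨p, hp⟩ := hrk.symm.exists_walk_length_eq_dist
    refine ⟨p, fun hjp => ?_⟩
    have h1 : (p.takeUntil j hjp).length + (p.dropUntil j hjp).length = p.length := by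
      rw [← SimpleGraph.Walk.length_append, SimpleGraph.Walk.take_spec]
    have h2 : H.dist j r ≤ (p.dropUntil j hjp).length := SimpleGraph.dist_le _
    have h3 : 1 ≤ (p.takeUntil j hjp).length := by
      rw [Nat.one_le_iff_ne_zero]
      intro h0
      have := SimpleGraph.Walk.eq_of_length_eq_zero h0
      exact hjk.ne this.symm
    have h4 := hmax k hrk
    rw [SimpleGraph.dist_comm (u := j)] at h2
    rw [SimpleGraph.dist_comm (u := k)] at hp
    omega
  obtain ⟨p, hp⟩ := hpath k ⟨hjU, hkU, hjk⟩
  obtain ⟨q, hq⟩ := hpath l ⟨hjU, hlU, hjl⟩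
  have e1 := hwalk k r p hp
  have e2 := hwalk l r q hq
  have f1 : φ j ≠ φ k := φ.valid (show H.Adj j k from ⟨hjU, hkU, hjk⟩)
  have f2 : φ j ≠ φ l := φ.valid (show H.Adj j l from ⟨hjU, hlU, hjl⟩)
  have f3 : φ k = φ l := by
    have key : ∀ (a b d : Fin 2), d ≠ a → d ≠ b → a = b := by decide
    exact key _ _ _ f1 f2
  rw [f3] at e1
  rw [hck] at e1
  rw [hcl] at e2
  by_cases h : φ l = φ r
  · have h1 := e1.mpr h
    have h2 := e2.mpr h
    rw [← h1] at h2
    simp at h2
  · have h1 : true ≠ c r := fun h' => h (e1.mp h')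
    have h2 : false ≠ c r := fun h' => h (e2.mp h')
    cases hcr : c r <;> simp_all

theorem col_of_bicol_rel {G : SimpleGraph V} (hG : DiamondFree G) {U0 : Finset V}
    (hbic : ∀ U : Finset V, U ⊆ U0 → ∃ c, Bicol G U c) (W : Finset V) (hW0 : W ⊆ U0) (n : ℕ)
    (hn : ∀ K ⊆ W, G.IsClique (K : Set V) → K.card ≤ n) : Col G W n := by
  classical
  rcases W.eq_empty_or_nonempty with rfl | ⟨x0, hx0⟩
  · exact ⟨fun _ => 0, by simp, by simp⟩
  have hn1 : 1 ≤ n := by
    have := hn {x0} (by simpa using hx0) (by simp)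
    simpa using this
  obtain ⟨c, _, hmax⟩ := Finset.exists_max_image (univ : Finset (V → Fin n))
    (fun c => potential G W c) ⟨fun _ => ⟨0, hn1⟩, Finset.mem_univ _⟩
  refine ⟨fun x => (c x : ℕ), fun v _ => (c v).2, ?_⟩
  intro u hu v hv huv heq
  have heq' : c u = c v := Fin.ext heq
  obtain ⟨C, hKC, hC⟩ := exists_maxCliqueIn (G := G) (U := W) (K := {u, v}) (by
    intro x hx
    rw [Finset.mem_insert, Finset.mem_singleton] at hx
    rcases hx with rfl | rfl
    · exact hu
    · exact hv) (by
    rw [Finset.coe_pair, SimpleGraph.isClique_pair]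
    exact fun _ => huv)
  have huC : u ∈ C := hKC (by simp)
  have hvC : v ∈ C := hKC (by simp)
  have hCn : C.card ≤ n := hn C (maxCliqueIn_subset hC) (maxCliqueIn_clique hC)
  have him : (C.image c).card < C.card := by
    apply lt_of_le_of_ne Finset.card_image_le
    intro h
    have := Finset.card_image_iff.mp h
    exact huv.ne (this (by exact_mod_cast huC) (by exact_mod_cast hvC) heq')
  -- a colour `q` missing in `C`
  obtain ⟨q, hq⟩ : ∃ q : Fin n, q ∉ C.image c := by
    by_contra hcon
    push Not at hcon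
    have : (C.image c).card = n := by
      rw [Finset.eq_univ_iff_forall.mpr hcon, Finset.card_univ, Fintype.card_fin]
    omega
  set p := c u with hp
  have hpq : p ≠ q := by
    intro h
    exact hq (h ▸ Finset.mem_image_of_mem c huC)
  set W' := W.filter (fun x => c x = p ∨ c x = q) with hW'
  have hW'W : W' ⊆ W := Finset.filter_subset _ _
  obtain ⟨b, hb⟩ := hbic W' (hW'W.trans hW0)
  set c' : V → Fin n := fun x => if x ∈ W' then (if b x then p else q) else c x with hc'
  -- comparison clique by clique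
  have hsplit : ∀ (e : V → Fin n) (D : Finset V), D ⊆ W →
      (∀ x ∈ D ∩ W', e x = p ∨ e x = q) → (∀ x ∈ D \ W', e x = c x) →
      (D.image e).card = ((D ∩ W').image e).card + ((D \ W').image c).card := by
    intro e D hDW h1 h2
    have e1 : D.image e = (D ∩ W').image e ∪ (D \ W').image c := by
      ext y
      simp only [Finset.mem_image, Finset.mem_union, Finset.mem_inter, Finset.mem_sdiff]
      constructor
      · rintro ⟨x, hx, rfl⟩
        by_cases hxW : x ∈ W'
        · exact Or.inl ⟨x, ⟨hx, hxW⟩, rfl⟩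
        · exact Or.inr ⟨x, ⟨hx, hxW⟩, (h2 x (Finset.mem_sdiff.mpr ⟨hx, hxW⟩)).symm⟩
      · rintro (⟨x, ⟨hx, _⟩, rfl⟩ | ⟨x, ⟨hx, hxW⟩, rfl⟩)
        · exact ⟨x, hx, rfl⟩
        · exact ⟨x, hx, h2 x (Finset.mem_sdiff.mpr ⟨hx, hxW⟩)⟩
    rw [e1, Finset.card_union_of_disjoint]
    rw [Finset.disjoint_left]
    intro y hy1 hy2
    rw [Finset.mem_image] at hy1 hy2
    obtain ⟨x, hx, rfl⟩ := hy1
    obtain ⟨x', hx', hxx⟩ := hy2
    rw [Finset.mem_sdiff] at hx'
    apply hx'.2
    rw [hW', Finset.mem_filter]
    refine ⟨hDW hx'.1, ?_⟩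
    rcases h1 x hx with h | h
    · left; rw [hxx, h]
    · right; rw [hxx, h]
  have hcW' : ∀ x ∈ W', c x = p ∨ c x = q := by
    intro x hx
    rw [hW', Finset.mem_filter] at hx
    exact hx.2
  have hc'W' : ∀ x ∈ W', c' x = if b x then p else q := by
    intro x hx; simp only [hc']; rw [if_pos hx]
  have hc'n : ∀ x, x ∉ W' → c' x = c x := by
    intro x hx; simp only [hc']; rw [if_neg hx]
  have hc'pq : ∀ x ∈ W', c' x = p ∨ c' x = q := by
    intro x hx
    rw [hc'W' x hx]
    split_ifs
    · exact Or.inl rfl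
    · exact Or.inr rfl
  have hsub2 : ∀ (e : V → Fin n) (D : Finset V), (∀ x ∈ D ∩ W', e x = p ∨ e x = q) →
      ((D ∩ W').image e).card ≤ 2 := by
    intro e D h
    calc ((D ∩ W').image e).card ≤ ({p, q} : Finset (Fin n)).card := by
          apply Finset.card_le_card
          intro y hy
          rw [Finset.mem_image] at hy
          obtain ⟨x, hx, rfl⟩ := hy
          rw [Finset.mem_insert, Finset.mem_singleton]
          exact h x hx
      _ = 2 := Finset.card_pair hpq
  have hnew2 : ∀ D, MaxCliqueIn G W D → 2 ≤ (D ∩ W').card → ((D ∩ W').image c').card = 2 := by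
    intro D hD h2
    have hm := maxCliqueIn_inter hG hW'W hD h2
    obtain ⟨x, hx, hxb⟩ := hb _ hm h2 true
    obtain ⟨y, hy, hyb⟩ := hb _ hm h2 false
    have hle := hsub2 c' D (fun z hz => hc'pq z (Finset.mem_inter.mp hz).2)
    have h3 : 2 ≤ ((D ∩ W').image c').card := by
      rw [← Nat.succ_le_iff.eq, Nat.succ_le_iff] at *
      apply Finset.one_lt_card.mpr
      refine ⟨c' x, Finset.mem_image_of_mem _ hx, c' y, Finset.mem_image_of_mem _ hy, ?_⟩
      rw [hc'W' x (Finset.mem_inter.mp hx).2, hc'W' y (Finset.mem_inter.mp hy).2, hxb, hyb]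
      simpa using hpq
    omega
  have hle : ∀ D ∈ maxCliques G W, (D.image c).card ≤ (D.image c').card := by
    intro D hD
    have hD' := mem_maxCliques.mp hD
    have hDW := maxCliqueIn_subset hD'
    rw [hsplit c D hDW (fun x hx => hcW' x (Finset.mem_inter.mp hx).2) (fun _ _ => rfl),
      hsplit c' D hDW (fun x hx => hc'pq x (Finset.mem_inter.mp hx).2)
        (fun x hx => hc'n x (Finset.mem_sdiff.mp hx).2)]
    apply Nat.add_le_add_right
    rcases Nat.lt_or_ge (D ∩ W').card 2 with h | h
    · have h1 : ((D ∩ W').image c).card ≤ (D ∩ W').card := Finset.card_image_le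
      rcases Nat.eq_zero_or_pos (D ∩ W').card with h0 | h0
      · omega
      · have h2 : 1 ≤ ((D ∩ W').image c').card := by
          apply Finset.card_pos.mpr
          exact (Finset.card_pos.mp h0).image _
        omega
    · rw [hnew2 D hD' h]
      exact hsub2 c D (fun x hx => hcW' x (Finset.mem_inter.mp hx).2)
  have hlt : (C.image c).card < (C.image c').card := by
    have hCW := maxCliqueIn_subset hC
    rw [hsplit c C hCW (fun x hx => hcW' x (Finset.mem_inter.mp hx).2) (fun _ _ => rfl),
      hsplit c' C hCW (fun x hx => hc'pq x (Finset.mem_inter.mp hx).2)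
        (fun x hx => hc'n x (Finset.mem_sdiff.mp hx).2)]
    apply Nat.add_lt_add_right
    have huW' : u ∈ W' := by rw [hW', Finset.mem_filter]; exact ⟨hu, Or.inl rfl⟩
    have hvW' : v ∈ W' := by rw [hW', Finset.mem_filter]; exact ⟨hv, Or.inl heq'.symm⟩
    have h2 : 2 ≤ (C ∩ W').card := by
      have : ({u, v} : Finset V) ⊆ C ∩ W' := by
        intro x hx
        rw [Finset.mem_insert, Finset.mem_singleton] at hx
        rcases hx with rfl | rfl
        · exact Finset.mem_inter.mpr ⟨huC, huW'⟩
        · exact Finset.mem_inter.mpr ⟨hvC, hvW'⟩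
      calc 2 = ({u, v} : Finset V).card := (Finset.card_pair huv.ne).symm
        _ ≤ _ := Finset.card_le_card this
    rw [hnew2 C hC h2]
    have h3 : (C ∩ W').image c ⊆ {p} := by
      intro y hy
      rw [Finset.mem_image] at hy
      obtain ⟨x, hx, rfl⟩ := hy
      rw [Finset.mem_inter] at hx
      rw [Finset.mem_singleton]
      rcases hcW' x hx.2 with h | h
      · exact h
      · exact absurd (h ▸ Finset.mem_image_of_mem c hx.1) hq
    have h4 := Finset.card_le_card h3
    rw [Finset.card_singleton] at h4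
    omega
  have hpot : potential G W c < potential G W c' := by
    unfold potential
    exact Finset.sum_lt_sum hle ⟨C, mem_maxCliques.mpr hC, hlt⟩
  have := hmax c' (Finset.mem_univ _)
  omega


theorem perfOn_of_bicol_rel {G : SimpleGraph V} (hG : DiamondFree G) {U : Finset V}
    (hbic : ∀ W : Finset V, W ⊆ U → ∃ c, Bicol G W c) : PerfOn G U := by
  intro W hWU n hn
  exact cov_of_col (col_of_bicol_rel hG hbic W hWU n hn)

lemma Exact.colorable {G : SimpleGraph V} {U X : Finset V} (hX : Exact G U X) :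
    (PureGraph G U).Colorable 2 := by
  classical
  refine ⟨SimpleGraph.Coloring.mk (fun v => if v ∈ X then (0 : Fin 2) else 1) ?_⟩
  intro v w hvw
  have h1 := hX.2 v w hvw.1 hvw.2.1 hvw.2.2
  by_cases hv : v ∈ X
  · rw [if_pos hv, if_neg (h1.mp hv)]
    decide
  · have hw : w ∈ X := by
      by_contra h'
      exact hv (h1.mpr h')
    rw [if_neg hv, if_pos hw]
    decide

lemma exact_of_strong {G : SimpleGraph V} {U S : Finset V} (hS : StrongStableIn G U S) :
    Exact G U S := by
  refine ⟨hS.1, ?_⟩
  intro v w hv hw hvw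
  obtain ⟨x, hx⟩ := hS.2.2 _ (maxCliqueIn_pair hv hw hvw)
  rw [Finset.mem_inter, Finset.mem_insert, Finset.mem_singleton] at hx
  have h2 : ¬ (v ∈ S ∧ w ∈ S) := fun h' =>
    hS.2.1 (by exact_mod_cast h'.1) (by exact_mod_cast h'.2) hvw.1.ne hvw.1
  have h3 : v ∈ S ∨ w ∈ S := by
    rcases hx.2 with h4 | h4
    · left; rw [← h4]; exact hx.1
    · right; rw [← h4]; exact hx.1
  tauto

/-- a minimal obstruction with a leaf has a cheap cover -/
theorem MinObs.exists_cheap {G : SimpleGraph V} (hG : DiamondFree G) (hK : NoClawAtTriangle G)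
    {U : Finset V} (h : MinObs G U) (hne : (leaves G U).Nonempty) :
    ∃ F, CheapCoverM G U F := by
  have hbip : ∀ W : Finset V, W ⊆ U → (PureGraph G W).Colorable 2 := by
    intro W hW
    rcases hW.eq_or_ssubset with rfl | hWU
    · obtain ⟨l, hl⟩ := hne
      obtain ⟨X, hX, _⟩ := exists_exact hG hK h hl
      exact hX.colorable
    · rcases W.eq_empty_or_nonempty with rfl | hWne
      · have : Exact G ∅ (∅ : Finset V) := ⟨by simp, by simp⟩
        exact this.colorable
      · obtain ⟨S, hS⟩ := h.2.2 W hWU hWne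
        exact (exact_of_strong hS).colorable
  exact cheapCover_of_no_strong G U
    (perfOn_of_bicol_rel hG (exists_bicol_rel hG hbip)) h.2.1

theorem MinObs.few {G : SimpleGraph V} (hG : DiamondFree G) (hK : NoClawAtTriangle G)
    {U : Finset V} (h : MinObs G U) : ∑ C ∈ maxCliques G U, (C.card - 2) ≤ 2 := by
  rcases (leaves G U).eq_empty_or_nonempty with h0 | hne
  · have : ∑ C ∈ maxCliques G U, (C.card - 2) = 0 := by
      apply Finset.sum_eq_zero
      intro C hC
      by_contra hcon
      have hCb : C ∈ big G U := mem_big.mpr ⟨mem_maxCliques.mp hC, by omega⟩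
      obtain ⟨l, hl⟩ : C.Nonempty := by
        rw [← Finset.card_pos]; omega
      have : l ∈ leaves G U := mem_leaves.mpr ⟨C, hCb, hl⟩
      rw [h0] at this
      simp at this
    omega
  · obtain ⟨F, hF⟩ := h.exists_cheap hG hK hne
    exact h.sum_le_two hG hK hF

end Pool.Agent.H28.SP
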