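import Pool.Agent.H28.SPK

/-!
Minimal obstructions in diamond-free graphs in which no vertex of a triangle is the centre of a
claw: selection lemma and one leaf on each side.
-/

namespace Pool.Agent.H28.SP

open Finset

variable {V : Type*} [Fintype V] [DecidableEq V]

lemma leaves_subset {G : SimpleGraph V} {U : Finset V} : leaves G U ⊆ U := by
  intro v hv
  obtain ⟨Q, hQ, hvQ⟩ := mem_leaves.mp hv
  exact maxCliqueIn_subset (mem_big.mp hQ).1 hvQ

lemma pure_unique {G : SimpleGraph V} (hG : DiamondFree G) (hK : NoClawAtTriangle G)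
    {U : Finset V} {l a b : V} (hl : l ∈ leaves G U) (ha : a ∈ U) (hb : b ∈ U)
    (hla : PureEdge G U l a) (hlb : PureEdge G U l b) : a = b := by
  obtain ⟨Q, hQ, hlQ⟩ := mem_leaves.mp hl
  have hlU := leaves_subset hl
  have h1 := leaf_unique hG hK hQ (maxCliqueIn_pair hlU ha hla) (maxCliqueIn_pair hlU hb hlb) hlQ
    (by simp) (by simp) (pure_ne_big hQ) (pure_ne_big hQ)
  have h2 : a ∈ ({l, b} : Finset V) := by rw [← h1]; simp
  rw [Finset.mem_insert, Finset.mem_singleton] at h2
  rcases h2 with h2 | h2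
  · exact absurd h2.symm hla.1.ne
  · exact h2

lemma select {G : SimpleGraph V} (hG : DiamondFree G) (hK : NoClawAtTriangle G)
    {U : Finset V} (h : MinObs G U) {R : Finset V} (hR : R ⊆ leaves G U) (hRne : R.Nonempty)
    (hRi : ∀ v ∈ R, ∀ w ∈ R, ¬ PureEdge G U v w) (h2 : ∀ Q ∈ big G U, 2 ≤ (Q \ R).card) :
    ∃ Y, Exact G U Y ∧ ∀ Q ∈ big G U, (Y ∩ (Q \ R)).card = 1 := by
  classical
  have hRU : R ⊆ U := hR.trans leaves_subset
  obtain ⟨r, hr⟩ := hRne
  have hWU : U \ R ⊂ U := by
    refine ⟨Finset.sdiff_subset, fun h' => ?_⟩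
    have := h' (hRU hr)
    rw [Finset.mem_sdiff] at this
    exact this.2 hr
  have hWne : (U \ R).Nonempty := by
    obtain ⟨Q, hQ, _⟩ := mem_leaves.mp (hR hr)
    have h3 := h2 Q hQ
    obtain ⟨x, hx⟩ : (Q \ R).Nonempty := by rw [← Finset.card_pos]; omega
    rw [Finset.mem_sdiff] at hx
    exact ⟨x, Finset.mem_sdiff.mpr ⟨maxCliqueIn_subset (mem_big.mp hQ).1 hx.1, hx.2⟩⟩
  obtain ⟨S, hS⟩ := h.2.2 _ hWU hWne
  have hSR : ∀ x ∈ S, x ∈ U ∧ x ∉ R := fun x hx => Finset.mem_sdiff.mp (hS.1 hx)
  set Y := S ∪ R.filter (fun r => ∀ a ∈ U, PureEdge G U r a → a ∉ S) with hY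
  have hYW : ∀ v, v ∉ R → (v ∈ Y ↔ v ∈ S) := by
    intro v hv
    rw [hY, Finset.mem_union, Finset.mem_filter]
    tauto
  have hYR : ∀ v, v ∈ R → (v ∈ Y ↔ ∀ a ∈ U, PureEdge G U v a → a ∉ S) := by
    intro v hv
    have h3 : v ∉ S := fun h' => (hSR v h').2 hv
    rw [hY, Finset.mem_union, Finset.mem_filter]
    tauto
  have hRW : ∀ v ∈ R, ∀ w ∈ U, w ∉ R → PureEdge G U v w → (v ∈ Y ↔ w ∉ Y) := by
    intro v hv w hw hwR hvw
    rw [hYR v hv, hYW w hwR]
    constructor
    · intro h3
      exact h3 w hw hvw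
    · intro h3 a ha hva
      rw [pure_unique hG hK (hR hv) ha hw hva hvw]
      exact h3
  refine ⟨Y, ⟨?_, ?_⟩, ?_⟩
  · intro v hv
    rw [hY, Finset.mem_union, Finset.mem_filter] at hv
    rcases hv with hv | hv
    · exact (hSR v hv).1
    · exact hRU hv.1
  · intro v w hv hw hvw
    by_cases hvR : v ∈ R
    · by_cases hwR : w ∈ R
      · exact absurd hvw (hRi v hvR w hwR)
      · exact hRW v hvR w hw hwR hvw
    · by_cases hwR : w ∈ R
      · have := hRW w hwR v hv hvR hvw.symm
        tauto
      · rw [hYW v hvR, hYW w hwR]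
        have hv' : v ∈ U \ R := Finset.mem_sdiff.mpr ⟨hv, hvR⟩
        have hw' : w ∈ U \ R := Finset.mem_sdiff.mpr ⟨hw, hwR⟩
        obtain ⟨x, hx⟩ := hS.2.2 _ (maxCliqueIn_pair hv' hw' (hvw.mono hWU.1))
        rw [Finset.mem_inter, Finset.mem_insert, Finset.mem_singleton] at hx
        have h3 : ¬ (v ∈ S ∧ w ∈ S) := fun h' =>
          hS.2.1 (by exact_mod_cast h'.1) (by exact_mod_cast h'.2) hvw.1.ne hvw.1
        have h4 : v ∈ S ∨ w ∈ S := by
          rcases hx.2 with h4 | h4
          · left; rw [← h4]; exact hx.1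
          · right; rw [← h4]; exact hx.1
        tauto
  · intro Q hQ
    have hQm := (mem_big.mp hQ).1
    have h3 : Q \ R = Q ∩ (U \ R) := by
      ext x
      rw [Finset.mem_sdiff, Finset.mem_inter, Finset.mem_sdiff]
      constructor
      · intro hx; exact ⟨hx.1, maxCliqueIn_subset hQm hx.1, hx.2⟩
      · intro hx; exact ⟨hx.1, hx.2.2⟩
    have h4 : Y ∩ (Q \ R) = S ∩ (Q \ R) := by
      ext x
      rw [Finset.mem_inter, Finset.mem_inter]
      constructor
      · rintro ⟨h5, h6⟩
        exact ⟨(hYW x (Finset.mem_sdiff.mp h6).2).mp h5, h6⟩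
      · rintro ⟨h5, h6⟩
        exact ⟨(hYW x (Finset.mem_sdiff.mp h6).2).mpr h5, h6⟩
    have h5 : MaxCliqueIn G (U \ R) (Q \ R) := by
      rw [h3]
      apply maxCliqueIn_inter hG hWU.1 hQm
      rw [← h3]
      exact h2 Q hQ
    rw [h4]
    apply le_antisymm
    · apply Finset.card_le_one.mpr
      intro x hx y hy
      rw [Finset.mem_inter] at hx hy
      by_contra hne
      exact hS.2.1 (by exact_mod_cast hx.1) (by exact_mod_cast hy.1) hne
        (maxCliqueIn_clique h5 (by exact_mod_cast hx.2) (by exact_mod_cast hy.2) hne)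
    · exact Finset.card_pos.mpr (hS.2.2 _ h5)

lemma card_inter_pair_ne_one {x y : V} (hxy : x ≠ y) {Y : Finset V} (h : x ∈ Y ↔ y ∈ Y) :
    (Y ∩ {x, y}).card ≠ 1 := by
  by_cases hx : x ∈ Y
  · have hy := h.mp hx
    have h1 : Y ∩ {x, y} = {x, y} := by
      rw [Finset.inter_eq_right]
      intro z hz
      rw [Finset.mem_insert, Finset.mem_singleton] at hz
      rcases hz with rfl | rfl
      · exact hx
      · exact hy
    rw [h1, Finset.card_pair hxy]
    omega
  · have hy : y ∉ Y := fun h' => hx (h.mpr h')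
    have h1 : Y ∩ {x, y} = ∅ := by
      ext z
      rw [Finset.mem_inter, Finset.mem_insert, Finset.mem_singleton]
      constructor
      · rintro ⟨hz, rfl | rfl⟩
        · exact absurd hz hx
        · exact absurd hz hy
      · intro hz
        simp at hz
    rw [h1, Finset.card_empty]
    omega

lemma one_side {G : SimpleGraph V} (hG : DiamondFree G) (hK : NoClawAtTriangle G)
    {U : Finset V} (h : MinObs G U) {F : Multiset (Finset V)} (hF : CheapCoverM G U F)
    {X : Finset V} (hX : Exact G U X) {x y : V} (hx : x ∈ leaves G U) (hy : y ∈ leaves G U)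
    (hxX : x ∈ X) (hyX : y ∈ X) (hr : (PureGraph G U).Reachable x y) : x = y := by
  by_contra hxy
  have key : ∀ Y, Exact G U Y → (x ∈ Y ↔ y ∈ Y) := by
    intro Y hY
    constructor
    · intro hxY
      exact (Exact.agree hX hY hr (by simp [hxX, hxY])).mp hyX
    · intro hyY
      by_contra hxY
      have h1 : x ∈ U \ Y := Finset.mem_sdiff.mpr ⟨leaves_subset hx, hxY⟩
      have h2 := (Exact.agree hX hY.compl hr (by simp only [hxX, h1])).mp hyX
      exact (Finset.mem_sdiff.mp h2).2 hyY
  obtain ⟨Q, hQ, hxQ⟩ := mem_leaves.mp hx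
  obtain ⟨Q', hQ', hyQ'⟩ := mem_leaves.mp hy
  have hQ3 := (mem_big.mp hQ).2
  have hQc := maxCliqueIn_clique (mem_big.mp hQ).1
  by_cases hQQ : Q = Q'
  · subst hQQ
    have hpair : ({x, y} : Finset V) ⊆ Q := by
      intro z hz
      rw [Finset.mem_insert, Finset.mem_singleton] at hz
      rcases hz with rfl | rfl
      · exact hxQ
      · exact hyQ'
    have hQR : Q \ (Q \ {x, y}) = {x, y} := by
      rw [Finset.sdiff_sdiff_eq_self hpair]
    have hRQ : Q \ {x, y} ⊆ Q := Finset.sdiff_subset
    have hRc : (Q \ {x, y}).card = Q.card - 2 := by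
      rw [Finset.card_sdiff_of_subset hpair, Finset.card_pair hxy]
    obtain ⟨Y, hY, hYc⟩ := select hG hK h (R := Q \ {x, y}) (fun v hv => mem_leaves.mpr ⟨Q, hQ, hRQ hv⟩)
      (by rw [← Finset.card_pos]; omega)
      (by
        intro v hv w hw hvw
        rw [Finset.mem_sdiff, Finset.mem_insert, Finset.mem_singleton] at hv hw
        push Not at hv hw
        exact hvw.2 x (leaves_subset hx)
          ⟨hQc (by exact_mod_cast hv.1) (by exact_mod_cast hxQ) hv.2.1,
            hQc (by exact_mod_cast hw.1) (by exact_mod_cast hxQ) hw.2.1⟩)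
      (by
        intro Q'' hQ''
        by_cases h1 : Q'' = Q
        · rw [h1, hQR, Finset.card_pair hxy]
        · have h2 : Q'' \ (Q \ {x, y}) = Q'' := by
            rw [Finset.sdiff_eq_self_iff_disjoint, Finset.disjoint_left]
            intro z hz hz'
            exact h1 (h.big_disjoint hG hK hQ hQ'' (hRQ hz') hz)
          rw [h2]
          have := (mem_big.mp hQ'').2
          omega)
    have h3 := hYc Q hQ
    rw [hQR] at h3
    exact card_inter_pair_ne_one hxy (key Y hY) h3
  · have hpl : ({x, y} : Finset V) ⊆ leaves G U := by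
      intro z hz
      rw [Finset.mem_insert, Finset.mem_singleton] at hz
      rcases hz with rfl | rfl
      · exact hx
      · exact hy
    have hnp : ¬ PureEdge G U x y := by
      intro h1
      exact (hX.2 x y (leaves_subset hx) (leaves_subset hy) h1).mp hxX hyX
    obtain ⟨Y, hY, hYc⟩ := select hG hK h (R := {x, y}) hpl ⟨x, by simp⟩
      (by
        intro v hv w hw hvw
        rw [Finset.mem_insert, Finset.mem_singleton] at hv hw
        rcases hv with rfl | rfl
        · rcases hw with rfl | rfl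
          · exact hvw.1.ne rfl
          · exact hnp hvw
        · rcases hw with rfl | rfl
          · exact hnp hvw.symm
          · exact hvw.1.ne rfl)
      (by
        intro Q'' hQ''
        have h1 : (Q'' ∩ {x, y}).card ≤ 1 := by
          apply Finset.card_le_one.mpr
          intro a ha b hb
          rw [Finset.mem_inter, Finset.mem_insert, Finset.mem_singleton] at ha hb
          have h5 : ¬ (x ∈ Q'' ∧ y ∈ Q'') := by
            rintro ⟨h6, h7⟩
            have h8 := h.big_disjoint hG hK hQ hQ'' hxQ h6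
            have h9 := h.big_disjoint hG hK hQ' hQ'' hyQ' h7
            exact hQQ (h8.symm.trans h9)
          rcases ha.2 with rfl | rfl <;> rcases hb.2 with rfl | rfl <;> tauto
        have h2 := Finset.card_inter_add_card_sdiff Q'' {x, y}
        have h3 := (mem_big.mp hQ'').2
        omega)
    have h1 := card_exact hG hK h hF hY ⟨x, hx⟩
    rw [card_leaves_inter hG hK h] at h1
    have h2 : ∑ Q ∈ big G U, (Q ∩ Y).card =
        ∑ Q ∈ big G U, (1 + (Q ∩ (Y ∩ {x, y})).card) := by
      apply Finset.sum_congr rfl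
      intro Q'' hQ''
      have h3 := hYc Q'' hQ''
      have h4 : Q'' ∩ Y = (Y ∩ (Q'' \ {x, y})) ∪ (Q'' ∩ (Y ∩ {x, y})) := by
        ext z
        simp only [Finset.mem_inter, Finset.mem_union, Finset.mem_sdiff]
        tauto
      rw [h4, Finset.card_union_of_disjoint, h3]
      rw [Finset.disjoint_left]
      intro z hz hz'
      rw [Finset.mem_inter, Finset.mem_sdiff] at hz
      rw [Finset.mem_inter, Finset.mem_inter] at hz'
      exact hz.2.2 hz'.2.2
    rw [h2, Finset.sum_add_distrib, ← card_leaves_inter hG hK h, Finset.sum_const, smul_eq_mul,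
      mul_one] at h1
    have h3 : leaves G U ∩ (Y ∩ {x, y}) = Y ∩ {x, y} := by
      rw [Finset.inter_eq_right]
      exact (Finset.inter_subset_right).trans hpl
    rw [h3] at h1
    exact card_inter_pair_ne_one hxy (key Y hY) (by omega)

end Pool.Agent.H28.SP
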