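import Pool.Agent.H28.SPKPath

/-!
In a diamond-free graph in which no vertex of a triangle is the centre of a claw, every vertex of
a minimal obstruction is in exactly two maximal cliques, and their number is odd.
-/

namespace Pool.Agent.H28.SP

open Finset

variable {V : Type*} [Fintype V] [DecidableEq V]

theorem MinObs.deg_le_two {G : SimpleGraph V} (hG : DiamondFree G) (hK : NoClawAtTriangle G)
    {U : Finset V} (h : MinObs G U) (v a b c : V)
    (ha : (PureGraph G U).Adj v a) (hb : (PureGraph G U).Adj v b) (hc : (PureGraph G U).Adj v c) :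
    a = b ∨ a = c ∨ b = c := by
  rcases (leaves G U).eq_empty_or_nonempty with h0 | hne
  · exact h.deg_le_two_of_no_leaves hG h0 v a b c ha hb hc
  · obtain ⟨F, hF⟩ := h.exists_cheap hG hK hne
    exact h.deg_le_two_of_leaves hG hK
      (fun X hX x hx y hy hxX hyX hr => one_side hG hK h hF hX hx hy hxX hyX hr) hne v a b c
      ha hb hc

theorem MinObs.two_cliques {G : SimpleGraph V} (hG : DiamondFree G) (hK : NoClawAtTriangle G)
    {U : Finset V} (h : MinObs G U) :
    ∀ v ∈ U, ((maxCliques G U).filter (fun C => v ∈ C)).card = 2 := by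
  intro v hv
  apply le_antisymm
  · by_contra hcon
    push Not at hcon
    obtain ⟨C, D, E, hC, hD, hE, hCD, hCE, hDE⟩ := Finset.two_lt_card_iff.mp hcon
    rw [Finset.mem_filter, mem_maxCliques] at hC hD hE
    by_cases hvl : v ∈ leaves G U
    · obtain ⟨Q, hQ, hvQ⟩ := mem_leaves.mp hvl
      by_cases h1 : C = Q
      · subst h1
        exact hDE (leaf_unique hG hK hQ hD.1 hE.1 hvQ hD.2 hE.2 hCD.symm hCE.symm)
      · by_cases h2 : D = Q
        · subst h2
          exact hCE (leaf_unique hG hK hQ hC.1 hE.1 hvQ hC.2 hE.2 h1 hDE.symm)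
        · exact hCD (leaf_unique hG hK hQ hC.1 hD.1 hvQ hC.2 hD.2 h1 h2)
    · have key : ∀ C, MaxCliqueIn G U C → v ∈ C →
          ∃ a, (PureGraph G U).Adj v a ∧ C = {v, a} := by
        intro C hC hvC
        have hs : C ∈ small G U := by
          rw [mem_small]
          exact ⟨hC, fun h3 => hvl (mem_leaves.mpr ⟨C, mem_big.mpr ⟨hC, h3⟩, hvC⟩)⟩
        obtain ⟨x, hx, y, hy, hxy, rfl⟩ := h.small_eq hG hs
        rw [Finset.mem_insert, Finset.mem_singleton] at hvC
        rcases hvC with rfl | rfl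
        · exact ⟨y, ⟨hx, hy, hxy⟩, rfl⟩
        · exact ⟨x, ⟨hy, hx, hxy.symm⟩, Finset.pair_comm _ _⟩
      obtain ⟨a, ha, rfl⟩ := key C hC.1 hC.2
      obtain ⟨b, hb, rfl⟩ := key D hD.1 hD.2
      obtain ⟨c, hc, rfl⟩ := key E hE.1 hE.2
      rcases h.deg_le_two hG hK v a b c ha hb hc with rfl | rfl | rfl
      · exact hCD rfl
      · exact hCE rfl
      · exact hDE rfl
  · obtain ⟨x, hx, y, hy, hxy, hvx, hvy, hnadj⟩ := h.not_simplicial v hv
    have hpair : ∀ z ∈ U, G.Adj v z → ∃ C, v ∈ C ∧ z ∈ C ∧ MaxCliqueIn G U C := by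
      intro z hz hvz
      obtain ⟨C, hKC, hC⟩ := exists_maxCliqueIn (G := G) (U := U) (K := {v, z}) (by
        intro t ht
        rw [Finset.mem_insert, Finset.mem_singleton] at ht
        rcases ht with rfl | rfl
        · exact hv
        · exact hz) (by
        rw [Finset.coe_pair, SimpleGraph.isClique_pair]
        exact fun _ => hvz)
      exact ⟨C, hKC (by simp), hKC (by simp), hC⟩
    obtain ⟨C, hvC, hxC, hC⟩ := hpair x hx hvx
    obtain ⟨D, hvD, hyD, hD⟩ := hpair y hy hvy
    have hCD : C ≠ D := by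
      intro h'
      subst h'
      exact hnadj (maxCliqueIn_clique hC (by exact_mod_cast hxC) (by exact_mod_cast hyD) hxy)
    calc 2 = ({C, D} : Finset (Finset V)).card := (Finset.card_pair hCD).symm
      _ ≤ _ := by
        apply Finset.card_le_card
        intro E hE
        rw [Finset.mem_insert, Finset.mem_singleton] at hE
        rw [Finset.mem_filter, mem_maxCliques]
        rcases hE with rfl | rfl
        · exact ⟨hC, hvC⟩
        · exact ⟨hD, hvD⟩

theorem MinObs.odd_cliques {G : SimpleGraph V} {U : Finset V} (h : MinObs G U)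
    (h2 : ∀ v ∈ U, ((maxCliques G U).filter (fun C => v ∈ C)).card = 2) :
    Odd (maxCliques G U).card := by
  obtain ⟨v, hv⟩ := h.1
  obtain ⟨S, hS⟩ := h.exists_erase hv
  obtain ⟨C0, hC0, hmiss⟩ := h.exists_missed hv hS
  have hvm : ∀ C, MaxCliqueIn G U C → ¬ (S ∩ C).Nonempty → v ∈ C := by
    intro C hC hm
    by_contra h'
    exact hm (hS.2.2 C (maxCliqueIn_erase hC h'))
  have hhit : ∀ C, MaxCliqueIn G U C → C ≠ C0 → (S ∩ C).Nonempty := by
    intro C hC hne
    by_contra hm
    apply h.2.1
    refine ⟨insert v S, strong_insert hv hS ?_⟩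
    intro x hx hvx
    obtain ⟨D, hKD, hD⟩ := exists_maxCliqueIn (G := G) (U := U) (K := {v, x}) (by
      intro t ht
      rw [Finset.mem_insert, Finset.mem_singleton] at ht
      rcases ht with rfl | rfl
      · exact hv
      · exact Finset.mem_of_mem_erase (hS.1 hx)) (by
      rw [Finset.coe_pair, SimpleGraph.isClique_pair]
      exact fun _ => hvx)
    have hvD : v ∈ D := hKD (by simp)
    have hxD : x ∈ D := hKD (by simp)
    have hDhit : (S ∩ D).Nonempty := ⟨x, Finset.mem_inter.mpr ⟨hx, hxD⟩⟩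
    have hD0 : D ≠ C0 := fun h' => hmiss (h' ▸ hDhit)
    have hDC : D ≠ C := fun h' => hm (h' ▸ hDhit)
    have h3 : 2 < ((maxCliques G U).filter (fun C => v ∈ C)).card := by
      rw [Finset.two_lt_card_iff]
      refine ⟨C, C0, D, ?_, ?_, ?_, hne, hDC.symm, hD0.symm⟩
      · rw [Finset.mem_filter, mem_maxCliques]; exact ⟨hC, hvm C hC hm⟩
      · rw [Finset.mem_filter, mem_maxCliques]; exact ⟨hC0, hvm C0 hC0 hmiss⟩
      · rw [Finset.mem_filter, mem_maxCliques]; exact ⟨hD, hvD⟩
    rw [h2 v hv] at h3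
    omega
  have h3 := double_count G U S
  have h4 : ∑ x ∈ S, ((maxCliques G U).filter (fun C => x ∈ C)).card = S.card * 2 := by
    apply Finset.sum_const_nat
    intro x hx
    exact h2 x (Finset.mem_of_mem_erase (hS.1 hx))
  have h5 : ∑ C ∈ maxCliques G U, ∑ x ∈ S, (if x ∈ C then 1 else 0) =
      (maxCliques G U).card - 1 := by
    have hC0m := mem_maxCliques.mpr hC0
    rw [← Finset.add_sum_erase _ _ hC0m]
    have e1 : ∑ x ∈ S, (if x ∈ C0 then 1 else 0) = 0 := by
      apply Finset.sum_eq_zero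
      intro x hx
      rw [if_neg]
      intro hxC
      exact hmiss ⟨x, Finset.mem_inter.mpr ⟨hx, hxC⟩⟩
    rw [e1, zero_add, ← Finset.card_erase_of_mem hC0m, Finset.card_eq_sum_ones]
    apply Finset.sum_congr rfl
    intro C hC
    have hC' := mem_maxCliques.mp (Finset.mem_of_mem_erase hC)
    apply le_antisymm
    · exact sum_ite_le_one' (maxCliqueIn_clique hC') hS.2.1
    · obtain ⟨x, hx⟩ := hhit C hC' (Finset.ne_of_mem_erase hC)
      rw [Finset.mem_inter] at hx
      calc 1 = (if x ∈ C then 1 else 0) := by rw [if_pos hx.2]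
        _ ≤ _ := Finset.single_le_sum (f := fun x => if x ∈ C then 1 else 0)
            (fun _ _ => Nat.zero_le _) hx.1
  have h6 : 0 < (maxCliques G U).card := Finset.card_pos.mpr ⟨C0, mem_maxCliques.mpr hC0⟩
  rw [h4, h5] at h3
  exact ⟨S.card, by omega⟩

/-- if every vertex of `U` is in an even number of maximal cliques of `G[U]` and their number is
odd, then `G[U]` has no strong stable set -/
theorem no_strong_of_parity {G : SimpleGraph V} {U : Finset V}
    (h2 : ∀ v ∈ U, Even ((maxCliques G U).filter (fun C => v ∈ C)).card)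
    (ho : Odd (maxCliques G U).card) : ¬ ∃ S, StrongStableIn G U S := by
  rintro ⟨S, hSU, hSi, hS⟩
  have h3 := double_count G U S
  have h4 : Even (∑ x ∈ S, ((maxCliques G U).filter (fun C => x ∈ C)).card) :=
    Finset.even_sum _ (fun x hx => h2 x (hSU hx))
  have h5 : ∑ C ∈ maxCliques G U, ∑ x ∈ S, (if x ∈ C then 1 else 0) =
      (maxCliques G U).card := by
    rw [Finset.card_eq_sum_ones]
    apply Finset.sum_congr rfl
    intro C hC
    have hC' := mem_maxCliques.mp hC
    apply le_antisymm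
    · exact sum_ite_le_one' (maxCliqueIn_clique hC') hSi
    · obtain ⟨x, hx⟩ := hS C hC'
      rw [Finset.mem_inter] at hx
      calc 1 = (if x ∈ C then 1 else 0) := by rw [if_pos hx.2]
        _ ≤ _ := Finset.single_le_sum (f := fun x => if x ∈ C then 1 else 0)
            (fun _ _ => Nat.zero_le _) hx.1
  rw [h3, h5] at h4
  exact (Nat.not_even_iff_odd.mpr ho) h4

end Pool.Agent.H28.SP
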