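import Pool.Agent.H28.SPKBal

/-!
Minimal obstructions without big cliques: every vertex has at most two neighbours.
-/

namespace Pool.Agent.H28.SP

open Finset

variable {V : Type*} [Fintype V] [DecidableEq V]

lemma big_eq_empty {G : SimpleGraph V} {U : Finset V} (h0 : leaves G U = ∅) : big G U = ∅ := by
  rw [Finset.eq_empty_iff_forall_notMem]
  intro Q hQ
  obtain ⟨l, hl⟩ : Q.Nonempty := by
    rw [← Finset.card_pos]
    have := (mem_big.mp hQ).2
    omega
  have : l ∈ leaves G U := mem_leaves.mpr ⟨Q, hQ, hl⟩
  rw [h0] at this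
  simp at this

lemma mem_small_of_no_leaves {G : SimpleGraph V} {U C : Finset V} (h0 : leaves G U = ∅)
    (hC : MaxCliqueIn G U C) : C ∈ small G U := by
  rw [mem_small]
  refine ⟨hC, fun h3 => ?_⟩
  have : C ∈ big G U := mem_big.mpr ⟨hC, h3⟩
  rw [big_eq_empty h0] at this
  simp at this

lemma adj_pure_of_no_leaves {G : SimpleGraph V} (hG : DiamondFree G) {U : Finset V}
    (h : MinObs G U) (h0 : leaves G U = ∅) {x y : V} (hx : x ∈ U) (hy : y ∈ U)
    (hxy : G.Adj x y) : PureEdge G U x y := by
  obtain ⟨C, hKC, hC⟩ := exists_maxCliqueIn (G := G) (U := U) (K := {x, y}) (by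
    intro z hz
    rw [Finset.mem_insert, Finset.mem_singleton] at hz
    rcases hz with rfl | rfl
    · exact hx
    · exact hy) (by
    rw [Finset.coe_pair, SimpleGraph.isClique_pair]
    exact fun _ => hxy)
  obtain ⟨v, hv, w, hw, hvw, rfl⟩ := h.small_eq hG (mem_small_of_no_leaves h0 hC)
  have hxC : x ∈ ({v, w} : Finset V) := hKC (by simp)
  have hyC : y ∈ ({v, w} : Finset V) := hKC (by simp)
  rw [Finset.mem_insert, Finset.mem_singleton] at hxC hyC
  rcases hxC with rfl | rfl <;> rcases hyC with rfl | rfl
  · exact absurd rfl hxy.ne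
  · exact hvw
  · exact hvw.symm
  · exact absurd rfl hxy.ne

lemma MinObs.not_colorable {G : SimpleGraph V} (hG : DiamondFree G) {U : Finset V}
    (h : MinObs G U) (h0 : leaves G U = ∅) : ¬ (PureGraph G U).Colorable 2 := by
  classical
  rintro ⟨φ⟩
  have key : ∀ a b : Fin 2, a ≠ b → (a = 0 ↔ ¬ b = 0) := by decide
  apply h.2.1
  refine ⟨U.filter (fun v => φ v = 0), Finset.filter_subset _ _, ?_, ?_⟩
  · intro x hx y hy hne hxy
    rw [Finset.mem_coe, Finset.mem_filter] at hx hy
    have hadj : (PureGraph G U).Adj x y :=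
      ⟨hx.1, hy.1, adj_pure_of_no_leaves hG h h0 hx.1 hy.1 hxy⟩
    have := key _ _ (φ.valid hadj)
    exact this.mp hx.2 hy.2
  · intro C hC
    obtain ⟨v, hv, w, hw, hvw, rfl⟩ := h.small_eq hG (mem_small_of_no_leaves h0 hC)
    have hadj : (PureGraph G U).Adj v w := ⟨hv, hw, hvw⟩
    have := key _ _ (φ.valid hadj)
    by_cases h1 : φ v = 0
    · exact ⟨v, by rw [Finset.mem_inter, Finset.mem_filter]; exact ⟨⟨hv, h1⟩, by simp⟩⟩
    · have h2 : φ w = 0 := by
        by_contra h2
        exact h1 (this.mpr h2)
      exact ⟨w, by rw [Finset.mem_inter, Finset.mem_filter]; exact ⟨⟨hw, h2⟩, by simp⟩⟩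

theorem MinObs.deg_le_two_of_no_leaves {G : SimpleGraph V} (hG : DiamondFree G) {U : Finset V}
    (h : MinObs G U) (h0 : leaves G U = ∅) (v a b c : V)
    (ha : (PureGraph G U).Adj v a) (hb : (PureGraph G U).Adj v b) (hc : (PureGraph G U).Adj v c) :
    a = b ∨ a = c ∨ b = c := by
  classical
  have hnc := h.not_colorable hG h0
  rw [SimpleGraph.two_colorable_iff_forall_loop_even] at hnc
  push Not at hnc
  obtain ⟨r0, p0, hp0⟩ := hnc
  have hex : ∃ n, Odd n ∧ ∃ (r : V) (p : (PureGraph G U).Walk r r), p.length = n :=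
    ⟨p0.length, Nat.not_even_iff_odd.mp hp0, r0, p0, rfl⟩
  obtain ⟨hodd, r, p, hp⟩ := Nat.find_spec hex
  set n := Nat.find hex with hn
  have hmin : ∀ (s : V) (q : (PureGraph G U).Walk s s), Odd q.length → n ≤ q.length := by
    intro s q hq
    exact Nat.find_min' hex ⟨hq, s, q, rfl⟩
  -- the support of `p` is `U`
  have hsupU : ∀ (x y : V) (q : (PureGraph G U).Walk x y), x ∈ U → ∀ z ∈ q.support, z ∈ U := by
    intro x y q
    induction q with
    | nil => intro hx z hz; simpa using (by simpa using hz : z = _) ▸ hx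
    | cons h' q ih =>
      intro hx z hz
      rw [SimpleGraph.Walk.support_cons, List.mem_cons] at hz
      rcases hz with rfl | hz
      · exact hx
      · exact ih h'.2.1 z hz
  have hrU : r ∈ U := by
    cases p with
    | nil => rw [← hp] at hodd; simp at hodd
    | cons h' _ => exact h'.1
  have hW : p.support.toFinset = U := by
    by_contra hne
    have hsub : p.support.toFinset ⊆ U := by
      intro z hz
      rw [List.mem_toFinset] at hz
      exact hsupU _ _ p hrU z hz
    have hss := Finset.ssubset_iff_subset_ne.mpr ⟨hsub, hne⟩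
    obtain ⟨S, hS⟩ := h.2.2 _ hss ⟨r, by simp⟩
    have hcol := (exact_of_strong hS).colorable
    rw [SimpleGraph.two_colorable_iff_forall_loop_even] at hcol
    have hq := hcol r (p.transfer (PureGraph G p.support.toFinset) (by
      intro e
      induction e using Sym2.ind with
      | _ x y =>
        intro he
        rw [SimpleGraph.mem_edgeSet]
        have h1 := p.adj_of_mem_edges he
        refine ⟨?_, ?_, h1.2.2.mono hsub⟩
        · rw [List.mem_toFinset]; exact p.fst_mem_support_of_mem_edges he
        · rw [List.mem_toFinset]; exact p.snd_mem_support_of_mem_edges he))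
    rw [SimpleGraph.Walk.length_transfer, hp] at hq
    exact (Nat.not_even_iff_odd.mpr hodd) hq
  have hmem : ∀ z ∈ U, z ∈ p.support := by
    intro z hz
    rw [← hW, List.mem_toFinset] at hz
    exact hz
  -- rotate `p` to start at `v`
  have hv := hmem v ha.1
  set q := (p.dropUntil v hv).append (p.takeUntil v hv) with hq
  have hqn : q.length = n := by
    have h1 : (p.takeUntil v hv).length + (p.dropUntil v hv).length = p.length := by
      rw [← SimpleGraph.Walk.length_append, SimpleGraph.Walk.take_spec]
    rw [hq, SimpleGraph.Walk.length_append]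
    omega
  have hqs : ∀ z ∈ U, z ∈ q.support := by
    intro z hz
    have h1 := hmem z hz
    rw [← p.take_spec hv, SimpleGraph.Walk.mem_support_append_iff] at h1
    rw [hq, SimpleGraph.Walk.mem_support_append_iff]
    exact h1.symm
  have key : ∀ z, (PureGraph G U).Adj v z → z = q.getVert 1 ∨ z = q.getVert (n - 1) := by
    intro z hz
    have hzq := hqs z hz.2.1
    have h1 : (q.takeUntil z hzq).length + (q.dropUntil z hzq).length = q.length := by
      rw [← SimpleGraph.Walk.length_append, SimpleGraph.Walk.take_spec]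
    have h2 := hmin _ (SimpleGraph.Walk.cons hz.symm (q.takeUntil z hzq))
    have h3 := hmin _ (SimpleGraph.Walk.cons hz (q.dropUntil z hzq))
    have h4 := SimpleGraph.Walk.getVert_length_takeUntil hzq
    rw [SimpleGraph.Walk.length_cons] at h2 h3
    set i := (q.takeUntil z hzq).length with hi
    have hi0 : i ≠ 0 := by
      intro h'
      rw [h', SimpleGraph.Walk.getVert_zero] at h4
      exact hz.ne h4
    rcases Nat.even_or_odd i with hev | hod
    · right
      have := h2 hev.add_one
      have h5 : i ≤ n := by omega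
      have h6 : i ≠ n := by
        intro h'
        rw [h'] at hev
        exact (Nat.not_even_iff_odd.mpr hodd) hev
      have h7 : i = n - 1 := by omega
      rw [← h7]; exact h4.symm
    · left
      have h5 : Odd ((q.dropUntil z hzq).length + 1) := by
        rw [Nat.odd_iff] at hod hodd ⊢
        omega
      have := h3 h5
      have h7 : i = 1 := by omega
      rw [← h7]; exact h4.symm
  rcases key a ha with h1 | h1 <;> rcases key b hb with h2 | h2 <;>
    rcases key c hc with h3 | h3 <;> simp [h1, h2, h3]

end Pool.Agent.H28.SP
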