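import Pool.Agent.H28.SPKHole
import Pool.Agent.H28.SPKClaw

/-!
Minimal obstructions with a big clique: every vertex has at most two pure neighbours.
-/

namespace Pool.Agent.H28.SP

open Finset

variable {V : Type*} [Fintype V] [DecidableEq V]

lemma walk_support_mem {G : SimpleGraph V} {U : Finset V} :
    ∀ (x y : V) (q : (PureGraph G U).Walk x y), x ∈ U → ∀ z ∈ q.support, z ∈ U := by
  intro x y q
  induction q with
  | nil => intro hx z hz; simpa using (by simpa using hz : z = _) ▸ hx
  | cons h' q ih =>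
    intro hx z hz
    rw [SimpleGraph.Walk.support_cons, List.mem_cons] at hz
    rcases hz with rfl | hz
    · exact hx
    · exact ih h'.2.1 z hz

/-- along a walk of pure edges of `G[U]` inside `W` two exact sets of `G[U]` and `G[W]` agree or
disagree consistently -/
lemma walk_agree {G : SimpleGraph V} {U W X S : Finset V} (hX : Exact G U X) (hS : Exact G W S)
    (hWU : W ⊆ U) : ∀ (x y : V) (q : (PureGraph G U).Walk x y), (∀ z ∈ q.support, z ∈ W) →
      ((x ∈ S ↔ x ∈ X) ↔ (y ∈ S ↔ y ∈ X)) := by
  intro x y q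
  induction q with
  | nil => intro _; rfl
  | @cons x z y h' q ih =>
    intro hz
    have h1 := ih (fun t ht => hz t (by
      rw [SimpleGraph.Walk.support_cons]; exact List.mem_cons_of_mem _ ht))
    have hxW : x ∈ W := hz x (by simp)
    have hzW : z ∈ W := hz z (by
      rw [SimpleGraph.Walk.support_cons]; exact List.mem_cons_of_mem _ q.start_mem_support)
    have h2 := hX.2 x z h'.1 h'.2.1 h'.2.2
    have h3 := hS.2 x z hxW hzW (h'.2.2.mono hWU)
    tauto

/-- a vertex of a shortest walk is determined by its distance to the start -/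
lemma getVert_dist {H : SimpleGraph V} {x y : V} (p : H.Walk x y) (hp : p.length = H.dist x y)
    {z : V} (hz : z ∈ p.support) : z = p.getVert (H.dist x z) := by
  have h1 : (p.takeUntil z hz).length + (p.dropUntil z hz).length = p.length := by
    rw [← SimpleGraph.Walk.length_append, SimpleGraph.Walk.take_spec]
  have h2 := SimpleGraph.dist_le (p.takeUntil z hz)
  have hrz : H.Reachable x z := (p.takeUntil z hz).reachable
  obtain ⟨q, hq⟩ := hrz.exists_walk_length_eq_dist
  have h3 := SimpleGraph.dist_le (q.append (p.dropUntil z hz))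
  rw [SimpleGraph.Walk.length_append, hq] at h3
  have h4 : (p.takeUntil z hz).length = H.dist x z := by omega
  have h5 := SimpleGraph.Walk.getVert_length_takeUntil hz
  rw [h4] at h5
  exact h5.symm

theorem MinObs.deg_le_two_of_leaves {G : SimpleGraph V} (hG : DiamondFree G)
    (hK : NoClawAtTriangle G) {U : Finset V} (h : MinObs G U)
    (hos : ∀ X : Finset V, Exact G U X → ∀ x ∈ leaves G U, ∀ y ∈ leaves G U, x ∈ X → y ∈ X →
      (PureGraph G U).Reachable x y → x = y)
    (hne : (leaves G U).Nonempty) (v a b c : V)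
    (ha : (PureGraph G U).Adj v a) (hb : (PureGraph G U).Adj v b) (hc : (PureGraph G U).Adj v c) :
    a = b ∨ a = c ∨ b = c := by
  classical
  obtain ⟨F, hF⟩ := h.exists_cheap hG hK hne
  obtain ⟨l0, hl0⟩ := hne
  obtain ⟨X, hX, _, _⟩ := exists_exact hG hK h hl0
  have hpart : ∀ x ∈ leaves G U, x ∈ X →
      ∃ y ∈ leaves G U, y ∉ X ∧ (PureGraph G U).Reachable x y := by
    intro x hx hxX
    have h1 := balance hG hK h hF hX x
    have h2 : 0 < ((leaves G U).filter
        (fun v => v ∈ X ∧ (PureGraph G U).Reachable x v)).card := by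
      apply Finset.card_pos.mpr
      exact ⟨x, Finset.mem_filter.mpr ⟨hx, hxX, SimpleGraph.Reachable.refl _⟩⟩
    rw [h1] at h2
    obtain ⟨y, hy⟩ := Finset.card_pos.mp h2
    rw [Finset.mem_filter] at hy
    exact ⟨y, hy.1, hy.2.1, hy.2.2⟩
  have hpart' : ∀ y ∈ leaves G U, y ∉ X →
      ∃ x ∈ leaves G U, x ∈ X ∧ (PureGraph G U).Reachable x y := by
    intro y hy hyX
    have h1 := balance hG hK h hF hX y
    have h2 : 0 < ((leaves G U).filter
        (fun v => v ∉ X ∧ (PureGraph G U).Reachable y v)).card := by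
      apply Finset.card_pos.mpr
      exact ⟨y, Finset.mem_filter.mpr ⟨hy, hyX, SimpleGraph.Reachable.refl _⟩⟩
    rw [← h1] at h2
    obtain ⟨x, hx⟩ := Finset.card_pos.mp h2
    rw [Finset.mem_filter] at hx
    exact ⟨x, hx.1, hx.2.1, hx.2.2.symm⟩
  have hex : ∀ x : {x : V // x ∈ leaves G U ∧ x ∈ X}, ∃ y : V, ∃ p : (PureGraph G U).Walk x.1 y,
      y ∈ leaves G U ∧ y ∉ X ∧ p.length = (PureGraph G U).dist x.1 y := by
    rintro ⟨x, hx, hxX⟩
    obtain ⟨y, hy, hyX, hr⟩ := hpart x hx hxX
    obtain ⟨p, hp⟩ := hr.exists_walk_length_eq_dist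
    exact ⟨y, p, hy, hyX, hp⟩
  choose π P hP using hex
  set U' : Finset V := (univ : Finset {x : V // x ∈ leaves G U ∧ x ∈ X}).biUnion
    (fun x => (P x).support.toFinset) with hU'
  have hmemU' : ∀ z, z ∈ U' ↔ ∃ x : {x : V // x ∈ leaves G U ∧ x ∈ X}, z ∈ (P x).support := by
    intro z
    rw [hU', Finset.mem_biUnion]
    simp
  have hU'U : U' ⊆ U := by
    intro z hz
    obtain ⟨x, hx⟩ := (hmemU' z).mp hz
    exact walk_support_mem _ _ (P x) (leaves_subset x.2.1) z hx
  have hπ : ∀ (x : {x : V // x ∈ leaves G U ∧ x ∈ X}) (y : V), y ∈ leaves G U → y ∉ X →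
      (PureGraph G U).Reachable x.1 y → π x = y := by
    intro x y hy hyX hr
    have h1 := hP x
    apply hos _ hX.compl _ h1.1 _ hy
    · exact Finset.mem_sdiff.mpr ⟨leaves_subset h1.1, h1.2.1⟩
    · exact Finset.mem_sdiff.mpr ⟨leaves_subset hy, hyX⟩
    · exact (P x).reachable.symm.trans hr
  have hLU' : leaves G U ⊆ U' := by
    intro y hy
    rw [hmemU']
    by_cases hyX : y ∈ X
    · exact ⟨⟨y, hy, hyX⟩, (P ⟨y, hy, hyX⟩).start_mem_support⟩
    · obtain ⟨x, hx, hxX, hr⟩ := hpart' y hy hyX
      refine ⟨⟨x, hx, hxX⟩, ?_⟩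
      have h1 := hπ ⟨x, hx, hxX⟩ y hy hyX hr
      have h2 : ∀ t, π ⟨x, hx, hxX⟩ = t → t ∈ (P ⟨x, hx, hxX⟩).support := by
        rintro _ rfl
        exact (P ⟨x, hx, hxX⟩).end_mem_support
      exact h2 y h1
  have hno : ¬ ∃ S, StrongStableIn G U' S := by
    rintro ⟨S, hS⟩
    have hSe := exact_of_strong hS
    set T : V → Prop := fun v => ∀ x ∈ leaves G U, x ∈ X → (PureGraph G U).Reachable x v → x ∈ S
      with hT
    have hY : Exact G U (U.filter (fun v => (v ∈ X ↔ T v))) := by
      refine ⟨Finset.filter_subset _ _, ?_⟩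
      intro v w hv hw hvw
      have h1 := hX.2 v w hv hw hvw
      have hadj : (PureGraph G U).Adj v w := ⟨hv, hw, hvw⟩
      have h2 : T v ↔ T w :=
        ⟨fun h' x hx hxX hr => h' x hx hxX (hr.trans hadj.symm.reachable),
          fun h' x hx hxX hr => h' x hx hxX (hr.trans hadj.reachable)⟩
      rw [Finset.mem_filter, Finset.mem_filter]
      tauto
    have hYS : leaves G U ∩ (U.filter (fun v => (v ∈ X ↔ T v))) = leaves G U ∩ S := by
      ext v
      rw [Finset.mem_inter, Finset.mem_inter, Finset.mem_filter]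
      constructor
      · rintro ⟨hv, _, hvY⟩
        refine ⟨hv, ?_⟩
        by_cases hvX : v ∈ X
        · exact (hvY.mp hvX) v hv hvX (SimpleGraph.Reachable.refl _)
        · obtain ⟨x, hx, hxX, hr⟩ := hpart' v hv hvX
          have h1 := hπ ⟨x, hx, hxX⟩ v hv hvX hr
          have h2 := walk_agree hX hSe hU'U _ _ (P ⟨x, hx, hxX⟩)
            (fun z hz => (hmemU' z).mpr ⟨_, hz⟩)
          rw [h1] at h2
          have h3 : ¬ T v := fun h' => hvX (hvY.mpr h')
          have h4 : x ∉ S := by
            intro hxS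
            apply h3
            intro x' hx' hx'X hr'
            have := hos X hX x' hx' x hx hx'X hxX (hr'.trans hr.symm)
            rw [this]; exact hxS
          simp only at h2
          tauto
      · rintro ⟨hv, hvS⟩
        refine ⟨hv, leaves_subset hv, ?_⟩
        by_cases hvX : v ∈ X
        · have : T v := by
            intro x' hx' hx'X hr'
            rw [hos X hX x' hx' v hv hx'X hvX hr']; exact hvS
          tauto
        · obtain ⟨x, hx, hxX, hr⟩ := hpart' v hv hvX
          have h1 := hπ ⟨x, hx, hxX⟩ v hv hvX hr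
          have h2 := walk_agree hX hSe hU'U _ _ (P ⟨x, hx, hxX⟩)
            (fun z hz => (hmemU' z).mpr ⟨_, hz⟩)
          rw [h1] at h2
          simp only at h2
          have h4 : x ∉ S := by tauto
          have h3 : ¬ T v := fun h' => h4 (h' x hx hxX hr)
          tauto
    have h1 := card_exact hG hK h hF hY ⟨l0, hl0⟩
    rw [hYS, card_leaves_inter hG hK h] at h1
    have h2 : ∑ Q ∈ big G U, (Q ∩ S).card ≤ ∑ Q ∈ big G U, 1 := by
      apply Finset.sum_le_sum
      intro Q hQ
      apply Finset.card_le_one.mpr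
      intro x hx y hy
      rw [Finset.mem_inter] at hx hy
      by_contra hne
      exact hS.2.1 (by exact_mod_cast hx.2) (by exact_mod_cast hy.2) hne
        (maxCliqueIn_clique (mem_big.mp hQ).1 (by exact_mod_cast hx.1) (by exact_mod_cast hy.1)
          hne)
    rw [← Finset.card_eq_sum_ones] at h2
    omega
  have hUU : U' = U := by
    by_contra hne
    exact hno (h.2.2 U' (Finset.ssubset_iff_subset_ne.mpr ⟨hU'U, hne⟩) ⟨l0, hLU' hl0⟩)
  have hv' : v ∈ U' := by rw [hUU]; exact ha.1
  obtain ⟨x, hvx⟩ := (hmemU' v).mp hv'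
  have hsame : ∀ z, (PureGraph G U).Adj v z → z ∈ (P x).support := by
    intro z hz
    have hzU : z ∈ U' := by rw [hUU]; exact hz.2.1
    obtain ⟨x', hzx⟩ := (hmemU' z).mp hzU
    have hr : (PureGraph G U).Reachable x.1 x'.1 := by
      have r1 := ((P x).takeUntil v hvx).reachable
      have r2 := ((P x').takeUntil z hzx).reachable
      exact (r1.trans hz.reachable).trans r2.symm
    have : x = x' := Subtype.ext (hos X hX _ x.2.1 _ x'.2.1 x.2.2 x'.2.2 hr)
    rw [this]; exact hzx
  have hlen := (hP x).2.2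
  have hvv := getVert_dist (P x) hlen hvx
  have key : ∀ z, (PureGraph G U).Adj v z →
      z = (P x).getVert ((PureGraph G U).dist x.1 v - 1) ∨
      z = (P x).getVert ((PureGraph G U).dist x.1 v + 1) := by
    intro z hz
    have hzz := getVert_dist (P x) hlen (hsame z hz)
    have h1 : (PureGraph G U).dist x.1 z ≤ (PureGraph G U).dist x.1 v + 1 := by
      obtain ⟨q, hq⟩ := ((P x).takeUntil v hvx).reachable.exists_walk_length_eq_dist
      have := SimpleGraph.dist_le (q.concat hz)
      rw [SimpleGraph.Walk.length_concat, hq] at this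
      exact this
    have h2 : (PureGraph G U).dist x.1 v ≤ (PureGraph G U).dist x.1 z + 1 := by
      obtain ⟨q, hq⟩ :=
        ((P x).takeUntil z (hsame z hz)).reachable.exists_walk_length_eq_dist
      have := SimpleGraph.dist_le (q.concat hz.symm)
      rw [SimpleGraph.Walk.length_concat, hq] at this
      exact this
    have h3 : (PureGraph G U).dist x.1 z ≠ (PureGraph G U).dist x.1 v := by
      intro h'
      rw [h', ← hvv] at hzz
      exact hz.ne hzz.symm
    rcases Nat.lt_or_gt_of_ne h3 with h4 | h4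
    · left
      have h5 : (PureGraph G U).dist x.1 v - 1 = (PureGraph G U).dist x.1 z := by omega
      rw [h5]; exact hzz
    · right
      have h5 : (PureGraph G U).dist x.1 v + 1 = (PureGraph G U).dist x.1 z := by omega
      rw [h5]; exact hzz
  rcases key a ha with h1 | h1 <;> rcases key b hb with h2 | h2 <;>
    rcases key c hc with h3 | h3
  · exact Or.inl (h1.trans h2.symm)
  · exact Or.inl (h1.trans h2.symm)
  · exact Or.inr (Or.inl (h1.trans h3.symm))
  · exact Or.inr (Or.inr (h2.trans h3.symm))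
  · exact Or.inr (Or.inr (h2.trans h3.symm))
  · exact Or.inr (Or.inl (h1.trans h3.symm))
  · exact Or.inl (h1.trans h2.symm)
  · exact Or.inl (h1.trans h2.symm)

end Pool.Agent.H28.SP
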