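import Pool.Agent.H28.SPKAll

/-!
The parity theorem: diamond-free graphs in which every triangle has a vertex that is not the
centre of a claw, and every centre of a claw is in at most one maximal clique of size at least
three.
-/

namespace Pool.Agent.H28.SP

open Finset

variable {V : Type*} [Fintype V] [DecidableEq V]

/-- `v` is the centre of a claw: it has three pairwise non-adjacent neighbours -/
def ClawCentre (G : SimpleGraph V) (v : V) : Prop :=
  ∃ a b c : V, G.Adj v a ∧ G.Adj v b ∧ G.Adj v c ∧ a ≠ b ∧ a ≠ c ∧ b ≠ c ∧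
    ¬ G.Adj a b ∧ ¬ G.Adj a c ∧ ¬ G.Adj b c

/-- every triangle has a vertex that is not the centre of a claw -/
def TriangleHasLeaf (G : SimpleGraph V) : Prop :=
  ∀ x y z : V, G.Adj x y → G.Adj x z → G.Adj y z →
    ¬ ClawCentre G x ∨ ¬ ClawCentre G y ∨ ¬ ClawCentre G z

/-- any two triangles that contain the same centre of a claw are in a common clique: if `v` is the
centre of a claw and `vab`, `vcd` are triangles, then `a = c` or `a` and `c` are adjacent -/
def OneBigAtCentre (G : SimpleGraph V) : Prop :=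
  ∀ v a b c d : V, ClawCentre G v → G.Adj v a → G.Adj v b → G.Adj a b →
    G.Adj v c → G.Adj v d → G.Adj c d → a = c ∨ G.Adj a c

lemma claw_of_three {G : SimpleGraph V} (hG : DiamondFree G) {U C D E : Finset V}
    (hC : MaxCliqueIn G U C) (hD : MaxCliqueIn G U D) (hE : MaxCliqueIn G U E) {v : V}
    (hvC : v ∈ C) (hvD : v ∈ D) (hvE : v ∈ E) (h2C : 2 ≤ C.card) (h2D : 2 ≤ D.card)
    (h2E : 2 ≤ E.card) (hCD : C ≠ D) (hCE : C ≠ E) (hDE : D ≠ E) : ClawCentre G v := by
  have other : ∀ K : Finset V, v ∈ K → 2 ≤ K.card → ∃ x ∈ K, x ≠ v := by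
    intro K hvK h2
    obtain ⟨x, hx, hne⟩ := Finset.exists_mem_ne h2 v
    exact ⟨x, hx, hne⟩
  obtain ⟨x, hx, hxv⟩ := other C hvC h2C
  obtain ⟨y, hy, hyv⟩ := other D hvD h2D
  obtain ⟨z, hz, hzv⟩ := other E hvE h2E
  have h1 := sep hG hC hD hCD hvC hvD hx hxv hy hyv
  have h2 := sep hG hC hE hCE hvC hvE hx hxv hz hzv
  have h3 := sep hG hD hE hDE hvD hvE hy hyv hz hzv
  exact ⟨x, y, z,
    maxCliqueIn_clique hC (by exact_mod_cast hvC) (by exact_mod_cast hx) hxv.symm,
    maxCliqueIn_clique hD (by exact_mod_cast hvD) (by exact_mod_cast hy) hyv.symm,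
    maxCliqueIn_clique hE (by exact_mod_cast hvE) (by exact_mod_cast hz) hzv.symm,
    h1.1, h2.1, h3.1, h1.2, h2.2, h3.2⟩

lemma MinObs.bigL_disjoint {G : SimpleGraph V} (hG : DiamondFree G) (hc : OneBigAtCentre G)
    {U : Finset V} (h : MinObs G U) {Q Q' : Finset V} (hQ : Q ∈ big G U) (hQ' : Q' ∈ big G U)
    {v : V} (hv : v ∈ Q) (hv' : v ∈ Q') : Q' = Q := by
  by_contra hne
  have hQ1 := mem_big.mp hQ
  have hQ2 := mem_big.mp hQ'
  have hvU := maxCliqueIn_subset hQ1.1 hv
  obtain ⟨w, hw, hvw⟩ := h.pureEdge hG v hvU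
  have hcl := claw_of_three hG hQ1.1 hQ2.1 (maxCliqueIn_pair hvU hw hvw) hv hv' (by simp)
    (by omega) (by omega) (by rw [Finset.card_pair hvw.1.ne]) (Ne.symm hne)
    (pure_ne_big hQ).symm (pure_ne_big hQ').symm
  have two : ∀ K : Finset V, v ∈ K → 3 ≤ K.card → ∃ a ∈ K, ∃ b ∈ K, a ≠ v ∧ b ≠ v ∧ a ≠ b := by
    intro K hvK h3
    obtain ⟨a, ha, b, hb, hab⟩ : ∃ a ∈ K.erase v, ∃ b ∈ K.erase v, a ≠ b := by
      apply Finset.one_lt_card.mp
      have := Finset.card_erase_add_one hvK
      omega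
    rw [Finset.mem_erase] at ha hb
    exact ⟨a, ha.2, b, hb.2, ha.1, hb.1, hab⟩
  obtain ⟨a, ha, b, hb, hav, hbv, hab⟩ := two Q hv hQ1.2
  obtain ⟨c, hc', d, hd, hcv, hdv, hcd⟩ := two Q' hv' hQ2.2
  have k1 := maxCliqueIn_clique hQ1.1
  have k2 := maxCliqueIn_clique hQ2.1
  have h1 := hc v a b c d hcl (k1 (by exact_mod_cast hv) (by exact_mod_cast ha) hav.symm)
    (k1 (by exact_mod_cast hv) (by exact_mod_cast hb) hbv.symm)
    (k1 (by exact_mod_cast ha) (by exact_mod_cast hb) hab)
    (k2 (by exact_mod_cast hv') (by exact_mod_cast hc') hcv.symm)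
    (k2 (by exact_mod_cast hv') (by exact_mod_cast hd) hdv.symm)
    (k2 (by exact_mod_cast hc') (by exact_mod_cast hd) hcd)
  have h2 := sep hG hQ1.1 hQ2.1 (Ne.symm hne) hv hv' ha hav hc' hcv
  rcases h1 with h1 | h1
  · exact h2.1 h1
  · exact h2.2 h1

lemma MinObs.leafL {G : SimpleGraph V} (hG : DiamondFree G) (hb : TriangleHasLeaf G)
    {U : Finset V} (h : MinObs G U) {Q : Finset V} (hQ : Q ∈ big G U) :
    ∃ l ∈ Q, ∃ a ∈ U, PureEdge G U l a ∧ ∀ C, MaxCliqueIn G U C → l ∈ C → C = Q ∨ C = {l, a} := by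
  have hQ1 := mem_big.mp hQ
  have hQc := maxCliqueIn_clique hQ1.1
  obtain ⟨x, y, z, hx, hy, hz, hxy, hxz, hyz⟩ := Finset.two_lt_card_iff.mp
    (show 2 < Q.card by have := hQ1.2; omega)
  have adj : ∀ p ∈ Q, ∀ q ∈ Q, p ≠ q → G.Adj p q := fun p hp q hq hne =>
    hQc (by exact_mod_cast hp) (by exact_mod_cast hq) hne
  have main : ∀ l ∈ Q, ¬ ClawCentre G l → ∃ l ∈ Q, ∃ a ∈ U, PureEdge G U l a ∧
      ∀ C, MaxCliqueIn G U C → l ∈ C → C = Q ∨ C = {l, a} := by
    intro l hl hncl
    have hlU := maxCliqueIn_subset hQ1.1 hl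
    obtain ⟨a, ha, hla⟩ := h.pureEdge hG l hlU
    refine ⟨l, hl, a, ha, hla, ?_⟩
    intro C hC hlC
    by_contra hcon
    push Not at hcon
    exact hncl (claw_of_three hG hC hQ1.1 (maxCliqueIn_pair hlU ha hla) hlC hl (by simp)
      (h.two_le_card hG hC) (by omega) (by rw [Finset.card_pair hla.1.ne]) hcon.1 hcon.2
      (pure_ne_big hQ).symm)
  rcases hb x y z (adj x hx y hy hxy) (adj x hx z hz hxz) (adj y hy z hz hyz) with h1 | h1 | h1
  · exact main x hx h1
  · exact main y hy h1
  · exact main z hz h1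

lemma card_leavesL_inter {G : SimpleGraph V} (hG : DiamondFree G) (hc : OneBigAtCentre G)
    {U : Finset V} (h : MinObs G U) (X : Finset V) :
    (leaves G U ∩ X).card = ∑ Q ∈ big G U, (Q ∩ X).card := by
  have h1 : leaves G U ∩ X = (big G U).biUnion (fun Q => Q ∩ X) := by
    ext x
    rw [Finset.mem_inter, mem_leaves, Finset.mem_biUnion]
    constructor
    · rintro ⟨⟨Q, hQ, hx⟩, hX⟩
      exact ⟨Q, hQ, Finset.mem_inter.mpr ⟨hx, hX⟩⟩
    · rintro ⟨Q, hQ, hx⟩
      rw [Finset.mem_inter] at hx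
      exact ⟨⟨Q, hQ, hx.1⟩, hx.2⟩
  rw [h1, Finset.card_biUnion]
  intro Q hQ Q' hQ' hne
  rw [Finset.mem_coe] at hQ hQ'
  change Disjoint (Q ∩ X) (Q' ∩ X)
  rw [Finset.disjoint_left]
  intro x hx hx'
  rw [Finset.mem_inter] at hx hx'
  exact hne (h.bigL_disjoint hG hc hQ hQ' hx.1 hx'.1).symm

/-- a strong stable set of `G[U - a]` contains exactly one vertex of every big clique of `G[U]` -/
lemma card_big_inter_strong {G : SimpleGraph V} (hG : DiamondFree G) {U : Finset V} {a : V}
    {S : Finset V} (hS : StrongStableIn G (U.erase a) S) {Q : Finset V} (hQ : Q ∈ big G U) :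
    (Q ∩ S).card = 1 := by
  have hQ1 := mem_big.mp hQ
  have haS : a ∉ S := fun h' => Finset.notMem_erase a U (hS.1 h')
  have hint : Q ∩ U.erase a = Q.erase a := by
    ext x
    rw [Finset.mem_inter, Finset.mem_erase, Finset.mem_erase]
    exact ⟨fun h' => ⟨h'.2.1, h'.1⟩, fun h' => ⟨h'.2, h'.1, maxCliqueIn_subset hQ1.1 h'.2⟩⟩
  have hcard : 2 ≤ (Q ∩ U.erase a).card := by
    rw [hint]
    have := Finset.pred_card_le_card_erase (s := Q) (a := a)
    omega
  have hm := maxCliqueIn_inter hG (Finset.erase_subset a U) hQ1.1 hcard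
  apply le_antisymm
  · apply Finset.card_le_one.mpr
    intro x hx y hy
    rw [Finset.mem_inter] at hx hy
    by_contra hne
    exact hS.2.1 (by exact_mod_cast hx.2) (by exact_mod_cast hy.2) hne
      (maxCliqueIn_clique hQ1.1 (by exact_mod_cast hx.1) (by exact_mod_cast hy.1) hne)
  · apply Finset.card_pos.mpr
    obtain ⟨x, hx⟩ := hS.2.2 _ hm
    rw [Finset.mem_inter, Finset.mem_inter] at hx
    exact ⟨x, Finset.mem_inter.mpr ⟨hx.2.1, hx.1⟩⟩

lemma exists_exactL {G : SimpleGraph V} (hG : DiamondFree G) (hb : TriangleHasLeaf G)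
    (hc : OneBigAtCentre G) {U : Finset V} (h : MinObs G U) {Q : Finset V} (hQ : Q ∈ big G U) :
    ∃ X, Exact G U X ∧ (Q ∩ X).card = 2 ∧ ∀ Q' ∈ big G U, Q' ≠ Q → (Q' ∩ X).card = 1 := by
  obtain ⟨l, hlQ, a, ha, hla, hC⟩ := h.leafL hG hb hQ
  have hlU := maxCliqueIn_subset (mem_big.mp hQ).1 hlQ
  obtain ⟨S, hS⟩ := h.exists_erase hlU
  have hlS : l ∉ S := fun h' => Finset.notMem_erase l U (hS.1 h')
  have hcl : ∀ w ∈ U, PureEdge G U l w → ({l, w} : Finset V) = {l, a} := by
    intro w hw hlw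
    rcases hC _ (maxCliqueIn_pair hlU hw hlw) (by simp) with h1 | h1
    · exact absurd h1 (pure_ne_big hQ)
    · exact h1
  have hmiss : ∀ C, MaxCliqueIn G U C → C ≠ {l, a} → (S ∩ C).Nonempty := by
    intro C hCm hne
    by_contra hcon
    obtain ⟨w, hw, hlw, rfl⟩ := missed_is_pureEdge hG hlU h.2.1 hS hCm hcon
    exact hne (hcl w hw hlw)
  have haS : a ∉ S := by
    obtain ⟨C, hCm, hCmiss⟩ := h.exists_missed hlU hS
    have hCe : C = {l, a} := by
      by_contra hne
      exact hCmiss (hmiss C hCm hne)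
    intro haS
    exact hCmiss ⟨a, Finset.mem_inter.mpr ⟨haS, by rw [hCe]; simp⟩⟩
  have hSU : S ⊆ U := hS.1.trans (Finset.erase_subset _ _)
  refine ⟨insert l S, ⟨?_, ?_⟩, ?_, ?_⟩
  · intro x hx
    rw [Finset.mem_insert] at hx
    rcases hx with rfl | hx
    · exact hlU
    · exact hSU hx
  · intro v w hv hw hvw
    rw [Finset.mem_insert, Finset.mem_insert]
    by_cases hvl : v = l
    · subst hvl
      have h1 := hcl w hw hvw
      have hwa : w = a := by
        have : w ∈ ({v, a} : Finset V) := by rw [← h1]; simp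
        rw [Finset.mem_insert, Finset.mem_singleton] at this
        rcases this with h2 | h2
        · exact absurd h2.symm hvw.1.ne
        · exact h2
      subst hwa
      have := hvw.1.ne.symm
      tauto
    · by_cases hwl : w = l
      · subst hwl
        have h1 := hcl v hv hvw.symm
        have hva : v = a := by
          have : v ∈ ({w, a} : Finset V) := by rw [← h1]; simp
          rw [Finset.mem_insert, Finset.mem_singleton] at this
          rcases this with h2 | h2
          · exact absurd h2 hvw.1.ne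
          · exact h2
        subst hva
        tauto
      · have h1 : (S ∩ {v, w}).Nonempty := by
          apply hmiss _ (maxCliqueIn_pair hv hw hvw)
          intro h'
          have : l ∈ ({v, w} : Finset V) := by rw [h']; simp
          rw [Finset.mem_insert, Finset.mem_singleton] at this
          rcases this with h2 | h2
          · exact hvl h2.symm
          · exact hwl h2.symm
        obtain ⟨x, hx⟩ := h1
        rw [Finset.mem_inter, Finset.mem_insert, Finset.mem_singleton] at hx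
        have h2 : ¬ (v ∈ S ∧ w ∈ S) := fun h' =>
          hS.2.1 (by exact_mod_cast h'.1) (by exact_mod_cast h'.2) hvw.1.ne hvw.1
        have h3 : v ∈ S ∨ w ∈ S := by
          rcases hx.2 with h4 | h4
          · left; rw [← h4]; exact hx.1
          · right; rw [← h4]; exact hx.1
        tauto
  · have h1 : Q ∩ insert l S = insert l (Q ∩ S) := by
      ext x
      simp only [Finset.mem_inter, Finset.mem_insert]
      constructor
      · rintro ⟨h1, rfl | h2⟩
        · exact Or.inl rfl
        · exact Or.inr ⟨h1, h2⟩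
      · rintro (rfl | ⟨h1, h2⟩)
        · exact ⟨hlQ, Or.inl rfl⟩
        · exact ⟨h1, Or.inr h2⟩
    rw [h1, Finset.card_insert_of_notMem (fun h' => hlS (Finset.mem_inter.mp h').2),
      card_big_inter_strong hG hS hQ]
  · intro Q' hQ' hne
    have h1 : Q' ∩ insert l S = Q' ∩ S := by
      ext x
      simp only [Finset.mem_inter, Finset.mem_insert]
      constructor
      · rintro ⟨h1, rfl | h2⟩
        · exact absurd (h.bigL_disjoint hG hc hQ hQ' hlQ h1) hne
        · exact ⟨h1, h2⟩
      · rintro ⟨h1, h2⟩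
        exact ⟨h1, Or.inr h2⟩
    rw [h1, card_big_inter_strong hG hS hQ']

/-- exact sets meet pure edges in one vertex -/
lemma Exact.card_pair {G : SimpleGraph V} {U X : Finset V} (hX : Exact G U X) {v w : V}
    (hv : v ∈ U) (hw : w ∈ U) (hvw : PureEdge G U v w) : (({v, w} : Finset V) ∩ X).card = 1 := by
  have h1 := hX.2 v w hv hw hvw
  by_cases hvX : v ∈ X
  · have hwX := h1.mp hvX
    have : ({v, w} : Finset V) ∩ X = {v} := by
      ext x
      rw [Finset.mem_inter, Finset.mem_insert, Finset.mem_singleton, Finset.mem_singleton]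
      constructor
      · rintro ⟨rfl | rfl, h2⟩
        · rfl
        · exact absurd h2 hwX
      · rintro rfl
        exact ⟨Or.inl rfl, hvX⟩
    rw [this, Finset.card_singleton]
  · have hwX : w ∈ X := by
      by_contra h'
      exact hvX (h1.mpr h')
    have : ({v, w} : Finset V) ∩ X = {w} := by
      ext x
      rw [Finset.mem_inter, Finset.mem_insert, Finset.mem_singleton]
      constructor
      · rintro ⟨rfl | rfl, h2⟩
        · exact absurd h2 hvX
        · rfl
      · rintro rfl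
        exact ⟨Or.inr rfl, hwX⟩
    rw [this, Finset.card_singleton]

lemma exact_of_card {G : SimpleGraph V} {U X : Finset V} (hXU : X ⊆ U)
    (h : ∀ v w, v ∈ U → w ∈ U → PureEdge G U v w → (({v, w} : Finset V) ∩ X).card = 1) :
    Exact G U X := by
  refine ⟨hXU, ?_⟩
  intro v w hv hw hvw
  have h1 := h v w hv hw hvw
  constructor
  · intro hvX hwX
    have : ({v, w} : Finset V) ⊆ ({v, w} : Finset V) ∩ X := by
      intro x hx
      refine Finset.mem_inter.mpr ⟨hx, ?_⟩
      rw [Finset.mem_insert, Finset.mem_singleton] at hx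
      rcases hx with rfl | rfl
      · exact hvX
      · exact hwX
    have := Finset.card_le_card this
    rw [Finset.card_pair hvw.1.ne] at this
    omega
  · intro hwX
    obtain ⟨x, hx⟩ := Finset.card_pos.mp (show 0 < (({v, w} : Finset V) ∩ X).card by omega)
    rw [Finset.mem_inter, Finset.mem_insert, Finset.mem_singleton] at hx
    rcases hx.1 with rfl | rfl
    · exact hx.2
    · exact absurd hx.2 hwX

/-- an exact set with one vertex in every big clique is a strong stable set -/
lemma MinObs.not_all_one {G : SimpleGraph V} (hG : DiamondFree G) {U : Finset V}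
    (h : MinObs G U) {X : Finset V} (hX : Exact G U X) :
    ¬ ∀ Q ∈ big G U, (Q ∩ X).card = 1 := by
  intro h1
  have hall : ∀ C, MaxCliqueIn G U C → (C ∩ X).card = 1 := by
    intro C hC
    by_cases h3 : 3 ≤ C.card
    · exact h1 C (mem_big.mpr ⟨hC, h3⟩)
    · obtain ⟨v, hv, w, hw, hvw, rfl⟩ := h.small_eq hG (mem_small.mpr ⟨hC, h3⟩)
      exact hX.card_pair hv hw hvw
  apply h.2.1
  refine ⟨X, hX.1, ?_, ?_⟩
  · intro x hx y hy hne hxy
    rw [Finset.mem_coe] at hx hy
    obtain ⟨C, hKC, hC⟩ := exists_maxCliqueIn (G := G) (U := U) (K := {x, y}) (by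
      intro z hz
      rw [Finset.mem_insert, Finset.mem_singleton] at hz
      rcases hz with rfl | rfl
      · exact hX.1 hx
      · exact hX.1 hy) (by
      rw [Finset.coe_pair, SimpleGraph.isClique_pair]
      exact fun _ => hxy)
    have h2 := Finset.card_le_one.mp (hall C hC).le x
      (Finset.mem_inter.mpr ⟨hKC (by simp), hx⟩) y (Finset.mem_inter.mpr ⟨hKC (by simp), hy⟩)
    exact hne h2
  · intro C hC
    rw [Finset.inter_comm]
    exact Finset.card_pos.mp (by rw [hall C hC]; exact one_pos)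

end Pool.Agent.H28.SP
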