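import Pool.Agent.H28.SPL

/-!
The parity theorem, second part: every exact set has at least `b + 1` vertices in big cliques.
-/

namespace Pool.Agent.H28.SP

open Finset

variable {V : Type*} [Fintype V] [DecidableEq V]

/-- one of the two parts of the multiset `X + X'` cut out by the bicolouring `c` -/
def part (X X' : Finset V) (c : V → Bool) (b : Bool) : Finset V :=
  (X ∩ X') ∪ ((X \ X') ∪ (X' \ X)).filter (fun v => c v = b)

lemma card_parts (X X' : Finset V) (c : V → Bool) (D : Finset V) :
    (D ∩ part X X' c true).card + (D ∩ part X X' c false).card =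
      (D ∩ X).card + (D ∩ X').card := by
  have hcard : ∀ Z : Finset V, (D ∩ Z).card = ∑ v ∈ D, (if v ∈ Z then 1 else 0) := by
    intro Z
    rw [← Finset.filter_mem_eq_inter, Finset.card_filter]
  rw [hcard, hcard, hcard, hcard, ← Finset.sum_add_distrib, ← Finset.sum_add_distrib]
  apply Finset.sum_congr rfl
  intro v _
  simp only [part, Finset.mem_union, Finset.mem_inter, Finset.mem_filter, Finset.mem_sdiff]
  by_cases h1 : v ∈ X <;> by_cases h2 : v ∈ X' <;> cases hcv : c v <;> simp [h1, h2]

lemma part_hit {G : SimpleGraph V} (hG : DiamondFree G) {U X X' : Finset V} (hX : X ⊆ U)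
    (hX' : X' ⊆ U) {c : V → Bool} (hc : Bicol G ((X \ X') ∪ (X' \ X)) c) {C : Finset V}
    (hC : MaxCliqueIn G U C) (h2 : 2 ≤ (C ∩ X).card + (C ∩ X').card) (b : Bool) :
    1 ≤ (C ∩ part X X' c b).card := by
  set W := (X \ X') ∪ (X' \ X) with hW
  have hWU : W ⊆ U := by
    intro x hx
    rw [hW, Finset.mem_union, Finset.mem_sdiff, Finset.mem_sdiff] at hx
    rcases hx with hx | hx
    · exact hX hx.1
    · exact hX' hx.1
  by_cases hne : (C ∩ (X ∩ X')).Nonempty
  · obtain ⟨x, hx⟩ := hne
    rw [Finset.mem_inter] at hx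
    apply Finset.card_pos.mpr
    exact ⟨x, Finset.mem_inter.mpr ⟨hx.1, by unfold part; exact Finset.mem_union_left _ hx.2⟩⟩
  · rw [Finset.not_nonempty_iff_eq_empty] at hne
    have hcardW : (C ∩ W).card = (C ∩ X).card + (C ∩ X').card := by
      rw [← Finset.card_union_of_disjoint]
      · congr 1
        ext x
        have : ¬ (x ∈ C ∧ x ∈ X ∧ x ∈ X') := by
          intro h'
          have : x ∈ C ∩ (X ∩ X') := by
            rw [Finset.mem_inter, Finset.mem_inter]; exact h'
          rw [hne] at this
          simp at this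
        simp only [hW, Finset.mem_inter, Finset.mem_union, Finset.mem_sdiff]
        tauto
      · rw [Finset.disjoint_left]
        intro x hx hx'
        rw [Finset.mem_inter] at hx hx'
        have : x ∈ C ∩ (X ∩ X') := by
          rw [Finset.mem_inter, Finset.mem_inter]; exact ⟨hx.1, hx.2, hx'.2⟩
        rw [hne] at this
        simp at this
    have hm := maxCliqueIn_inter hG hWU hC (by rw [hcardW]; exact h2)
    obtain ⟨x, hx, hxb⟩ := hc _ hm (by rw [hcardW]; exact h2) b
    rw [Finset.mem_inter] at hx
    apply Finset.card_pos.mpr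
    refine ⟨x, Finset.mem_inter.mpr ⟨hx.1, ?_⟩⟩
    unfold part
    apply Finset.mem_union_right
    rw [Finset.mem_filter]
    exact ⟨hx.2, hxb⟩

lemma part_exact {G : SimpleGraph V} (hG : DiamondFree G) {U X X' : Finset V} (hX : Exact G U X)
    (hX' : Exact G U X') {c : V → Bool} (hc : Bicol G ((X \ X') ∪ (X' \ X)) c) (b : Bool) :
    Exact G U (part X X' c b) := by
  apply exact_of_card
  · intro x hx
    unfold part at hx
    rw [Finset.mem_union, Finset.mem_inter, Finset.mem_filter, Finset.mem_union,
      Finset.mem_sdiff, Finset.mem_sdiff] at hx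
    rcases hx with hx | ⟨hx | hx, _⟩
    · exact hX.1 hx.1
    · exact hX.1 hx.1
    · exact hX'.1 hx.1
  · intro v w hv hw hvw
    have h1 := hX.card_pair hv hw hvw
    have h2 := hX'.card_pair hv hw hvw
    have h3 := card_parts X X' c ({v, w} : Finset V)
    have h4 := part_hit hG hX.1 hX'.1 hc (maxCliqueIn_pair hv hw hvw) (by omega) true
    have h5 := part_hit hG hX.1 hX'.1 hc (maxCliqueIn_pair hv hw hvw) (by omega) false
    cases b <;> omega

theorem lowerL {G : SimpleGraph V} (hG : DiamondFree G) (hb : TriangleHasLeaf G)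
    (hc : OneBigAtCentre G) {U : Finset V} (h : MinObs G U)
    (hbip : ∀ W : Finset V, W ⊆ U → (PureGraph G W).Colorable 2) :
    ∀ (n : ℕ) (X : Finset V), Exact G U X →
      ((big G U).filter (fun Q => (Q ∩ X).card = 0)).card ≤ n →
      (big G U).card + 1 ≤ ∑ Q ∈ big G U, (Q ∩ X).card := by
  intro n
  induction n with
  | zero =>
    intro X hX h0
    have hge : ∀ Q ∈ big G U, 1 ≤ (Q ∩ X).card := by
      intro Q hQ
      by_contra hcon
      have : Q ∈ (big G U).filter (fun Q => (Q ∩ X).card = 0) :=
        Finset.mem_filter.mpr ⟨hQ, by omega⟩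
      have := Finset.card_pos.mpr ⟨Q, this⟩
      omega
    by_contra hcon
    push Not at hcon
    apply h.not_all_one hG hX
    by_contra hcon2
    push Not at hcon2
    obtain ⟨Q0, hQ0, hne⟩ := hcon2
    have : ∑ Q ∈ big G U, 1 < ∑ Q ∈ big G U, (Q ∩ X).card := by
      apply Finset.sum_lt_sum hge
      refine ⟨Q0, hQ0, ?_⟩
      have := hge Q0 hQ0
      omega
    rw [← Finset.card_eq_sum_ones] at this
    omega
  | succ n ih =>
    intro X hX hn
    rcases ((big G U).filter (fun Q => (Q ∩ X).card = 0)).eq_empty_or_nonempty with h0 | ⟨Q0, hQ0⟩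
    · exact ih X hX (by rw [h0, Finset.card_empty]; exact Nat.zero_le _)
    · rw [Finset.mem_filter] at hQ0
      obtain ⟨X', hX', h2, h1⟩ := exists_exactL hG hb hc h hQ0.1
      obtain ⟨c, hcol⟩ := exists_bicol_rel hG hbip ((X \ X') ∪ (X' \ X)) (by
        intro x hx
        rw [Finset.mem_union, Finset.mem_sdiff, Finset.mem_sdiff] at hx
        rcases hx with hx | hx
        · exact hX.1 hx.1
        · exact hX'.1 hx.1)
      have hX'1 : ∀ Q ∈ big G U, 1 ≤ (Q ∩ X').card := by
        intro Q hQ
        by_cases hQQ : Q = Q0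
        · rw [hQQ, h2]; omega
        · rw [h1 Q hQ hQQ]
      have hmissed : ∀ b, ((big G U).filter (fun Q => (Q ∩ part X X' c b).card = 0)).card ≤ n := by
        intro b
        have hsub : (big G U).filter (fun Q => (Q ∩ part X X' c b).card = 0) ⊆
            ((big G U).filter (fun Q => (Q ∩ X).card = 0)).erase Q0 := by
          intro Q hQ
          rw [Finset.mem_filter] at hQ
          rw [Finset.mem_erase, Finset.mem_filter]
          have hhit := part_hit hG hX.1 hX'.1 hcol (mem_big.mp hQ.1).1
          refine ⟨?_, hQ.1, ?_⟩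
          · intro hQQ
            have := hhit (by rw [hQQ, h2]; omega) b
            omega
          · by_contra hne
            have h3 := hX'1 Q hQ.1
            have := hhit (by omega) b
            omega
        have h3 := Finset.card_le_card hsub
        have h4 : (((big G U).filter (fun Q => (Q ∩ X).card = 0)).erase Q0).card + 1 =
            ((big G U).filter (fun Q => (Q ∩ X).card = 0)).card :=
          Finset.card_erase_add_one (Finset.mem_filter.mpr hQ0)
        omega
      have ht := ih _ (part_exact hG hX hX' hcol true) (hmissed true)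
      have hf := ih _ (part_exact hG hX hX' hcol false) (hmissed false)
      have hsum : ∑ Q ∈ big G U, (Q ∩ part X X' c true).card +
          ∑ Q ∈ big G U, (Q ∩ part X X' c false).card =
          ∑ Q ∈ big G U, (Q ∩ X).card + ∑ Q ∈ big G U, (Q ∩ X').card := by
        rw [← Finset.sum_add_distrib, ← Finset.sum_add_distrib]
        exact Finset.sum_congr rfl (fun Q _ => card_parts X X' c Q)
      have hX's : ∑ Q ∈ big G U, (Q ∩ X').card = (big G U).card + 1 := by
        rw [← Finset.add_sum_erase _ _ hQ0.1, h2]
        have : ∑ Q ∈ (big G U).erase Q0, (Q ∩ X').card = ∑ Q ∈ (big G U).erase Q0, 1 := by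
          apply Finset.sum_congr rfl
          intro Q hQ
          rw [Finset.mem_erase] at hQ
          exact h1 Q hQ.2 hQ.1
        rw [this, ← Finset.card_eq_sum_ones]
        have := Finset.card_erase_add_one hQ0.1
        omega
      omega

lemma hbip_of_big {G : SimpleGraph V} (hG : DiamondFree G) (hb : TriangleHasLeaf G)
    (hc : OneBigAtCentre G) {U : Finset V} (h : MinObs G U) (hne : (big G U).Nonempty) :
    ∀ W : Finset V, W ⊆ U → (PureGraph G W).Colorable 2 := by
  intro W hW
  rcases hW.eq_or_ssubset with rfl | hWU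
  · obtain ⟨Q, hQ⟩ := hne
    obtain ⟨X, hX, _⟩ := exists_exactL hG hb hc h hQ
    exact hX.colorable
  · rcases W.eq_empty_or_nonempty with rfl | hWne
    · have : Exact G ∅ (∅ : Finset V) := ⟨by simp, by simp⟩
      exact this.colorable
    · obtain ⟨S, hS⟩ := h.2.2 W hWU hWne
      exact (exact_of_strong hS).colorable

theorem lowerL' {G : SimpleGraph V} (hG : DiamondFree G) (hb : TriangleHasLeaf G)
    (hc : OneBigAtCentre G) {U : Finset V} (h : MinObs G U) (hne : (big G U).Nonempty)
    {X : Finset V} (hX : Exact G U X) : (big G U).card + 1 ≤ (leaves G U ∩ X).card := by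
  rw [card_leavesL_inter hG hc h]
  exact lowerL hG hb hc h (hbip_of_big hG hb hc h hne) _ X hX le_rfl

end Pool.Agent.H28.SP
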