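import Pool.Agent.H28.SPL2
import Pool.Agent.H28.SPLink

/-!
The parity theorem, third part: all exact sets have `b + 1` vertices in big cliques.
-/

namespace Pool.Agent.H28.SP

open Finset

variable {V : Type*} [Fintype V] [DecidableEq V]

lemma leavesL_subset {G : SimpleGraph V} {U : Finset V} : leaves G U ⊆ U := by
  intro v hv
  obtain ⟨Q, hQ, hvQ⟩ := mem_leaves.mp hv
  exact maxCliqueIn_subset (mem_big.mp hQ).1 hvQ

open Classical in
theorem balanceL_le {G : SimpleGraph V} (hG : DiamondFree G) (hb : TriangleHasLeaf G)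
    (hc : OneBigAtCentre G) {U : Finset V} (h : MinObs G U) (hne : (big G U).Nonempty)
    {X : Finset V} (hX : Exact G U X) {z0 : V} (hz0 : z0 ∈ U) :
    (((leaves G U).filter (fun v => (PureGraph G U).Reachable z0 v)) \ X).card ≤
      (((leaves G U).filter (fun v => (PureGraph G U).Reachable z0 v)) ∩ X).card := by
  set H := PureGraph G U with hH
  have hreach : ∀ v, H.Reachable z0 v → v ∈ U := by
    rintro v ⟨p⟩
    exact walk_support_mem _ _ p hz0 v p.end_mem_support
  apply linked_nonneg
  · obtain ⟨w, hw, hzw⟩ := h.pureEdge hG z0 hz0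
    have h1 := hX.2 z0 w hz0 hw hzw
    have hadj : H.Adj z0 w := ⟨hz0, hw, hzw⟩
    by_cases hz : z0 ∈ X
    · exact ⟨z0, SimpleGraph.Reachable.refl _, fun h' => h'.2 hz⟩
    · have hwX : w ∈ X := by
        by_contra h'
        exact hz (h1.mpr h')
      exact ⟨w, hadj.reachable, fun h' => h'.2 hwX⟩
  · intro a ha
    have haU := hreach a ha
    obtain ⟨S, hS⟩ := h.exists_erase haU
    have haS : a ∉ S := fun h' => Finset.notMem_erase a U (hS.1 h')
    have hSU : S ⊆ U := hS.1.trans (Finset.erase_subset _ _)
    have hSe := exact_of_strong hS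
    have hSadj : ∀ v w, H.Adj v w → v ≠ a → w ≠ a → (v ∈ S ↔ w ∉ S) := by
      intro v w hvw hva hwa
      exact hSe.2 v w (Finset.mem_erase.mpr ⟨hva, hvw.1⟩) (Finset.mem_erase.mpr ⟨hwa, hvw.2.1⟩)
        (hvw.2.2.mono (Finset.erase_subset _ _))
    have hXadj : ∀ v w, H.Adj v w → (v ∈ X ↔ w ∉ X) := by
      intro v w hvw
      exact hX.2 v w hvw.1 hvw.2.1 hvw.2.2
    refine ⟨U.filter (fun v => H.Reachable z0 v ∧ v ≠ a ∧ (v ∈ S ↔ v ∉ X)), ?_, ?_, ?_, ?_⟩
    · rw [Finset.mem_filter]
      rintro ⟨_, _, h', _⟩
      exact h' rfl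
    · intro v hv v' hvv hne'
      rw [Finset.mem_filter] at hv ⊢
      obtain ⟨hvU, hvr, hva, hvS⟩ := hv
      have h1 := hSadj v v' hvv hva hne'
      have h2 := hXadj v v' hvv
      refine ⟨hvv.2.1, hvr.trans hvv.reachable, hne', ?_⟩
      tauto
    · intro v hv
      rw [Finset.mem_filter] at hv
      exact hv.2.1
    · -- the exact set that is `X` on the component and `S` elsewhere
      have hY : Exact G U (U.filter (fun v => if H.Reachable z0 v then v ∈ X else v ∈ S)) := by
        refine ⟨Finset.filter_subset _ _, ?_⟩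
        intro v w hv hw hvw
        have hadj : H.Adj v w := ⟨hv, hw, hvw⟩
        have h1 := hXadj v w hadj
        rw [Finset.mem_filter, Finset.mem_filter]
        by_cases hr : H.Reachable z0 v
        · have hr' : H.Reachable z0 w := hr.trans hadj.reachable
          rw [if_pos hr, if_pos hr']
          tauto
        · have hr' : ¬ H.Reachable z0 w := fun h' => hr (h'.trans hadj.symm.reachable)
          rw [if_neg hr, if_neg hr']
          have h2 := hSadj v w hadj (fun h' => hr (h' ▸ ha)) (fun h' => hr' (h' ▸ ha))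
          tauto
      have h1 := lowerL' hG hb hc h hne hY
      have h2 : (leaves G U ∩ S).card = (big G U).card := by
        rw [card_leavesL_inter hG hc h, Finset.card_eq_sum_ones]
        exact Finset.sum_congr rfl (fun Q hQ => card_big_inter_strong hG hS hQ)
      rw [← h2] at h1
      have hcard : ∀ Z : Finset V, (leaves G U ∩ Z).card =
          ∑ v ∈ leaves G U, (if v ∈ Z then 1 else 0) := by
        intro Z
        rw [← Finset.filter_mem_eq_inter, Finset.card_filter]
      have e1 : ∀ (R : Finset V), (R ∩ leaves G U) \ X = leaves G U ∩ (R \ X) := by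
        intro R
        ext v
        simp only [Finset.mem_sdiff, Finset.mem_inter]
        tauto
      have e2 : ∀ (R : Finset V), (R ∩ leaves G U) ∩ X = leaves G U ∩ (R ∩ X) := by
        intro R
        ext v
        simp only [Finset.mem_inter]
        tauto
      have e3 : (if a ∈ leaves G U ∩ X then 1 else 0) = (leaves G U ∩ (X ∩ {a})).card := by
        by_cases h' : a ∈ leaves G U ∩ X
        · rw [if_pos h']
          rw [Finset.mem_inter] at h'
          have : leaves G U ∩ (X ∩ {a}) = {a} := by
            ext v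
            simp only [Finset.mem_inter, Finset.mem_singleton]
            constructor
            · rintro ⟨_, _, h'⟩; exact h'
            · rintro rfl; exact ⟨h'.1, h'.2, rfl⟩
          rw [this, Finset.card_singleton]
        · rw [if_neg h']
          symm
          rw [Finset.card_eq_zero, Finset.eq_empty_iff_forall_notMem]
          intro v hv
          simp only [Finset.mem_inter, Finset.mem_singleton] at hv
          apply h'
          rw [Finset.mem_inter, ← hv.2.2]
          exact ⟨hv.1, hv.2.1⟩
      rw [e1, e2, e3]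
      rw [hcard, hcard] at h1
      rw [hcard, hcard, hcard]
      set R := U.filter (fun v => H.Reachable z0 v ∧ v ≠ a ∧ (v ∈ S ↔ v ∉ X)) with hR
      set Y := U.filter (fun v => if H.Reachable z0 v then v ∈ X else v ∈ S) with hYdef
      have key : ∑ v ∈ leaves G U, (if v ∈ Y then 1 else 0) +
          ∑ v ∈ leaves G U, (if v ∈ R \ X then 1 else 0) =
          ∑ v ∈ leaves G U, (if v ∈ S then 1 else 0) +
          (∑ v ∈ leaves G U, (if v ∈ R ∩ X then 1 else 0) +
          ∑ v ∈ leaves G U, (if v ∈ X ∩ {a} then 1 else 0)) := by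
        rw [← Finset.sum_add_distrib, ← Finset.sum_add_distrib, ← Finset.sum_add_distrib]
        apply Finset.sum_congr rfl
        intro v hv
        have hvU := leavesL_subset hv
        by_cases hr : H.Reachable z0 v
        · by_cases hva : v = a
          · subst hva
            by_cases hvX : v ∈ X
            · simp [hYdef, hR, hvU, hr, hvX, haS]
            · simp [hYdef, hR, hvU, hr, hvX, haS]
          · by_cases hvX : v ∈ X <;> by_cases hvS : v ∈ S <;>
              simp [hYdef, hR, hvU, hr, hva, hvX, hvS]
        · have hva : v ≠ a := fun h' => hr (h' ▸ ha)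
          by_cases hvS : v ∈ S <;> simp [hYdef, hR, hvU, hr, hva, hvS]
      omega

open Classical in
theorem balanceL {G : SimpleGraph V} (hG : DiamondFree G) (hb : TriangleHasLeaf G)
    (hc : OneBigAtCentre G) {U : Finset V} (h : MinObs G U) (hne : (big G U).Nonempty)
    {X : Finset V} (hX : Exact G U X) {z0 : V} (hz0 : z0 ∈ U) :
    (((leaves G U).filter (fun v => (PureGraph G U).Reachable z0 v)) ∩ X).card =
      (((leaves G U).filter (fun v => (PureGraph G U).Reachable z0 v)) \ X).card := by
  apply le_antisymm
  · have h1 := balanceL_le hG hb hc h hne hX.compl hz0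
    have e1 : ((leaves G U).filter (fun v => (PureGraph G U).Reachable z0 v)) \ (U \ X) =
        ((leaves G U).filter (fun v => (PureGraph G U).Reachable z0 v)) ∩ X := by
      ext v
      simp only [Finset.mem_sdiff, Finset.mem_inter, Finset.mem_filter]
      constructor
      · rintro ⟨⟨h1, h2⟩, h3⟩
        have := leavesL_subset h1
        refine ⟨⟨h1, h2⟩, ?_⟩
        by_contra h4
        exact h3 ⟨this, h4⟩
      · rintro ⟨⟨h1, h2⟩, h3⟩
        exact ⟨⟨h1, h2⟩, fun h4 => h4.2 h3⟩
    have e2 : ((leaves G U).filter (fun v => (PureGraph G U).Reachable z0 v)) ∩ (U \ X) =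
        ((leaves G U).filter (fun v => (PureGraph G U).Reachable z0 v)) \ X := by
      ext v
      simp only [Finset.mem_sdiff, Finset.mem_inter, Finset.mem_filter]
      constructor
      · rintro ⟨⟨h1, h2⟩, h3⟩
        exact ⟨⟨h1, h2⟩, h3.2⟩
      · rintro ⟨⟨h1, h2⟩, h3⟩
        exact ⟨⟨h1, h2⟩, leavesL_subset h1, h3⟩
    rw [e1, e2] at h1
    exact h1
  · exact balanceL_le hG hb hc h hne hX hz0

lemma halfL {G : SimpleGraph V} (hG : DiamondFree G) (hb : TriangleHasLeaf G)
    (hc : OneBigAtCentre G) {U : Finset V} (h : MinObs G U) (hne : (big G U).Nonempty)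
    {X : Finset V} (hX : Exact G U X) :
    (leaves G U ∩ X).card = (leaves G U \ X).card := by
  classical
  set f : V → (PureGraph G U).ConnectedComponent := (PureGraph G U).connectedComponentMk with hf
  have e1 := Finset.card_eq_sum_card_fiberwise (f := f) (s := leaves G U ∩ X)
    (t := (leaves G U).image f) (by
      intro x hx
      have hx' := Finset.mem_inter.mp (Finset.mem_coe.mp hx)
      exact Finset.mem_coe.mpr (Finset.mem_image_of_mem f hx'.1))
  have e2 := Finset.card_eq_sum_card_fiberwise (f := f) (s := leaves G U \ X)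
    (t := (leaves G U).image f) (by
      intro x hx
      have hx' := Finset.mem_sdiff.mp (Finset.mem_coe.mp hx)
      exact Finset.mem_coe.mpr (Finset.mem_image_of_mem f hx'.1))
  rw [e1, e2]
  apply Finset.sum_congr rfl
  intro b hb'
  rw [Finset.mem_image] at hb'
  obtain ⟨x, hx, rfl⟩ := hb'
  have h1 := balanceL hG hb hc h hne hX (leavesL_subset hx)
  have h2 : ∀ v, f v = f x ↔ (PureGraph G U).Reachable x v := by
    intro v
    rw [hf, SimpleGraph.ConnectedComponent.eq]
    exact ⟨fun h' => h'.symm, fun h' => h'.symm⟩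
  refine Eq.trans (congrArg Finset.card ?_) (Eq.trans h1 (congrArg Finset.card ?_))
  · ext v
    simp only [Finset.mem_filter, Finset.mem_inter, h2]
    tauto
  · ext v
    simp only [Finset.mem_filter, Finset.mem_sdiff, h2]
    tauto

/-- there are `2 b + 2` vertices in big cliques -/
lemma card_leavesL {G : SimpleGraph V} (hG : DiamondFree G) (hb : TriangleHasLeaf G)
    (hc : OneBigAtCentre G) {U : Finset V} (h : MinObs G U) (hne : (big G U).Nonempty) :
    (leaves G U).card = 2 * (big G U).card + 2 := by
  obtain ⟨Q0, hQ0⟩ := hne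
  obtain ⟨X, hX, h2, h1⟩ := exists_exactL hG hb hc h hQ0
  have hs : (leaves G U ∩ X).card = (big G U).card + 1 := by
    rw [card_leavesL_inter hG hc h, ← Finset.add_sum_erase _ _ hQ0, h2]
    have : ∑ Q ∈ (big G U).erase Q0, (Q ∩ X).card = ∑ Q ∈ (big G U).erase Q0, 1 := by
      apply Finset.sum_congr rfl
      intro Q hQ
      rw [Finset.mem_erase] at hQ
      exact h1 Q hQ.2 hQ.1
    rw [this, ← Finset.card_eq_sum_ones]
    have := Finset.card_erase_add_one hQ0
    omega
  have h3 := halfL hG hb hc h ⟨Q0, hQ0⟩ hX
  have h4 := Finset.card_inter_add_card_sdiff (leaves G U) X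
  omega

lemma card_exactL {G : SimpleGraph V} (hG : DiamondFree G) (hb : TriangleHasLeaf G)
    (hc : OneBigAtCentre G) {U : Finset V} (h : MinObs G U) (hne : (big G U).Nonempty)
    {X : Finset V} (hX : Exact G U X) : (leaves G U ∩ X).card = (big G U).card + 1 := by
  have h0 := card_leavesL hG hb hc h hne
  have h1 := halfL hG hb hc h hne hX
  have h2 := Finset.card_inter_add_card_sdiff (leaves G U) X
  omega

theorem MinObs.fewL {G : SimpleGraph V} (hG : DiamondFree G) (hb : TriangleHasLeaf G)
    (hc : OneBigAtCentre G) {U : Finset V} (h : MinObs G U) :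
    ∑ C ∈ maxCliques G U, (C.card - 2) ≤ 2 := by
  have e1 : ∑ C ∈ big G U, (C.card - 2) + ∑ C ∈ small G U, (C.card - 2) =
      ∑ C ∈ maxCliques G U, (C.card - 2) := Finset.sum_filter_add_sum_filter_not _ _ _
  have e2 : ∑ C ∈ small G U, (C.card - 2) = 0 := by
    apply Finset.sum_eq_zero
    intro C hC
    have := (mem_small.mp hC).2
    omega
  rcases (big G U).eq_empty_or_nonempty with h0 | hne
  · rw [h0, Finset.sum_empty] at e1
    omega
  · have e3 : ∑ C ∈ big G U, (C.card - 2) + 2 * (big G U).card = (leaves G U).card := by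
      have h1 := card_leavesL_inter hG hc h U
      rw [Finset.inter_eq_left.mpr leavesL_subset] at h1
      have h3 : 2 * (big G U).card = ∑ C ∈ big G U, 2 := by
        rw [Finset.sum_const, smul_eq_mul, mul_comm]
      rw [h1, h3, ← Finset.sum_add_distrib]
      apply Finset.sum_congr rfl
      intro C hC
      have h4 := mem_big.mp hC
      rw [Finset.inter_eq_left.mpr (maxCliqueIn_subset h4.1)]
      omega
    have := card_leavesL hG hb hc h hne
    omega

/-- in a minimal obstruction no vertex set meets all maximal cliques in an odd number of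
vertices -/
theorem MinObs.no_odd {G : SimpleGraph V} (hG : DiamondFree G) (hb : TriangleHasLeaf G)
    (hc : OneBigAtCentre G) {U : Finset V} (h : MinObs G U) :
    ¬ ∃ X ⊆ U, ∀ C, MaxCliqueIn G U C → Odd (C ∩ X).card := by
  rintro ⟨X, hXU, hodd⟩
  have hX : Exact G U X := by
    apply exact_of_card hXU
    intro v w hv hw hvw
    have h1 := hodd _ (maxCliqueIn_pair hv hw hvw)
    have h2 : (({v, w} : Finset V) ∩ X).card ≤ 2 :=
      (Finset.card_le_card Finset.inter_subset_left).trans Finset.card_le_two
    rw [Nat.odd_iff] at h1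
    omega
  rcases (big G U).eq_empty_or_nonempty with h0 | hne
  · apply h.not_all_one hG hX
    intro Q hQ
    rw [h0] at hQ
    simp at hQ
  · have h1 := card_exactL hG hb hc h hne hX
    rw [card_leavesL_inter hG hc h] at h1
    have h2 : Odd (∑ Q ∈ big G U, (Q ∩ X).card) ↔
        Odd ((big G U).filter (fun Q => Odd (Q ∩ X).card)).card :=
      Finset.odd_sum_iff_odd_card_odd _
    have h3 : (big G U).filter (fun Q => Odd (Q ∩ X).card) = big G U := by
      apply Finset.filter_true_of_mem
      intro Q hQ
      exact hodd Q (mem_big.mp hQ).1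
    rw [h3, h1] at h2
    rw [Nat.odd_iff, Nat.odd_iff] at h2
    omega

end Pool.Agent.H28.SP
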