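import Pool.Agent.H28.SPL3

/-!
The parity theorem, last part: enlarging a minimal obstruction.
-/

namespace Pool.Agent.H28.SP

open Finset

variable {V : Type*} [Fintype V] [DecidableEq V]

theorem MinObs.enlargeL {G : SimpleGraph V} (hG : DiamondFree G) {U : Finset V}
    (h : MinObs G U) (h2 : ∑ C ∈ maxCliques G U, (C.card - 2) ≤ 2)
    (hno : ¬ ∃ X ⊆ U, ∀ C, MaxCliqueIn G U C → Odd (C ∩ X).card) :
    ∃ W : Finset V, U ⊆ W ∧ (∀ v, v ∉ W → InTriangle G v) ∧
      ∑ C ∈ maxCliques G W, (C.card - 2) ≤ 2 ∧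
      ¬ ∃ X ⊆ W, ∀ C, MaxCliqueIn G W C → Odd (C ∩ X).card := by
  classical
  set W : Finset V := U ∪ univ.filter (fun v => ¬ InTriangle G v) with hW
  have hUW : U ⊆ W := Finset.subset_union_left
  have hWU : ∀ v ∈ W, v ∉ U → ¬ InTriangle G v := by
    intro v hv hvU
    rw [hW, Finset.mem_union, Finset.mem_filter] at hv
    rcases hv with hv | hv
    · exact absurd hv hvU
    · exact hv.2
  -- maximal cliques of `G[U]` are maximal in `G[W]`
  have hup : ∀ C, MaxCliqueIn G U C → MaxCliqueIn G W C := by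
    intro C hC
    refine ⟨⟨(maxCliqueIn_subset hC).trans hUW, maxCliqueIn_clique hC⟩, ?_⟩
    intro D hD hCD x hx
    have hxU : x ∈ U ∨ x ∈ C := by
      by_cases hxC : x ∈ C
      · exact Or.inr hxC
      · left
        by_contra hxU
        refine hWU x (hD.1 hx) hxU (inTriangle_of_adj (maxCliqueIn_clique hC)
          (h.two_le_card hG hC) ?_)
        intro d hd
        exact hD.2 (by exact_mod_cast hx) (by exact_mod_cast hCD hd) (fun h' => hxC (h' ▸ hd))
    rcases hxU with hxU | hxC
    · apply mem_of_forall_adj hC hxU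
      intro d hd hxd
      exact hD.2 (by exact_mod_cast hx) (by exact_mod_cast hCD hd) hxd
    · exact hxC
  refine ⟨W, hUW, ?_, ?_, ?_⟩
  · intro v hv
    by_contra hcon
    exact hv (by rw [hW, Finset.mem_union, Finset.mem_filter]; exact Or.inr ⟨mem_univ _, hcon⟩)
  · -- big cliques of `G[W]` are maximal cliques of `G[U]`
    have hdown : ∀ C, MaxCliqueIn G W C → 3 ≤ C.card → MaxCliqueIn G U C := by
      intro C hC h3
      have hCc := maxCliqueIn_clique hC
      have hCU : C ⊆ U := by
        intro x hx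
        by_contra hxU
        refine hWU x (maxCliqueIn_subset hC hx) hxU (inTriangle_of_adj (C := C.erase x)
          (hCc.subset (by exact_mod_cast Finset.erase_subset _ _)) ?_ ?_)
        · have := Finset.card_erase_add_one hx
          omega
        · intro d hd
          rw [Finset.mem_erase] at hd
          exact hCc (by exact_mod_cast hx) (by exact_mod_cast hd.2) hd.1.symm
      exact ⟨⟨hCU, hCc⟩, fun D hD hCD => hC.le_of_ge ⟨hD.1.trans hUW, hD.2⟩ hCD⟩
    have e1 : ∀ (Z : Finset V), ∑ C ∈ maxCliques G Z, (C.card - 2) =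
        ∑ C ∈ big G Z, (C.card - 2) := by
      intro Z
      have e1 : ∑ C ∈ big G Z, (C.card - 2) + ∑ C ∈ small G Z, (C.card - 2) =
          ∑ C ∈ maxCliques G Z, (C.card - 2) := Finset.sum_filter_add_sum_filter_not _ _ _
      have e2 : ∑ C ∈ small G Z, (C.card - 2) = 0 := by
        apply Finset.sum_eq_zero
        intro C hC
        have := (mem_small.mp hC).2
        omega
      omega
    rw [e1] at h2 ⊢
    refine le_trans (Finset.sum_le_sum_of_subset ?_) h2
    intro C hC
    rw [mem_big] at hC ⊢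
    exact ⟨hdown C hC.1 hC.2, hC.2⟩
  · rintro ⟨X, _, hX⟩
    apply hno
    refine ⟨X ∩ U, Finset.inter_subset_right, ?_⟩
    intro C hC
    have h1 := hX C (hup C hC)
    have h3 : C ∩ (X ∩ U) = C ∩ X := by
      ext x
      rw [Finset.mem_inter, Finset.mem_inter, Finset.mem_inter]
      exact ⟨fun h' => ⟨h'.1, h'.2.1⟩, fun h' => ⟨h'.1, h'.2, maxCliqueIn_subset hC h'.1⟩⟩
    rw [h3]
    exact h1

/-- a strong stable set meets every maximal clique in exactly one vertex -/
lemma odd_of_strong {G : SimpleGraph V} {W S : Finset V} (hS : StrongStableIn G W S) :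
    ∃ X ⊆ W, ∀ C, MaxCliqueIn G W C → Odd (C ∩ X).card := by
  refine ⟨S, hS.1, ?_⟩
  intro C hC
  have h1 : (C ∩ S).card = 1 := by
    apply le_antisymm
    · apply Finset.card_le_one.mpr
      intro x hx y hy
      rw [Finset.mem_inter] at hx hy
      by_contra hne
      exact hS.2.1 (by exact_mod_cast hx.2) (by exact_mod_cast hy.2) hne
        (maxCliqueIn_clique hC (by exact_mod_cast hx.1) (by exact_mod_cast hy.1) hne)
    · rw [Finset.inter_comm]
      exact Finset.card_pos.mpr (hS.2.2 C hC)
  rw [h1]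
  exact odd_one

end Pool.Agent.H28.SP
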