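import Pool.Agent.H28.SPStruct

/-!
The lines of a diamond-free graph are its maximal cliques; conversions to the final statement.
-/

namespace Pool.Agent.H28.SP

open Finset

variable {V : Type*} [Fintype V] [DecidableEq V]

theorem mem_lines_iff (G : SimpleGraph V) [DecidableRel G.Adj] (hG : DiamondFree G)
    {U : Finset V} (hU : U.Nonempty) (C : Finset V) : C ∈ lines G U ↔ MaxCliqueIn G U C := by
  have hmemL : C ∈ lines G U ↔ (∃ v, (v ∈ U ∧ ∀ x ∈ U, ¬ G.Adj v x) ∧ {v} = C) ∨
      ∃ b c, ((b ∈ U ∧ c ∈ U) ∧ G.Adj b c) ∧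
        U.filter (fun x => (x = b ∨ G.Adj x b) ∧ (x = c ∨ G.Adj x c)) = C := by
    unfold lines
    simp only [Finset.mem_union, Finset.mem_image, Finset.mem_filter, Finset.mem_product,
      Prod.exists]
  rw [hmemL]
  constructor
  · rintro (⟨v, ⟨hv, hiso⟩, rfl⟩ | ⟨b, c, ⟨⟨hb, hc⟩, hbc⟩, rfl⟩)
    · refine ⟨⟨by simpa using hv, by simp⟩, ?_⟩
      intro D hD hvD x hx
      rw [Finset.mem_singleton]
      by_contra hne
      exact hiso x (hD.1 hx) (hD.2 (by exact_mod_cast hvD (Finset.mem_singleton_self v))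
        (by exact_mod_cast hx) (Ne.symm hne))
    · refine ⟨⟨Finset.filter_subset _ _, ?_⟩, ?_⟩
      · intro x hx y hy hxy
        rw [Finset.mem_coe, Finset.mem_filter] at hx hy
        obtain ⟨_, hx1, hx2⟩ := hx
        obtain ⟨_, hy1, hy2⟩ := hy
        rcases hx1 with rfl | hx1
        · rcases hy1 with rfl | hy1
          · exact absurd rfl hxy
          · exact hy1.symm
        rcases hx2 with rfl | hx2
        · rcases hy2 with rfl | hy2
          · exact absurd rfl hxy
          · exact hy2.symm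
        rcases hy1 with rfl | hy1
        · exact hx1
        rcases hy2 with rfl | hy2
        · exact hx2
        exact hG.adj hx1 hx2 hbc hy1.symm hy2.symm hxy
      · intro D hD hCD x hx
        have hbD : b ∈ D := hCD (Finset.mem_filter.mpr ⟨hb, Or.inl rfl, Or.inr hbc⟩)
        have hcD : c ∈ D := hCD (Finset.mem_filter.mpr ⟨hc, Or.inr hbc.symm, Or.inl rfl⟩)
        refine Finset.mem_filter.mpr ⟨hD.1 hx, ?_, ?_⟩
        · by_cases h : x = b
          · exact Or.inl h
          · exact Or.inr (hD.2 (by exact_mod_cast hx) (by exact_mod_cast hbD) h)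
        · by_cases h : x = c
          · exact Or.inl h
          · exact Or.inr (hD.2 (by exact_mod_cast hx) (by exact_mod_cast hcD) h)
  · intro hC
    have hne : C.Nonempty := by
      rw [Finset.nonempty_iff_ne_empty]
      rintro rfl
      obtain ⟨x, hx⟩ := hU
      have := mem_of_forall_adj hC hx (by simp)
      simp at this
    obtain ⟨b, hb⟩ := hne
    have hCc := maxCliqueIn_clique hC
    by_cases h1 : ∃ c ∈ C, c ≠ b
    · right
      obtain ⟨c, hc, hcb⟩ := h1
      have hbc : G.Adj b c := hCc (by exact_mod_cast hb) (by exact_mod_cast hc) hcb.symm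
      refine ⟨b, c, ⟨⟨maxCliqueIn_subset hC hb, maxCliqueIn_subset hC hc⟩, hbc⟩, ?_⟩
      ext x
      rw [Finset.mem_filter]
      constructor
      · rintro ⟨hx, hx1, hx2⟩
        rcases hx1 with rfl | hx1
        · exact hb
        rcases hx2 with rfl | hx2
        · exact hc
        apply mem_of_forall_adj hC hx
        intro d hd hxd
        by_cases hdb : b = d
        · subst hdb; exact hx1
        by_cases hdc : c = d
        · subst hdc; exact hx2
        exact hG.adj hx1 hx2 hbc (hCc (by exact_mod_cast hb) (by exact_mod_cast hd) hdb)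
          (hCc (by exact_mod_cast hc) (by exact_mod_cast hd) hdc) hxd
      · intro hx
        refine ⟨maxCliqueIn_subset hC hx, ?_, ?_⟩
        · by_cases h : x = b
          · exact Or.inl h
          · exact Or.inr (hCc (by exact_mod_cast hx) (by exact_mod_cast hb) h)
        · by_cases h : x = c
          · exact Or.inl h
          · exact Or.inr (hCc (by exact_mod_cast hx) (by exact_mod_cast hc) h)
    · left
      push Not at h1
      have hCb : C = {b} := by
        ext x
        rw [Finset.mem_singleton]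
        constructor
        · exact fun hx => h1 x hx
        · rintro rfl; exact hb
      refine ⟨b, ⟨maxCliqueIn_subset hC hb, ?_⟩, hCb.symm⟩
      intro x hx hbx
      have : x ∈ C := by
        apply mem_of_forall_adj hC hx
        intro d hd _
        rw [h1 d hd]
        exact hbx.symm
      rw [h1 x this] at hbx
      exact hbx.ne rfl

lemma lines_eq (G : SimpleGraph V) [DecidableRel G.Adj] (hG : DiamondFree G)
    {U : Finset V} (hU : U.Nonempty) : lines G U = maxCliques G U := by
  ext C
  rw [mem_lines_iff G hG hU, mem_maxCliques]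

lemma cheapCover_iff (G : SimpleGraph V) [DecidableRel G.Adj] (hG : DiamondFree G)
    {U : Finset V} (hU : U.Nonempty) (F : Multiset (Finset V)) :
    CheapCover G U F ↔ CheapCoverM G U F := by
  unfold CheapCover CheapCoverM
  rw [lines_eq G hG hU]
  simp only [mem_maxCliques]

lemma colorable_of_col {H : SimpleGraph V} {U : Finset V} {v : V} {n : ℕ}
    (h : Col H (U.erase v) n) : (H.induce {x | x ∈ U ∧ x ≠ v}).Colorable n := by
  obtain ⟨c, h1, h2⟩ := h
  refine ⟨SimpleGraph.Coloring.mk
    (fun x => (⟨c x.1, h1 x.1 (Finset.mem_erase.mpr ⟨x.2.2, x.2.1⟩)⟩ : Fin n)) ?_⟩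
  intro x y hxy heq
  rw [Fin.mk.injEq] at heq
  exact h2 x.1 (Finset.mem_erase.mpr ⟨x.2.2, x.2.1⟩) y.1 (Finset.mem_erase.mpr ⟨y.2.2, y.2.1⟩)
    hxy heq

lemma col_of_colorable {H : SimpleGraph V} {U : Finset V} {v : V} {n : ℕ}
    (h : (H.induce {x | x ∈ U ∧ x ≠ v}).Colorable n) : Col H (U.erase v) n := by
  classical
  obtain ⟨C⟩ := h
  refine ⟨fun x => if hx : x ∈ U ∧ x ≠ v then (C ⟨x, hx⟩ : ℕ) else 0, ?_, ?_⟩
  · intro x hx
    rw [Finset.mem_erase] at hx
    have hx' : x ∈ U ∧ x ≠ v := ⟨hx.2, hx.1⟩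
    simp only
    rw [dif_pos hx']
    exact (C ⟨x, hx'⟩).2
  · intro x hx y hy hxy
    rw [Finset.mem_erase] at hx hy
    have hx' : x ∈ U ∧ x ≠ v := ⟨hx.2, hx.1⟩
    have hy' : y ∈ U ∧ y ≠ v := ⟨hy.2, hy.1⟩
    simp only
    rw [dif_pos hx', dif_pos hy']
    intro heq
    have hadj : (H.induce {x | x ∈ U ∧ x ≠ v}).Adj ⟨x, hx'⟩ ⟨y, hy'⟩ := hxy
    exact C.valid hadj (Fin.ext heq)

lemma imperfectCert_iff (G : SimpleGraph V) (U : Finset V) :
    ImperfectCert G U ↔ LovaszCertificate G U := by
  constructor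
  · rintro ⟨a, b, ha, hb, hab, h⟩
    exact ⟨a, b, ha, hb, hab, fun v hv => ⟨col_of_colorable (h v hv).1, col_of_colorable (h v hv).2⟩⟩
  · rintro ⟨a, b, ha, hb, hab, h⟩
    exact ⟨a, b, ha, hb, hab, fun v hv => ⟨colorable_of_col (h v hv).1, colorable_of_col (h v hv).2⟩⟩

end Pool.Agent.H28.SP
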