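import Pool.Agent.H28.SPL3

/-!
The parity theorem without the hypothesis on leaves, first part: an integral dual for the exact
sets that meet all big cliques.
-/

namespace Pool.Agent.H28.SP

open Finset

variable {V : Type*} [Fintype V] [DecidableEq V]

/-- exact sets that meet all members of `F` -/
def Feas (G : SimpleGraph V) (U : Finset V) (F : Finset (Finset V)) (X : Finset V) : Prop :=
  Exact G U X ∧ ∀ Q ∈ F, 1 ≤ (Q ∩ X).card

lemma sum_parts (X X' : Finset V) (c : V → Bool) (w : V → ℤ) :
    ∑ v ∈ part X X' c true, w v + ∑ v ∈ part X X' c false, w v =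
      ∑ v ∈ X, w v + ∑ v ∈ X', w v := by
  have hs : ∀ Z : Finset V, ∑ v ∈ Z, w v = ∑ v, (if v ∈ Z then w v else 0) := by
    intro Z
    rw [← Finset.sum_filter]
    congr 1
    ext v
    simp
  rw [hs, hs, hs, hs, ← Finset.sum_add_distrib, ← Finset.sum_add_distrib]
  apply Finset.sum_congr rfl
  intro v _
  simp only [part, Finset.mem_union, Finset.mem_inter, Finset.mem_filter, Finset.mem_sdiff]
  by_cases h1 : v ∈ X <;> by_cases h2 : v ∈ X' <;> cases hcv : c v <;> simp [h1, h2]

lemma convexM {G : SimpleGraph V} (hG : DiamondFree G) {U : Finset V}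
    (hbip : ∀ W : Finset V, W ⊆ U → (PureGraph G W).Colorable 2)
    {F : Finset (Finset V)} (hF : ∀ Q ∈ F, MaxCliqueIn G U Q) {Q : Finset V}
    (hQ : MaxCliqueIn G U Q) (w : V → ℤ) (m0 m1 : ℤ)
    (h0 : ∀ X, Feas G U F X → m0 ≤ ∑ v ∈ X, w v)
    (h1 : ∀ X, Feas G U F X → (Q ∩ X).card = 1 → m1 ≤ ∑ v ∈ X, w v)
    {X0 : Finset V} (hX0 : Feas G U F X0) (hX0w : ∑ v ∈ X0, w v = m0) :
    ∀ (k : ℕ) (X : Finset V), Feas G U F X → (Q ∩ X).card = k → (Q ∩ X0).card = 0 →
      m0 + k * (m1 - m0) ≤ ∑ v ∈ X, w v := by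
  intro k
  induction k using Nat.strong_induction_on with
  | _ k ih =>
    intro X hX hk hX0Q
    rcases Nat.lt_or_ge k 2 with hk2 | hk2
    · interval_cases k
      · have := h0 X hX
        push_cast
        linarith
      · have := h1 X hX hk
        push_cast
        linarith
    · obtain ⟨c, hcol⟩ := exists_bicol_rel hG hbip ((X \ X0) ∪ (X0 \ X)) (by
        intro x hx
        rw [Finset.mem_union, Finset.mem_sdiff, Finset.mem_sdiff] at hx
        rcases hx with hx | hx
        · exact hX.1.1 hx.1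
        · exact hX0.1.1 hx.1)
      have hfeas : ∀ b, Feas G U F (part X X0 c b) := by
        intro b
        refine ⟨part_exact hG hX.1 hX0.1 hcol b, ?_⟩
        intro Q' hQ'
        have e1 := hX.2 Q' hQ'
        have e2 := hX0.2 Q' hQ'
        exact part_hit hG hX.1.1 hX0.1.1 hcol (hF Q' hQ') (by omega) b
      have hcard := card_parts X X0 c Q
      have ht1 := part_hit hG hX.1.1 hX0.1.1 hcol hQ (by omega) true
      have hf1 := part_hit hG hX.1.1 hX0.1.1 hcol hQ (by omega) false
      have ht := ih (Q ∩ part X X0 c true).card (by omega) _ (hfeas true) rfl hX0Q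
      have hf := ih (Q ∩ part X X0 c false).card (by omega) _ (hfeas false) rfl hX0Q
      have hsum := sum_parts X X0 c w
      have hkk : ((Q ∩ part X X0 c true).card : ℤ) + ((Q ∩ part X X0 c false).card : ℤ) = k := by
        have : (Q ∩ part X X0 c true).card + (Q ∩ part X X0 c false).card = k := by omega
        exact_mod_cast this
      have e3 : ((Q ∩ part X X0 c true).card : ℤ) * (m1 - m0) +
          ((Q ∩ part X X0 c false).card : ℤ) * (m1 - m0) = k * (m1 - m0) := by
        rw [← hkk]; ring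
      linarith

lemma sum_ite_inter (X Q : Finset V) (u : ℤ) :
    ∑ v ∈ X, (if v ∈ Q then u else 0) = u * ((Q ∩ X).card : ℤ) := by
  rw [← Finset.sum_filter, Finset.sum_const, Finset.filter_mem_eq_inter, Finset.inter_comm,
    nsmul_eq_mul, mul_comm]

open Classical in
theorem exists_dualM {G : SimpleGraph V} (hG : DiamondFree G) {U : Finset V}
    (hbip : ∀ W : Finset V, W ⊆ U → (PureGraph G W).Colorable 2) (F : Finset (Finset V)) :
    (∀ Q ∈ F, MaxCliqueIn G U Q) → ∀ (w : V → ℤ) (m : ℤ),
      (∀ X, Feas G U F X → m ≤ ∑ v ∈ X, w v) → (∃ X, Feas G U F X) →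
      ∃ u : Finset V → ℤ, (∀ Q, 0 ≤ u Q) ∧
        ∀ X, Exact G U X → m + ∑ Q ∈ F, u Q * (((Q ∩ X).card : ℤ) - 1) ≤ ∑ v ∈ X, w v := by
  induction F using Finset.induction_on with
  | empty =>
    intro _ w m hm _
    refine ⟨fun _ => 0, fun _ => le_rfl, ?_⟩
    intro X hX
    simp only [Finset.sum_empty, add_zero]
    exact hm X ⟨hX, by simp⟩
  | @insert Q F hQF ih =>
    intro hF w m hm hne
    have hF' : ∀ Q' ∈ F, MaxCliqueIn G U Q' := fun Q' hQ' =>
      hF Q' (Finset.mem_insert_of_mem hQ')
    have hQ := hF Q (Finset.mem_insert_self _ _)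
    have hfe : ∀ X, Feas G U (insert Q F) X ↔ Feas G U F X ∧ 1 ≤ (Q ∩ X).card := by
      intro X
      unfold Feas
      rw [Finset.forall_mem_insert]
      tauto
    obtain ⟨X1, hX1⟩ := hne
    have hX1' := ((hfe X1).mp hX1).1
    obtain ⟨X0, hX0, hmin⟩ := Finset.exists_min_image
      (Finset.univ.filter (fun X => Feas G U F X)) (fun X => ∑ v ∈ X, w v)
      ⟨X1, Finset.mem_filter.mpr ⟨Finset.mem_univ _, hX1'⟩⟩
    have hX0f := (Finset.mem_filter.mp hX0).2
    have h0 : ∀ X, Feas G U F X → ∑ v ∈ X0, w v ≤ ∑ v ∈ X, w v := fun X hX =>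
      hmin X (Finset.mem_filter.mpr ⟨Finset.mem_univ _, hX⟩)
    rcases le_or_gt m (∑ v ∈ X0, w v) with hcase | hcase
    · obtain ⟨u, hu0, hu⟩ := ih hF' w m (fun X hX => hcase.trans (h0 X hX)) ⟨X1, hX1'⟩
      refine ⟨fun C => if C = Q then 0 else u C, ?_, ?_⟩
      · intro C
        dsimp only
        split_ifs
        · exact le_rfl
        · exact hu0 C
      · intro X hX
        have := hu X hX
        rw [Finset.sum_insert hQF]
        beta_reduce
        rw [if_pos rfl, zero_mul, zero_add]
        refine le_trans (le_of_eq ?_) this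
        congr 1
        apply Finset.sum_congr rfl
        intro C hC
        have hCQ : C ≠ Q := fun h' => hQF (h' ▸ hC)
        rw [if_neg hCQ]
    · have hX0Q : (Q ∩ X0).card = 0 := by
        by_contra hcon
        have := hm X0 ((hfe X0).mpr ⟨hX0f, by omega⟩)
        omega
      have hconv := convexM hG hbip hF' hQ w (∑ v ∈ X0, w v) m h0
        (fun X hX h' => hm X ((hfe X).mpr ⟨hX, h'.ge⟩)) hX0f rfl
      set m0 := ∑ v ∈ X0, w v with hm0
      obtain ⟨u, hu0, hu⟩ := ih hF' (fun v => w v - (if v ∈ Q then (m - m0) else 0)) m0 (by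
        intro X hX
        have := hconv _ X hX rfl hX0Q
        rw [Finset.sum_sub_distrib, sum_ite_inter]
        linarith) ⟨X1, hX1'⟩
      refine ⟨fun C => if C = Q then m - m0 else u C, ?_, ?_⟩
      · intro C
        dsimp only
        split_ifs
        · linarith
        · exact hu0 C
      · intro X hX
        have h3 := hu X hX
        rw [Finset.sum_sub_distrib, sum_ite_inter] at h3
        rw [Finset.sum_insert hQF]
        beta_reduce
        rw [if_pos rfl]
        have h4 : ∑ C ∈ F, (if C = Q then m - m0 else u C) * (((C ∩ X).card : ℤ) - 1) =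
            ∑ C ∈ F, u C * (((C ∩ X).card : ℤ) - 1) := by
          apply Finset.sum_congr rfl
          intro C hC
          have hCQ : C ≠ Q := fun h' => hQF (h' ▸ hC)
          rw [if_neg hCQ]
        rw [h4]
        linarith

end Pool.Agent.H28.SP
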