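import Pool.Agent.H28.SPLink

/-!
The lemma on linked vertex sets for general weights, for `MP_f2aa9e_lc`.
-/

namespace Pool.Agent.H28.SP

open Finset

section Link

variable {V : Type*} [Fintype V] [DecidableEq V]

open Classical in
theorem linked_sum (H : SimpleGraph V) (f : V → ℤ) (z0 : V)
    (hyp : ∀ a, H.Reachable z0 a → ∃ R : Finset V, a ∉ R ∧
       (∀ v ∈ R, ∀ v', H.Adj v v' → v' ≠ a → v' ∈ R) ∧ (∀ v ∈ R, H.Reachable z0 v) ∧
       0 ≤ f a + ∑ v ∈ R, f v) :
    0 ≤ ∑ v ∈ univ.filter (fun v => H.Reachable z0 v), f v := by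
  classical
  have h0 : ∃ v, H.Reachable z0 v ∧ 0 ≤ f v := by
    obtain ⟨R, _, _, hR, hsum⟩ := hyp z0 (SimpleGraph.Reachable.refl _)
    by_cases h1 : 0 ≤ f z0
    · exact ⟨z0, SimpleGraph.Reachable.refl _, h1⟩
    · by_contra hcon
      push Not at hcon
      have h2 : ∑ v ∈ R, f v ≤ 0 := Finset.sum_nonpos (fun v hv => (hcon v (hR v hv)).le)
      omega
  set Fam : Finset (Finset V) := univ.filter (fun C : Finset V => C.Nonempty ∧
    (∀ v ∈ C, H.Reachable z0 v) ∧ LinkedSet H C ∧ 0 ≤ ∑ v ∈ C, f v) with hFam
  have hne : Fam.Nonempty := by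
    obtain ⟨v, hv, hv'⟩ := h0
    refine ⟨{v}, ?_⟩
    rw [hFam, mem_filter]
    refine ⟨mem_univ _, singleton_nonempty v, ?_, ?_, ?_⟩
    · intro u hu
      rw [mem_singleton] at hu
      rw [hu]; exact hv
    · intro a _ R _ _
      by_cases h : v ∈ R
      · left; simpa using h
      · right; simpa using h
    · rw [sum_singleton]
      exact hv'
  obtain ⟨C, hC, hmax⟩ := Finset.exists_max_image Fam Finset.card hne
  rw [hFam, mem_filter] at hC
  obtain ⟨_, hCne, hCZ, hCl, hCw⟩ := hC
  have hZ : ∀ u, H.Reachable z0 u → u ∈ C := by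
    by_contra hcon
    push Not at hcon
    obtain ⟨u, hu, huC⟩ := hcon
    obtain ⟨v, hv⟩ := hCne
    obtain ⟨p⟩ := (hCZ v hv).symm.trans hu
    obtain ⟨d, _, hd1, hd2⟩ := p.exists_boundary_dart (C : Set V) (by simpa using hv)
      (by simpa using huC)
    obtain ⟨⟨c, a⟩, hadj⟩ := d
    simp only at hd1 hd2 hadj
    rw [Finset.mem_coe] at hd1 hd2
    have hca : H.Adj c a := hadj
    have ha : H.Reachable z0 a := (hCZ c hd1).trans hca.reachable
    obtain ⟨R, haR, hRcl, hRZ, hRw⟩ := hyp a ha
    have hnew : insert a (C ∪ R) ∈ Fam := by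
      rw [hFam, mem_filter]
      refine ⟨mem_univ _, insert_nonempty _ _, ?_, ?_, ?_⟩
      · intro v hv
        rcases mem_insert.1 hv with h | h
        · rw [h]; exact ha
        · rcases mem_union.1 h with h | h
          · exact hCZ v h
          · exact hRZ v h
      · intro a' ha' R' haR' hR'
        have ha'1 : a' ≠ a := fun h => ha' (h ▸ mem_insert_self _ _)
        have ha'2 : a' ∉ C := fun h => ha' (mem_insert_of_mem (mem_union_left _ h))
        have ha'3 : a' ∉ R := fun h => ha' (mem_insert_of_mem (mem_union_right _ h))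
        have hstep : ∀ x y, H.Adj x y → x ≠ a' → y ≠ a' → (x ∈ R' ↔ y ∈ R') :=
          fun x y hxy hx hy => ⟨fun h => hR' x h y hxy hy, fun h => hR' y h x hxy.symm hx⟩
        have hac : c ∈ R' ↔ a ∈ R' :=
          hstep c a hca (fun h => ha'2 (h ▸ hd1)) (Ne.symm ha'1)
        have hra : ∀ r (q : H.Walk r a), r ∈ R → (r ∈ R' ↔ a ∈ R') := by
          intro r q
          generalize hb : a = b at q
          induction q with
          | nil => intro hr; exact absurd (hb ▸ hr) haR
          | @cons x y z hxy q ih =>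
            intro hr
            have hxa' : x ≠ a' := fun h => ha'3 (h ▸ hr)
            by_cases hy : y = a
            · have := hstep x y hxy hxa' (by rw [hy]; exact Ne.symm ha'1)
              rw [this, hy, hb]
            · have hyR : y ∈ R := hRcl x hr y hxy hy
              have hya' : y ≠ a' := fun h => ha'3 (h ▸ hyR)
              rw [hstep x y hxy hxa' hya']
              exact ih hb hyR
        have hra' : ∀ r ∈ R, (r ∈ R' ↔ a ∈ R') := by
          intro r hr
          obtain ⟨q⟩ := (hRZ r hr).symm.trans ha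
          exact hra r q hr
        by_cases hcR : c ∈ R'
        · left
          have hCR : C ⊆ R' := by
            rcases hCl a' ha'2 R' haR' hR' with h | h
            · exact h
            · exact absurd hcR (Finset.disjoint_left.1 h hd1)
          intro x hx
          rcases mem_insert.1 hx with h | h
          · rw [h]; exact hac.1 hcR
          · rcases mem_union.1 h with h | h
            · exact hCR h
            · exact (hra' x h).2 (hac.1 hcR)
        · right
          have hCR : Disjoint C R' := by
            rcases hCl a' ha'2 R' haR' hR' with h | h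
            · exact absurd (h hd1) hcR
            · exact h
          rw [Finset.disjoint_left]
          intro x hx hxR
          rcases mem_insert.1 hx with h | h
          · rw [h] at hxR; exact hcR (hac.2 hxR)
          · rcases mem_union.1 h with h | h
            · exact Finset.disjoint_left.1 hCR h hxR
            · exact hcR (hac.2 ((hra' x h).1 hxR))
      · rcases hCl a hd2 R haR hRcl with h | h
        · rw [Finset.union_eq_right.2 h, sum_insert haR]
          exact hRw
        · rw [sum_insert (by rw [mem_union]; tauto), sum_union h]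
          linarith
    have h5 := hmax _ hnew
    have h6 : C ⊂ insert a (C ∪ R) :=
      ⟨fun x hx => mem_insert_of_mem (mem_union_left _ hx),
        fun h => hd2 (h (mem_insert_self _ _))⟩
    have h7 := Finset.card_lt_card h6
    omega
  have h8 : C = univ.filter (fun v => H.Reachable z0 v) := by
    ext v
    rw [mem_filter]
    exact ⟨fun h => ⟨mem_univ _, hCZ v h⟩, fun h => hZ v h.2⟩
  rw [h8] at hCw
  exact hCw

open Classical in
/-- the same with a gap `c` -/
theorem linked_sum_ge (H : SimpleGraph V) (f : V → ℤ) (z0 : V) (c : ℤ) (hc : 0 ≤ c)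
    (hyp : ∀ a, H.Reachable z0 a → ∃ R : Finset V, a ∉ R ∧
       (∀ v ∈ R, ∀ v', H.Adj v v' → v' ≠ a → v' ∈ R) ∧ (∀ v ∈ R, H.Reachable z0 v) ∧
       c ≤ f a + ∑ v ∈ R, f v) :
    c ≤ ∑ v ∈ univ.filter (fun v => H.Reachable z0 v), f v := by
  have h1 := linked_sum H (fun v => f v - (if v = z0 then c else 0)) z0 (by
    intro a ha
    obtain ⟨R, haR, hRcl, hRZ, hRw⟩ := hyp a ha
    refine ⟨R, haR, hRcl, hRZ, ?_⟩
    rw [Finset.sum_sub_distrib, Finset.sum_ite_eq' R z0 (fun _ => c)]
    by_cases h2 : a = z0
    · rw [if_pos h2, if_neg (fun h' => haR (h2 ▸ h'))]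
      linarith
    · rw [if_neg h2]
      split_ifs <;> linarith)
  rw [Finset.sum_sub_distrib, Finset.sum_ite_eq' _ z0 (fun _ => c), if_pos (by
    rw [mem_filter]
    exact ⟨mem_univ _, SimpleGraph.Reachable.refl _⟩)] at h1
  linarith

end Link

end Pool.Agent.H28.SP
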