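import Pool.Agent.H28.SPM
import Pool.Agent.H28.SPMLink
import Pool.Agent.H28.SPL4

/-!
The parity theorem without the hypothesis on leaves, second part.
-/

namespace Pool.Agent.H28.SP

open Finset

variable {V : Type*} [Fintype V] [DecidableEq V]

lemma hbip_of_exact {G : SimpleGraph V} {U : Finset V} (h : MinObs G U) {X : Finset V}
    (hX : Exact G U X) : ∀ W : Finset V, W ⊆ U → (PureGraph G W).Colorable 2 := by
  intro W hW
  rcases hW.eq_or_ssubset with rfl | hWU
  · exact hX.colorable
  · rcases W.eq_empty_or_nonempty with rfl | hWne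
    · have : Exact G ∅ (∅ : Finset V) := ⟨by simp, by simp⟩
      exact this.colorable
    · obtain ⟨S, hS⟩ := h.2.2 W hWU hWne
      exact (exact_of_strong hS).colorable

/-- the weight of a vertex for weights `y` of the big cliques -/
noncomputable def vw (G : SimpleGraph V) (U : Finset V) (y : Finset V → ℤ) (v : V) : ℤ :=
  ∑ Q ∈ big G U, (if v ∈ Q then y Q else 0)

lemma sum_vw (G : SimpleGraph V) (U : Finset V) (y : Finset V → ℤ) (X : Finset V) :
    ∑ v ∈ X, vw G U y v = ∑ Q ∈ big G U, y Q * ((Q ∩ X).card : ℤ) := by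
  unfold vw
  rw [Finset.sum_comm]
  exact Finset.sum_congr rfl (fun Q _ => sum_ite_inter X Q (y Q))

lemma vw_le_one {G : SimpleGraph V} (hG : DiamondFree G) (hc : OneBigAtCentre G) {U : Finset V}
    (h : MinObs G U) {y : Finset V → ℤ} (hy : ∀ Q, y Q ≤ 1) (v : V) : vw G U y v ≤ 1 := by
  unfold vw
  by_cases hv : ∃ Q ∈ big G U, v ∈ Q
  · obtain ⟨Q, hQ, hvQ⟩ := hv
    rw [Finset.sum_eq_single Q]
    · rw [if_pos hvQ]; exact hy Q
    · intro Q' hQ' hne
      rw [if_neg]
      intro hvQ'
      exact hne (h.bigL_disjoint hG hc hQ hQ' hvQ hvQ')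
    · intro h'
      exact absurd hQ h'
  · push Not at hv
    rw [Finset.sum_eq_zero]
    · exact zero_le_one
    · intro Q hQ
      rw [if_neg (hv Q hQ)]

/-- integral weights `y ≤ 1` of the big cliques with gap one, from an exact set which meets all
big cliques -/
theorem exists_weights {G : SimpleGraph V} (hG : DiamondFree G) {U : Finset V}
    (h : MinObs G U) {X0 : Finset V} (hX0 : Feas G U (big G U) X0) :
    ∃ y : Finset V → ℤ, (∀ Q, y Q ≤ 1) ∧
      ∀ X, Exact G U X → ∑ Q ∈ big G U, y Q + 1 ≤ ∑ v ∈ X, vw G U y v := by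
  obtain ⟨u, hu0, hu⟩ := exists_dualM hG (hbip_of_exact h hX0.1) (big G U)
    (fun Q hQ => (mem_big.mp hQ).1) (vw G U (fun _ => 1)) ((big G U).card + 1) (by
      intro X hX
      rw [sum_vw]
      simp only [one_mul]
      rw [← Nat.cast_sum]
      have : (big G U).card + 1 ≤ ∑ Q ∈ big G U, (Q ∩ X).card := by
        by_contra hcon
        push Not at hcon
        apply h.not_all_one hG hX.1
        by_contra hcon2
        push Not at hcon2
        obtain ⟨Q0, hQ0, hne⟩ := hcon2
        have : ∑ Q ∈ big G U, 1 < ∑ Q ∈ big G U, (Q ∩ X).card := by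
          apply Finset.sum_lt_sum hX.2
          refine ⟨Q0, hQ0, ?_⟩
          have := hX.2 Q0 hQ0
          omega
        rw [← Finset.card_eq_sum_ones] at this
        omega
      exact_mod_cast this) ⟨X0, hX0⟩
  refine ⟨fun Q => 1 - u Q, ?_, ?_⟩
  · intro Q
    have := hu0 Q
    dsimp only
    linarith
  · intro X hX
    have h1 := hu X hX
    rw [sum_vw] at h1
    rw [sum_vw]
    simp only [one_mul, mul_sub, mul_one, sub_mul, Finset.sum_sub_distrib] at h1 ⊢
    rw [Finset.card_eq_sum_ones, Nat.cast_sum] at h1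
    simp only [Nat.cast_one] at h1
    linarith

open Classical in
theorem balanceM_le {G : SimpleGraph V} (hG : DiamondFree G) (hc : OneBigAtCentre G)
    {U : Finset V} (h : MinObs G U) {y : Finset V → ℤ} (hy : ∀ Q, y Q ≤ 1) {κ : ℤ} (hκ : 1 ≤ κ)
    (hyX : ∀ X, Exact G U X → ∑ Q ∈ big G U, y Q + κ ≤ ∑ v ∈ X, vw G U y v)
    {X : Finset V} (hX : Exact G U X) {z0 : V} (hz0 : z0 ∈ U) :
    κ - 1 ≤ ∑ v ∈ univ.filter (fun v => (PureGraph G U).Reachable z0 v),
      (if v ∈ X then vw G U y v else - vw G U y v) := by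
  set H := PureGraph G U with hH
  have hreach : ∀ v, H.Reachable z0 v → v ∈ U := by
    rintro v ⟨p⟩
    exact walk_support_mem _ _ p hz0 v p.end_mem_support
  apply linked_sum_ge H _ z0 (κ - 1) (by linarith)
  intro a ha
  have haU := hreach a ha
  obtain ⟨S, hS⟩ := h.exists_erase haU
  have haS : a ∉ S := fun h' => Finset.notMem_erase a U (hS.1 h')
  have hSU : S ⊆ U := hS.1.trans (Finset.erase_subset _ _)
  have hSe := exact_of_strong hS
  have hSadj : ∀ v w, H.Adj v w → v ≠ a → w ≠ a → (v ∈ S ↔ w ∉ S) := by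
    intro v w hvw hva hwa
    exact hSe.2 v w (Finset.mem_erase.mpr ⟨hva, hvw.1⟩) (Finset.mem_erase.mpr ⟨hwa, hvw.2.1⟩)
      (hvw.2.2.mono (Finset.erase_subset _ _))
  have hXadj : ∀ v w, H.Adj v w → (v ∈ X ↔ w ∉ X) := by
    intro v w hvw
    exact hX.2 v w hvw.1 hvw.2.1 hvw.2.2
  refine ⟨U.filter (fun v => H.Reachable z0 v ∧ v ≠ a ∧ (v ∈ S ↔ v ∉ X)), ?_, ?_, ?_, ?_⟩
  · rw [Finset.mem_filter]
    rintro ⟨_, _, h', _⟩
    exact h' rfl
  · intro v hv v' hvv hne'
    rw [Finset.mem_filter] at hv ⊢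
    obtain ⟨hvU, hvr, hva, hvS⟩ := hv
    have h1 := hSadj v v' hvv hva hne'
    have h2 := hXadj v v' hvv
    refine ⟨hvv.2.1, hvr.trans hvv.reachable, hne', ?_⟩
    tauto
  · intro v hv
    rw [Finset.mem_filter] at hv
    exact hv.2.1
  · -- the exact set that is `X` on the component and `S` elsewhere
    have hY : Exact G U (U.filter (fun v => if H.Reachable z0 v then v ∈ X else v ∈ S)) := by
      refine ⟨Finset.filter_subset _ _, ?_⟩
      intro v w hv hw hvw
      have hadj : H.Adj v w := ⟨hv, hw, hvw⟩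
      have h1 := hXadj v w hadj
      rw [Finset.mem_filter, Finset.mem_filter]
      by_cases hr : H.Reachable z0 v
      · have hr' : H.Reachable z0 w := hr.trans hadj.reachable
        rw [if_pos hr, if_pos hr']
        tauto
      · have hr' : ¬ H.Reachable z0 w := fun h' => hr (h'.trans hadj.symm.reachable)
        rw [if_neg hr, if_neg hr']
        have h2 := hSadj v w hadj (fun h' => hr (h' ▸ ha)) (fun h' => hr' (h' ▸ ha))
        tauto
    have h1 := hyX _ hY
    have h2 : ∑ v ∈ S, vw G U y v = ∑ Q ∈ big G U, y Q := by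
      rw [sum_vw]
      apply Finset.sum_congr rfl
      intro Q hQ
      rw [card_big_inter_strong hG hS hQ]
      simp
    rw [← h2] at h1
    have ha1 := vw_le_one hG hc h hy a
    set w := vw G U y with hw
    have hs : ∀ Z : Finset V, Z ⊆ U → ∑ v ∈ Z, w v = ∑ v ∈ U, (if v ∈ Z then w v else 0) := by
      intro Z hZ
      rw [← Finset.sum_filter, Finset.filter_mem_eq_inter, Finset.inter_eq_right.mpr hZ]
    set R := U.filter (fun v => H.Reachable z0 v ∧ v ≠ a ∧ (v ∈ S ↔ v ∉ X)) with hR
    set Y := U.filter (fun v => if H.Reachable z0 v then v ∈ X else v ∈ S) with hYdef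
    have hfR : ∑ v ∈ R, (if v ∈ X then w v else - w v) =
        ∑ v ∈ U, (if v ∈ R then (if v ∈ X then w v else - w v) else 0) := by
      rw [← Finset.sum_filter, Finset.filter_mem_eq_inter,
        Finset.inter_eq_right.mpr (Finset.filter_subset _ _)]
    have hfa : ∑ v ∈ U, (if v = a then (if v ∈ X then w v else 0) else 0) =
        if a ∈ X then w a else 0 := by
      rw [Finset.sum_ite_eq' U a (fun v => if v ∈ X then w v else 0), if_pos haU]
    have key : ∑ v ∈ U, (if v ∈ Y then w v else 0) = ∑ v ∈ U, (if v ∈ S then w v else 0) +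
        (∑ v ∈ U, (if v ∈ R then (if v ∈ X then w v else - w v) else 0) +
        ∑ v ∈ U, (if v = a then (if v ∈ X then w v else 0) else 0)) := by
      rw [← Finset.sum_add_distrib, ← Finset.sum_add_distrib]
      apply Finset.sum_congr rfl
      intro v hvU
      by_cases hr : H.Reachable z0 v
      · by_cases hva : v = a
        · subst hva
          by_cases hvX : v ∈ X
          · simp [hYdef, hR, hvU, hr, hvX, haS]
          · simp [hYdef, hR, hvU, hr, hvX, haS]
        · by_cases hvX : v ∈ X <;> by_cases hvS : v ∈ S <;>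
            simp [hYdef, hR, hvU, hr, hva, hvX, hvS]
      · have hva : v ≠ a := fun h' => hr (h' ▸ ha)
        by_cases hvS : v ∈ S <;> simp [hYdef, hR, hvU, hr, hva, hvS]
    rw [hs Y (Finset.filter_subset _ _), hs S hSU, key, hfa, ← hfR] at h1
    by_cases haX : a ∈ X
    · rw [if_pos haX] at h1 ⊢
      linarith
    · rw [if_neg haX] at h1 ⊢
      linarith

end Pool.Agent.H28.SP
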