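import Pool.Agent.H28.SPM2

/-!
The parity theorem without the hypothesis on leaves, last part.
-/

namespace Pool.Agent.H28.SP

open Finset

variable {V : Type*} [Fintype V] [DecidableEq V]

open Classical in
lemma sum_compl_sign {G : SimpleGraph V} {U : Finset V} {X : Finset V} (w : V → ℤ) {z0 : V}
    (hz0 : z0 ∈ U) :
    ∑ v ∈ univ.filter (fun v => (PureGraph G U).Reachable z0 v),
      (if v ∈ U \ X then w v else - w v) =
    - ∑ v ∈ univ.filter (fun v => (PureGraph G U).Reachable z0 v),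
      (if v ∈ X then w v else - w v) := by
  rw [← Finset.sum_neg_distrib]
  apply Finset.sum_congr rfl
  intro v hv
  have hvU : v ∈ U := by
    obtain ⟨p⟩ := (Finset.mem_filter.mp hv).2
    exact walk_support_mem _ _ p hz0 v p.end_mem_support
  by_cases hvX : v ∈ X <;> simp [hvU, hvX]

open Classical in
theorem balanceM {G : SimpleGraph V} (hG : DiamondFree G) (hc : OneBigAtCentre G)
    {U : Finset V} (h : MinObs G U) {y : Finset V → ℤ} (hy : ∀ Q, y Q ≤ 1)
    (hyX : ∀ X, Exact G U X → ∑ Q ∈ big G U, y Q + 1 ≤ ∑ v ∈ X, vw G U y v)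
    {X : Finset V} (hX : Exact G U X) {z0 : V} (hz0 : z0 ∈ U) :
    ∑ v ∈ univ.filter (fun v => (PureGraph G U).Reachable z0 v),
      (if v ∈ X then vw G U y v else - vw G U y v) = 0 := by
  have h1 := balanceM_le hG hc h hy le_rfl hyX hX hz0
  have h2 := balanceM_le hG hc h hy le_rfl hyX hX.compl hz0
  rw [sum_compl_sign _ hz0] at h2
  linarith

/-- all exact sets have the same weight -/
lemma halfM {G : SimpleGraph V} (hG : DiamondFree G) (hc : OneBigAtCentre G)
    {U : Finset V} (h : MinObs G U) {y : Finset V → ℤ} (hy : ∀ Q, y Q ≤ 1)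
    (hyX : ∀ X, Exact G U X → ∑ Q ∈ big G U, y Q + 1 ≤ ∑ v ∈ X, vw G U y v)
    {X : Finset V} (hX : Exact G U X) :
    2 * ∑ v ∈ X, vw G U y v = ∑ v ∈ U, vw G U y v := by
  classical
  set w := vw G U y with hw
  set g : V → (PureGraph G U).ConnectedComponent := (PureGraph G U).connectedComponentMk with hg
  have e0 : ∑ v ∈ U, (if v ∈ X then w v else - w v) = 0 := by
    rw [← Finset.sum_fiberwise_of_maps_to (s := U) (t := U.image g) (g := g)
      (fun x hx => Finset.mem_image_of_mem g hx)]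
    apply Finset.sum_eq_zero
    intro b hb
    rw [Finset.mem_image] at hb
    obtain ⟨z0, hz0, rfl⟩ := hb
    have h1 := balanceM hG hc h hy hyX hX hz0
    rw [← hw] at h1
    rw [← h1]
    apply Finset.sum_congr _ (fun _ _ => rfl)
    ext v
    rw [Finset.mem_filter, Finset.mem_filter]
    have h2 : g v = g z0 ↔ (PureGraph G U).Reachable z0 v := by
      rw [hg, SimpleGraph.ConnectedComponent.eq]
      exact ⟨fun h' => h'.symm, fun h' => h'.symm⟩
    rw [h2]
    constructor
    · rintro ⟨_, h3⟩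
      exact ⟨mem_univ _, h3⟩
    · rintro ⟨_, h3⟩
      refine ⟨?_, h3⟩
      obtain ⟨p⟩ := h3
      exact walk_support_mem _ _ p hz0 v p.end_mem_support
  have e1 : ∑ v ∈ U, (if v ∈ X then w v else - w v) =
      ∑ v ∈ U, (2 * (if v ∈ X then w v else 0) - w v) := by
    apply Finset.sum_congr rfl
    intro v _
    by_cases hvX : v ∈ X
    · rw [if_pos hvX, if_pos hvX]; ring
    · rw [if_neg hvX, if_neg hvX]; ring
  have e2 : ∑ v ∈ U, (if v ∈ X then w v else 0) = ∑ v ∈ X, w v := by
    rw [← Finset.sum_filter, Finset.filter_mem_eq_inter, Finset.inter_eq_right.mpr hX.1]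
  rw [e1, Finset.sum_sub_distrib, ← Finset.mul_sum, e2] at e0
  linarith

/-- in a minimal obstruction no vertex set meets all maximal cliques in an odd number of
vertices -/
theorem MinObs.no_oddM {G : SimpleGraph V} (hG : DiamondFree G) (hc : OneBigAtCentre G)
    {U : Finset V} (h : MinObs G U) :
    ¬ ∃ X ⊆ U, ∀ C, MaxCliqueIn G U C → Odd (C ∩ X).card := by
  rintro ⟨X, hXU, hodd⟩
  have hX : Exact G U X := by
    apply exact_of_card hXU
    intro v w hv hw hvw
    have h1 := hodd _ (maxCliqueIn_pair hv hw hvw)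
    have h2 : (({v, w} : Finset V) ∩ X).card ≤ 2 :=
      (Finset.card_le_card Finset.inter_subset_left).trans Finset.card_le_two
    rw [Nat.odd_iff] at h1
    omega
  have hfeas : Feas G U (big G U) X :=
    ⟨hX, fun Q hQ => (hodd Q (mem_big.mp hQ).1).pos⟩
  obtain ⟨y, hy, hyX⟩ := exists_weights hG h hfeas
  have hhalf := halfM hG hc h hy hyX hX
  -- the gap is even
  have heven : Even (∑ v ∈ X, vw G U y v - ∑ Q ∈ big G U, y Q) := by
    rw [sum_vw, ← Finset.sum_sub_distrib]
    apply Finset.even_sum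
    intro Q hQ
    obtain ⟨k, hk⟩ := hodd Q (mem_big.mp hQ).1
    rw [hk]
    refine ⟨y Q * k, ?_⟩
    push_cast
    ring
  have hgap := hyX X hX
  have hyX2 : ∀ Y, Exact G U Y → ∑ Q ∈ big G U, y Q + 2 ≤ ∑ v ∈ Y, vw G U y v := by
    intro Y hY
    have h1 := halfM hG hc h hy hyX hY
    obtain ⟨k, hk⟩ := heven
    omega
  obtain ⟨z0, hz0⟩ := h.1
  have h1 := balanceM_le hG hc h hy (by norm_num) hyX2 hX hz0
  have h2 := balanceM_le hG hc h hy (by norm_num) hyX2 hX.compl hz0
  rw [sum_compl_sign _ hz0] at h2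
  linarith

theorem MinObs.enlargeM {G : SimpleGraph V} (hG : DiamondFree G) {U : Finset V}
    (h : MinObs G U)
    (hno : ¬ ∃ X ⊆ U, ∀ C, MaxCliqueIn G U C → Odd (C ∩ X).card) :
    ∃ W : Finset V, U ⊆ W ∧ (∀ v, v ∉ W → InTriangle G v) ∧
      ¬ ∃ X ⊆ W, ∀ C, MaxCliqueIn G W C → Odd (C ∩ X).card := by
  classical
  set W : Finset V := U ∪ univ.filter (fun v => ¬ InTriangle G v) with hW
  have hUW : U ⊆ W := Finset.subset_union_left
  have hWU : ∀ v ∈ W, v ∉ U → ¬ InTriangle G v := by
    intro v hv hvU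
    rw [hW, Finset.mem_union, Finset.mem_filter] at hv
    rcases hv with hv | hv
    · exact absurd hv hvU
    · exact hv.2
  -- maximal cliques of `G[U]` are maximal in `G[W]`
  have hup : ∀ C, MaxCliqueIn G U C → MaxCliqueIn G W C := by
    intro C hC
    refine ⟨⟨(maxCliqueIn_subset hC).trans hUW, maxCliqueIn_clique hC⟩, ?_⟩
    intro D hD hCD x hx
    have hxU : x ∈ U ∨ x ∈ C := by
      by_cases hxC : x ∈ C
      · exact Or.inr hxC
      · left
        by_contra hxU
        refine hWU x (hD.1 hx) hxU (inTriangle_of_adj (maxCliqueIn_clique hC)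
          (h.two_le_card hG hC) ?_)
        intro d hd
        exact hD.2 (by exact_mod_cast hx) (by exact_mod_cast hCD hd) (fun h' => hxC (h' ▸ hd))
    rcases hxU with hxU | hxC
    · apply mem_of_forall_adj hC hxU
      intro d hd hxd
      exact hD.2 (by exact_mod_cast hx) (by exact_mod_cast hCD hd) hxd
    · exact hxC
  refine ⟨W, hUW, ?_, ?_⟩
  · intro v hv
    by_contra hcon
    exact hv (by rw [hW, Finset.mem_union, Finset.mem_filter]; exact Or.inr ⟨mem_univ _, hcon⟩)
  · rintro ⟨X, _, hX⟩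
    apply hno
    refine ⟨X ∩ U, Finset.inter_subset_right, ?_⟩
    intro C hC
    have h1 := hX C (hup C hC)
    have h3 : C ∩ (X ∩ U) = C ∩ X := by
      ext x
      rw [Finset.mem_inter, Finset.mem_inter, Finset.mem_inter]
      exact ⟨fun h' => ⟨h'.1, h'.2.1⟩, fun h' => ⟨h'.1, h'.2, maxCliqueIn_subset hC h'.1⟩⟩
    rw [h3]
    exact h1

end Pool.Agent.H28.SP
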