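import Pool.Agent.H28.SPM3

namespace Pool.Agent.H28.SP

open Finset

variable {V : Type*} [Fintype V] [DecidableEq V]

/-- `a` is good: an exact set contains `a`, two vertices of the big clique of `a`, one of the others -/
def Good (G : SimpleGraph V) (U : Finset V) (a : V) (X : Finset V) : Prop :=
  Exact G U X ∧ a ∈ X ∧ ∀ Q ∈ big G U, (Q ∩ X).card = if a ∈ Q then 2 else 1

open Classical in
theorem exists_good {G : SimpleGraph V} (hG : DiamondFree G) {U : Finset V} (h : MinObs G U)
    {X0 : Finset V} (hX0 : Exact G U X0) {v : V} (hv : v ∈ U) :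
    ∃ a ∈ U, a ≠ v ∧ (PureGraph G U).Reachable v a ∧ ∃ X, Good G U a X := by
  obtain ⟨H, hH⟩ : ∃ H, H = PureGraph G U := ⟨_, rfl⟩
  have hreach : ∀ x, H.Reachable v x → x ∈ U := by
    rw [hH]
    rintro x ⟨p⟩
    exact walk_support_mem _ _ p hv x p.end_mem_support
  obtain ⟨a, haR, hmax⟩ := (univ.filter (fun x => H.Reachable v x)).exists_max_image
    (fun x => H.dist v x) ⟨v, by simp⟩
  rw [Finset.mem_filter] at haR
  have har := haR.2
  have haU := hreach a har
  have hmax' : ∀ x, H.Reachable v x → H.dist v x ≤ H.dist v a := fun x hx =>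
    hmax x (Finset.mem_filter.mpr ⟨Finset.mem_univ _, hx⟩)
  have hav : a ≠ v := by
    obtain ⟨w, hw, hvw⟩ := h.pureEdge hG v hv
    have hadj : H.Adj v w := by rw [hH]; exact ⟨hv, hw, hvw⟩
    have h1 := hmax' w hadj.reachable
    rw [SimpleGraph.dist_eq_one_iff_adj.mpr hadj] at h1
    intro h0
    rw [h0, SimpleGraph.dist_self] at h1
    omega
  refine ⟨a, haU, hav, by rw [← hH]; exact har, ?_⟩
  obtain ⟨S, hS⟩ := h.exists_erase haU
  have haS : a ∉ S := fun h' => Finset.notMem_erase a U (hS.1 h')
  have hSU : S ⊆ U := hS.1.trans (Finset.erase_subset _ _)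
  have hSe := exact_of_strong hS
  have hSadj : ∀ x y, H.Adj x y → x ≠ a → y ≠ a → (x ∈ S ↔ y ∉ S) := by
    intro x y hxy hxa hya
    rw [hH] at hxy
    exact hSe.2 x y (Finset.mem_erase.mpr ⟨hxa, hxy.1⟩) (Finset.mem_erase.mpr ⟨hya, hxy.2.1⟩)
      (hxy.2.2.mono (Finset.erase_subset _ _))
  have hXadj : ∀ x y, H.Adj x y → (x ∈ X0 ↔ y ∉ X0) := by
    intro x y hxy
    rw [hH] at hxy
    exact hX0.2 x y hxy.1 hxy.2.1 hxy.2.2
  have key : ∀ n : ℕ, ∀ x, H.Reachable v x → x ≠ a → H.dist v x = n →
      ((x ∈ S ↔ x ∈ X0) ↔ (v ∈ S ↔ v ∈ X0)) := by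
    intro n
    induction n using Nat.strong_induction_on with
    | _ n ih =>
      intro x hx hxa hn
      by_cases hxv : x = v
      · rw [hxv]
      · obtain ⟨p, hp⟩ := hx.symm.exists_walk_length_eq_dist
        cases p with
        | nil => exact absurd rfl hxv
        | @cons _ y _ hxy q =>
          have h1 : H.dist v y ≤ q.length := by
            rw [SimpleGraph.dist_comm]
            exact SimpleGraph.dist_le q
          have h2 : q.length + 1 = H.dist v x := by
            rw [SimpleGraph.Walk.length_cons, SimpleGraph.dist_comm] at hp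
            exact hp
          have hy : H.Reachable v y := q.reachable.symm
          have hya : y ≠ a := by
            intro h0
            have h3 := hmax' x hx
            rw [← h0] at h3
            omega
          have h4 := ih (H.dist v y) (by omega) y hy hya rfl
          have h5 := hSadj x y hxy hxa hya
          have h6 := hXadj x y hxy
          tauto
  have hnb : ∀ u ∈ U, PureEdge G U a u → u ∉ S := by
    obtain ⟨C, hC, hmiss⟩ := h.exists_missed haU hS
    obtain ⟨w, hw, haw, hCw⟩ := missed_is_pureEdge hG haU h.2.1 hS hC hmiss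
    have hwS : w ∉ S := by
      intro hwS
      apply hmiss
      exact ⟨w, Finset.mem_inter.mpr ⟨hwS, by rw [hCw]; simp⟩⟩
    have hadj : ∀ u ∈ U, PureEdge G U a u → H.Adj a u := fun u hu hau => by
      rw [hH]; exact ⟨haU, hu, hau⟩
    intro u hu hau
    have k1 := key _ w (har.trans (hadj w hw haw).reachable) (hadj w hw haw).ne' rfl
    have k2 := key _ u (har.trans (hadj u hu hau).reachable) (hadj u hu hau).ne' rfl
    have k3 := hXadj a w (hadj w hw haw)
    have k4 := hXadj a u (hadj u hu hau)
    tauto
  refine ⟨insert a S, ⟨?_, ?_⟩, Finset.mem_insert_self _ _, ?_⟩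
  · intro x hx
    rw [Finset.mem_insert] at hx
    rcases hx with rfl | hx
    · exact haU
    · exact hSU hx
  · intro x y hx hy hxy
    rw [Finset.mem_insert, Finset.mem_insert]
    by_cases hxa : x = a
    · subst hxa
      have h1 := hnb y hy hxy
      have h2 := hxy.1.ne.symm
      tauto
    · by_cases hya : y = a
      · subst hya
        have h1 := hnb x hx hxy.symm
        tauto
      · have h1 := hSadj x y (by rw [hH]; exact ⟨hx, hy, hxy⟩) hxa hya
        tauto
  · intro Q hQ
    have h1 := card_big_inter_strong hG hS hQ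
    split_ifs with haQ
    · rw [Finset.inter_insert_of_mem haQ, Finset.card_insert_of_notMem, h1]
      intro h2
      exact haS (Finset.mem_inter.mp h2).2
    · rw [Finset.inter_insert_of_notMem haQ, h1]

end Pool.Agent.H28.SP
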