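import Pool.Agent.H28.SPM3
import Pool.Agent.H28.SPKHole

/-!
Minimal obstructions whose pure edges do not form a bipartite graph.
-/

namespace Pool.Agent.H28.SP

open Finset

variable {V : Type*} [Fintype V] [DecidableEq V]

/-- as `deg_le_two_of_no_leaves`, for non-bipartite pure graphs -/
theorem MinObs.deg_le_two_of_not_colorable {G : SimpleGraph V} {U : Finset V}
    (h : MinObs G U) (hnc : ¬ (PureGraph G U).Colorable 2) (v a b c : V)
    (ha : (PureGraph G U).Adj v a) (hb : (PureGraph G U).Adj v b) (hc : (PureGraph G U).Adj v c) :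
    a = b ∨ a = c ∨ b = c := by
  classical
  rw [SimpleGraph.two_colorable_iff_forall_loop_even] at hnc
  push Not at hnc
  obtain ⟨r0, p0, hp0⟩ := hnc
  have hex : ∃ n, Odd n ∧ ∃ (r : V) (p : (PureGraph G U).Walk r r), p.length = n :=
    ⟨p0.length, Nat.not_even_iff_odd.mp hp0, r0, p0, rfl⟩
  obtain ⟨hodd, r, p, hp⟩ := Nat.find_spec hex
  set n := Nat.find hex with hn
  have hmin : ∀ (s : V) (q : (PureGraph G U).Walk s s), Odd q.length → n ≤ q.length := by
    intro s q hq
    exact Nat.find_min' hex ⟨hq, s, q, rfl⟩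
  -- the support of `p` is `U`
  have hsupU : ∀ (x y : V) (q : (PureGraph G U).Walk x y), x ∈ U → ∀ z ∈ q.support, z ∈ U := by
    intro x y q
    induction q with
    | nil => intro hx z hz; simpa using (by simpa using hz : z = _) ▸ hx
    | cons h' q ih =>
      intro hx z hz
      rw [SimpleGraph.Walk.support_cons, List.mem_cons] at hz
      rcases hz with rfl | hz
      · exact hx
      · exact ih h'.2.1 z hz
  have hrU : r ∈ U := by
    cases p with
    | nil => rw [← hp] at hodd; simp at hodd
    | cons h' _ => exact h'.1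
  have hW : p.support.toFinset = U := by
    by_contra hne
    have hsub : p.support.toFinset ⊆ U := by
      intro z hz
      rw [List.mem_toFinset] at hz
      exact hsupU _ _ p hrU z hz
    have hss := Finset.ssubset_iff_subset_ne.mpr ⟨hsub, hne⟩
    obtain ⟨S, hS⟩ := h.2.2 _ hss ⟨r, by simp⟩
    have hcol := (exact_of_strong hS).colorable
    rw [SimpleGraph.two_colorable_iff_forall_loop_even] at hcol
    have hq := hcol r (p.transfer (PureGraph G p.support.toFinset) (by
      intro e
      induction e using Sym2.ind with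
      | _ x y =>
        intro he
        rw [SimpleGraph.mem_edgeSet]
        have h1 := p.adj_of_mem_edges he
        refine ⟨?_, ?_, h1.2.2.mono hsub⟩
        · rw [List.mem_toFinset]; exact p.fst_mem_support_of_mem_edges he
        · rw [List.mem_toFinset]; exact p.snd_mem_support_of_mem_edges he))
    rw [SimpleGraph.Walk.length_transfer, hp] at hq
    exact (Nat.not_even_iff_odd.mpr hodd) hq
  have hmem : ∀ z ∈ U, z ∈ p.support := by
    intro z hz
    rw [← hW, List.mem_toFinset] at hz
    exact hz
  -- rotate `p` to start at `v`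
  have hv := hmem v ha.1
  set q := (p.dropUntil v hv).append (p.takeUntil v hv) with hq
  have hqn : q.length = n := by
    have h1 : (p.takeUntil v hv).length + (p.dropUntil v hv).length = p.length := by
      rw [← SimpleGraph.Walk.length_append, SimpleGraph.Walk.take_spec]
    rw [hq, SimpleGraph.Walk.length_append]
    omega
  have hqs : ∀ z ∈ U, z ∈ q.support := by
    intro z hz
    have h1 := hmem z hz
    rw [← p.take_spec hv, SimpleGraph.Walk.mem_support_append_iff] at h1
    rw [hq, SimpleGraph.Walk.mem_support_append_iff]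
    exact h1.symm
  have key : ∀ z, (PureGraph G U).Adj v z → z = q.getVert 1 ∨ z = q.getVert (n - 1) := by
    intro z hz
    have hzq := hqs z hz.2.1
    have h1 : (q.takeUntil z hzq).length + (q.dropUntil z hzq).length = q.length := by
      rw [← SimpleGraph.Walk.length_append, SimpleGraph.Walk.take_spec]
    have h2 := hmin _ (SimpleGraph.Walk.cons hz.symm (q.takeUntil z hzq))
    have h3 := hmin _ (SimpleGraph.Walk.cons hz (q.dropUntil z hzq))
    have h4 := SimpleGraph.Walk.getVert_length_takeUntil hzq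
    rw [SimpleGraph.Walk.length_cons] at h2 h3
    set i := (q.takeUntil z hzq).length with hi
    have hi0 : i ≠ 0 := by
      intro h'
      rw [h', SimpleGraph.Walk.getVert_zero] at h4
      exact hz.ne h4
    rcases Nat.even_or_odd i with hev | hod
    · right
      have := h2 hev.add_one
      have h5 : i ≤ n := by omega
      have h6 : i ≠ n := by
        intro h'
        rw [h'] at hev
        exact (Nat.not_even_iff_odd.mpr hodd) hev
      have h7 : i = n - 1 := by omega
      rw [← h7]; exact h4.symm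
    · left
      have h5 : Odd ((q.dropUntil z hzq).length + 1) := by
        rw [Nat.odd_iff] at hod hodd ⊢
        omega
      have := h3 h5
      have h7 : i = 1 := by omega
      rw [← h7]; exact h4.symm
  rcases key a ha with h1 | h1 <;> rcases key b hb with h2 | h2 <;>
    rcases key c hc with h3 | h3 <;> simp [h1, h2, h3]

/-- the pure graph of such an obstruction is connected -/
theorem MinObs.reachable_of_not_colorable {G : SimpleGraph V} {U : Finset V}
    (h : MinObs G U) (hnc : ¬ (PureGraph G U).Colorable 2) {v w : V} (hv : v ∈ U) (hw : w ∈ U) :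
    (PureGraph G U).Reachable w v := by
  classical
  by_contra hcon
  set A : Finset V := U.filter (fun x => (PureGraph G U).Reachable x v) with hA
  set B : Finset V := U.filter (fun x => ¬ (PureGraph G U).Reachable x v) with hB
  have hvA : v ∈ A := Finset.mem_filter.mpr ⟨hv, SimpleGraph.Reachable.refl _⟩
  have hwB : w ∈ B := Finset.mem_filter.mpr ⟨hw, hcon⟩
  have hAU : A ⊂ U := ⟨Finset.filter_subset _ _, fun h' =>
    hcon (Finset.mem_filter.mp (h' hw)).2⟩
  have hBU : B ⊂ U := ⟨Finset.filter_subset _ _, fun h' =>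
    (Finset.mem_filter.mp (h' hv)).2 (SimpleGraph.Reachable.refl _)⟩
  obtain ⟨S, hS⟩ := h.2.2 A hAU ⟨v, hvA⟩
  obtain ⟨T, hT⟩ := h.2.2 B hBU ⟨w, hwB⟩
  have hSe := exact_of_strong hS
  have hTe := exact_of_strong hT
  apply hnc
  have hX : Exact G U (S ∪ T) := by
    refine ⟨Finset.union_subset (hSe.1.trans hAU.1) (hTe.1.trans hBU.1), ?_⟩
    intro x y hx hy hxy
    have hadj : (PureGraph G U).Adj x y := ⟨hx, hy, hxy⟩
    rw [Finset.mem_union, Finset.mem_union]
    by_cases hr : (PureGraph G U).Reachable x v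
    · have hr' : (PureGraph G U).Reachable y v := hadj.symm.reachable.trans hr
      have h1 := hSe.2 x y (Finset.mem_filter.mpr ⟨hx, hr⟩) (Finset.mem_filter.mpr ⟨hy, hr'⟩)
        (hxy.mono hAU.1)
      have h2 : x ∉ T := fun h' => (Finset.mem_filter.mp (hTe.1 h')).2 hr
      have h3 : y ∉ T := fun h' => (Finset.mem_filter.mp (hTe.1 h')).2 hr'
      tauto
    · have hr' : ¬ (PureGraph G U).Reachable y v := fun h' => hr (hadj.reachable.trans h')
      have h1 := hTe.2 x y (Finset.mem_filter.mpr ⟨hx, hr⟩) (Finset.mem_filter.mpr ⟨hy, hr'⟩)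
        (hxy.mono hBU.1)
      have h2 : x ∉ S := fun h' => hr (Finset.mem_filter.mp (hSe.1 h')).2
      have h3 : y ∉ S := fun h' => hr' (Finset.mem_filter.mp (hSe.1 h')).2
      tauto
  exact hX.colorable

/-- a strong stable set of `G[U - v]` contains one neighbour of `v` and misses the other one -/
theorem MinObs.two_nbrs {G : SimpleGraph V} (hG : DiamondFree G) {U : Finset V}
    (h : MinObs G U) (hnc : ¬ (PureGraph G U).Colorable 2) {v : V} (hv : v ∈ U) {S : Finset V}
    (hS : StrongStableIn G (U.erase v) S) :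
    ∃ x y, (PureGraph G U).Adj v x ∧ (PureGraph G U).Adj v y ∧ x ∈ S ∧ y ∉ S ∧
      ∀ z, (PureGraph G U).Adj v z → z = x ∨ z = y := by
  classical
  have hSe := exact_of_strong hS
  have hvS : v ∉ S := fun h' => Finset.notMem_erase v U (hS.1 h')
  obtain ⟨C, hC, hmiss⟩ := h.exists_missed hv hS
  obtain ⟨y, hy, hvy, rfl⟩ := missed_is_pureEdge hG hv h.2.1 hS hC hmiss
  have hyS : y ∉ S := fun h' => hmiss ⟨y, Finset.mem_inter.mpr ⟨h', by simp⟩⟩
  have hx : ∃ x, (PureGraph G U).Adj v x ∧ x ∈ S := by
    by_contra hcon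
    push Not at hcon
    apply hnc
    have hX : Exact G U (insert v S) := by
      refine ⟨?_, ?_⟩
      · intro z hz
        rcases Finset.mem_insert.mp hz with rfl | hz
        · exact hv
        · exact Finset.mem_of_mem_erase (hS.1 hz)
      · intro a b ha hb hab
        rw [Finset.mem_insert, Finset.mem_insert]
        by_cases hav : a = v
        · subst hav
          have h1 := hcon b ⟨ha, hb, hab⟩
          have h2 : b ≠ a := hab.1.ne.symm
          tauto
        · by_cases hbv : b = v
          · subst hbv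
            have h1 := hcon a ⟨hb, ha, hab.symm⟩
            tauto
          · have h1 := hSe.2 a b (Finset.mem_erase.mpr ⟨hav, ha⟩)
              (Finset.mem_erase.mpr ⟨hbv, hb⟩) (hab.mono (Finset.erase_subset _ _))
            tauto
    exact hX.colorable
  obtain ⟨x, hvx, hxS⟩ := hx
  refine ⟨x, y, hvx, ⟨hv, hy, hvy⟩, hxS, hyS, ?_⟩
  intro z hz
  rcases h.deg_le_two_of_not_colorable hnc v x y z hvx ⟨hv, hy, hvy⟩ hz with h1 | h1 | h1
  · exact absurd (h1 ▸ hxS) hyS
  · exact Or.inl h1.symm
  · exact Or.inr h1.symm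

/-- a minimal obstruction whose pure graph is not bipartite has at most one big clique, which is a
triangle -/
theorem MinObs.few_of_not_colorable {G : SimpleGraph V} (hG : DiamondFree G)
    (hc : OneBigAtCentre G) {U : Finset V} (h : MinObs G U)
    (hnc : ¬ (PureGraph G U).Colorable 2) :
    ∑ C ∈ maxCliques G U, (C.card - 2) ≤ 2 := by
  classical
  have e1 : ∑ C ∈ big G U, (C.card - 2) + ∑ C ∈ small G U, (C.card - 2) =
      ∑ C ∈ maxCliques G U, (C.card - 2) := Finset.sum_filter_add_sum_filter_not _ _ _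
  have e2 : ∑ C ∈ small G U, (C.card - 2) = 0 := by
    apply Finset.sum_eq_zero
    intro C hC
    have := (mem_small.mp hC).2
    omega
  rcases (big G U).eq_empty_or_nonempty with h0 | ⟨Q, hQ⟩
  · rw [h0, Finset.sum_empty] at e1
    omega
  have hQ1 := mem_big.mp hQ
  have hQc := maxCliqueIn_clique hQ1.1
  obtain ⟨v, hvQ⟩ : Q.Nonempty := Finset.card_pos.mp (by have := hQ1.2; omega)
  have hvU := maxCliqueIn_subset hQ1.1 hvQ
  obtain ⟨T1, hT1⟩ := h.exists_erase hvU
  obtain ⟨x, x', hvx, hvx', hxT1, hx'T1, hNv⟩ := h.two_nbrs hG hnc hvU hT1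
  have hxU : x ∈ U := hvx.2.1
  obtain ⟨T2, hT2⟩ := h.exists_erase hxU
  obtain ⟨z, z', hxz, hxz', hzT2, hz'T2, hNx⟩ := h.two_nbrs hG hnc hxU hT2
  have hvT1 : v ∉ T1 := fun h' => Finset.notMem_erase v U (hT1.1 h')
  have hxT2 : x ∉ T2 := fun h' => Finset.notMem_erase x U (hT2.1 h')
  have hvnx : v ≠ x := hvx.ne
  have hxx' : x ≠ x' := fun h' => hx'T1 (h' ▸ hxT1)
  have hex1 : ∀ p q, (PureGraph G U).Adj p q → p ≠ v → q ≠ v → (p ∈ T1 ↔ q ∉ T1) := by
    intro p q hpq hp hq
    exact (exact_of_strong hT1).2 p q (Finset.mem_erase.mpr ⟨hp, hpq.1⟩)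
      (Finset.mem_erase.mpr ⟨hq, hpq.2.1⟩) (hpq.2.2.mono (Finset.erase_subset _ _))
  have hex2 : ∀ p q, (PureGraph G U).Adj p q → p ≠ x → q ≠ x → (p ∈ T2 ↔ q ∉ T2) := by
    intro p q hpq hp hq
    exact (exact_of_strong hT2).2 p q (Finset.mem_erase.mpr ⟨hp, hpq.1⟩)
      (Finset.mem_erase.mpr ⟨hq, hpq.2.1⟩) (hpq.2.2.mono (Finset.erase_subset _ _))
  have hx'v : v ∈ T2 ↔ x' ∉ T2 := hex2 v x' hvx' hvnx (Ne.symm hxx')
  have hvz : v = z ∨ v = z' := hNx v hvx.symm
  rcases hvz with hvz | hvz
  · -- `v ∈ T2`: impossible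
    exfalso
    have hvT2 : v ∈ T2 := hvz ▸ hzT2
    have hz'v : z' ≠ v := fun h' => hz'T2 (h' ▸ hvT2)
    have claim : ∀ w b (p : (PureGraph G U).Walk w b), b = v → w ≠ v → w ≠ x →
        (w ∈ T1 ↔ w ∈ T2) := by
      intro w b p
      induction p with
      | nil => intro hb hw; exact absurd hb hw
      | @cons w w1 b hadj p ih =>
        intro hb hwv hwx
        by_cases h1 : w1 = v
        · rcases hNv w (h1 ▸ hadj).symm with h2 | h2
          · exact absurd h2 hwx
          · rw [h2]
            tauto
        · by_cases h2 : w1 = x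
          · rcases hNx w (h2 ▸ hadj).symm with h3 | h3
            · exact absurd (h3.trans hvz.symm) hwv
            · have h4 := hex1 x z' hxz' (Ne.symm hvnx) hz'v
              rw [h3]
              tauto
          · have h3 := ih hb h1 h2
            have h4 := hex1 w w1 hadj hwv h1
            have h5 := hex2 w w1 hadj hwx h2
            tauto
    obtain ⟨s, hs⟩ := Finset.card_pos.mp
      (show 0 < (Q ∩ T1).card by rw [card_big_inter_strong hG hT1 hQ]; exact one_pos)
    rw [Finset.mem_inter] at hs
    have hsU := maxCliqueIn_subset hQ1.1 hs.1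
    have hsv : s ≠ v := fun h' => hvT1 (h' ▸ hs.2)
    have hxQ : x ∉ Q := by
      intro hxQ
      obtain ⟨t, ht, htv, htx⟩ : ∃ t ∈ Q, t ≠ v ∧ t ≠ x := by
        by_contra hcon
        push Not at hcon
        have hsub : Q ⊆ {v, x} := by
          intro t ht
          rw [Finset.mem_insert, Finset.mem_singleton]
          by_cases h1 : t = v
          · exact Or.inl h1
          · exact Or.inr (hcon t ht h1)
        have h1 := Finset.card_le_card hsub
        have h2 := Finset.card_le_two (a := v) (b := x)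
        have h3 := hQ1.2
        omega
      exact hvx.2.2.2 t (maxCliqueIn_subset hQ1.1 ht)
        ⟨hQc (by exact_mod_cast hvQ) (by exact_mod_cast ht) htv.symm,
          hQc (by exact_mod_cast hxQ) (by exact_mod_cast ht) htx.symm⟩
    have hsx : s ≠ x := fun h' => hxQ (h' ▸ hs.1)
    obtain ⟨p⟩ := h.reachable_of_not_colorable hnc hvU hsU
    have hsT2 : s ∈ T2 := (claim s v p rfl hsv hsx).mp hs.2
    have h1 := Finset.card_le_one.mp (card_big_inter_strong hG hT2 hQ).le s
      (Finset.mem_inter.mpr ⟨hs.1, hsT2⟩) v (Finset.mem_inter.mpr ⟨hvQ, hvT2⟩)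
    exact hsv h1
  · -- `v ∉ T2`: `T1` and `T2` are complementary in `U - v`
    have hvT2 : v ∉ T2 := hvz ▸ hz'T2
    have hzv : z ≠ v := fun h' => hvT2 (h' ▸ hzT2)
    have hex2' : ∀ p q, (PureGraph G U).Adj p q → p ≠ v → q ≠ v → (p ∈ T2 ↔ q ∉ T2) := by
      intro p q hpq hp hq
      by_cases h1 : p = x
      · rcases hNx q (h1 ▸ hpq) with h2 | h2
        · rw [h1, h2]
          tauto
        · exact absurd (h2.trans hvz.symm) hq
      · by_cases h2 : q = x
        · rcases hNx p (h2 ▸ hpq).symm with h3 | h3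
          · rw [h2, h3]
            tauto
          · exact absurd (h3.trans hvz.symm) hp
        · exact hex2 p q hpq h1 h2
    have claim : ∀ w b (p : (PureGraph G U).Walk w b), b = v → w ≠ v → (w ∈ T1 ↔ w ∉ T2) := by
      intro w b p
      induction p with
      | nil => intro hb hw; exact absurd hb hw
      | @cons w w1 b hadj p ih =>
        intro hb hwv
        by_cases h1 : w1 = v
        · rcases hNv w (h1 ▸ hadj).symm with h2 | h2
          · rw [h2]
            tauto
          · rw [h2]
            tauto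
        · have h3 := ih hb h1
          have h4 := hex1 w w1 hadj hwv h1
          have h5 := hex2' w w1 hadj hwv h1
          tauto
    have hcards : ∀ Q' ∈ big G U, (Q'.erase v).card = 2 := by
      intro Q' hQ'
      have hQ'1 := mem_big.mp hQ'
      have hun : Q'.erase v = (Q' ∩ T1) ∪ (Q' ∩ T2) := by
        ext s
        rw [Finset.mem_erase, Finset.mem_union, Finset.mem_inter, Finset.mem_inter]
        constructor
        · rintro ⟨hsv, hs⟩
          obtain ⟨p⟩ := h.reachable_of_not_colorable hnc hvU (maxCliqueIn_subset hQ'1.1 hs)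
          have h1 := claim s v p rfl hsv
          tauto
        · rintro (⟨hs, hs1⟩ | ⟨hs, hs1⟩)
          · exact ⟨fun h' => hvT1 (h' ▸ hs1), hs⟩
          · exact ⟨fun h' => hvT2 (h' ▸ hs1), hs⟩
      rw [hun, Finset.card_union_of_disjoint, card_big_inter_strong hG hT1 hQ',
        card_big_inter_strong hG hT2 hQ']
      rw [Finset.disjoint_left]
      intro s hs1 hs2
      rw [Finset.mem_inter] at hs1 hs2
      have hsv : s ≠ v := fun h' => hvT1 (h' ▸ hs1.2)
      obtain ⟨p⟩ := h.reachable_of_not_colorable hnc hvU (maxCliqueIn_subset hQ'1.1 hs1.1)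
      have h1 := claim s v p rfl hsv
      tauto
    have hall : ∀ Q' ∈ big G U, Q' = Q ∧ Q'.card = 3 := by
      intro Q' hQ'
      have h1 := hcards Q' hQ'
      have h2 := (mem_big.mp hQ').2
      have hvQ' : v ∈ Q' := by
        by_contra hcon
        rw [Finset.erase_eq_of_notMem hcon] at h1
        omega
      have h3 := Finset.card_erase_add_one hvQ'
      exact ⟨h.bigL_disjoint hG hc hQ hQ' hvQ hvQ', by omega⟩
    have hbig : big G U = {Q} := by
      ext Q'
      rw [Finset.mem_singleton]
      exact ⟨fun h' => (hall Q' h').1, fun h' => h' ▸ hQ⟩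
    rw [hbig, Finset.sum_singleton, (hall Q hQ).2] at e1
    omega

end Pool.Agent.H28.SP
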