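import Pool.Agent.H28.SPM3

/-!
The bound for minimal obstructions, first part: a minimal infeasible set of big cliques.
-/

namespace Pool.Agent.H28.SP

open Finset

variable {V : Type*} [Fintype V] [DecidableEq V]

lemma card_eq_one_of_iff {C Z : Finset V} {z : V} (hz : z ∈ C) (h : ∀ v ∈ C, v ∈ Z ↔ v = z) :
    (C ∩ Z).card = 1 := by
  rw [Finset.card_eq_one]
  refine ⟨z, ?_⟩
  ext v
  rw [Finset.mem_inter, Finset.mem_singleton]
  constructor
  · rintro ⟨h1, h2⟩
    exact (h v h1).mp h2
  · rintro rfl
    exact ⟨hz, (h v hz).mpr rfl⟩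

theorem no_miss {G : SimpleGraph V} (hG : DiamondFree G) (hc : OneBigAtCentre G) {U : Finset V}
    (h : MinObs G U) {I : Finset (Finset V)} (hIb : I ⊆ big G U)
    (hI : ¬ ∃ X, Exact G U X ∧ ∀ Q ∈ I, (Q ∩ X).card = 1) {Q : Finset V} (hQ : Q ∈ I)
    {X : Finset V} (hX : Exact G U X) (hX1 : ∀ Q' ∈ I, Q' ≠ Q → (Q' ∩ X).card = 1) :
    (Q ∩ X).card ≠ 0 := by
  intro h0
  have hQb := hIb hQ
  have hQ1 := mem_big.mp hQb
  obtain ⟨a, haQ⟩ : Q.Nonempty := Finset.card_pos.mp (by omega)
  have haU := maxCliqueIn_subset hQ1.1 haQ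
  obtain ⟨S, hS⟩ := h.exists_erase haU
  have haS : a ∉ S := fun h' => Finset.notMem_erase a U (hS.1 h')
  have hSU : S ⊆ U := hS.1.trans (Finset.erase_subset _ _)
  have hQX : ∀ v ∈ Q, v ∉ X := by
    intro v hv hvX
    have : v ∈ Q ∩ X := Finset.mem_inter.mpr ⟨hv, hvX⟩
    rw [Finset.card_eq_zero.mp h0] at this
    simp at this
  have haX := hQX a haQ
  set W : Finset V := insert a ((X \ S) ∪ (S \ X)) with hW
  have hWU : W ⊆ U := by
    intro x hx
    rw [hW, Finset.mem_insert, Finset.mem_union, Finset.mem_sdiff, Finset.mem_sdiff] at hx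
    rcases hx with rfl | hx | hx
    · exact haU
    · exact hX.1 hx.1
    · exact hSU hx.1
  obtain ⟨c, hcol⟩ := exists_bicol_rel hG (hbip_of_exact h hX) W hWU
  have hWm : ∀ v, v ∈ W ↔ v = a ∨ (v ∈ X ∧ v ∉ S) ∨ (v ∈ S ∧ v ∉ X) := by
    intro v
    rw [hW, Finset.mem_insert, Finset.mem_union, Finset.mem_sdiff, Finset.mem_sdiff]
  set Z : Finset V := (X ∩ S) ∪ W.filter (fun v => c v = !(c a)) with hZ
  have hZm : ∀ v, v ∈ Z ↔ (v ∈ X ∧ v ∈ S) ∨ (v ∈ W ∧ c v = !(c a)) := by
    intro v
    rw [hZ, Finset.mem_union, Finset.mem_inter, Finset.mem_filter]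
  have haZ : a ∉ Z := by
    rw [hZm]
    rintro (⟨h1, _⟩ | ⟨_, h1⟩)
    · exact haX h1
    · cases hca : c a <;> rw [hca] at h1 <;> simp at h1
  -- two elements of `W` in a maximal clique of `G[U]` with nothing else in `W`
  have two : ∀ C, MaxCliqueIn G U C → ∀ x ∈ C, ∀ y ∈ C, x ≠ y →
      (∀ v ∈ C, v ∈ W ↔ v = x ∨ v = y) → ∀ b, c x = b ∨ c y = b := by
    intro C hC x hx y hy hxy hCW b
    have hCW' : C ∩ W = {x, y} := by
      ext v
      have hpair : v ∈ ({x, y} : Finset V) ↔ v = x ∨ v = y := by simp
      rw [Finset.mem_inter, hpair]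
      constructor
      · rintro ⟨h1, h2⟩
        exact (hCW v h1).mp h2
      · rintro (rfl | rfl)
        · exact ⟨hx, (hCW _ hx).mpr (Or.inl rfl)⟩
        · exact ⟨hy, (hCW _ hy).mpr (Or.inr rfl)⟩
    have hcard : (C ∩ W).card = 2 := by rw [hCW', Finset.card_pair hxy]
    obtain ⟨v, hv, hvb⟩ := hcol _ (maxCliqueIn_inter hG hWU hC (by omega)) (by omega) b
    rw [hCW', Finset.mem_insert, Finset.mem_singleton] at hv
    rcases hv with rfl | rfl
    · exact Or.inl hvb
    · exact Or.inr hvb
  -- cliques that do not contain `a`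
  have away : ∀ C, MaxCliqueIn G U C → a ∉ C → (C ∩ X).card = 1 → (C ∩ S).card = 1 →
      (C ∩ Z).card = 1 := by
    intro C hC haC h1 h2
    obtain ⟨x, hx⟩ := Finset.card_eq_one.mp h1
    obtain ⟨s, hs⟩ := Finset.card_eq_one.mp h2
    have hxm : ∀ v ∈ C, v ∈ X ↔ v = x := by
      intro v hv
      have : v ∈ C ∩ X ↔ v ∈ ({x} : Finset V) := by rw [hx]
      rw [Finset.mem_inter, Finset.mem_singleton] at this
      tauto
    have hsm : ∀ v ∈ C, v ∈ S ↔ v = s := by
      intro v hv
      have : v ∈ C ∩ S ↔ v ∈ ({s} : Finset V) := by rw [hs]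
      rw [Finset.mem_inter, Finset.mem_singleton] at this
      tauto
    have hxC : x ∈ C := (Finset.mem_inter.mp (by rw [hx]; simp : x ∈ C ∩ X)).1
    have hsC : s ∈ C := (Finset.mem_inter.mp (by rw [hs]; simp : s ∈ C ∩ S)).1
    have hva : ∀ v ∈ C, v ≠ a := fun v hv h' => haC (h' ▸ hv)
    by_cases hxs : x = s
    · subst hxs
      apply card_eq_one_of_iff hxC
      intro v hv
      have e1 := hxm v hv
      have e2 := hsm v hv
      have e3 := hva v hv
      rw [hZm, hWm]
      tauto
    · have hCW : ∀ v ∈ C, v ∈ W ↔ v = x ∨ v = s := by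
        intro v hv
        have e1 := hxm v hv
        have e2 := hsm v hv
        have e3 := hva v hv
        rw [hWm]
        constructor
        · tauto
        · rintro (rfl | rfl)
          · have : v ≠ s := hxs
            tauto
          · have : v ≠ x := fun h' => hxs h'.symm
            tauto
      have hb1 := two C hC x hxC s hsC hxs hCW (c a)
      have hb2 := two C hC x hxC s hsC hxs hCW (!(c a))
      have key : ∀ v ∈ C, v ∈ Z ↔ (v = x ∨ v = s) ∧ c v = !(c a) := by
        intro v hv
        have e1 := hxm v hv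
        have e2 := hsm v hv
        have e4 := hCW v hv
        rw [hZm, e4]
        constructor
        · rintro (⟨h1, h2⟩ | h1)
          · exact absurd ((e1.mp h1).symm.trans (e2.mp h2)) hxs
          · exact h1
        · exact Or.inr
      by_cases hcx : c x = !(c a)
      · have hcs : c s = c a := by
          rcases hb1 with h3 | h3
          · rw [hcx] at h3
            cases hca : c a <;> rw [hca] at h3 <;> simp at h3
          · exact h3
        apply card_eq_one_of_iff hxC
        intro v hv
        rw [key v hv]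
        constructor
        · rintro ⟨rfl | rfl, h3⟩
          · rfl
          · rw [hcs] at h3
            cases hca : c a <;> rw [hca] at h3 <;> simp at h3
        · rintro rfl
          exact ⟨Or.inl rfl, hcx⟩
      · have hcs : c s = !(c a) := by
          rcases hb2 with h3 | h3
          · exact absurd h3 hcx
          · exact h3
        apply card_eq_one_of_iff hsC
        intro v hv
        rw [key v hv]
        constructor
        · rintro ⟨rfl | rfl, h3⟩
          · exact absurd h3 hcx
          · rfl
        · rintro rfl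
          exact ⟨Or.inr rfl, hcs⟩
  have hSe := exact_of_strong hS
  have hZex : Exact G U Z := by
    apply exact_of_card
    · intro x hx
      rw [hZm] at hx
      rcases hx with hx | hx
      · exact hX.1 hx.1
      · exact hWU hx.1
    · -- first the edges at `a`
      have edge_a : ∀ w, w ∈ U → PureEdge G U a w → (({a, w} : Finset V) ∩ Z).card = 1 := by
        intro w hw haw
        have hwX : w ∈ X := by
          by_contra h'
          exact haX ((hX.2 a w haU hw haw).mpr h')
        have hwa : w ≠ a := haw.1.ne.symm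
        apply card_eq_one_of_iff (z := w) (by simp)
        intro v hv
        rw [Finset.mem_insert, Finset.mem_singleton] at hv
        rcases hv with rfl | rfl
        · constructor
          · intro h'; exact absurd h' haZ
          · intro h'; exact absurd h'.symm hwa
        · refine ⟨fun _ => rfl, fun _ => ?_⟩
          rw [hZm]
          by_cases hvS : v ∈ S
          · exact Or.inl ⟨hwX, hvS⟩
          · right
            have hvW : v ∈ W := (hWm v).mpr (Or.inr (Or.inl ⟨hwX, hvS⟩))
            refine ⟨hvW, ?_⟩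
            have haW : a ∈ W := (hWm a).mpr (Or.inl rfl)
            rcases two _ (maxCliqueIn_pair haU hw haw) a (by simp) v (by simp) hwa.symm (by
              intro u hu
              rw [Finset.mem_insert, Finset.mem_singleton] at hu
              rcases hu with rfl | rfl
              · exact ⟨fun _ => Or.inl rfl, fun _ => haW⟩
              · exact ⟨fun _ => Or.inr rfl, fun _ => hvW⟩) (!(c a)) with h3 | h3
            · cases hca : c a <;> rw [hca] at h3 <;> simp at h3
            · exact h3
      intro v w hv hw hvw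
      by_cases hva : v = a
      · subst hva
        exact edge_a w hw hvw
      · by_cases hwa : w = a
        · subst hwa
          rw [Finset.pair_comm]
          exact edge_a v hv hvw.symm
        · apply away _ (maxCliqueIn_pair hv hw hvw)
          · rw [Finset.mem_insert, Finset.mem_singleton]
            rintro (h' | h')
            · exact hva h'.symm
            · exact hwa h'.symm
          · exact hX.card_pair hv hw hvw
          · exact hSe.card_pair (Finset.mem_erase.mpr ⟨hva, hv⟩) (Finset.mem_erase.mpr ⟨hwa, hw⟩)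
              (hvw.mono (Finset.erase_subset _ _))
  apply hI
  refine ⟨Z, hZex, ?_⟩
  intro Q' hQ'
  by_cases hQQ : Q' = Q
  · subst hQQ
    obtain ⟨s, hs⟩ := Finset.card_eq_one.mp (card_big_inter_strong hG hS hQb)
    have hsm : ∀ v ∈ Q', v ∈ S ↔ v = s := by
      intro v hv
      have : v ∈ Q' ∩ S ↔ v ∈ ({s} : Finset V) := by rw [hs]
      rw [Finset.mem_inter, Finset.mem_singleton] at this
      tauto
    have hsQ : s ∈ Q' ∩ S := by rw [hs]; simp
    rw [Finset.mem_inter] at hsQ
    have hsa : s ≠ a := fun h' => haS (h' ▸ hsQ.2)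
    have hQW : ∀ v ∈ Q', v ∈ W ↔ v = a ∨ v = s := by
      intro v hv
      have e1 := hQX v hv
      have e2 := hsm v hv
      rw [hWm]
      constructor
      · tauto
      · rintro (rfl | rfl)
        · exact Or.inl rfl
        · exact Or.inr (Or.inr ⟨hsQ.2, e1⟩)
    have hcs : c s = !(c a) := by
      rcases two Q' hQ1.1 a haQ s hsQ.1 hsa.symm hQW (!(c a)) with h3 | h3
      · cases hca : c a <;> rw [hca] at h3 <;> simp at h3
      · exact h3
    apply card_eq_one_of_iff hsQ.1
    intro v hv
    rw [hZm, hQW v hv]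
    constructor
    · rintro (⟨h1, _⟩ | ⟨rfl | rfl, h3⟩)
      · exact absurd h1 (hQX v hv)
      · cases hca : c v <;> rw [hca] at h3 <;> simp at h3
      · rfl
    · rintro rfl
      exact Or.inr ⟨Or.inr rfl, hcs⟩
  · apply away _ (mem_big.mp (hIb hQ')).1
    · intro haQ'
      exact hQQ (h.bigL_disjoint hG hc hQb (hIb hQ') haQ haQ')
    · exact hX1 Q' hQ' hQQ
    · exact card_big_inter_strong hG hS (hIb hQ')

end Pool.Agent.H28.SP
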