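import Pool.Agent.H28.SPN3

/-!
The bound for minimal obstructions, second part: the core of a minimal obstruction.
-/

namespace Pool.Agent.H28.SP

open Finset

variable {V : Type*} [Fintype V] [DecidableEq V]

lemma sum_big_sub {G : SimpleGraph V} {U : Finset V} {I : Finset (Finset V)} (hI : I ⊆ big G U)
    (g : Finset V → ℤ) : ∑ Q ∈ big G U, (if Q ∈ I then g Q else 0) = ∑ Q ∈ I, g Q := by
  rw [← Finset.sum_filter, Finset.filter_mem_eq_inter, Finset.inter_eq_right.mpr hI]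

/-- weights on an infeasible set `I` of big cliques -/
theorem exists_weightsI {G : SimpleGraph V} (hG : DiamondFree G) {U : Finset V}
    (h : MinObs G U) {I : Finset (Finset V)} (hIb : I ⊆ big G U)
    (hI : ¬ ∃ X, Exact G U X ∧ ∀ Q ∈ I, (Q ∩ X).card = 1) {X0 : Finset V}
    (hX0 : Feas G U I X0) :
    ∃ y : Finset V → ℤ, (∀ Q, y Q ≤ 1) ∧ (∀ Q, Q ∉ I → y Q = 0) ∧
      ∀ X, Exact G U X → ∑ Q ∈ big G U, y Q + 1 ≤ ∑ v ∈ X, vw G U y v := by
  have hs : ∀ X : Finset V, ∑ v ∈ X, vw G U (fun Q => if Q ∈ I then 1 else 0) v =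
      ∑ Q ∈ I, ((Q ∩ X).card : ℤ) := by
    intro X
    rw [sum_vw, ← sum_big_sub hIb]
    apply Finset.sum_congr rfl
    intro Q _
    split_ifs <;> simp
  obtain ⟨u, hu0, hu⟩ := exists_dualM hG (hbip_of_exact h hX0.1) I
    (fun Q hQ => (mem_big.mp (hIb hQ)).1) (vw G U (fun Q => if Q ∈ I then 1 else 0))
    (I.card + 1) (by
      intro X hX
      rw [hs, ← Nat.cast_sum]
      have : I.card + 1 ≤ ∑ Q ∈ I, (Q ∩ X).card := by
        by_contra hcon
        push Not at hcon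
        apply hI
        refine ⟨X, hX.1, ?_⟩
        by_contra hcon2
        push Not at hcon2
        obtain ⟨Q0, hQ0, hne⟩ := hcon2
        have : ∑ Q ∈ I, 1 < ∑ Q ∈ I, (Q ∩ X).card := by
          apply Finset.sum_lt_sum hX.2
          refine ⟨Q0, hQ0, ?_⟩
          have := hX.2 Q0 hQ0
          omega
        rw [← Finset.card_eq_sum_ones] at this
        omega
      exact_mod_cast this) ⟨X0, hX0⟩
  refine ⟨fun Q => if Q ∈ I then 1 - u Q else 0, ?_, ?_, ?_⟩
  · intro Q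
    have := hu0 Q
    dsimp only
    split_ifs
    · linarith
    · exact zero_le_one
  · intro Q hQ
    dsimp only
    rw [if_neg hQ]
  · intro X hX
    have h1 := hu X hX
    rw [hs] at h1
    rw [sum_vw, sum_big_sub hIb]
    have h2 : ∑ Q ∈ big G U, (if Q ∈ I then 1 - u Q else 0) * ((Q ∩ X).card : ℤ) =
        ∑ Q ∈ I, (1 - u Q) * ((Q ∩ X).card : ℤ) := by
      rw [← sum_big_sub hIb (fun Q => (1 - u Q) * ((Q ∩ X).card : ℤ))]
      apply Finset.sum_congr rfl
      intro Q _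
      split_ifs <;> simp
    rw [h2]
    simp only [mul_sub, mul_one, sub_mul, one_mul, Finset.sum_sub_distrib] at h1 ⊢
    rw [Finset.card_eq_sum_ones, Nat.cast_sum] at h1
    simp only [Nat.cast_one] at h1
    linarith

/-- weights with gap one: every exact set has gap exactly one -/
theorem gap_eq_one {G : SimpleGraph V} (hG : DiamondFree G) (hc : OneBigAtCentre G)
    {U : Finset V} (h : MinObs G U) {y : Finset V → ℤ} (hy : ∀ Q, y Q ≤ 1)
    (hyX : ∀ X, Exact G U X → ∑ Q ∈ big G U, y Q + 1 ≤ ∑ v ∈ X, vw G U y v)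
    {X : Finset V} (hX : Exact G U X) :
    ∑ v ∈ X, vw G U y v = ∑ Q ∈ big G U, y Q + 1 := by
  by_contra hne
  have h0 := hyX X hX
  have h2 := halfM hG hc h hy hyX hX
  have hyX2 : ∀ Y, Exact G U Y → ∑ Q ∈ big G U, y Q + 2 ≤ ∑ v ∈ Y, vw G U y v := by
    intro Y hY
    have h1 := halfM hG hc h hy hyX hY
    omega
  obtain ⟨z0, hz0⟩ := h.1
  have h3 := balanceM_le hG hc h hy (by norm_num) hyX2 hX hz0
  have h4 := balanceM_le hG hc h hy (by norm_num) hyX2 hX.compl hz0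
  rw [sum_compl_sign _ hz0] at h4
  linarith

theorem exists_core {G : SimpleGraph V} (hG : DiamondFree G) (hc : OneBigAtCentre G)
    {U : Finset V} (h : MinObs G U) {X0 : Finset V} (hX0 : Exact G U X0) :
    ∃ I ⊆ big G U, I.Nonempty ∧ ∀ X, Exact G U X → ∑ Q ∈ I, (Q ∩ X).card = I.card + 1 := by
  classical
  obtain ⟨I, hI, hmin⟩ := Finset.exists_min_image
    ((big G U).powerset.filter (fun I => ¬ ∃ X, Exact G U X ∧ ∀ Q ∈ I, (Q ∩ X).card = 1))
    Finset.card ⟨big G U, by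
      rw [Finset.mem_filter, Finset.mem_powerset]
      refine ⟨Finset.Subset.refl _, ?_⟩
      rintro ⟨X, hX, h1⟩
      exact h.not_all_one hG hX h1⟩
  rw [Finset.mem_filter, Finset.mem_powerset] at hI
  obtain ⟨hIb, hI⟩ := hI
  have hne : I.Nonempty := by
    rw [Finset.nonempty_iff_ne_empty]
    rintro rfl
    exact hI ⟨X0, hX0, by simp⟩
  -- for every member of `I` the others can be met exactly once
  have hfeas : ∀ Q ∈ I, ∃ X, Exact G U X ∧ ∀ Q' ∈ I, Q' ≠ Q → (Q' ∩ X).card = 1 := by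
    intro Q hQ
    by_contra hcon
    have h1 := hmin (I.erase Q) (by
      rw [Finset.mem_filter, Finset.mem_powerset]
      refine ⟨(Finset.erase_subset _ _).trans hIb, ?_⟩
      rintro ⟨X, hX, h1⟩
      exact hcon ⟨X, hX, fun Q' hQ' hne' => h1 Q' (Finset.mem_erase.mpr ⟨hne', hQ'⟩)⟩)
    have h2 := Finset.card_erase_lt_of_mem hQ
    omega
  have hge2 : ∀ Q ∈ I, ∃ X, Exact G U X ∧ 2 ≤ (Q ∩ X).card ∧
      ∀ Q' ∈ I, Q' ≠ Q → (Q' ∩ X).card = 1 := by
    intro Q hQ
    obtain ⟨X, hX, h1⟩ := hfeas Q hQ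
    refine ⟨X, hX, ?_, h1⟩
    have h2 := no_miss hG hc h hIb hI hQ hX h1
    by_contra hcon
    apply hI
    refine ⟨X, hX, ?_⟩
    intro Q' hQ'
    by_cases hQQ : Q' = Q
    · subst hQQ
      omega
    · exact h1 Q' hQ' hQQ
  obtain ⟨Q1, hQ1⟩ := hne
  obtain ⟨X1, hX1, hX1a, hX1b⟩ := hge2 Q1 hQ1
  obtain ⟨y, hy, hy0, hyX⟩ := exists_weightsI hG h hIb hI (X0 := X1) ⟨hX1, by
    intro Q hQ
    by_cases hQQ : Q = Q1
    · subst hQQ; omega
    · rw [hX1b Q hQ hQQ]⟩
  have hgap : ∀ X, Exact G U X → ∑ Q ∈ I, y Q * (((Q ∩ X).card : ℤ) - 1) = 1 := by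
    intro X hX
    have h1 := gap_eq_one hG hc h hy hyX hX
    rw [sum_vw] at h1
    have h2 : ∀ g : Finset V → ℤ, ∑ Q ∈ big G U, y Q * g Q = ∑ Q ∈ I, y Q * g Q := by
      intro g
      rw [← sum_big_sub hIb]
      apply Finset.sum_congr rfl
      intro Q _
      split_ifs with h3
      · rfl
      · rw [hy0 Q h3, zero_mul]
    have h3 : ∑ Q ∈ big G U, y Q = ∑ Q ∈ I, y Q := by
      have := h2 (fun _ => 1)
      simpa using this
    rw [h2, h3] at h1
    simp only [mul_sub, mul_one, Finset.sum_sub_distrib]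
    linarith
  have hy1 : ∀ Q ∈ I, y Q = 1 := by
    intro Q hQ
    obtain ⟨X, hX, h2, h1⟩ := hge2 Q hQ
    have h3 := hgap X hX
    rw [← Finset.add_sum_erase _ _ hQ, Finset.sum_eq_zero (s := I.erase Q), add_zero] at h3
    · have h4 : (1 : ℤ) ≤ ((Q ∩ X).card : ℤ) - 1 := by
        have : (2 : ℤ) ≤ ((Q ∩ X).card : ℤ) := by exact_mod_cast h2
        linarith
      have h5 := hy Q
      have h6 : 0 < y Q := by
        by_contra hcon
        push Not at hcon
        have : y Q * (((Q ∩ X).card : ℤ) - 1) ≤ 0 :=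
          mul_nonpos_of_nonpos_of_nonneg hcon (by linarith)
        linarith
      linarith
    · intro Q' hQ'
      rw [Finset.mem_erase] at hQ'
      rw [h1 Q' hQ'.2 hQ'.1]
      simp
  refine ⟨I, hIb, ⟨Q1, hQ1⟩, ?_⟩
  intro X hX
  have h1 := hgap X hX
  have h2 : ∑ Q ∈ I, y Q * (((Q ∩ X).card : ℤ) - 1) = ∑ Q ∈ I, (((Q ∩ X).card : ℤ) - 1) := by
    apply Finset.sum_congr rfl
    intro Q hQ
    rw [hy1 Q hQ, one_mul]
  rw [h2, Finset.sum_sub_distrib, ← Nat.cast_sum] at h1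
  simp only [Finset.sum_const, nsmul_eq_mul, mul_one] at h1
  have h3 : ((∑ Q ∈ I, (Q ∩ X).card : ℕ) : ℤ) = ((I.card + 1 : ℕ) : ℤ) := by
    push_cast
    push_cast at h1
    linarith
  exact_mod_cast h3

end Pool.Agent.H28.SP
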