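import Pool.Agent.H28.SPN4
import Pool.Agent.H28.SPN1

/-!
The bound for minimal obstructions, third part: every exact set meets every big clique.
-/

namespace Pool.Agent.H28.SP

open Finset

variable {V : Type*} [Fintype V] [DecidableEq V]

/-- two exact sets agree or are opposite on a component -/
lemma exact_agree {G : SimpleGraph V} {U X Y : Finset V} (hX : Exact G U X) (hY : Exact G U Y)
    {v w : V} (hvw : (PureGraph G U).Reachable v w) :
    (v ∈ X ↔ v ∈ Y) ↔ (w ∈ X ↔ w ∈ Y) := by
  obtain ⟨p⟩ := hvw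
  induction p with
  | nil => exact Iff.rfl
  | cons hadj _ ih =>
    have h1 := hX.2 _ _ hadj.1 hadj.2.1 hadj.2.2
    have h2 := hY.2 _ _ hadj.1 hadj.2.1 hadj.2.2
    tauto

lemma core_sum {G : SimpleGraph V} {U : Finset V} {I : Finset (Finset V)} (hIb : I ⊆ big G U)
    (hcore : ∀ X, Exact G U X → ∑ Q ∈ I, (Q ∩ X).card = I.card + 1) {X : Finset V}
    (hX : Exact G U X) : ∑ Q ∈ I, Q.card = 2 * I.card + 2 := by
  have h1 := hcore X hX
  have h2 := hcore _ hX.compl
  have h3 : ∑ Q ∈ I, Q.card = ∑ Q ∈ I, (Q ∩ X).card + ∑ Q ∈ I, (Q ∩ (U \ X)).card := by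
    rw [← Finset.sum_add_distrib]
    apply Finset.sum_congr rfl
    intro Q hQ
    have hQU := maxCliqueIn_subset (mem_big.mp (hIb hQ)).1
    have h4 : Q ∩ (U \ X) = Q \ X := by
      ext v
      rw [Finset.mem_inter, Finset.mem_sdiff, Finset.mem_sdiff]
      exact ⟨fun h' => ⟨h'.1, h'.2.2⟩, fun h' => ⟨h'.1, hQU h'.1, h'.2⟩⟩
    rw [h4, Finset.card_inter_add_card_sdiff]
  omega

lemma core_card {G : SimpleGraph V} {U : Finset V} {I : Finset (Finset V)} (hIb : I ⊆ big G U)
    (hcore : ∀ X, Exact G U X → ∑ Q ∈ I, (Q ∩ X).card = I.card + 1) {X : Finset V}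
    (hX : Exact G U X) : I.card ≤ 2 := by
  have h1 := core_sum hIb hcore hX
  have h2 : I.card * 3 ≤ ∑ Q ∈ I, Q.card := by
    rw [← smul_eq_mul]
    exact Finset.card_nsmul_le_sum I _ 3 (fun Q hQ => (mem_big.mp (hIb hQ)).2)
  omega

/-- the vertices of the core -/
def coreV (I : Finset (Finset V)) : Finset V := I.biUnion id

lemma mem_coreV {I : Finset (Finset V)} {v : V} : v ∈ coreV I ↔ ∃ Q ∈ I, v ∈ Q := by
  unfold coreV
  rw [Finset.mem_biUnion]
  rfl

lemma card_coreV {G : SimpleGraph V} {U : Finset V} {I : Finset (Finset V)} (hIb : I ⊆ big G U)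
    (hcore : ∀ X, Exact G U X → ∑ Q ∈ I, (Q ∩ X).card = I.card + 1) {X : Finset V}
    (hX : Exact G U X) : (coreV I).card ≤ 6 := by
  have h1 := core_sum hIb hcore hX
  have h2 := core_card hIb hcore hX
  have h3 : (coreV I).card ≤ ∑ Q ∈ I, Q.card := Finset.card_biUnion_le
  omega

/-- a good vertex is in the core -/
lemma Good.mem_core {G : SimpleGraph V} {U : Finset V} {I : Finset (Finset V)}
    (hIb : I ⊆ big G U)
    (hcore : ∀ X, Exact G U X → ∑ Q ∈ I, (Q ∩ X).card = I.card + 1) {a : V} {X : Finset V}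
    (ha : Good G U a X) : a ∈ coreV I := by
  by_contra hcon
  rw [mem_coreV] at hcon
  push Not at hcon
  have h1 := hcore X ha.1
  rw [Finset.sum_congr rfl (fun Q hQ => by rw [ha.2.2 Q (hIb hQ), if_neg (hcon Q hQ)]),
    ← Finset.card_eq_sum_ones] at h1
  omega

open Classical in
/-- the two sides of a component have the same number of vertices in the core -/
lemma core_balance {G : SimpleGraph V} (hG : DiamondFree G) (hc : OneBigAtCentre G)
    {U : Finset V} (h : MinObs G U) {I : Finset (Finset V)} (hIb : I ⊆ big G U)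
    (hcore : ∀ X, Exact G U X → ∑ Q ∈ I, (Q ∩ X).card = I.card + 1) {X : Finset V}
    (hX : Exact G U X) {z : V} (hz : z ∈ U) :
    (((coreV I).filter (fun v => (PureGraph G U).Reachable z v)) ∩ X).card =
      (((coreV I).filter (fun v => (PureGraph G U).Reachable z v)) \ X).card := by
  set y : Finset V → ℤ := fun Q => if Q ∈ I then 1 else 0 with hy
  have hy1 : ∀ Q, y Q ≤ 1 := by
    intro Q
    rw [hy]
    dsimp only
    split_ifs <;> norm_num
  have hvw : ∀ v, vw G U y v = if v ∈ coreV I then 1 else 0 := by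
    intro v
    unfold vw
    by_cases hv : v ∈ coreV I
    · obtain ⟨Q, hQ, hvQ⟩ := mem_coreV.mp hv
      rw [if_pos hv, Finset.sum_eq_single Q]
      · rw [if_pos hvQ, hy]
        dsimp only
        rw [if_pos hQ]
      · intro Q' hQ' hne
        rw [if_neg]
        intro hvQ'
        exact hne (h.bigL_disjoint hG hc (hIb hQ) hQ' hvQ hvQ')
      · intro h'
        exact absurd (hIb hQ) h'
    · rw [if_neg hv]
      apply Finset.sum_eq_zero
      intro Q _
      split_ifs with h1
      · rw [hy]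
        dsimp only
        rw [if_neg (fun hQ => hv (mem_coreV.mpr ⟨Q, hQ, h1⟩))]
      · rfl
  have hgap : ∀ Y, Exact G U Y → ∑ Q ∈ big G U, y Q + 1 ≤ ∑ v ∈ Y, vw G U y v := by
    intro Y hY
    have h1 := hcore Y hY
    have h2 : ∑ v ∈ Y, vw G U y v = ∑ Q ∈ I, ((Q ∩ Y).card : ℤ) := by
      rw [sum_vw, ← sum_big_sub hIb]
      apply Finset.sum_congr rfl
      intro Q _
      rw [hy]
      dsimp only
      split_ifs <;> simp
    have h3 : ∑ Q ∈ big G U, y Q = (I.card : ℤ) := by
      rw [hy, sum_big_sub hIb]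
      simp
    rw [h2, h3, ← Nat.cast_sum, h1]
    push_cast
    linarith
  have h1 := balanceM hG hc h hy1 hgap hX hz
  have h2 : ∑ v ∈ univ.filter (fun v => (PureGraph G U).Reachable z v),
      (if v ∈ X then vw G U y v else - vw G U y v) =
      ((((coreV I).filter (fun v => (PureGraph G U).Reachable z v)) ∩ X).card : ℤ) -
      ((((coreV I).filter (fun v => (PureGraph G U).Reachable z v)) \ X).card : ℤ) := by
    have e1 : ((((coreV I).filter (fun v => (PureGraph G U).Reachable z v)) ∩ X).card : ℤ) =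
        ∑ v ∈ univ.filter (fun v => (PureGraph G U).Reachable z v),
          (if v ∈ X ∧ v ∈ coreV I then 1 else 0) := by
      rw [← Finset.sum_filter, Finset.sum_const, nsmul_eq_mul, mul_one]
      congr 2
      ext v
      simp only [Finset.mem_inter, Finset.mem_filter, Finset.mem_univ, true_and]
      tauto
    have e2 : ((((coreV I).filter (fun v => (PureGraph G U).Reachable z v)) \ X).card : ℤ) =
        ∑ v ∈ univ.filter (fun v => (PureGraph G U).Reachable z v),
          (if v ∉ X ∧ v ∈ coreV I then 1 else 0) := by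
      rw [← Finset.sum_filter, Finset.sum_const, nsmul_eq_mul, mul_one]
      congr 2
      ext v
      simp only [Finset.mem_sdiff, Finset.mem_filter, Finset.mem_univ, true_and]
      tauto
    rw [e1, e2, ← Finset.sum_sub_distrib]
    apply Finset.sum_congr rfl
    intro v _
    rw [hvw v]
    by_cases h3 : v ∈ X <;> by_cases h4 : v ∈ coreV I <;> simp [h3, h4]
  rw [h2] at h1
  have h3 : ((((coreV I).filter (fun v => (PureGraph G U).Reachable z v)) ∩ X).card : ℤ) =
      ((((coreV I).filter (fun v => (PureGraph G U).Reachable z v)) \ X).card : ℤ) := by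
    linarith
  exact_mod_cast h3

lemma two_good {G : SimpleGraph V} (hG : DiamondFree G) {U : Finset V} (h : MinObs G U)
    {X0 : Finset V} (hX0 : Exact G U X0) {v : V} (hv : v ∈ U) :
    ∃ a b : V, a ≠ b ∧ (PureGraph G U).Reachable v a ∧ (PureGraph G U).Reachable v b ∧
      (∃ X, Good G U a X) ∧ ∃ X, Good G U b X := by
  obtain ⟨a, haU, _, hva, hga⟩ := exists_good hG h hX0 hv
  obtain ⟨b, _, hba, hab, hgb⟩ := exists_good hG h hX0 haU
  exact ⟨a, b, hba.symm, hva, hva.trans hab, hga, hgb⟩

end Pool.Agent.H28.SP
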