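import Pool.Agent.H28.SPN4

/-!
The bound for minimal obstructions, last part: the core contains all big cliques.
-/

namespace Pool.Agent.H28.SP

open Finset

variable {V : Type*} [Fintype V] [DecidableEq V]

lemma sum_vw_ind {G : SimpleGraph V} {U : Finset V} {J : Finset (Finset V)} (hJ : J ⊆ big G U)
    (X : Finset V) :
    ∑ v ∈ X, vw G U (fun Q => if Q ∈ J then 1 else 0) v = ∑ Q ∈ J, ((Q ∩ X).card : ℤ) := by
  rw [sum_vw, ← sum_big_sub hJ]
  apply Finset.sum_congr rfl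
  intro Q _
  split_ifs <;> simp

/-- twice the core sum is the number of vertices in the core -/
lemma sum_card_core {G : SimpleGraph V} {U : Finset V} {I : Finset (Finset V)}
    (hIb : I ⊆ big G U) (hcore : ∀ X, Exact G U X → ∑ Q ∈ I, (Q ∩ X).card = I.card + 1)
    {X : Finset V} (hX : Exact G U X) : ∑ Q ∈ I, Q.card = 2 * I.card + 2 := by
  have h1 := hcore X hX
  have h2 := hcore (U \ X) hX.compl
  have h3 : ∑ Q ∈ I, Q.card = ∑ Q ∈ I, (Q ∩ X).card + ∑ Q ∈ I, (Q ∩ (U \ X)).card := by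
    rw [← Finset.sum_add_distrib]
    apply Finset.sum_congr rfl
    intro Q hQ
    have hQU := maxCliqueIn_subset (mem_big.mp (hIb hQ)).1
    have h4 : Q ∩ (U \ X) = Q \ X := by
      ext y
      rw [Finset.mem_inter, Finset.mem_sdiff, Finset.mem_sdiff]
      exact ⟨fun h' => ⟨h'.1, h'.2.2⟩, fun h' => ⟨h'.1, hQU h'.1, h'.2⟩⟩
    rw [h4]
    exact (Finset.card_inter_add_card_sdiff Q X).symm
  omega

theorem core_all {G : SimpleGraph V} (hG : DiamondFree G) (hc : OneBigAtCentre G) {U : Finset V}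
    (h : MinObs G U) {I : Finset (Finset V)} (hIb : I ⊆ big G U)
    (hcore : ∀ X, Exact G U X → ∑ Q ∈ I, (Q ∩ X).card = I.card + 1)
    (hmeet : ∀ Q0 ∈ big G U, Q0 ∉ I → ∀ X, Exact G U X → (Q0 ∩ X).card ≠ 0)
    {X1 : Finset V} (hX1 : Exact G U X1)
    (hone : ∀ Q0 ∈ big G U, Q0 ∉ I → (Q0 ∩ X1).card = 1) : I = big G U := by
  classical
  refine Finset.Subset.antisymm hIb ?_
  intro Q0 hQ0
  by_contra hQ0I
  have hJ : insert Q0 I ⊆ big G U := Finset.insert_subset hQ0 hIb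
  have hy : ∀ Q : Finset V, (fun Q => if Q ∈ insert Q0 I then (1 : ℤ) else 0) Q ≤ 1 := by
    intro Q
    dsimp only
    split_ifs
    · exact le_rfl
    · exact zero_le_one
  have hsum : ∀ X, Exact G U X → ∑ Q ∈ insert Q0 I, ((Q ∩ X).card : ℤ) =
      ((Q0 ∩ X).card : ℤ) + (I.card + 1) := by
    intro X hX
    rw [Finset.sum_insert hQ0I, ← Nat.cast_sum, hcore X hX]
    push_cast
    ring
  have hysum : ∑ Q ∈ big G U, (if Q ∈ insert Q0 I then (1 : ℤ) else 0) = I.card + 1 := by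
    rw [sum_big_sub hJ (fun _ => 1), Finset.sum_const, Finset.card_insert_of_notMem hQ0I]
    simp
  have hyX : ∀ X, Exact G U X → ∑ Q ∈ big G U, (fun Q => if Q ∈ insert Q0 I then (1 : ℤ) else 0) Q
      + 1 ≤ ∑ v ∈ X, vw G U (fun Q => if Q ∈ insert Q0 I then (1 : ℤ) else 0) v := by
    intro X hX
    rw [sum_vw_ind hJ, hsum X hX]
    dsimp only
    rw [hysum]
    have h1 := hmeet Q0 hQ0 hQ0I X hX
    have h2 : (1 : ℤ) ≤ ((Q0 ∩ X).card : ℤ) := by
      exact_mod_cast Nat.one_le_iff_ne_zero.mpr h1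
    linarith
  have hhalf := halfM hG hc h hy hyX hX1
  rw [sum_vw_ind hJ, sum_vw_ind hJ, hsum X1 hX1, hone Q0 hQ0 hQ0I, Finset.sum_insert hQ0I,
    ← Nat.cast_sum] at hhalf
  have hU : ∀ Q ∈ big G U, Q ∩ U = Q := fun Q hQ =>
    Finset.inter_eq_left.mpr (maxCliqueIn_subset (mem_big.mp hQ).1)
  have h3 : ∑ Q ∈ I, (Q ∩ U).card = 2 * I.card + 2 := by
    rw [← sum_card_core hIb hcore hX1]
    exact Finset.sum_congr rfl (fun Q hQ => by rw [hU Q (hIb hQ)])
  rw [h3, hU Q0 hQ0] at hhalf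
  have h4 := (mem_big.mp hQ0).2
  have h5 : (3 : ℤ) ≤ (Q0.card : ℤ) := by exact_mod_cast h4
  push_cast at hhalf
  linarith

/-- if the core contains all big cliques, the sum of the numbers `|C| - 2` is two -/
theorem few_of_core {G : SimpleGraph V} {U : Finset V}
    (hcore : ∀ X, Exact G U X → ∑ Q ∈ big G U, (Q ∩ X).card = (big G U).card + 1)
    {X : Finset V} (hX : Exact G U X) : ∑ C ∈ maxCliques G U, (C.card - 2) ≤ 2 := by
  have e1 : ∑ C ∈ big G U, (C.card - 2) + ∑ C ∈ small G U, (C.card - 2) =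
      ∑ C ∈ maxCliques G U, (C.card - 2) := Finset.sum_filter_add_sum_filter_not _ _ _
  have e2 : ∑ C ∈ small G U, (C.card - 2) = 0 := by
    apply Finset.sum_eq_zero
    intro C hC
    have := (mem_small.mp hC).2
    omega
  have e3 := sum_card_core (Finset.Subset.refl _) hcore hX
  have e4 : ∑ C ∈ big G U, (C.card - 2) + 2 * (big G U).card = ∑ C ∈ big G U, C.card := by
    have h3 : 2 * (big G U).card = ∑ C ∈ big G U, 2 := by
      rw [Finset.sum_const, smul_eq_mul, mul_comm]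
    rw [h3, ← Finset.sum_add_distrib]
    apply Finset.sum_congr rfl
    intro C hC
    have h4 := (mem_big.mp hC).2
    omega
  omega

/-- the bound, from a core, the fact that exact sets meet the other big cliques, and a good
vertex in the core -/
theorem MinObs.few_of_good {G : SimpleGraph V} (hG : DiamondFree G) (hc : OneBigAtCentre G)
    {U : Finset V} (h : MinObs G U) {I : Finset (Finset V)} (hIb : I ⊆ big G U)
    (hcore : ∀ X, Exact G U X → ∑ Q ∈ I, (Q ∩ X).card = I.card + 1)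
    (hmeet : ∀ Q0 ∈ big G U, Q0 ∉ I → ∀ X, Exact G U X → (Q0 ∩ X).card ≠ 0)
    {a : V} {X1 R : Finset V} (hX1 : Exact G U X1) (hR : R ∈ I) (haR : a ∈ R)
    (hgood : ∀ Q ∈ big G U, (Q ∩ X1).card = if a ∈ Q then 2 else 1) :
    ∑ C ∈ maxCliques G U, (C.card - 2) ≤ 2 := by
  have hall := core_all hG hc h hIb hcore hmeet hX1 (by
    intro Q0 hQ0 hQ0I
    rw [hgood Q0 hQ0, if_neg]
    intro haQ0
    exact hQ0I ((h.bigL_disjoint hG hc (hIb hR) hQ0 haR haQ0) ▸ hR))
  subst hall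
  exact few_of_core hcore hX1

end Pool.Agent.H28.SP
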