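import Pool.Agent.H28.SPN2
import Pool.Agent.H28.SPN6

/-!
The bound for minimal obstructions: assembly.
-/

namespace Pool.Agent.H28.SP

open Finset

variable {V : Type*} [Fintype V] [DecidableEq V]

lemma exists_exact_of_colorable {G : SimpleGraph V} {U : Finset V}
    (hcol : (PureGraph G U).Colorable 2) : ∃ X, Exact G U X := by
  classical
  obtain ⟨φ⟩ := hcol
  have key : ∀ a b : Fin 2, a ≠ b → (a = 0 ↔ ¬ b = 0) := by decide
  refine ⟨U.filter (fun v => φ v = 0), Finset.filter_subset _ _, ?_⟩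
  intro v w hv hw hvw
  have h1 : φ v ≠ φ w := φ.valid ⟨hv, hw, hvw⟩
  rw [Finset.mem_filter, Finset.mem_filter]
  have h2 := key _ _ h1
  tauto

/-- assembly of the bound -/
theorem MinObs.few_assembly {G : SimpleGraph V} (hG : DiamondFree G) (hc : OneBigAtCentre G)
    {U : Finset V} (h : MinObs G U)
    (hgoodAll : ∀ X0, Exact G U X0 → ∃ (a : V) (X : Finset V), Exact G U X ∧
      ∀ Q ∈ big G U, (Q ∩ X).card = if a ∈ Q then 2 else 1)
    (hmeetAll : ∀ X0, Exact G U X0 → ∀ I ⊆ big G U, I.Nonempty →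
      (∀ X, Exact G U X → ∑ Q ∈ I, (Q ∩ X).card = I.card + 1) →
      ∀ Q0 ∈ big G U, Q0 ∉ I → ∀ X, Exact G U X → (Q0 ∩ X).card ≠ 0) :
    ∑ C ∈ maxCliques G U, (C.card - 2) ≤ 2 := by
  by_cases hcol : (PureGraph G U).Colorable 2
  · obtain ⟨X0, hX0⟩ := exists_exact_of_colorable hcol
    rcases (big G U).eq_empty_or_nonempty with h0 | hne
    · have e1 : ∑ C ∈ big G U, (C.card - 2) + ∑ C ∈ small G U, (C.card - 2) =
          ∑ C ∈ maxCliques G U, (C.card - 2) := Finset.sum_filter_add_sum_filter_not _ _ _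
      have e2 : ∑ C ∈ small G U, (C.card - 2) = 0 := by
        apply Finset.sum_eq_zero
        intro C hC
        have := (mem_small.mp hC).2
        omega
      rw [h0, Finset.sum_empty] at e1
      omega
    · obtain ⟨I, hIb, hI, hcore⟩ := exists_core hG hc h hX0
      obtain ⟨a, X1, hX1, hgood⟩ := hgoodAll X0 hX0
      have haR : ∃ R ∈ I, a ∈ R := by
        by_contra hcon
        push Not at hcon
        have h1 := hcore X1 hX1
        have h2 : ∑ Q ∈ I, (Q ∩ X1).card = ∑ Q ∈ I, 1 := by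
          apply Finset.sum_congr rfl
          intro Q hQ
          rw [hgood Q (hIb hQ), if_neg (hcon Q hQ)]
        rw [h2, ← Finset.card_eq_sum_ones] at h1
        omega
      obtain ⟨R, hR, haR⟩ := haR
      exact h.few_of_good hG hc hIb hcore (hmeetAll X0 hX0 I hIb hI hcore) hX1 hR haR hgood
  · exact h.few_of_not_colorable hG hc hcol

end Pool.Agent.H28.SP
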