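import Pool.Agent.H28.SPN5

/-!
The bound for minimal obstructions: every exact set meets every big clique outside the core.
-/

namespace Pool.Agent.H28.SP

open Finset

variable {V : Type*} [Fintype V] [DecidableEq V]

lemma three_le_card {C : Finset V} {a b c : V} (ha : a ∈ C) (hb : b ∈ C) (hc : c ∈ C)
    (hab : a ≠ b) (hac : a ≠ c) (hbc : b ≠ c) : 3 ≤ C.card := by
  have : ({a, b, c} : Finset V) ⊆ C := by
    intro x hx
    rw [Finset.mem_insert, Finset.mem_insert, Finset.mem_singleton] at hx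
    rcases hx with rfl | rfl | rfl <;> assumption
  have h1 := Finset.card_le_card this
  have h2 : ({a, b, c} : Finset V).card = 3 := by
    rw [Finset.card_insert_of_notMem, Finset.card_pair hbc]
    rw [Finset.mem_insert, Finset.mem_singleton]
    tauto
  omega

open Classical in
theorem core_meets {G : SimpleGraph V} (hG : DiamondFree G) (hc : OneBigAtCentre G)
    {U : Finset V} (h : MinObs G U) {I : Finset (Finset V)} (hIb : I ⊆ big G U)
    (hcore : ∀ X, Exact G U X → ∑ Q ∈ I, (Q ∩ X).card = I.card + 1) {Q0 : Finset V}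
    (hQ0 : Q0 ∈ big G U) (hQ0I : Q0 ∉ I) {X0 : Finset V} (hX0 : Exact G U X0) :
    (Q0 ∩ X0).card ≠ 0 := by
  intro h0
  have hQ0U : ∀ v ∈ Q0, v ∈ U := fun v hv => maxCliqueIn_subset (mem_big.mp hQ0).1 hv
  have hQX : ∀ v ∈ Q0, v ∉ X0 := by
    intro v hv hvX
    have : v ∈ Q0 ∩ X0 := Finset.mem_inter.mpr ⟨hv, hvX⟩
    rw [Finset.card_eq_zero.mp h0] at this
    simp at this
  set r : V → V → Prop := fun z v => (PureGraph G U).Reachable z v with hr
  have rsymm : ∀ {z v}, r z v → r v z := fun h' => h'.symm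
  have rtrans : ∀ {z v w}, r z v → r v w → r z w := fun h1 h2 => h1.trans h2
  have hcoreU : ∀ v ∈ coreV I, v ∈ U := by
    intro v hv
    obtain ⟨Q, hQ, hvQ⟩ := mem_coreV.mp hv
    exact maxCliqueIn_subset (mem_big.mp (hIb hQ)).1 hvQ
  -- good sets and `Q0`
  have good1 : ∀ {a X}, Good G U a X → (Q0 ∩ X).card = 1 := by
    intro a X ha
    rw [ha.2.2 Q0 hQ0, if_neg]
    intro haQ0
    obtain ⟨Q, hQ, haQ⟩ := mem_coreV.mp (ha.mem_core hIb hcore)
    exact hQ0I (h.bigL_disjoint hG hc (hIb hQ) hQ0 haQ haQ0 ▸ hQ)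
  have key1 : ∀ {a X}, Good G U a X → ∀ q ∈ Q0, ∀ q' ∈ Q0, q ∈ X → q' ∈ X → q = q' := by
    intro a X ha q hq q' hq' h1 h2
    exact Finset.card_le_one.mp (good1 ha).le q (Finset.mem_inter.mpr ⟨hq, h1⟩) q'
      (Finset.mem_inter.mpr ⟨hq', h2⟩)
  have key2 : ∀ {a X}, Good G U a X → ∃ q ∈ Q0, q ∈ X := by
    intro a X ha
    obtain ⟨q, hq⟩ := Finset.card_pos.mp (by rw [good1 ha]; exact one_pos)
    exact ⟨q, (Finset.mem_inter.mp hq).1, (Finset.mem_inter.mp hq).2⟩
  have agree : ∀ {a X}, Good G U a X → ∀ q ∈ Q0, q ∉ X → ∀ v, r q v → (v ∈ X ↔ v ∈ X0) := by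
    intro a X ha q hq hqX v hv
    have h1 := exact_agree ha.1 hX0 hv
    have h2 := hQX q hq
    tauto
  have opp : ∀ {a X}, Good G U a X → ∀ q ∈ Q0, q ∈ X → ∀ v, r q v → (v ∈ X ↔ v ∉ X0) := by
    intro a X ha q hq hqX v hv
    have h1 := exact_agree ha.1 hX0 hv
    have h2 := hQX q hq
    tauto
  -- counting
  set B : V → Finset V := fun z => (coreV I).filter (fun v => (PureGraph G U).Reachable z v)
    with hB
  have hBm : ∀ {z v}, v ∈ B z ↔ v ∈ coreV I ∧ r z v := by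
    intro z v
    rw [hB]
    exact Finset.mem_filter
  have hBd : ∀ {z z'}, ¬ r z z' → Disjoint (B z) (B z') := by
    intro z z' hne
    rw [Finset.disjoint_left]
    intro v hv hv'
    exact hne (rtrans (hBm.mp hv).2 (rsymm (hBm.mp hv').2))
  have hBsub : ∀ z, B z ⊆ coreV I := fun z v hv => (hBm.mp hv).1
  have h6 := card_coreV hIb hcore hX0
  have count3 : ∀ {z1 z2 z3}, ¬ r z1 z2 → ¬ r z1 z3 → ¬ r z2 z3 →
      (B z1).card + (B z2).card + (B z3).card ≤ 6 := by
    intro z1 z2 z3 h12 h13 h23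
    have h1 := Finset.card_le_card (Finset.union_subset (Finset.union_subset (hBsub z1)
      (hBsub z2)) (hBsub z3))
    rw [Finset.card_union_of_disjoint, Finset.card_union_of_disjoint (hBd h12)] at h1
    · omega
    · rw [Finset.disjoint_union_left]
      exact ⟨hBd h13, hBd h23⟩
  have count4 : ∀ {z1 z2 z3 z4}, ¬ r z1 z2 → ¬ r z1 z3 → ¬ r z2 z3 → ¬ r z1 z4 → ¬ r z2 z4 →
      ¬ r z3 z4 → (B z1).card + (B z2).card + (B z3).card + (B z4).card ≤ 6 := by
    intro z1 z2 z3 z4 h12 h13 h23 h14 h24 h34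
    have h1 := Finset.card_le_card (Finset.union_subset (Finset.union_subset
      (Finset.union_subset (hBsub z1) (hBsub z2)) (hBsub z3)) (hBsub z4))
    rw [Finset.card_union_of_disjoint, Finset.card_union_of_disjoint,
      Finset.card_union_of_disjoint (hBd h12)] at h1
    · omega
    · rw [Finset.disjoint_union_left]
      exact ⟨hBd h13, hBd h23⟩
    · rw [Finset.disjoint_union_left, Finset.disjoint_union_left]
      exact ⟨⟨hBd h14, hBd h24⟩, hBd h34⟩
  have hB2 : ∀ v ∈ U, 2 ≤ (B v).card := by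
    intro v hv
    obtain ⟨a, b, hab, hva, hvb, ⟨X, hX⟩, ⟨Y, hY⟩⟩ := two_good hG h hX0 hv
    have h1 : 1 < (B v).card := Finset.one_lt_card.mpr
      ⟨a, hBm.mpr ⟨hX.mem_core hIb hcore, hva⟩, b, hBm.mpr ⟨hY.mem_core hIb hcore, hvb⟩, hab⟩
    omega
  -- two core vertices on the same side of a component
  have hB4 : ∀ {z a b}, z ∈ U → a ≠ b → a ∈ B z → b ∈ B z → (a ∈ X0 ↔ b ∈ X0) →
      4 ≤ (B z).card := by
    intro z a b hz hab ha hb hside
    have h1 := core_balance hG hc h hIb hcore hX0 hz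
    have h2 := Finset.card_inter_add_card_sdiff (B z) X0
    have h3 : (B z ∩ X0).card = (B z \ X0).card := h1
    by_cases haX : a ∈ X0
    · have h4 : 1 < (B z ∩ X0).card := Finset.one_lt_card.mpr
        ⟨a, Finset.mem_inter.mpr ⟨ha, haX⟩, b, Finset.mem_inter.mpr ⟨hb, hside.mp haX⟩, hab⟩
      omega
    · have h4 : 1 < (B z \ X0).card := Finset.one_lt_card.mpr
        ⟨a, Finset.mem_sdiff.mpr ⟨ha, haX⟩, b,
          Finset.mem_sdiff.mpr ⟨hb, fun h' => haX (hside.mpr h')⟩, hab⟩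
      omega
  -- the members of `I` only see which vertices of `U` are in the exact set
  have same : ∀ {a X b Y}, Good G U a X → Good G U b Y → (∀ v ∈ U, v ∈ X ↔ v ∈ Y) →
      ∀ Q ∈ I, a ∈ Q → b ∈ Q := by
    intro a X b Y ha hb hXY Q hQ haQ
    have h1 := ha.2.2 Q (hIb hQ)
    have h2 := hb.2.2 Q (hIb hQ)
    have h3 : Q ∩ X = Q ∩ Y := by
      ext v
      rw [Finset.mem_inter, Finset.mem_inter]
      constructor
      · rintro ⟨h4, h5⟩
        exact ⟨h4, (hXY v (maxCliqueIn_subset (mem_big.mp (hIb hQ)).1 h4)).mp h5⟩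
      · rintro ⟨h4, h5⟩
        exact ⟨h4, (hXY v (maxCliqueIn_subset (mem_big.mp (hIb hQ)).1 h4)).mpr h5⟩
    rw [h3, h2, if_pos haQ] at h1
    by_contra hbQ
    rw [if_neg hbQ] at h1
    omega
  by_cases hcase : ∃ q ∈ Q0, ∃ q' ∈ Q0, q ≠ q' ∧ r q q'
  · -- a component with two vertices of `Q0`
    obtain ⟨q, hq, q', hq', hqq, hrq⟩ := hcase
    have hqX : ∀ {a X}, Good G U a X → q ∉ X := by
      intro a X ha hqX
      exact hqq (key1 ha q hq q' hq' hqX ((opp ha q hq hqX q' hrq).mpr (hQX q' hq')))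
    obtain ⟨g1, g2, hg12, hqg1, hqg2, ⟨X1, hX1⟩, ⟨X2, hX2⟩⟩ := two_good hG h hX0 (hQ0U q hq)
    have hg1 : g1 ∈ X0 := (agree hX1 q hq (hqX hX1) g1 hqg1).mp hX1.2.1
    have hg2 : g2 ∈ X0 := (agree hX2 q hq (hqX hX2) g2 hqg2).mp hX2.2.1
    have hBq : 4 ≤ (B q).card := hB4 (hQ0U q hq) hg12
      (hBm.mpr ⟨hX1.mem_core hIb hcore, hqg1⟩) (hBm.mpr ⟨hX2.mem_core hIb hcore, hqg2⟩)
      ⟨fun _ => hg2, fun _ => hg1⟩
    obtain ⟨s, hs, hsX1⟩ := key2 hX1
    have hqs : ¬ r q s := by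
      intro h'
      exact hQX s hs ((agree hX1 q hq (hqX hX1) s h').mp hsX1)
    have cover : ∀ v ∈ U, r q v ∨ r s v := by
      intro v hv
      by_contra hcon
      push Not at hcon
      have h1 := count3 hqs hcon.1 hcon.2
      have h2 := hB2 s (hQ0U s hs)
      have h3 := hB2 v hv
      omega
    have hsX : ∀ {a X}, Good G U a X → s ∈ X := by
      intro a X ha
      obtain ⟨t, ht, htX⟩ := key2 ha
      have hqt : ¬ r q t := by
        intro h'
        exact hQX t ht ((agree ha q hq (hqX ha) t h').mp htX)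
      have hst : r s t := (cover t (hQ0U t ht)).resolve_left hqt
      exact (opp ha t ht htX s (rsymm hst)).mpr (hQX s hs)
    have eqX : ∀ {a X b Y}, Good G U a X → Good G U b Y → ∀ v ∈ U, v ∈ X ↔ v ∈ Y := by
      intro a X b Y ha hb v hv
      rcases cover v hv with h1 | h1
      · rw [agree ha q hq (hqX ha) v h1, agree hb q hq (hqX hb) v h1]
      · rw [opp ha s hs (hsX ha) v h1, opp hb s hs (hsX hb) v h1]
    obtain ⟨g3, _, _, hsg3, _, ⟨X3, hX3⟩, _⟩ := two_good hG h hX0 (hQ0U s hs)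
    obtain ⟨Q, hQ, hg1Q⟩ := mem_coreV.mp (hX1.mem_core hIb hcore)
    have hg2Q := same hX1 hX2 (eqX hX1 hX2) Q hQ hg1Q
    have hg3Q := same hX1 hX3 (eqX hX1 hX3) Q hQ hg1Q
    have hg2U := hcoreU _ (hX2.mem_core hIb hcore)
    have hg3U := hcoreU _ (hX3.mem_core hIb hcore)
    have hg13 : g1 ≠ g3 := fun h' => hqs (rtrans hqg1 (rsymm (h' ▸ hsg3)))
    have hg23 : g2 ≠ g3 := fun h' => hqs (rtrans hqg2 (rsymm (h' ▸ hsg3)))
    have h3 := three_le_card (C := Q ∩ X1) (Finset.mem_inter.mpr ⟨hg1Q, hX1.2.1⟩)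
      (Finset.mem_inter.mpr ⟨hg2Q, (eqX hX1 hX2 g2 hg2U).mpr hX2.2.1⟩)
      (Finset.mem_inter.mpr ⟨hg3Q, (eqX hX1 hX3 g3 hg3U).mpr hX3.2.1⟩) hg12 hg13 hg23
    rw [hX1.2.2 Q (hIb hQ), if_pos hg1Q] at h3
    omega
  · push Not at hcase
    have hcase' : ∀ {q q'}, q ∈ Q0 → q' ∈ Q0 → r q q' → q = q' := by
      intro q q' hq hq' h1
      by_contra hne
      exact hcase q hq q' hq' hne h1
    -- three vertices of `Q0`
    obtain ⟨q1, q2, q3, hq1, hq2, hq3, h12, h13, h23⟩ := Finset.two_lt_card_iff.mp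
      (show 2 < Q0.card by have := (mem_big.mp hQ0).2; omega)
    have n12 := hcase q1 hq1 q2 hq2 h12
    have n13 := hcase q1 hq1 q3 hq3 h13
    have n23 := hcase q2 hq2 q3 hq3 h23
    have cover : ∀ v ∈ U, ∃ q, (q = q1 ∨ q = q2 ∨ q = q3) ∧ r q v := by
      intro v hv
      by_contra hcon
      push Not at hcon
      have h1 := count4 n12 n13 n23 (hcon q1 (Or.inl rfl)) (hcon q2 (Or.inr (Or.inl rfl)))
        (hcon q3 (Or.inr (Or.inr rfl)))
      have e1 := hB2 q1 (hQ0U q1 hq1)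
      have e2 := hB2 q2 (hQ0U q2 hq2)
      have e3 := hB2 q3 (hQ0U q3 hq3)
      have e4 := hB2 v hv
      omega
    have only3 : ∀ q ∈ Q0, q = q1 ∨ q = q2 ∨ q = q3 := by
      intro q hq
      obtain ⟨t, ht, htq⟩ := cover q (hQ0U q hq)
      rcases ht with rfl | rfl | rfl
      · exact Or.inl (hcase' hq1 hq htq).symm
      · exact Or.inr (Or.inl (hcase' hq2 hq htq).symm)
      · exact Or.inr (Or.inr (hcase' hq3 hq htq).symm)
    have cover' : ∀ v ∈ U, ∃ q ∈ Q0, r q v := by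
      intro v hv
      obtain ⟨q, hq, hqv⟩ := cover v hv
      rcases hq with rfl | rfl | rfl
      · exact ⟨_, hq1, hqv⟩
      · exact ⟨_, hq2, hqv⟩
      · exact ⟨_, hq3, hqv⟩
    have others : ∀ q ∈ Q0, ∃ q' ∈ Q0, ∃ q'' ∈ Q0, q ≠ q' ∧ q ≠ q'' ∧ q' ≠ q'' := by
      intro q hq
      rcases only3 q hq with rfl | rfl | rfl
      · exact ⟨q2, hq2, q3, hq3, h12, h13, h23⟩
      · exact ⟨q1, hq1, q3, hq3, h12.symm, h23, h13⟩
      · exact ⟨q1, hq1, q2, hq2, h13.symm, h23.symm, h12⟩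
    -- good vertices on both sides of the component of `q`
    have ps : ∀ q : V, ∃ p s : V, ∃ Y X : Finset V, q ∈ Q0 →
        Good G U p Y ∧ Good G U s X ∧ r q p ∧ r q s ∧ p ∈ X0 ∧ s ∉ X0 := by
      intro q
      by_cases hq : q ∈ Q0
      · obtain ⟨a, b, hab, hqa, hqb, ⟨X, hX⟩, ⟨Y, hY⟩⟩ := two_good hG h hX0 (hQ0U q hq)
        by_cases hside : a ∈ X0 ↔ b ∈ X0
        · exfalso
          obtain ⟨q', hq', q'', hq'', k1, k2, k3⟩ := others q hq
          have e1 := count3 (hcase q hq q' hq' k1) (hcase q hq q'' hq'' k2)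
            (hcase q' hq' q'' hq'' k3)
          have e2 := hB4 (hQ0U q hq) hab (hBm.mpr ⟨hX.mem_core hIb hcore, hqa⟩)
            (hBm.mpr ⟨hY.mem_core hIb hcore, hqb⟩) hside
          have e3 := hB2 q' (hQ0U q' hq')
          have e4 := hB2 q'' (hQ0U q'' hq'')
          omega
        · by_cases haX : a ∈ X0
          · exact ⟨a, b, X, Y, fun _ => ⟨hX, hY, hqa, hqb, haX, by tauto⟩⟩
          · exact ⟨b, a, Y, X, fun _ => ⟨hY, hX, hqb, hqa, by tauto, haX⟩⟩
      · exact ⟨q, q, ∅, ∅, fun h' => absurd h' hq⟩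
    choose p s Y X hps using ps
    -- the set of `p q` is that of `s j` for some `j ≠ q`
    have hj : ∀ q ∈ Q0, ∃ j ∈ Q0, j ≠ q ∧ j ∈ Y q := by
      intro q hq
      obtain ⟨hpY, _, hqp, _, hpX, _⟩ := hps q hq
      obtain ⟨j, hj, hjY⟩ := key2 hpY
      refine ⟨j, hj, ?_, hjY⟩
      rintro rfl
      exact (opp hpY j hj hjY _ hqp).mp hpY.2.1 hpX
    have hsX : ∀ q ∈ Q0, q ∈ X q := by
      intro q hq
      obtain ⟨_, hsX, _, hqs, _, hsX0⟩ := hps q hq
      by_contra hcon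
      exact hsX0 ((agree hsX q hq hcon _ hqs).mp hsX.2.1)
    have eqj : ∀ q ∈ Q0, ∀ j ∈ Q0, j ∈ Y q → ∀ v ∈ U, v ∈ Y q ↔ v ∈ X j := by
      intro q hq j hj hjY v hv
      have hY := (hps q hq).1
      have hX := (hps j hj).2.1
      obtain ⟨t, ht, htv⟩ := cover' v hv
      by_cases htj : t = j
      · rw [htj] at htv
        rw [opp hY j hj hjY v htv, opp hX j hj (hsX j hj) v htv]
      · have h1 : t ∉ Y q := fun h' => htj (key1 hY t ht j hj h' hjY)
        have h2 : t ∉ X j := fun h' => htj (key1 hX t ht j hj h' (hsX j hj))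
        rw [agree hY t ht h1 v htv, agree hX t ht h2 v htv]
    -- two of the `p q` in one member of `I`
    have claim : ∀ q ∈ Q0, ∀ q' ∈ Q0, q ≠ q' → ∀ Q ∈ I, p q ∈ Q → p q' ∈ Q →
        ∀ j ∈ Q0, j ∈ Y q → j = q' ∧ s q' ∈ Q := by
      intro q hq q' hq' hne Q hQ hpQ hpQ' j hj hjY
      have hY := hps q hq
      have hY' := hps q' hq'
      have hX := hps j hj
      have hsQ : s j ∈ Q := same hY.1 hX.2.1 (eqj q hq j hj hjY) Q hQ hpQ
      have hjq' : j = q' := by
        by_contra hjq'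
        have h1 : q' ∉ X j := fun h' => hjq' (key1 hX.2.1 q' hq' j hj h' (hsX j hj)).symm
        have h2 : p q' ∈ X j := (agree hX.2.1 q' hq' h1 _ hY'.2.2.1).mpr hY'.2.2.2.2.1
        have h3 : p q ∈ X j :=
          (eqj q hq j hj hjY _ (maxCliqueIn_subset (mem_big.mp (hIb hQ)).1 hpQ)).mp hY.1.2.1
        have h4 : p q ≠ p q' := by
          intro h'
          exact hcase q hq q' hq' hne (rtrans hY.2.2.1 (rsymm (h' ▸ hY'.2.2.1)))
        have h5 : p q ≠ s j := fun h' => hX.2.2.2.2.2 (h' ▸ hY.2.2.2.2.1)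
        have h6 : p q' ≠ s j := fun h' => hX.2.2.2.2.2 (h' ▸ hY'.2.2.2.2.1)
        have h7 := three_le_card (C := Q ∩ X j) (Finset.mem_inter.mpr ⟨hpQ, h3⟩)
          (Finset.mem_inter.mpr ⟨hpQ', h2⟩) (Finset.mem_inter.mpr ⟨hsQ, hX.2.1.2.1⟩) h4 h5 h6
        rw [hX.2.1.2.2 Q (hIb hQ), if_pos hsQ] at h7
        omega
      exact ⟨hjq', hjq' ▸ hsQ⟩
    -- pigeonhole
    have hclq : ∀ q : V, ∃ Q : Finset V, q ∈ Q0 → Q ∈ I ∧ p q ∈ Q := by
      intro q
      by_cases hq : q ∈ Q0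
      · obtain ⟨Q, hQ, hpQ⟩ := mem_coreV.mp ((hps q hq).1.mem_core hIb hcore)
        exact ⟨Q, fun _ => ⟨hQ, hpQ⟩⟩
      · exact ⟨∅, fun h' => absurd h' hq⟩
    choose cl hcl using hclq
    have hI2 := core_card hIb hcore hX0
    have hsum := core_sum hIb hcore hX0
    obtain ⟨q, hq, q', hq', hne, hqq⟩ := Finset.exists_ne_map_eq_of_card_lt_of_maps_to
      (s := Q0) (t := I) (by have := (mem_big.mp hQ0).2; omega) (f := cl)
      (fun q hq => (hcl q hq).1)
    have hpQ := (hcl q hq).2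
    have hpQ' : p q' ∈ cl q := hqq ▸ (hcl q' hq').2
    have hQI := (hcl q hq).1
    obtain ⟨j, hjQ, _, hjY⟩ := hj q hq
    obtain ⟨j', hj'Q, _, hj'Y⟩ := hj q' hq'
    have c1 := claim q hq q' hq' hne (cl q) hQI hpQ hpQ' j hjQ hjY
    have c2 := claim q' hq' q hq hne.symm (cl q) hQI hpQ' hpQ j' hj'Q hj'Y
    -- a third vertex of `Q0`
    obtain ⟨t, ht, htq, htq'⟩ : ∃ t ∈ Q0, t ≠ q ∧ t ≠ q' := by
      obtain ⟨a, ha, b, hb, k1, k2, k3⟩ := others q hq
      by_cases haq' : a = q'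
      · exact ⟨b, hb, k2.symm, fun h' => k3 (haq'.trans h'.symm)⟩
      · exact ⟨a, ha, k1.symm, haq'⟩
    by_cases htQ : cl t = cl q
    · have hpt : p t ∈ cl q := htQ ▸ (hcl t ht).2
      have c3 := claim q hq t ht htq.symm (cl q) hQI hpQ hpt j hjQ hjY
      exact htq' (c3.1.symm.trans c1.1)
    · have hd : ∀ u v, r q u → r q' v → u ≠ v := by
        intro u v hu hv h'
        exact hcase q hq q' hq' hne (rtrans hu (rsymm (h' ▸ hv)))
      have hY := hps q hq
      have hY' := hps q' hq'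
      have h4 : 4 ≤ (cl q).card := by
        have hsub : ({p q, s q, p q', s q'} : Finset V) ⊆ cl q := by
          intro x hx
          rw [Finset.mem_insert, Finset.mem_insert, Finset.mem_insert,
            Finset.mem_singleton] at hx
          rcases hx with rfl | rfl | rfl | rfl
          · exact hpQ
          · exact c2.2
          · exact hpQ'
          · exact c1.2
        have h1 := Finset.card_le_card hsub
        have hps1 : p q ≠ s q := fun h' => hY.2.2.2.2.2 (h' ▸ hY.2.2.2.2.1)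
        have hps2 : p q' ≠ s q' := fun h' => hY'.2.2.2.2.2 (h' ▸ hY'.2.2.2.2.1)
        have d1 := hd _ _ hY.2.2.1 hY'.2.2.1
        have d2 := hd _ _ hY.2.2.1 hY'.2.2.2.1
        have d3 := hd _ _ hY.2.2.2.1 hY'.2.2.1
        have d4 := hd _ _ hY.2.2.2.1 hY'.2.2.2.1
        have h2 : ({p q, s q, p q', s q'} : Finset V).card = 4 := by
          rw [Finset.card_insert_of_notMem, Finset.card_insert_of_notMem,
            Finset.card_pair hps2]
          · rw [Finset.mem_insert, Finset.mem_singleton]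
            tauto
          · rw [Finset.mem_insert, Finset.mem_insert, Finset.mem_singleton]
            tauto
        omega
      have h3 := (mem_big.mp (hIb (hcl t ht).1)).2
      have hle : (cl q).card + (cl t).card ≤ ∑ Q ∈ I, Q.card := by
        have hsub : ({cl q, cl t} : Finset (Finset V)) ⊆ I := by
          intro x hx
          rw [Finset.mem_insert, Finset.mem_singleton] at hx
          rcases hx with rfl | rfl
          · exact hQI
          · exact (hcl t ht).1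
        have h5 := Finset.sum_le_sum_of_subset (f := Finset.card) hsub
        rw [Finset.sum_pair (fun h' => htQ h'.symm)] at h5
        exact h5
      omega

end Pool.Agent.H28.SP
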