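import Pool.Agent.H28.SPN7
import Pool.Agent.H28.SPN8

/-!
The bound for minimal obstructions.
-/

namespace Pool.Agent.H28.SP

open Finset

variable {V : Type*} [Fintype V] [DecidableEq V]

theorem MinObs.fewN {G : SimpleGraph V} (hG : DiamondFree G) (hc : OneBigAtCentre G)
    {U : Finset V} (h : MinObs G U) : ∑ C ∈ maxCliques G U, (C.card - 2) ≤ 2 := by
  apply h.few_assembly hG hc
  · intro X0 hX0
    obtain ⟨v, hv⟩ := h.1
    obtain ⟨a, _, _, _, X, hX⟩ := exists_good hG h hX0 hv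
    exact ⟨a, X, hX.1, hX.2.2⟩
  · intro X0 _ I hI _ hcore Q0 hQ0 hQ0I X hX
    exact core_meets hG hc h hI hcore hQ0 hQ0I hX

end Pool.Agent.H28.SP
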