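import Pool.Agent.H28.SPM3

/-!
Minimal infeasible families of big cliques: the exclusion of type 0.
-/

namespace Pool.Agent.H28.SP

open Finset

variable {V : Type*} [Fintype V] [DecidableEq V]

lemma bicol_pair {G : SimpleGraph V} (hG : DiamondFree G) {U W C : Finset V} (hWU : W ⊆ U)
    {c : V → Bool} (hc : Bicol G W c) (hC : MaxCliqueIn G U C) {p q : V}
    (hW : C ∩ W = {p, q}) (hpq : p ≠ q) : c p ≠ c q := by
  have h2 : (C ∩ W).card = 2 := by rw [hW, Finset.card_pair hpq]
  have hm := maxCliqueIn_inter hG hWU hC h2.ge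
  intro heq
  obtain ⟨x, hx, hxb⟩ := hc _ hm h2.ge (!(c p))
  rw [hW, Finset.mem_insert, Finset.mem_singleton] at hx
  rcases hx with rfl | rfl
  · cases h : c x <;> simp [h] at hxb
  · rw [heq] at hxb
    cases h : c x <;> simp [h] at hxb

/-- in a minimal infeasible family of big cliques, an exact set with one vertex in all but one of
the cliques has at least two vertices in the remaining one -/
theorem MinObs.two_le_of_infeasible {G : SimpleGraph V} (hG : DiamondFree G)
    (hc : OneBigAtCentre G) {U : Finset V} (h : MinObs G U) {I : Finset (Finset V)}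
    (hI : I ⊆ big G U) (hinf : ¬ ∃ X, Exact G U X ∧ ∀ Q ∈ I, (Q ∩ X).card = 1)
    {Q : Finset V} (hQ : Q ∈ I) {X : Finset V} (hX : Exact G U X)
    (h1 : ∀ Q' ∈ I, Q' ≠ Q → (Q' ∩ X).card = 1) : 2 ≤ (Q ∩ X).card := by
  classical
  have hne1 : (Q ∩ X).card ≠ 1 := by
    intro h'
    apply hinf
    refine ⟨X, hX, ?_⟩
    intro Q' hQ'
    by_cases hQQ : Q' = Q
    · rw [hQQ]; exact h'
    · exact h1 Q' hQ' hQQ
  have hne0 : (Q ∩ X).card ≠ 0 := by
    intro h0
    rw [Finset.card_eq_zero] at h0
    have hQb := hI hQ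
    have hQ1 := mem_big.mp hQb
    obtain ⟨a, haQ⟩ : Q.Nonempty := Finset.card_pos.mp (by have := hQ1.2; omega)
    have haU := maxCliqueIn_subset hQ1.1 haQ
    have haX : a ∉ X := by
      intro h'
      have : a ∈ Q ∩ X := Finset.mem_inter.mpr ⟨haQ, h'⟩
      rw [h0] at this
      simp at this
    obtain ⟨S, hS⟩ := h.exists_erase haU
    have haS : a ∉ S := fun h' => Finset.notMem_erase a U (hS.1 h')
    have hSU : S ⊆ U := hS.1.trans (Finset.erase_subset _ _)
    set W : Finset V := insert a ((X \ S) ∪ (S \ X)) with hW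
    have hWU : W ⊆ U := by
      intro x hx
      rw [hW, Finset.mem_insert, Finset.mem_union, Finset.mem_sdiff, Finset.mem_sdiff] at hx
      rcases hx with rfl | hx | hx
      · exact haU
      · exact hX.1 hx.1
      · exact hSU hx.1
    have hmW : ∀ y, y ∈ W ↔ y = a ∨ (y ∈ X ∧ y ∉ S) ∨ (y ∈ S ∧ y ∉ X) := by
      intro y
      rw [hW, Finset.mem_insert, Finset.mem_union, Finset.mem_sdiff, Finset.mem_sdiff]
    obtain ⟨c, hcol⟩ := exists_bicol_rel hG (hbip_of_exact h hX) W hWU
    set Z : Finset V := U.filter (fun y => (y ∈ X ∧ y ∈ S) ∨ (y ∈ W ∧ c y ≠ c a)) with hZ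
    have hmZ : ∀ y ∈ U, (y ∈ Z ↔ (y ∈ X ∧ y ∈ S) ∨ (y ∈ W ∧ c y ≠ c a)) := by
      intro y hy
      rw [hZ, Finset.mem_filter]
      exact ⟨fun h' => h'.2, fun h' => ⟨hy, h'⟩⟩
    have haZ : a ∉ Z := by
      rw [hmZ a haU]
      tauto
    have hbool : ∀ p q : V, c p ≠ c q → (c p ≠ c a ↔ ¬ c q ≠ c a) := by
      intro p q hpq
      cases hp : c p <;> cases hq : c q <;> cases ha : c a <;> simp_all
    have hSe : ∀ v w, v ∈ U → w ∈ U → PureEdge G U v w → v ≠ a → w ≠ a → (v ∈ S ↔ w ∉ S) := by
      intro v w hv hw hvw hva hwa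
      exact (exact_of_strong hS).2 v w (Finset.mem_erase.mpr ⟨hva, hv⟩)
        (Finset.mem_erase.mpr ⟨hwa, hw⟩) (hvw.mono (Finset.erase_subset _ _))
    have hpair : ∀ v w, v ∈ U → w ∈ U → PureEdge G U v w → v ∈ W → w ∈ W → c v ≠ c w := by
      intro v w hv hw hvw hvW hwW
      refine bicol_pair hG hWU hcol (maxCliqueIn_pair hv hw hvw) ?_ hvw.1.ne
      rw [Finset.inter_eq_left]
      intro y hy
      rw [Finset.mem_insert, Finset.mem_singleton] at hy
      rcases hy with rfl | rfl
      · exact hvW
      · exact hwW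
    have hZe : Exact G U Z := by
      refine ⟨Finset.filter_subset _ _, ?_⟩
      have haux : ∀ w, w ∈ U → PureEdge G U a w → w ∈ Z := by
        intro w hw haw
        rw [hmZ w hw]
        have hwX : w ∈ X := by
          by_contra h'
          exact haX ((hX.2 a w haU hw haw).mpr h')
        by_cases hwS : w ∈ S
        · exact Or.inl ⟨hwX, hwS⟩
        · right
          have hwW : w ∈ W := (hmW w).mpr (Or.inr (Or.inl ⟨hwX, hwS⟩))
          exact ⟨hwW, (hpair a w haU hw haw ((hmW a).mpr (Or.inl rfl)) hwW).symm⟩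
      intro v w hv hw hvw
      by_cases hva : v = a
      · subst hva
        have := haux w hw hvw
        tauto
      · by_cases hwa : w = a
        · subst hwa
          have := haux v hv hvw.symm
          tauto
        · have e1 := hX.2 v w hv hw hvw
          have e2 := hSe v w hv hw hvw hva hwa
          have e3 := hpair v w hv hw hvw
          have e4 := hbool v w
          rw [hmZ v hv, hmZ w hw]
          rw [hmW v, hmW w] at *
          by_cases hvX : v ∈ X <;> by_cases hvS : v ∈ S
          · have hwX := e1.mp hvX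
            have hwS := e2.mp hvS
            tauto
          · have hwX := e1.mp hvX
            have hwS : w ∈ S := by tauto
            have e5 := e3 (by tauto) (by tauto)
            have e6 := e4 e5
            tauto
          · have hwX : w ∈ X := by tauto
            have hwS := e2.mp hvS
            have e5 := e3 (by tauto) (by tauto)
            have e6 := e4 e5
            tauto
          · have hwX : w ∈ X := by tauto
            have hwS : w ∈ S := by tauto
            tauto
    apply hinf
    refine ⟨Z, hZe, ?_⟩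
    intro Q' hQ'
    have hQ'b := hI hQ'
    have hQ'1 := mem_big.mp hQ'b
    obtain ⟨s, hs⟩ := Finset.card_eq_one.mp (card_big_inter_strong hG hS hQ'b)
    have hsm : ∀ y ∈ Q', y ∈ S → y = s := by
      intro y hy hyS
      have : y ∈ Q' ∩ S := Finset.mem_inter.mpr ⟨hy, hyS⟩
      rw [hs] at this
      exact Finset.mem_singleton.mp this
    have hsQ : s ∈ Q' ∧ s ∈ S := by
      have : s ∈ Q' ∩ S := by rw [hs]; exact Finset.mem_singleton_self s
      exact Finset.mem_inter.mp this
    have hsU := maxCliqueIn_subset hQ'1.1 hsQ.1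
    by_cases hQQ : Q' = Q
    · subst hQQ
      have hsX : s ∉ X := by
        intro h'
        have : s ∈ Q' ∩ X := Finset.mem_inter.mpr ⟨hsQ.1, h'⟩
        rw [h0] at this
        simp at this
      have hsa : s ≠ a := fun h' => haS (h' ▸ hsQ.2)
      have hQW : Q' ∩ W = {s, a} := by
        ext y
        rw [Finset.mem_inter, hmW, Finset.mem_insert, Finset.mem_singleton]
        constructor
        · rintro ⟨hy, rfl | hy' | hy'⟩
          · exact Or.inr rfl
          · exfalso
            have : y ∈ Q' ∩ X := Finset.mem_inter.mpr ⟨hy, hy'.1⟩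
            rw [h0] at this
            simp at this
          · exact Or.inl (hsm y hy hy'.1)
        · rintro (rfl | rfl)
          · exact ⟨hsQ.1, Or.inr (Or.inr ⟨hsQ.2, hsX⟩)⟩
          · exact ⟨haQ, Or.inl rfl⟩
      have hcs := bicol_pair hG hWU hcol hQ'1.1 hQW hsa
      rw [Finset.card_eq_one]
      refine ⟨s, ?_⟩
      ext y
      rw [Finset.mem_inter, Finset.mem_singleton]
      constructor
      · rintro ⟨hy, hyZ⟩
        rw [hmZ y (maxCliqueIn_subset hQ'1.1 hy)] at hyZ
        rcases hyZ with hyZ | hyZ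
        · exact hsm y hy hyZ.2
        · have : y ∈ Q' ∩ W := Finset.mem_inter.mpr ⟨hy, hyZ.1⟩
          rw [hQW, Finset.mem_insert, Finset.mem_singleton] at this
          rcases this with rfl | rfl
          · rfl
          · exact absurd rfl hyZ.2
      · rintro rfl
        refine ⟨hsQ.1, (hmZ y hsU).mpr (Or.inr ⟨?_, hcs⟩)⟩
        exact (hmW y).mpr (Or.inr (Or.inr ⟨hsQ.2, hsX⟩))
    · have haQ' : a ∉ Q' := fun h' => hQQ (h.bigL_disjoint hG hc hQb hQ'b haQ h')
      obtain ⟨x, hx⟩ := Finset.card_eq_one.mp (h1 Q' hQ' hQQ)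
      have hxm : ∀ y ∈ Q', y ∈ X → y = x := by
        intro y hy hyX
        have : y ∈ Q' ∩ X := Finset.mem_inter.mpr ⟨hy, hyX⟩
        rw [hx] at this
        exact Finset.mem_singleton.mp this
      have hxQ : x ∈ Q' ∧ x ∈ X := by
        have : x ∈ Q' ∩ X := by rw [hx]; exact Finset.mem_singleton_self x
        exact Finset.mem_inter.mp this
      by_cases hxs : x = s
      · subst hxs
        rw [Finset.card_eq_one]
        refine ⟨x, ?_⟩
        ext y
        rw [Finset.mem_inter, Finset.mem_singleton]
        constructor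
        · rintro ⟨hy, hyZ⟩
          rw [hmZ y (maxCliqueIn_subset hQ'1.1 hy), hmW] at hyZ
          rcases hyZ with hyZ | ⟨rfl | hyZ | hyZ, _⟩
          · exact hxm y hy hyZ.1
          · exact absurd hy haQ'
          · exact hxm y hy hyZ.1
          · exact hsm y hy hyZ.1
        · rintro rfl
          exact ⟨hxQ.1, (hmZ y hsU).mpr (Or.inl ⟨hxQ.2, hsQ.2⟩)⟩
      · have hxS : x ∉ S := fun h' => hxs (hsm x hxQ.1 h')
        have hsX : s ∉ X := fun h' => hxs (hxm s hsQ.1 h').symm
        have hQW : Q' ∩ W = {x, s} := by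
          ext y
          rw [Finset.mem_inter, hmW, Finset.mem_insert, Finset.mem_singleton]
          constructor
          · rintro ⟨hy, rfl | hy' | hy'⟩
            · exact absurd hy haQ'
            · exact Or.inl (hxm y hy hy'.1)
            · exact Or.inr (hsm y hy hy'.1)
          · rintro (rfl | rfl)
            · exact ⟨hxQ.1, Or.inr (Or.inl ⟨hxQ.2, hxS⟩)⟩
            · exact ⟨hsQ.1, Or.inr (Or.inr ⟨hsQ.2, hsX⟩)⟩
        have hcs := bicol_pair hG hWU hcol hQ'1.1 hQW hxs
        have hb := hbool x s hcs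
        have hxU := maxCliqueIn_subset hQ'1.1 hxQ.1
        have hxW : x ∈ W := (hmW x).mpr (Or.inr (Or.inl ⟨hxQ.2, hxS⟩))
        have hsW : s ∈ W := (hmW s).mpr (Or.inr (Or.inr ⟨hsQ.2, hsX⟩))
        have hxZ : x ∈ Z ↔ c x ≠ c a := by
          rw [hmZ x hxU]
          tauto
        have hsZ : s ∈ Z ↔ c s ≠ c a := by
          rw [hmZ s hsU]
          tauto
        have hyZ : ∀ y ∈ Q', y ∈ Z → y = x ∨ y = s := by
          intro y hy hyZ
          rw [hmZ y (maxCliqueIn_subset hQ'1.1 hy)] at hyZ
          rcases hyZ with hyZ | hyZ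
          · exact Or.inl (hxm y hy hyZ.1)
          · have : y ∈ Q' ∩ W := Finset.mem_inter.mpr ⟨hy, hyZ.1⟩
            rw [hQW, Finset.mem_insert, Finset.mem_singleton] at this
            exact this
        rw [Finset.card_eq_one]
        by_cases hx' : x ∈ Z
        · have hs' : s ∉ Z := by tauto
          refine ⟨x, ?_⟩
          ext y
          rw [Finset.mem_inter, Finset.mem_singleton]
          constructor
          · rintro ⟨hy, hyZ'⟩
            rcases hyZ y hy hyZ' with h' | h'
            · exact h'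
            · exact absurd (h' ▸ hyZ') hs'
          · rintro rfl
            exact ⟨hxQ.1, hx'⟩
        · have hs' : s ∈ Z := by tauto
          refine ⟨s, ?_⟩
          ext y
          rw [Finset.mem_inter, Finset.mem_singleton]
          constructor
          · rintro ⟨hy, hyZ'⟩
            rcases hyZ y hy hyZ' with h' | h'
            · exact absurd (h' ▸ hyZ') hx'
            · exact h'
          · rintro rfl
            exact ⟨hsQ.1, hs'⟩
  omega

end Pool.Agent.H28.SP
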