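import Pool.Agent.H28.SPGasp

/-!
Diamond-free part: the number of maximal cliques, and the structure of minimal obstructions.
-/

namespace Pool.Agent.H28.SP

open Finset

variable {V : Type*} [Fintype V] [DecidableEq V]

lemma DiamondFree.adj {G : SimpleGraph V} (hG : DiamondFree G) {a b c d : V} (h1 : G.Adj a b)
    (h2 : G.Adj a c) (h3 : G.Adj b c) (h4 : G.Adj b d) (h5 : G.Adj c d) (h6 : a ≠ d) :
    G.Adj a d := by
  by_contra h
  exact hG ⟨a, b, c, d, h1, h2, h3, h4, h5, h6, h⟩

lemma mem_of_forall_adj {G : SimpleGraph V} {U C : Finset V} (hC : MaxCliqueIn G U C) {a : V}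
    (ha : a ∈ U) (h : ∀ d ∈ C, a ≠ d → G.Adj a d) : a ∈ C := by
  have h1 : (insert a C) ⊆ U ∧ G.IsClique ((insert a C : Finset V) : Set V) := by
    refine ⟨?_, ?_⟩
    · intro x hx
      rw [Finset.mem_insert] at hx
      rcases hx with rfl | hx
      · exact ha
      · exact maxCliqueIn_subset hC hx
    · rw [Finset.coe_insert, SimpleGraph.isClique_insert]
      exact ⟨maxCliqueIn_clique hC, fun d hd hne => h d (by exact_mod_cast hd) hne⟩
  exact hC.le_of_ge h1 (Finset.subset_insert a C) (Finset.mem_insert_self a C)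

lemma maxClique_eq_of_two {G : SimpleGraph V} (hG : DiamondFree G) {U C D : Finset V}
    (hC : MaxCliqueIn G U C) (hD : MaxCliqueIn G U D) {b c : V} (hbc : b ≠ c) (hbC : b ∈ C)
    (hcC : c ∈ C) (hbD : b ∈ D) (hcD : c ∈ D) : C ⊆ D := by
  intro a ha
  have hCc := maxCliqueIn_clique hC
  have hDc := maxCliqueIn_clique hD
  apply mem_of_forall_adj hD (maxCliqueIn_subset hC ha)
  intro d hd had
  by_cases hab : a = b
  · subst hab
    exact hDc (by exact_mod_cast hbD) (by exact_mod_cast hd) had
  by_cases hac : a = c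
  · subst hac
    exact hDc (by exact_mod_cast hcD) (by exact_mod_cast hd) had
  have hab' := hCc (by exact_mod_cast ha) (by exact_mod_cast hbC) hab
  have hac' := hCc (by exact_mod_cast ha) (by exact_mod_cast hcC) hac
  by_cases hdb : b = d
  · subst hdb; exact hab'
  by_cases hdc : c = d
  · subst hdc; exact hac'
  exact hG.adj hab' hac' (hCc (by exact_mod_cast hbC) (by exact_mod_cast hcC) hbc)
    (hDc (by exact_mod_cast hbD) (by exact_mod_cast hd) hdb)
    (hDc (by exact_mod_cast hcD) (by exact_mod_cast hd) hdc) had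

open Classical in
/-- the edges of `G[U]`, as two-element cliques contained in `U` -/
noncomputable def edgesIn (G : SimpleGraph V) (U : Finset V) : Finset (Finset V) :=
  (U.powersetCard 2).filter (fun e => G.IsClique ((e : Finset V) : Set V))

theorem card_maxCliques_le (G : SimpleGraph V) (hG : DiamondFree G) (U : Finset V)
    (hU : U.Nonempty) : (maxCliques G U).card ≤ U.card + (edgesIn G U).card := by
  classical
  have hsub : ∀ C : Finset V, ∃ e : Finset V, 2 ≤ C.card → e ⊆ C ∧ e.card = 2 := by
    intro C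
    by_cases h : 2 ≤ C.card
    · obtain ⟨e, he⟩ := Finset.exists_subset_card_eq h
      exact ⟨e, fun _ => he⟩
    · exact ⟨∅, fun h' => absurd h' h⟩
  choose e he using hsub
  have hne : ∀ C, MaxCliqueIn G U C → 1 ≤ C.card := by
    intro C hC
    by_contra h
    have h0 : C = ∅ := by rw [← Finset.card_eq_zero]; omega
    subst h0
    obtain ⟨x, hx⟩ := hU
    have := mem_of_forall_adj hC hx (by simp)
    simp at this
  set φ : Finset V → Finset V := fun C => if 2 ≤ C.card then e C else C with hφ
  have hle : (maxCliques G U).card ≤ ((U.powersetCard 1) ∪ edgesIn G U).card := by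
    apply Finset.card_le_card_of_injOn φ
    · intro C hC
      have hC' := mem_maxCliques.mp (Finset.mem_coe.mp hC)
      simp only [hφ]
      rw [Finset.coe_union]
      split_ifs with h
      · right
        refine Finset.mem_coe.mpr (Finset.mem_filter.mpr ⟨Finset.mem_powersetCard.mpr
          ⟨(he C h).1.trans (maxCliqueIn_subset hC'), (he C h).2⟩, ?_⟩)
        exact (maxCliqueIn_clique hC').subset (by exact_mod_cast (he C h).1)
      · left
        refine Finset.mem_coe.mpr (Finset.mem_powersetCard.mpr ⟨maxCliqueIn_subset hC', ?_⟩)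
        have := hne C hC'
        omega
    · intro C hC D hD hCD
      have hC' := mem_maxCliques.mp (Finset.mem_coe.mp hC)
      have hD' := mem_maxCliques.mp (Finset.mem_coe.mp hD)
      simp only [hφ] at hCD
      split_ifs at hCD with h1 h2 h2
      · obtain ⟨b, c, hbc, hbc'⟩ := Finset.card_eq_two.mp (he C h1).2
        have hbC : b ∈ C := (he C h1).1 (by rw [hbc']; simp)
        have hcC : c ∈ C := (he C h1).1 (by rw [hbc']; simp)
        have hbD : b ∈ D := (he D h2).1 (by rw [← hCD, hbc']; simp)
        have hcD : c ∈ D := (he D h2).1 (by rw [← hCD, hbc']; simp)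
        exact Finset.Subset.antisymm (maxClique_eq_of_two hG hC' hD' hbc hbC hcC hbD hcD)
          (maxClique_eq_of_two hG hD' hC' hbc hbD hcD hbC hcC)
      · have := (he C h1).2
        rw [hCD] at this
        omega
      · have := (he D h2).2
        rw [← hCD] at this
        omega
      · exact hCD
  calc (maxCliques G U).card ≤ ((U.powersetCard 1) ∪ edgesIn G U).card := hle
    _ ≤ (U.powersetCard 1).card + (edgesIn G U).card := Finset.card_union_le _ _
    _ = U.card + (edgesIn G U).card := by rw [Finset.card_powersetCard, Nat.choose_one_right]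

lemma maxCliqueIn_erase {G : SimpleGraph V} {U C : Finset V} {v : V} (hC : MaxCliqueIn G U C)
    (hv : v ∉ C) : MaxCliqueIn G (U.erase v) C := by
  refine ⟨⟨?_, maxCliqueIn_clique hC⟩, ?_⟩
  · intro x hx
    exact Finset.mem_erase.mpr ⟨fun h => hv (h ▸ hx), maxCliqueIn_subset hC hx⟩
  · intro D hD hCD
    exact hC.le_of_ge ⟨hD.1.trans (Finset.erase_subset _ _), hD.2⟩ hCD

/-- inserting `v` into a strong stable set of `G[U - v]` that avoids the neighbours of `v` -/
lemma strong_insert {G : SimpleGraph V} {U S : Finset V} {v : V} (hv : v ∈ U)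
    (hS : StrongStableIn G (U.erase v) S) (hN : ∀ x ∈ S, ¬ G.Adj v x) :
    StrongStableIn G U (insert v S) := by
  obtain ⟨h1, h2, h3⟩ := hS
  refine ⟨?_, ?_, ?_⟩
  · intro x hx
    rw [Finset.mem_insert] at hx
    rcases hx with rfl | hx
    · exact hv
    · exact Finset.mem_of_mem_erase (h1 hx)
  · intro x hx y hy hxy h
    rw [Finset.mem_coe, Finset.mem_insert] at hx hy
    rcases hx with rfl | hx <;> rcases hy with rfl | hy
    · exact hxy rfl
    · exact hN y hy h
    · exact hN x hx h.symm
    · exact h2 (Finset.mem_coe.mpr hx) (Finset.mem_coe.mpr hy) hxy h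
  · intro C hC
    by_cases hvC : v ∈ C
    · exact ⟨v, Finset.mem_inter.mpr ⟨Finset.mem_insert_self _ _, hvC⟩⟩
    · obtain ⟨x, hx⟩ := h3 C (maxCliqueIn_erase hC hvC)
      rw [Finset.mem_inter] at hx
      exact ⟨x, Finset.mem_inter.mpr ⟨Finset.mem_insert_of_mem hx.1, hx.2⟩⟩

/-- in a minimal obstruction, the cliques missed by a strong stable set of `G[U - v]` are single
edges at `v` -/
lemma missed_is_pureEdge {G : SimpleGraph V} (hG : DiamondFree G) {U S C : Finset V} {v : V}
    (hv : v ∈ U) (hno : ¬ ∃ S, StrongStableIn G U S) (hS : StrongStableIn G (U.erase v) S)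
    (hC : MaxCliqueIn G U C) (hmiss : ¬ (S ∩ C).Nonempty) :
    ∃ w ∈ U, PureEdge G U v w ∧ C = {v, w} := by
  have hvC : v ∈ C := by
    by_contra h
    exact hmiss (hS.2.2 C (maxCliqueIn_erase hC h))
  have hCc := maxCliqueIn_clique hC
  have hcard : (C.erase v).card = 1 := by
    rcases Nat.lt_trichotomy (C.erase v).card 1 with h | h | h
    · exfalso
      have h0 : C.erase v = ∅ := by rw [← Finset.card_eq_zero]; omega
      apply hno
      refine ⟨insert v S, strong_insert hv hS ?_⟩
      intro x hx hadj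
      have : x ∈ C := by
        apply mem_of_forall_adj hC (Finset.mem_of_mem_erase (hS.1 hx))
        intro d hd _
        by_cases hdv : d = v
        · subst hdv; exact hadj.symm
        · have : d ∈ C.erase v := Finset.mem_erase.mpr ⟨hdv, hd⟩
          rw [h0] at this
          simp at this
      have h1 : x ∈ C.erase v := Finset.mem_erase.mpr ⟨hadj.ne.symm, this⟩
      rw [h0] at h1
      simp at h1
    · exact h
    · exfalso
      obtain ⟨b, hb, c, hc, hbc⟩ := Finset.one_lt_card.mp h
      have hKU : C.erase v ⊆ U.erase v := Finset.erase_subset_erase v (maxCliqueIn_subset hC)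
      have hKc : G.IsClique ((C.erase v : Finset V) : Set V) :=
        hCc.subset (by exact_mod_cast Finset.erase_subset v C)
      obtain ⟨D, hKD, hD⟩ := exists_maxCliqueIn hKU hKc
      obtain ⟨x, hx⟩ := hS.2.2 D hD
      rw [Finset.mem_inter] at hx
      have hDc := maxCliqueIn_clique hD
      have hxC : x ∉ C := fun h' => hmiss ⟨x, Finset.mem_inter.mpr ⟨hx.1, h'⟩⟩
      have hxU := maxCliqueIn_subset hD hx.2
      have hxv : x ≠ v := (Finset.mem_erase.mp hxU).1
      have hadj : ∀ d ∈ C.erase v, G.Adj x d := by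
        intro d hd
        apply hDc (by exact_mod_cast hx.2) (by exact_mod_cast hKD hd)
        intro h'
        exact hxC (h' ▸ Finset.mem_of_mem_erase hd)
      rw [Finset.mem_erase] at hb hc
      have hvx : G.Adj v x := by
        apply hG.adj (b := b) (c := c)
        · exact hCc (by exact_mod_cast hvC) (by exact_mod_cast hb.2) hb.1.symm
        · exact hCc (by exact_mod_cast hvC) (by exact_mod_cast hc.2) hc.1.symm
        · exact hCc (by exact_mod_cast hb.2) (by exact_mod_cast hc.2) hbc
        · exact (hadj b (Finset.mem_erase.mpr hb)).symm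
        · exact (hadj c (Finset.mem_erase.mpr hc)).symm
        · exact hxv.symm
      apply hxC
      apply mem_of_forall_adj hC (Finset.mem_of_mem_erase hxU)
      intro d hd _
      by_cases hdv : d = v
      · subst hdv; exact hvx.symm
      · exact hadj d (Finset.mem_erase.mpr ⟨hdv, hd⟩)
  obtain ⟨w, hw⟩ := Finset.card_eq_one.mp hcard
  have hwC' : w ∈ C.erase v := by rw [hw]; simp
  rw [Finset.mem_erase] at hwC'
  have hCeq : C = {v, w} := by
    rw [← Finset.insert_erase hvC, hw]
  refine ⟨w, maxCliqueIn_subset hC hwC'.2, ⟨?_, ?_⟩, hCeq⟩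
  · exact hCc (by exact_mod_cast hvC) (by exact_mod_cast hwC'.2) hwC'.1.symm
  · rintro x hx ⟨h1, h2⟩
    have : x ∈ C := by
      apply mem_of_forall_adj hC hx
      intro d hd _
      rw [hCeq, Finset.mem_insert, Finset.mem_singleton] at hd
      rcases hd with rfl | rfl
      · exact h1.symm
      · exact h2.symm
    rw [hCeq, Finset.mem_insert, Finset.mem_singleton] at this
    rcases this with rfl | rfl
    · exact h1.ne rfl
    · exact h2.ne rfl

/-- `U` induces a minimal obstruction -/
def MinObs (G : SimpleGraph V) (U : Finset V) : Prop :=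
  U.Nonempty ∧ (¬ ∃ S, StrongStableIn G U S) ∧
    ∀ W : Finset V, W ⊂ U → W.Nonempty → ∃ S, StrongStableIn G W S

lemma MinObs.exists_erase {G : SimpleGraph V} {U : Finset V} (h : MinObs G U) {v : V}
    (hv : v ∈ U) : ∃ S, StrongStableIn G (U.erase v) S := by
  apply h.2.2 _ (Finset.erase_ssubset hv)
  rw [Finset.nonempty_iff_ne_empty]
  intro h0
  apply h.2.1
  refine ⟨{v}, by simpa using hv, isIndepSet_singleton G v, ?_⟩
  intro C hC
  refine ⟨v, Finset.mem_inter.mpr ⟨Finset.mem_singleton_self v, ?_⟩⟩
  apply mem_of_forall_adj hC hv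
  intro d hd hne
  have : d ∈ U.erase v := Finset.mem_erase.mpr ⟨hne.symm, maxCliqueIn_subset hC hd⟩
  rw [h0] at this
  simp at this

lemma MinObs.exists_missed {G : SimpleGraph V} {U S : Finset V} (h : MinObs G U) {v : V}
    (_hv : v ∈ U) (hS : StrongStableIn G (U.erase v) S) :
    ∃ C, MaxCliqueIn G U C ∧ ¬ (S ∩ C).Nonempty := by
  by_contra hcon
  push Not at hcon
  exact h.2.1 ⟨S, hS.1.trans (Finset.erase_subset _ _), hS.2.1,
    fun C hC => hcon C hC⟩

theorem MinObs.pureEdge {G : SimpleGraph V} (hG : DiamondFree G) {U : Finset V}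
    (h : MinObs G U) : ∀ v ∈ U, ∃ w ∈ U, PureEdge G U v w := by
  intro v hv
  obtain ⟨S, hS⟩ := h.exists_erase hv
  obtain ⟨C, hC, hmiss⟩ := h.exists_missed hv hS
  obtain ⟨w, hw, hvw, _⟩ := missed_is_pureEdge hG hv h.2.1 hS hC hmiss
  exact ⟨w, hw, hvw⟩

theorem MinObs.not_simplicial {G : SimpleGraph V} {U : Finset V}
    (h : MinObs G U) : ∀ v ∈ U, ∃ x ∈ U, ∃ y ∈ U, x ≠ y ∧ G.Adj v x ∧ G.Adj v y ∧ ¬ G.Adj x y := by
  intro v hv
  by_contra hcon
  push Not at hcon
  obtain ⟨S, hS⟩ := h.exists_erase hv
  obtain ⟨C, hC, hmiss⟩ := h.exists_missed hv hS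
  have hvC : v ∈ C := by
    by_contra h'
    exact hmiss (hS.2.2 C (maxCliqueIn_erase hC h'))
  apply h.2.1
  refine ⟨insert v S, strong_insert hv hS ?_⟩
  intro x hx hadj
  apply hmiss
  refine ⟨x, Finset.mem_inter.mpr ⟨hx, ?_⟩⟩
  apply mem_of_forall_adj hC (Finset.mem_of_mem_erase (hS.1 hx))
  intro d hd hxd
  by_cases hdv : d = v
  · subst hdv; exact hadj.symm
  · exact hcon x (Finset.mem_of_mem_erase (hS.1 hx)) d (maxCliqueIn_subset hC hd) hxd hadj
      (maxCliqueIn_clique hC (by exact_mod_cast hvC) (by exact_mod_cast hd) (Ne.symm hdv))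

/-- in a minimal obstruction no cheap cover contains all the single edges at a vertex -/
theorem MinObs.cheapCover {G : SimpleGraph V} (hG : DiamondFree G) {U : Finset V}
    (h : MinObs G U) {F : Multiset (Finset V)} (hF : CheapCoverM G U F) :
    ∀ v ∈ U, ∃ w ∈ U, PureEdge G U v w ∧ {v, w} ∉ F := by
  classical
  intro v hv
  obtain ⟨S, hS⟩ := h.exists_erase hv
  set M := (maxCliques G U).filter (fun C => ¬ (S ∩ C).Nonempty) with hM
  -- some missed clique is not in `F`
  have hex : ∃ C ∈ M, C ∉ F := by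
    by_contra hcon
    push Not at hcon
    have hMF : M.val ≤ F := by
      rw [Multiset.le_iff_subset M.nodup]
      intro C hC
      exact hcon C hC
    obtain ⟨F', rfl⟩ := Multiset.le_iff_exists_add.mp hMF
    obtain ⟨hF1, hF2, hF3⟩ := hF
    have e1 : (maxCliques G U).card ≤
        ∑ C ∈ maxCliques G U, ∑ x ∈ S, (if x ∈ C then 1 else 0) + M.card := by
      have e2 : (maxCliques G U).card = ∑ C ∈ maxCliques G U, 1 := by simp
      rw [e2, hM, Finset.card_filter, ← Finset.sum_add_distrib]
      apply Finset.sum_le_sum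
      intro C hC
      by_cases hne : (S ∩ C).Nonempty
      · obtain ⟨x, hx⟩ := hne
        rw [Finset.mem_inter] at hx
        have : 1 ≤ ∑ x ∈ S, (if x ∈ C then 1 else 0) := by
          calc 1 = (if x ∈ C then 1 else 0) := by rw [if_pos hx.2]
            _ ≤ _ := Finset.single_le_sum (f := fun x => if x ∈ C then 1 else 0)
                (fun _ _ => Nat.zero_le _) hx.1
        omega
      · rw [if_pos hne]; omega
    rw [← double_count] at e1
    have e3 : ∑ x ∈ S, ((maxCliques G U).filter (fun C => x ∈ C)).card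
        ≤ ∑ x ∈ S, Multiset.countP (fun K => x ∈ K) F' * 1 := by
      apply Finset.sum_le_sum
      intro x hx
      have e4 := hF2 x (Finset.mem_of_mem_erase (hS.1 hx))
      rw [Multiset.countP_add] at e4
      have e5 : Multiset.countP (fun K => x ∈ K) M.val = 0 := by
        rw [Multiset.countP_eq_zero]
        intro C hC hxC
        have hC' := (Finset.mem_filter.mp (show C ∈ M from hC)).2
        exact hC' ⟨x, Finset.mem_inter.mpr ⟨hx, hxC⟩⟩
      omega
    have e6 := sum_countP_le S (fun _ => 1) 1 F' (by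
      intro K hK
      exact sum_ite_le_one' (maxCliqueIn_clique (hF1 K (Multiset.mem_add.mpr (Or.inr hK)))) hS.2.1)
    rw [Multiset.card_add, Finset.card_val] at hF3
    omega
  obtain ⟨C, hCM, hCF⟩ := hex
  rw [hM, Finset.mem_filter] at hCM
  obtain ⟨w, hw, hvw, rfl⟩ := missed_is_pureEdge hG hv h.2.1 hS (mem_maxCliques.mp hCM.1) hCM.2
  exact ⟨w, hw, hvw, hCF⟩

theorem exists_minObs {G : SimpleGraph V} (h : ¬ StronglyPerfect G) : ∃ U, MinObs G U := by
  unfold StronglyPerfect at h
  push Not at h
  obtain ⟨U0, hU0, hno⟩ := h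
  obtain ⟨U, _, hU⟩ := exists_minimal_le_of_wellFoundedLT
    (fun W : Finset V => W.Nonempty ∧ ¬ ∃ S, StrongStableIn G W S) U0
    ⟨hU0, by push Not; exact hno⟩
  refine ⟨U, hU.prop.1, hU.prop.2, ?_⟩
  intro W hW hne
  by_contra hcon
  exact hW.2 (hU.le_of_le ⟨hne, hcon⟩ hW.1)

theorem MinObs.certificate {G : SimpleGraph V} {U : Finset V} (h : MinObs G U) :
    LovaszCertificate G U ∨ ∃ F, CheapCoverM G U F := by
  by_cases hP : PerfOn G U
  · right
    exact cheapCover_of_no_strong G U hP h.2.1
  · left
    apply lovaszCertificate_of_minimal G U hP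
    intro W hW
    apply perfOn_of_stronglyPerfect
    intro W' hW' hne
    exact h.2.2 W' (lt_of_le_of_lt hW' hW) hne

theorem not_stronglyPerfect_of_lovasz {G : SimpleGraph V} {U : Finset V}
    (h : LovaszCertificate G U) : ¬ StronglyPerfect G := by
  intro hG
  exact not_perfOn_of_lovaszCertificate G U h
    (perfOn_of_stronglyPerfect G U (fun W _ hW => hG W hW))

end Pool.Agent.H28.SP
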